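import Mathlib

set_option autoImplicit false

namespace Pool.Agent.Helper597.AS

open Finset

/-- number of coordinates in which two words agree -/
def agr {m k : ℕ} (x y : Fin m → Fin k) : ℕ := (univ.filter (fun i => x i = y i)).card

/-- the cylinder (subcube) of all words that agree with `w` on the set `B` of coordinates -/
def cyl {m k : ℕ} (B : Finset (Fin m)) (w : Fin m → Fin k) : Finset (Fin m → Fin k) :=
  univ.filter (fun x => ∀ i ∈ B, x i = w i)

/-- all agreement numbers of distinct words of `C` lie in `L` -/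
def Code {m k : ℕ} (L : Finset ℕ) (C : Finset (Fin m → Fin k)) : Prop :=
  ∀ x ∈ C, ∀ y ∈ C, x ≠ y → agr x y ∈ L

/-- all words of `C` agree on the coordinates in `B` -/
def ConstOn {m k : ℕ} (B : Finset (Fin m)) (C : Finset (Fin m → Fin k)) : Prop :=
  ∀ x ∈ C, ∀ y ∈ C, ∀ i ∈ B, x i = y i

/-- product of `k` over the levels in `L` and `m - l` over the other levels `l ∈ [τ, m)` -/
def wt (m k : ℕ) (L : Finset ℕ) (τ : ℕ) : ℕ :=
  ∏ l ∈ Finset.Ico τ m, (if l ∈ L then k else m - l)

/-- the size of the fibre of `f` through `a` -/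
def fib {m k : ℕ} (f : (Fin m → Fin k) → (Fin m → Fin k)) (a : Fin m → Fin k) : ℕ :=
  (univ.filter (fun x => f x = f a)).card


/-! ### a1 -/

/-- TARGET basic -/
theorem agr_lt {m k : ℕ} (x y : Fin m → Fin k) (h : x ≠ y) : agr x y < m := by
  unfold agr
  obtain ⟨i, hi⟩ : ∃ i, x i ≠ y i := Function.ne_iff.1 h
  have h1 : (univ.filter (fun i => x i = y i)) ⊂ (univ : Finset (Fin m)) := by
    refine ⟨subset_univ _, fun hsub => hi ?_⟩
    exact (mem_filter.1 (hsub (mem_univ i))).2
  have h2 := card_lt_card h1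
  rwa [card_univ, Fintype.card_fin] at h2

/-- TARGET basic -/
theorem card_le_agr {m k : ℕ} (B : Finset (Fin m)) (x y : Fin m → Fin k)
    (h : ∀ i ∈ B, x i = y i) : B.card ≤ agr x y := by
  unfold agr
  exact card_le_card fun i hi => mem_filter.2 ⟨mem_univ i, h i hi⟩

/-- TARGET basic -/
theorem mem_cyl {m k : ℕ} (B : Finset (Fin m)) (w x : Fin m → Fin k) :
    x ∈ cyl B w ↔ ∀ i ∈ B, x i = w i := by
  unfold cyl
  simp

/-- TARGET basic -/
theorem card_cyl {m k : ℕ} (B : Finset (Fin m)) (w : Fin m → Fin k) :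
    (cyl B w).card = k ^ (m - B.card) := by
  have h1 : cyl B w = Fintype.piFinset (fun i => if i ∈ B then ({w i} : Finset (Fin k)) else univ) := by
    ext x
    rw [mem_cyl, Fintype.mem_piFinset]
    constructor
    · intro h i
      split_ifs with hi
      · exact mem_singleton.2 (h i hi)
      · exact mem_univ _
    · intro h i hi
      have := h i
      rw [if_pos hi] at this
      exact mem_singleton.1 this
  rw [h1, Fintype.card_piFinset]
  have h2 : ∀ i : Fin m, (if i ∈ B then ({w i} : Finset (Fin k)) else univ).card =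
      if i ∈ B then 1 else k := by
    intro i
    split_ifs
    · exact card_singleton _
    · rw [card_univ, Fintype.card_fin]
  simp only [h2]
  rw [prod_ite, prod_const_one, one_mul, prod_const]
  congr 1
  have h3 : (univ.filter fun i : Fin m => i ∉ B) = univ \ B := by
    ext i; simp
  rw [h3, card_sdiff_of_subset (subset_univ B), card_univ, Fintype.card_fin]

/-- TARGET basic -/
theorem cyl_eq_of_mem {m k : ℕ} (B : Finset (Fin m)) (w x : Fin m → Fin k)
    (h : x ∈ cyl B w) : cyl B w = cyl B x := by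
  ext y
  rw [mem_cyl] at h
  rw [mem_cyl, mem_cyl]
  constructor
  · intro hy i hi
    rw [hy i hi, h i hi]
  · intro hy i hi
    rw [hy i hi, h i hi]

/-- TARGET basic -/
theorem cyl_inter {m k : ℕ} (B B' : Finset (Fin m)) (w w' x : Fin m → Fin k)
    (h : x ∈ cyl B w) (h' : x ∈ cyl B' w') : cyl B w ∩ cyl B' w' = cyl (B ∪ B') x := by
  rw [cyl_eq_of_mem B w x h, cyl_eq_of_mem B' w' x h']
  ext y
  rw [mem_inter, mem_cyl, mem_cyl, mem_cyl]
  constructor
  · rintro ⟨h1, h2⟩ i hi
    rcases mem_union.1 hi with h3 | h3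
    · exact h1 i h3
    · exact h2 i h3
  · intro h1
    exact ⟨fun i hi => h1 i (mem_union_left _ hi), fun i hi => h1 i (mem_union_right _ hi)⟩

/-- TARGET basic -/
theorem cyl_sub {m k : ℕ} (hk : 2 ≤ k) (B B' : Finset (Fin m)) (w w' : Fin m → Fin k)
    (h : cyl B w ⊆ cyl B' w') : B' ⊆ B := by
  intro i hi
  by_contra hiB
  have : Nontrivial (Fin k) := Fin.nontrivial_iff_two_le.2 hk
  obtain ⟨c, hc⟩ := exists_ne (w i)
  have h1 : w ∈ cyl B' w' := h ((mem_cyl _ _ _).2 fun j _ => rfl)
  have h2 : Function.update w i c ∈ cyl B' w' := by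
    refine h ((mem_cyl _ _ _).2 fun j hj => ?_)
    rw [Function.update_of_ne]
    rintro rfl
    exact hiB hj
  have h3 := (mem_cyl _ _ _).1 h1 i hi
  have h4 := (mem_cyl _ _ _).1 h2 i hi
  rw [Function.update_self] at h4
  exact hc (h4.trans h3.symm)


/-! ### a2 -/

/-- TARGET basic: in a cylinder every agreement number from `B.card` to `m - 1` occurs -/
theorem cyl_agr {m k : ℕ} (hk : 2 ≤ k) (B : Finset (Fin m)) (w : Fin m → Fin k) (l : ℕ)
    (hl : B.card ≤ l) (hlm : l < m) :
    ∃ x ∈ cyl B w, ∃ y ∈ cyl B w, x ≠ y ∧ agr x y = l := by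
  obtain ⟨A, hBA, hA⟩ := Finset.exists_superset_card_eq (s := B) (n := l) hl (by
    rw [Fintype.card_fin]; exact hlm.le)
  have hlt : 1 < k := hk
  have hex : ∀ a : Fin k, ∃ b : Fin k, b ≠ a := by
    intro a
    haveI : Nontrivial (Fin k) := Fin.nontrivial_iff_two_le.2 hk
    exact exists_ne a
  choose nb hnb using hex
  refine ⟨w, ?_, fun i => if i ∈ A then w i else nb (w i), ?_, ?_, ?_⟩
  · rw [mem_cyl]
    intro i _
    rfl
  · rw [mem_cyl]
    intro i hi
    rw [if_pos (hBA hi)]
  · intro hcon
    have hAu : A = univ := by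
      ext i
      constructor
      · intro _; exact mem_univ i
      · intro _
        by_contra hi
        have h1 := congrFun hcon i
        rw [if_neg hi] at h1
        exact hnb (w i) h1.symm
    rw [hAu, Finset.card_univ, Fintype.card_fin] at hA
    omega
  · unfold agr
    rw [← hA]
    congr 1
    ext i
    simp only [mem_filter, mem_univ, true_and]
    by_cases hi : i ∈ A
    · simp [hi]
    · simp only [hi, if_false, iff_false]
      exact fun h => hnb (w i) h.symm


/-! ### b -/

theorem b_code_filter {m k : ℕ} {L : Finset ℕ} {C : Finset (Fin m → Fin k)} (h : Code L C)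
    (P : (Fin m → Fin k) → Prop) [DecidablePred P] : Code L (C.filter P) :=
  fun x hx y hy hxy => h x (Finset.mem_filter.mp hx).1 y (Finset.mem_filter.mp hy).1 hxy

theorem b_const_ins {m k : ℕ} {T : Finset (Fin m)} {C : Finset (Fin m → Fin k)}
    (hT : ConstOn T C) (i : Fin m) (c : Fin k) :
    ConstOn (insert i T) (C.filter fun x => x i = c) := by
  intro x hx y hy j hj
  rw [Finset.mem_filter] at hx hy
  rcases Finset.mem_insert.mp hj with rfl | hj
  · rw [hx.2, hy.2]
  · exact hT x hx.1 y hy.1 j hj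

theorem b_wt_succ {m k : ℕ} (L : Finset ℕ) {τ : ℕ} (h : τ < m) :
    wt m k L τ = (if τ ∈ L then k else m - τ) * wt m k L (τ + 1) := by
  unfold wt
  rw [Finset.prod_eq_prod_Ico_succ_bot h]

theorem b_code_bound {m k : ℕ} (L : Finset ℕ) (n : ℕ) :
    ∀ (T : Finset (Fin m)) (C : Finset (Fin m → Fin k)), m - T.card = n → Code L C →
      ConstOn T C → C.card ≤ wt m k L T.card := by
  induction n with
  | zero =>
    intro T C hn hC hT
    have hle : T.card ≤ m := card_finset_fin_le T
    have hcard : T.card = m := by omega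
    have hTu : T = univ := by
      rw [← Finset.card_eq_iff_eq_univ, hcard, Fintype.card_fin]
    rw [hcard]
    unfold wt
    rw [Finset.Ico_self, Finset.prod_empty, Finset.card_le_one]
    intro x hx y hy
    funext i
    exact hT x hx y hy i (hTu ▸ Finset.mem_univ i)
  | succ n ih =>
    intro T C hn hC hT
    have hlt : T.card < m := by omega
    rw [b_wt_succ L hlt]
    have hins : ∀ i, i ∉ T → ∀ c : Fin k,
        (C.filter fun x => x i = c).card ≤ wt m k L (T.card + 1) := by
      intro i hi c
      have hci : (insert i T).card = T.card + 1 := Finset.card_insert_of_notMem hi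
      have := ih (insert i T) (C.filter fun x => x i = c) (by omega) (b_code_filter hC _)
        (b_const_ins hT i c)
      rwa [hci] at this
    by_cases hL : T.card ∈ L
    · rw [if_pos hL]
      obtain ⟨i, hi⟩ : ∃ i, i ∉ T := by
        by_contra hc
        push Not at hc
        have : T = univ := Finset.eq_univ_iff_forall.mpr hc
        rw [this, Finset.card_univ, Fintype.card_fin] at hlt
        omega
      have h1 : C.card = ∑ c : Fin k, (C.filter fun x => x i = c).card :=
        Finset.card_eq_sum_card_fiberwise (f := fun x : Fin m → Fin k => x i)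
          (fun x _ => Finset.mem_coe.mpr (Finset.mem_univ _))
      rw [h1]
      calc ∑ c : Fin k, (C.filter fun x => x i = c).card
          ≤ ∑ c : Fin k, wt m k L (T.card + 1) := Finset.sum_le_sum fun c _ => hins i hi c
        _ = k * wt m k L (T.card + 1) := by simp
    · rw [if_neg hL]
      rcases C.eq_empty_or_nonempty with rfl | ⟨x, hx⟩
      · simp
      · have hsub : C ⊆ (univ \ T).biUnion fun i => C.filter fun y => y i = x i := by
          intro y hy
          simp only [Finset.mem_biUnion, Finset.mem_sdiff, Finset.mem_univ, true_and,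
            Finset.mem_filter]
          by_contra hc
          push Not at hc
          have hne : x ≠ y := by
            rintro rfl
            obtain ⟨i, hi⟩ : ∃ i, i ∉ T := by
              by_contra hc
              push Not at hc
              have : T = univ := Finset.eq_univ_iff_forall.mpr hc
              rw [this, Finset.card_univ, Fintype.card_fin] at hlt
              omega
            exact hc i hi hy rfl
          have hset : (univ.filter fun i => x i = y i) = T := by
            ext i
            simp only [Finset.mem_filter, Finset.mem_univ, true_and]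
            constructor
            · intro h
              by_contra hi
              exact hc i hi hy h.symm
            · intro hi
              exact hT x hx y hy i hi
          have := hC x hx y hy hne
          unfold agr at this
          rw [hset] at this
          exact hL this
        calc C.card ≤ ((univ \ T).biUnion fun i => C.filter fun y => y i = x i).card :=
              Finset.card_le_card hsub
          _ ≤ ∑ i ∈ univ \ T, (C.filter fun y => y i = x i).card := Finset.card_biUnion_le
          _ ≤ ∑ i ∈ univ \ T, wt m k L (T.card + 1) :=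
              Finset.sum_le_sum fun i hi => hins i (Finset.mem_sdiff.mp hi).2 _
          _ = (m - T.card) * wt m k L (T.card + 1) := by
              rw [Finset.sum_const, smul_eq_mul, Finset.card_sdiff_of_subset (Finset.subset_univ T),
                Finset.card_univ, Fintype.card_fin]

/-- TARGET U: bound for codes -/
theorem code_bound {m k : ℕ} (L : Finset ℕ) (T : Finset (Fin m)) (C : Finset (Fin m → Fin k))
    (hC : Code L C) (hT : ConstOn T C) : C.card ≤ wt m k L T.card := by
  exact b_code_bound L _ T C rfl hC hT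


/-! ### c -/

lemma c_cover {m k : ℕ} (B : Finset (Fin m)) (C' : Finset (Fin m → Fin k)) (z : Fin m → Fin k)
    (N : ℕ) (hcov : ∀ y ∈ C', ∃ j, j ∉ B ∧ y j = z j)
    (hN : ∀ j, j ∉ B → (C'.filter (fun y => y j = z j)).card ≤ N) :
    C'.card ≤ (m - B.card) * N := by
  have h1 : C' ⊆ (univ \ B).biUnion (fun j => C'.filter (fun y => y j = z j)) := by
    intro y hy
    obtain ⟨j, hj, hyz⟩ := hcov y hy
    rw [mem_biUnion]
    exact ⟨j, by simp [hj], by simp [hy, hyz]⟩
  have h2 := card_le_card h1
  have h3 := card_biUnion_le_card_mul (univ \ B) (fun j => C'.filter (fun y => y j = z j)) N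
    (fun j hj => hN j (by simpa using hj))
  have h4 : (univ \ B).card = m - B.card := by
    rw [card_sdiff_of_subset (subset_univ _)]; simp
  rw [h4] at h3
  exact h2.trans h3

lemma c_ex1 {m k : ℕ} (B : Finset (Fin m)) (y z : Fin m → Fin k) (h : B.card < agr y z) :
    ∃ j, j ∉ B ∧ y j = z j := by
  by_contra hc
  push Not at hc
  have : univ.filter (fun i => y i = z i) ⊆ B := by
    intro i hi
    by_contra hiB
    exact hc i hiB (by simpa using hi)
  have := card_le_card this
  unfold agr at h
  omega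

lemma c_ex2 {m k : ℕ} (B : Finset (Fin m)) (y z : Fin m → Fin k) (h : B.card ≤ agr y z)
    (i : Fin m) (hi : i ∈ B) (hne : y i ≠ z i) : ∃ j, j ∉ B ∧ y j = z j := by
  obtain ⟨j, hj, hyz⟩ := c_ex1 (B.erase i) y z (by
    rw [card_erase_of_mem hi]
    have : 0 < B.card := card_pos.mpr ⟨i, hi⟩
    omega)
  refine ⟨j, fun hjB => hj (mem_erase.mpr ⟨?_, hjB⟩), hyz⟩
  rintro rfl
  exact hne hyz

lemma c_wt_succ (m k : ℕ) (L : Finset ℕ) (l : ℕ) (h : l < m) :
    wt m k L l = (if l ∈ L then k else m - l) * wt m k L (l + 1) := by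
  unfold wt
  rw [Finset.prod_eq_prod_Ico_succ_bot h]

lemma c_constOn_insert {m k : ℕ} (B : Finset (Fin m)) (C' : Finset (Fin m → Fin k))
    (h : ConstOn B C') (z : Fin m → Fin k) (j : Fin m) :
    ConstOn (insert j B) (C'.filter (fun y => y j = z j)) := by
  intro x hx y hy i hi
  rw [mem_filter] at hx hy
  rcases mem_insert.mp hi with rfl | hi
  · rw [hx.2, hy.2]
  · exact h x hx.1 y hy.1 i hi

lemma c_main {m k : ℕ} (L : Finset ℕ) (T : Finset (Fin m)) (C : Finset (Fin m → Fin k))
    (hC : Code L C) (hT : ConstOn T C) (a : ℕ) (ham : a < m)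
    (hL : ∀ l ∈ L, T.card ≤ l → a ≤ l)
    (hno : ∀ B : Finset (Fin m), T ⊆ B → B.card = a → ¬ ConstOn B C) (d : ℕ) :
    ∀ (B : Finset (Fin m)), T ⊆ B → B.card + d = a → ∀ C' ⊆ C, ConstOn B C' →
      C'.card ≤ wt m k (L.erase a) B.card := by
  induction d with
  | zero =>
    intro B hTB hBa C' hC' hB
    rw [add_zero] at hBa
    rcases C'.eq_empty_or_nonempty with rfl | ⟨x, hx⟩
    · simp
    obtain ⟨z, hz, i, hi, hzi⟩ : ∃ z ∈ C, ∃ i ∈ B, z i ≠ x i := by
      by_contra hc
      push Not at hc
      apply hno B hTB hBa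
      intro u hu v hv i hi
      rw [hc u hu i hi, hc v hv i hi]
    have hag : ∀ y ∈ C', a ≤ agr y z ∧ y i ≠ z i := by
      intro y hy
      have h1 : y i = x i := hB y hy x hx i hi
      have h2 : y i ≠ z i := by rw [h1]; exact fun h => hzi h.symm
      have h3 : y ≠ z := fun h => h2 (by rw [h])
      exact ⟨hL _ (hC y (hC' hy) z hz h3)
        (card_le_agr T y z (fun i hi => hT y (hC' hy) z hz i hi)), h2⟩
    have hw : wt m k (L.erase a) B.card = (m - B.card) * wt m k L (a + 1) := by
      rw [hBa, c_wt_succ m k (L.erase a) a ham]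
      simp only [mem_erase, ne_eq, not_true_eq_false, false_and, if_false]
      congr 1
      unfold wt
      refine prod_congr rfl fun l hl => ?_
      have : l ≠ a := by
        have := (mem_Ico.mp hl).1
        omega
      simp [mem_erase, this]
    rw [hw]
    apply c_cover B C' z
    · intro y hy
      obtain ⟨h1, h2⟩ := hag y hy
      exact c_ex2 B y z (by omega) i hi h2
    · intro j hj
      have h1 := code_bound L (insert j B) (C'.filter (fun y => y j = z j))
        (fun u hu v hv huv => hC u (hC' (mem_filter.mp hu).1) v (hC' (mem_filter.mp hv).1) huv)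
        (c_constOn_insert B C' hB z j)
      rw [card_insert_of_notMem hj, hBa] at h1
      exact h1
  | succ d ih =>
    intro B hTB hBa C' hC' hB
    rcases C'.eq_empty_or_nonempty with rfl | ⟨x, hx⟩
    · simp
    have hTc : T.card ≤ B.card := card_le_card hTB
    have hnL : B.card ∉ L := fun h => by
      have := hL _ h hTc
      omega
    have hw : wt m k (L.erase a) B.card = (m - B.card) * wt m k (L.erase a) (B.card + 1) := by
      rw [c_wt_succ m k (L.erase a) B.card (by omega)]
      simp [mem_erase, hnL]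
    rw [hw]
    apply c_cover B C' x
    · intro y hy
      by_cases hyx : y = x
      · subst hyx
        obtain ⟨j, hj⟩ : ∃ j, j ∉ B := by
          by_contra hc
          push Not at hc
          have : B = univ := eq_univ_of_forall hc
          have : B.card = m := by rw [this]; simp
          omega
        exact ⟨j, hj, rfl⟩
      · have h1 : a ≤ agr y x := hL _ (hC y (hC' hy) x (hC' hx) hyx)
          (card_le_agr T y x (fun i hi => hT y (hC' hy) x (hC' hx) i hi))
        exact c_ex1 B y x (by omega)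
    · intro j hj
      have h1 := ih (insert j B) (hTB.trans (subset_insert _ _))
        (by rw [card_insert_of_notMem hj]; omega) (C'.filter (fun y => y j = x j))
        ((filter_subset _ _).trans hC') (c_constOn_insert B C' hB x j)
      rw [card_insert_of_notMem hj] at h1
      exact h1

/-- TARGET F: better bound if the code is not constant on any `a`-set -/
theorem code_bound' {m k : ℕ} (L : Finset ℕ) (T : Finset (Fin m)) (C : Finset (Fin m → Fin k))
    (hC : Code L C) (hT : ConstOn T C) (a : ℕ) (ha : T.card ≤ a) (ham : a < m)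
    (hL : ∀ l ∈ L, T.card ≤ l → a ≤ l)
    (hno : ∀ B : Finset (Fin m), T ⊆ B → B.card = a → ¬ ConstOn B C) :
    C.card ≤ wt m k (L.erase a) T.card :=
  c_main L T C hC hT a ham hL hno (a - T.card) T (Subset.refl _) (by omega) C (Subset.refl _) hT


/-! ### d -/

theorem d_fact (m : ℕ) : ∏ l ∈ Finset.range m, (m - l) = m.factorial := by
  induction m with
  | zero => simp
  | succ m ih =>
    rw [Finset.prod_range_succ', Nat.factorial_succ]
    simp only [Nat.add_sub_add_right, Nat.sub_zero]
    rw [ih, mul_comm]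

theorem d_ico_le (τ m : ℕ) : ∏ l ∈ Finset.Ico τ m, (m - l) ≤ m.factorial := by
  rw [← d_fact m]
  apply Finset.prod_le_prod_of_subset_of_one_le'
  · intro l hl
    rw [Finset.mem_Ico] at hl
    exact Finset.mem_range.2 hl.2
  · intro l hl _
    have := Finset.mem_range.1 hl
    omega

/-- TARGET D: numeric estimate -/
theorem small_prod {m k : ℕ} (L L' : Finset ℕ) (τ a : ℕ) (hd : Disjoint L L')
    (hk : m * m.factorial < k) (ha : τ ≤ a) (ham : a < m) (haL : a ∉ L) :
    wt m k L τ * wt m k (L'.erase a) τ < k ^ (m - τ) := by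
  have haS : a ∈ Finset.Ico τ m := Finset.mem_Ico.2 ⟨ha, ham⟩
  have hmk : m < k := by
    have h1 : 1 ≤ m.factorial := Nat.factorial_pos m
    have h2 : m * 1 ≤ m * m.factorial := Nat.mul_le_mul_left _ h1
    omega
  unfold wt
  rw [← Finset.prod_mul_distrib, ← Finset.mul_prod_erase _ _ haS]
  have h1 : (if a ∈ L then k else m - a) * (if a ∈ L'.erase a then k else m - a) =
      (m - a) * (m - a) := by
    rw [if_neg haL, if_neg (Finset.notMem_erase a L')]
  have h2 : ∏ l ∈ (Finset.Ico τ m).erase a,
      ((if l ∈ L then k else m - l) * (if l ∈ L'.erase a then k else m - l)) ≤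
      ∏ l ∈ (Finset.Ico τ m).erase a, ((m - l) * k) := by
    apply Finset.prod_le_prod'
    intro l hl
    rw [Finset.mem_erase, Finset.mem_Ico] at hl
    by_cases hL : l ∈ L
    · have hL' : l ∉ L'.erase a := fun h =>
        (Finset.disjoint_left.1 hd hL) (Finset.mem_of_mem_erase h)
      rw [if_pos hL, if_neg hL', mul_comm]
    · rw [if_neg hL]
      apply Nat.mul_le_mul_left
      split_ifs
      · exact le_rfl
      · omega
  have h3 : ∏ l ∈ (Finset.Ico τ m).erase a, ((m - l) * k) =
      (∏ l ∈ (Finset.Ico τ m).erase a, (m - l)) * k ^ (m - τ - 1) := by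
    rw [Finset.prod_mul_distrib, Finset.prod_const, Finset.card_erase_of_mem haS,
      Nat.card_Ico]
  have h4 : (m - a) * ∏ l ∈ (Finset.Ico τ m).erase a, (m - l) ≤ m.factorial := by
    rw [Finset.mul_prod_erase _ (fun l => m - l) haS]
    exact d_ico_le τ m
  rw [h1]
  have hkpos : 0 < k := by omega
  calc (m - a) * (m - a) * ∏ l ∈ (Finset.Ico τ m).erase a,
      ((if l ∈ L then k else m - l) * (if l ∈ L'.erase a then k else m - l))
      ≤ (m - a) * (m - a) * ((∏ l ∈ (Finset.Ico τ m).erase a, (m - l)) * k ^ (m - τ - 1)) := by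
        rw [← h3]
        exact Nat.mul_le_mul_left _ h2
    _ = (m - a) * ((m - a) * ∏ l ∈ (Finset.Ico τ m).erase a, (m - l)) * k ^ (m - τ - 1) := by
        ring
    _ ≤ m * m.factorial * k ^ (m - τ - 1) := by
        apply Nat.mul_le_mul_right
        exact Nat.mul_le_mul (Nat.sub_le _ _) h4
    _ < k * k ^ (m - τ - 1) := Nat.mul_lt_mul_of_pos_right hk (pow_pos hkpos _)
    _ = k ^ (m - τ) := by
        rw [← pow_succ']
        congr 1
        omega


/-! ### e1 -/

/-- TARGET E1: two codes with disjoint sets of agreement numbers -/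
theorem code_mul_le {m k : ℕ} (L L' : Finset ℕ) (hd : Disjoint L L')
    (C K : Finset (Fin m → Fin k)) (hC : Code L C) (hK : Code L' K) :
    C.card * K.card ≤ k ^ m := by
  classical
  rcases Nat.eq_zero_or_pos k with hk | hk
  · subst hk
    have h1 : C.card ≤ 0 ^ m := by
      have := Finset.card_le_univ C
      simpa using this
    have h2 : K.card ≤ 0 ^ m := by
      have := Finset.card_le_univ K
      simpa using this
    have h3 : 0 ^ m ≤ 1 := by
      rcases Nat.eq_zero_or_pos m with hm | hm
      · subst hm; simp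
      · rw [zero_pow hm.ne']; exact Nat.zero_le _
    calc C.card * K.card ≤ 0 ^ m * 1 := Nat.mul_le_mul h1 (h2.trans h3)
      _ = 0 ^ m := mul_one _
  · haveI : NeZero k := ⟨hk.ne'⟩
    rw [← Finset.card_product]
    have h1 : (C ×ˢ K).card ≤ (univ : Finset (Fin m → Fin k)).card := by
      apply Finset.card_le_card_of_injOn (fun p i => p.1 i - p.2 i) (fun _ _ => Finset.mem_univ _)
      rintro ⟨c, x⟩ hcx ⟨c', x'⟩ hcx' heq
      have hi : ∀ i, c i - x i = c' i - x' i := fun i => congrFun heq i
      have hiff : ∀ i, c i = c' i ↔ x i = x' i := by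
        intro i
        have h2 := hi i
        constructor
        · intro h3
          rw [h3] at h2
          exact sub_right_injective h2
        · intro h3
          rw [h3] at h2
          exact sub_left_injective h2
      rw [Finset.mem_coe, Finset.mem_product] at hcx hcx'
      by_cases hc : c = c'
      · have hx : x = x' := funext fun i => (hiff i).1 (congrFun hc i)
        rw [hc, hx]
      · exfalso
        have hx : x ≠ x' := fun hx => hc (funext fun i => (hiff i).2 (congrFun hx i))
        have h2 : agr c c' ∈ L := hC c hcx.1 c' hcx'.1 hc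
        have h3 : agr x x' ∈ L' := hK x hcx.2 x' hcx'.2 hx
        have h4 : agr c c' = agr x x' := by
          unfold agr
          congr 1
          ext i
          simp only [Finset.mem_filter, Finset.mem_univ, true_and]
          exact hiff i
        rw [h4] at h2
        exact Finset.disjoint_left.1 hd h2 h3
    refine h1.trans (le_of_eq ?_)
    simp


/-! ### e2 -/

/-- TARGET E2: exact counting in the tight case -/
theorem count_cyl {m k : ℕ} (L L' : Finset ℕ) (hd : Disjoint L L')
    (T B : Finset (Fin m)) (hTB : T ⊆ B)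
    (C K : Finset (Fin m → Fin k)) (hC : Code L C) (hK : Code L' K)
    (hCT : ConstOn T C) (hKB : ConstOn B K)
    (hcard : C.card * K.card = k ^ (m - T.card)) (w : Fin m → Fin k) (hw : w ∈ C) :
    (C ∩ cyl B w).card * K.card = k ^ (m - B.card) := by
  classical
  rcases Nat.eq_zero_or_pos m with hm | hm
  · subst hm
    have h1 : C ∩ cyl B w = C := by
      refine Finset.inter_eq_left.2 fun x _ => ?_
      rw [mem_cyl]
      intro i
      exact i.elim0
    rw [h1, hcard]
    simp
  · obtain ⟨k', rfl⟩ : ∃ k', k = k' + 1 := by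
      have := (w ⟨0, hm⟩).pos
      exact ⟨k - 1, by omega⟩
    have hKne : K.Nonempty := by
      rw [Finset.nonempty_iff_ne_empty]
      rintro rfl
      rw [Finset.card_empty, mul_zero] at hcard
      exact absurd hcard.symm (by positivity)
    obtain ⟨v, hv⟩ := hKne
    obtain ⟨φ, hφ⟩ : ∃ φ : (Fin m → Fin (k' + 1)) × (Fin m → Fin (k' + 1)) → (Fin m → Fin (k' + 1)),
      φ = fun p => p.1 - p.2 := ⟨_, rfl⟩
    have hinj : Set.InjOn φ (C ×ˢ K : Finset _) := by
      rintro ⟨c, x⟩ h1 ⟨c', x'⟩ h2 h
      rw [Finset.mem_coe, Finset.mem_product] at h1 h2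
      rw [hφ] at h
      simp only at h
      have hi : ∀ i, c i = c' i ↔ x i = x' i := by
        intro i
        have h3 : c i - x i = c' i - x' i := congrFun h i
        constructor
        · intro h4
          rw [h4] at h3
          exact sub_right_injective h3
        · intro h4
          rw [h4] at h3
          exact sub_left_injective h3
      have hag : agr c c' = agr x x' := by
        unfold agr
        congr 1
        ext i
        simp only [Finset.mem_filter, Finset.mem_univ, true_and]
        exact hi i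
      by_cases hc : c = c'
      · have hx : x = x' := by
          funext i
          exact (hi i).1 (congrFun hc i)
        rw [hc, hx]
      · exfalso
        have hx : x ≠ x' := by
          intro hx
          exact hc (funext fun i => (hi i).2 (congrFun hx i))
        have h3 := hC c h1.1 c' h2.1 hc
        have h4 := hK x h1.2 x' h2.2 hx
        rw [← hag] at h4
        exact (Finset.disjoint_left.1 hd) h3 h4
    have hsub : (C ×ˢ K).image φ ⊆ cyl T (w - v) := by
      intro y hy
      rw [Finset.mem_image] at hy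
      obtain ⟨⟨c, x⟩, hcx, rfl⟩ := hy
      rw [Finset.mem_product] at hcx
      rw [mem_cyl]
      intro i hi
      rw [hφ]
      show c i - x i = w i - v i
      rw [hCT c hcx.1 w hw i hi, hKB x hcx.2 v hv i (hTB hi)]
    have himg : (C ×ˢ K).image φ = cyl T (w - v) := by
      refine Finset.eq_of_subset_of_card_le hsub ?_
      rw [Finset.card_image_of_injOn hinj, Finset.card_product, hcard, card_cyl]
    have himg2 : ((C ∩ cyl B w) ×ˢ K).image φ = cyl B (w - v) := by
      apply Finset.Subset.antisymm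
      · intro y hy
        rw [Finset.mem_image] at hy
        obtain ⟨⟨c, x⟩, hcx, rfl⟩ := hy
        rw [Finset.mem_product, Finset.mem_inter, mem_cyl] at hcx
        rw [mem_cyl]
        intro i hi
        rw [hφ]
        show c i - x i = w i - v i
        rw [show c i = w i from hcx.1.2 i hi, hKB x hcx.2 v hv i hi]
      · intro y hy
        rw [mem_cyl] at hy
        have h1 : y ∈ cyl T (w - v) := by
          rw [mem_cyl]
          exact fun i hi => hy i (hTB hi)
        rw [← himg, Finset.mem_image] at h1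
        obtain ⟨⟨c, x⟩, hcx, rfl⟩ := h1
        rw [Finset.mem_product] at hcx
        refine Finset.mem_image.2 ⟨(c, x), ?_, rfl⟩
        rw [Finset.mem_product, Finset.mem_inter, mem_cyl]
        refine ⟨⟨hcx.1, fun i hi => ?_⟩, hcx.2⟩
        have h2 := hy i hi
        rw [hφ] at h2
        have h3 : c i - x i = w i - v i := h2
        rw [hKB x hcx.2 v hv i hi] at h3
        exact sub_left_injective h3
    have hinj2 : Set.InjOn φ ((C ∩ cyl B w) ×ˢ K : Finset _) := by
      refine hinj.mono ?_
      intro p hp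
      rw [Finset.mem_coe, Finset.mem_product] at hp ⊢
      exact ⟨(Finset.mem_inter.1 hp.1).1, hp.2⟩
    rw [← card_cyl B (w - v), ← himg2, Finset.card_image_of_injOn hinj2, Finset.card_product]


/-! ### p -/

/-- TARGET P: permuting coordinates -/
theorem perm_code {m k : ℕ} (L' : Finset ℕ) (B₀ B : Finset (Fin m)) (hc : B.card = B₀.card)
    (K : Finset (Fin m → Fin k)) (hK : Code L' K) (hKB : ConstOn B₀ K) :
    ∃ K' : Finset (Fin m → Fin k), Code L' K' ∧ ConstOn B K' ∧ K'.card = K.card := by
  obtain ⟨p, hp⟩ : ∃ p : Equiv.Perm (Fin m), ∀ i ∈ B, p i ∈ B₀ := by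
    let e : {i // i ∈ B} ≃ {i // i ∈ B₀} := Finset.equivOfCardEq hc
    refine ⟨e.extendSubtype, fun i hi => ?_⟩
    exact e.extendSubtype_mem i hi
  have hinj : Function.Injective (fun x : Fin m → Fin k => x ∘ p) := by
    intro x y h
    exact p.surjective.injective_comp_right h
  have hagr : ∀ x y : Fin m → Fin k, agr (x ∘ p) (y ∘ p) = agr x y := by
    intro x y
    unfold agr
    apply Finset.card_bij (fun i _ => p i)
    · intro i hi
      simpa using hi
    · intro i _ j _ h
      exact p.injective h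
    · intro j hj
      refine ⟨p.symm j, by simpa using hj, by simp⟩
  refine ⟨K.image (fun x => x ∘ p), ?_, ?_, Finset.card_image_of_injective _ hinj⟩
  · intro x hx y hy hne
    rw [Finset.mem_image] at hx hy
    obtain ⟨x', hx', rfl⟩ := hx
    obtain ⟨y', hy', rfl⟩ := hy
    rw [hagr]
    exact hK x' hx' y' hy' (fun h => hne (by rw [h]))
  · intro x hx y hy i hi
    rw [Finset.mem_image] at hx hy
    obtain ⟨x', hx', rfl⟩ := hx
    obtain ⟨y', hy', rfl⟩ := hy
    exact hKB x' hx' y' hy' (p i) (hp i hi)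


/-! ### g -/

/-- TARGET G: a tight code is constant on a large set of coordinates -/
theorem exists_B0 {m k : ℕ} (hk : m * m.factorial < k) (L L' : Finset ℕ) (hd : Disjoint L L')
    (T : Finset (Fin m)) (C K : Finset (Fin m → Fin k)) (hC : Code L C) (hK : Code L' K)
    (hCT : ConstOn T C) (hKT : ConstOn T K)
    (hcard : C.card * K.card = k ^ (m - T.card)) (hT : T.card ∉ L') (h2 : 2 ≤ K.card) :
    ∃ B₀ : Finset (Fin m), T ⊆ B₀ ∧ T.card < B₀.card ∧ B₀.card < m ∧ B₀.card ∈ L' ∧
      ConstOn B₀ K := by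
  classical
  obtain ⟨u, hu, v, hv, huv⟩ := Finset.one_lt_card.1 (show 1 < K.card by omega)
  have h1 : T.card ≤ agr u v := card_le_agr T u v (hKT u hu v hv)
  have h3 : agr u v < m := agr_lt u v huv
  have h4 : agr u v ∈ L' := hK u hu v hv huv
  have hne : (L'.filter (fun l => T.card ≤ l)).Nonempty :=
    ⟨agr u v, Finset.mem_filter.2 ⟨h4, h1⟩⟩
  obtain ⟨b, hb⟩ : ∃ b, b = (L'.filter (fun l => T.card ≤ l)).min' hne := ⟨_, rfl⟩
  have hbmem : b ∈ L'.filter (fun l => T.card ≤ l) := by
    rw [hb]
    exact Finset.min'_mem _ _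
  have hbmin : ∀ l ∈ L', T.card ≤ l → b ≤ l := by
    intro l hl hTl
    rw [hb]
    exact Finset.min'_le _ _ (Finset.mem_filter.2 ⟨hl, hTl⟩)
  rw [Finset.mem_filter] at hbmem
  have hbm : b < m := lt_of_le_of_lt (hbmin _ h4 h1) h3
  have hbL : b ∉ L := fun h => (Finset.disjoint_left.1 hd h) hbmem.1
  have hTb : T.card < b := by
    rcases Nat.lt_or_ge T.card b with h | h
    · exact h
    · exfalso
      apply hT
      have : T.card = b := le_antisymm hbmem.2 h
      rw [this]
      exact hbmem.1
  by_contra hcon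
  have hno : ∀ B : Finset (Fin m), T ⊆ B → B.card = b → ¬ ConstOn B K := by
    intro B hTB hBb hB
    apply hcon
    refine ⟨B, hTB, ?_, ?_, ?_, hB⟩
    · rw [hBb]; exact hTb
    · rw [hBb]; exact hbm
    · rw [hBb]; exact hbmem.1
  have hK1 := code_bound' L' T K hK hKT b hbmem.2 hbm hbmin hno
  have hC1 := code_bound L T C hC hCT
  have hs := small_prod (m := m) (k := k) L L' T.card b hd hk hbmem.2 hbm hbL
  have := Nat.mul_le_mul hC1 hK1
  omega


/-! ### i -/

theorem block_contra {m k : ℕ} (hk : 2 ≤ k) (L : Finset ℕ) (C : Finset (Fin m → Fin k))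
    (hC : Code L C) (x : Fin m → Fin k) (T : Finset (Fin m)) (b e : ℕ)
    (hTb : T.card < b) (hbm : b < m) (hem : e < m)
    (h : ∀ B : Finset (Fin m), T ⊆ B → B.card = b →
      ∃ B' : Finset (Fin m), B ⊆ B' ∧ B'.card = e ∧ C ∩ cyl B x = cyl B' x) :
    b ∈ L := by
  classical
  obtain ⟨B1, hTB1, hB1⟩ : ∃ B1 : Finset (Fin m), T ⊆ B1 ∧ B1.card = b :=
    Finset.exists_superset_card_eq hTb.le (by simpa using hbm.le)
  obtain ⟨B1', hB1B1', hB1e, hC1⟩ := h B1 hTB1 hB1
  obtain ⟨j, hj⟩ : ∃ j, j ∉ B1' := by
    by_contra hcon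
    push Not at hcon
    have h1 : B1' = univ := eq_univ_iff_forall.2 hcon
    rw [h1] at hB1e
    simp at hB1e
    omega
  have hjT : j ∉ T := fun hjT => hj (hB1B1' (hTB1 hjT))
  obtain ⟨B2, hTB2, hB2⟩ : ∃ B2 : Finset (Fin m), insert j T ⊆ B2 ∧ B2.card = b :=
    Finset.exists_superset_card_eq (by rw [card_insert_of_notMem hjT]; omega)
      (by simpa using hbm.le)
  obtain ⟨B2', hB2B2', hB2e, hC2⟩ := h B2 ((subset_insert _ _).trans hTB2) hB2
  have hjB2' : j ∈ B2' := hB2B2' (hTB2 (mem_insert_self _ _))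
  have hTB1' : T ⊆ B1' := hTB1.trans hB1B1'
  have hTB2' : T ⊆ B2' := ((subset_insert _ _).trans hTB2).trans hB2B2'
  -- cylinders over B1' and B2' are inside C
  have hc1 : cyl B1' x ⊆ C := by rw [← hC1]; exact inter_subset_left
  have hc2 : cyl B2' x ⊆ C := by rw [← hC2]; exact inter_subset_left
  have hmono : ∀ P Q : Finset (Fin m), P ⊆ Q → cyl Q x ⊆ cyl P x := by
    intro P Q hPQ z hz
    rw [mem_cyl] at hz ⊢
    exact fun i hi => hz i (hPQ hi)
  have hlt : (B1' ∩ B2').card < b := by
    by_contra hge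
    push Not at hge
    obtain ⟨B3, hTB3, hB3, hB3c⟩ : ∃ B3 : Finset (Fin m), T ⊆ B3 ∧ B3 ⊆ B1' ∩ B2' ∧ B3.card = b :=
      Finset.exists_subsuperset_card_eq (subset_inter hTB1' hTB2') hTb.le hge
    obtain ⟨B3', hB3B3', hB3e, hC3⟩ := h B3 hTB3 hB3c
    have e1 : B3' ⊆ B1' := by
      refine cyl_sub hk B1' B3' x x ?_
      rw [← hC3]
      exact subset_inter hc1 (hmono _ _ (hB3.trans inter_subset_left))
    have e2 : B3' ⊆ B2' := by
      refine cyl_sub hk B2' B3' x x ?_
      rw [← hC3]
      exact subset_inter hc2 (hmono _ _ (hB3.trans inter_subset_right))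
    have f1 : B3' = B1' := Finset.eq_of_subset_of_card_le e1 (by omega)
    have f2 : B3' = B2' := Finset.eq_of_subset_of_card_le e2 (by omega)
    apply hj
    rw [← f1, f2]
    exact hjB2'
  obtain ⟨A, hA, hAc⟩ : ∃ A : Finset (Fin m), B1' ∩ B2' ⊆ A ∧ A.card = b :=
    Finset.exists_superset_card_eq hlt.le (by simpa using hbm.le)
  have hx' : ∀ i, ∃ c : Fin k, c ≠ x i := by
    intro i
    have : Nontrivial (Fin k) := Fin.nontrivial_iff_two_le.2 hk
    exact exists_ne (x i)
  choose x' hx'ne using hx'
  let y : Fin m → Fin k := fun i => if i ∈ A ∨ i ∈ B1' then x i else x' i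
  let z : Fin m → Fin k := fun i => if i ∈ A ∨ i ∉ B1' then x i else x' i
  have hy : y ∈ C := by
    apply hc1
    rw [mem_cyl]
    intro i hi
    simp only [y]
    rw [if_pos (Or.inr hi)]
  have hz : z ∈ C := by
    apply hc2
    rw [mem_cyl]
    intro i hi
    simp only [z]
    apply if_pos
    by_cases hiA : i ∈ A
    · exact Or.inl hiA
    · right
      intro hi1
      exact hiA (hA (mem_inter.2 ⟨hi1, hi⟩))
  have hyz : ∀ i, y i = z i ↔ i ∈ A := by
    intro i
    simp only [y, z]
    by_cases hiA : i ∈ A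
    · simp [hiA]
    · by_cases hi1 : i ∈ B1'
      · simp [hiA, hi1, (hx'ne i).symm]
      · simp [hiA, hi1, hx'ne i]
  have hagr : agr y z = b := by
    unfold agr
    rw [← hAc]
    congr 1
    ext i
    simp [hyz i]
  have hne : y ≠ z := by
    intro heq
    have : agr y z = m := by
      unfold agr
      rw [heq]
      simp
    omega
  have := hC y hy z hz hne
  rwa [hagr] at this


/-! ### j -/

/-- TARGET J: in a tight pair of codes one of them is a cylinder -/
theorem tight_cyl {m k : ℕ} (hm : 2 ≤ m) (hk : m * m.factorial < k) :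
    ∀ n : ℕ, ∀ (L L' : Finset ℕ) (T : Finset (Fin m)) (C K : Finset (Fin m → Fin k)),
      m - T.card = n → Disjoint L L' → Code L C → Code L' K → ConstOn T C → ConstOn T K →
      C.card * K.card = k ^ (m - T.card) → T.card ∉ L' →
      ∃ (B : Finset (Fin m)) (w : Fin m → Fin k), T ⊆ B ∧ K = cyl B w := by
  have hk2 : 2 ≤ k := by
    have h1 : 0 < m.factorial := Nat.factorial_pos m
    have : 2 * 1 ≤ m * m.factorial := Nat.mul_le_mul hm h1
    omega
  intro n
  induction n using Nat.strong_induction_on with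
  | _ n ih =>
    intro L L' T C K hn hd hC hK hCT hKT hcard hT
    have hkpos : 0 < k ^ (m - T.card) := Nat.pow_pos (by omega)
    have hCpos : 0 < C.card := by
      rcases Nat.eq_zero_or_pos C.card with h | h
      · rw [h, zero_mul] at hcard; omega
      · exact h
    have hKpos : 0 < K.card := by
      rcases Nat.eq_zero_or_pos K.card with h | h
      · rw [h, mul_zero] at hcard; omega
      · exact h
    rcases Nat.lt_or_ge 1 K.card with h2 | h1
    · -- K.card ≥ 2
      obtain ⟨B₀, hTB0, hTb, hbm, hbL', hKB0⟩ := exists_B0 hk L L' hd T C K hC hK hCT hKT hcard hT h2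
      have hbL : B₀.card ∉ L := fun h => (Finset.disjoint_left.mp hd) h hbL'
      obtain ⟨x, hx⟩ := Finset.card_pos.mp hCpos
      have hcyl_self : ∀ B : Finset (Fin m), x ∈ cyl B x := fun B => (mem_cyl B x x).mpr (fun _ _ => rfl)
      have hxin : ∀ B : Finset (Fin m), x ∈ C ∩ cyl B x := fun B => Finset.mem_inter.mpr ⟨hx, hcyl_self B⟩
      have hcount : ∀ B : Finset (Fin m), T ⊆ B → B.card = B₀.card →
          ∃ K' : Finset (Fin m → Fin k), Code L' K' ∧ ConstOn B K' ∧ K'.card = K.card ∧
            (C ∩ cyl B x).card * K'.card = k ^ (m - B.card) := by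
        intro B hTB hBc
        obtain ⟨K', hK'1, hK'2, hK'3⟩ := perm_code L' B₀ B hBc K hK hKB0
        refine ⟨K', hK'1, hK'2, hK'3, ?_⟩
        exact count_cyl L L' hd T B hTB C K' hC hK'1 hCT hK'2 (by rw [hK'3]; exact hcard) x hx
      obtain ⟨N, hN⟩ : ∃ N, N = (C ∩ cyl B₀ x).card := ⟨_, rfl⟩
      have hNK : N * K.card = k ^ (m - B₀.card) := by
        obtain ⟨K', _, _, h3, h4⟩ := hcount B₀ hTB0 rfl
        rw [hN, ← h3]; exact h4
      have hNB : ∀ B : Finset (Fin m), T ⊆ B → B.card = B₀.card → (C ∩ cyl B x).card = N := by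
        intro B hTB hBc
        obtain ⟨K', _, _, h3, h4⟩ := hcount B hTB hBc
        rw [h3, hBc, ← hNK] at h4
        exact Nat.eq_of_mul_eq_mul_right hKpos h4
      have hN1 : 1 ≤ N := by
        rw [hN]; exact Finset.card_pos.mpr ⟨x, hxin B₀⟩
      rcases Nat.lt_or_ge 1 N with hN2 | hN2
      · exfalso
        have hih : ∀ B : Finset (Fin m), T ⊆ B → B.card = B₀.card →
            ∃ B' : Finset (Fin m), B ⊆ B' ∧ C ∩ cyl B x = cyl B' x ∧ k ^ (m - B'.card) = N := by
          intro B hTB hBc
          obtain ⟨K', h1, h2', h3, h4⟩ := hcount B hTB hBc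
          obtain ⟨B', w', hB', hw'⟩ := ih (m - B.card) (by omega) L' L B K' (C ∩ cyl B x) rfl hd.symm h1
            (fun y hy z hz hyz => hC y (Finset.mem_inter.mp hy).1 z (Finset.mem_inter.mp hz).1 hyz) h2'
            (fun y hy z hz i hi => by
              rw [(mem_cyl B x y).mp (Finset.mem_inter.mp hy).2 i hi,
                (mem_cyl B x z).mp (Finset.mem_inter.mp hz).2 i hi])
            (by rw [mul_comm]; exact h4) (by rw [hBc]; exact hbL)
          have hxB' : x ∈ cyl B' w' := by rw [← hw']; exact hxin B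
          refine ⟨B', hB', ?_, ?_⟩
          · rw [hw']; exact cyl_eq_of_mem B' w' x hxB'
          · rw [← card_cyl B' w', ← hw']; exact hNB B hTB hBc
        obtain ⟨E, hE1, hE2, hE3⟩ := hih B₀ hTB0 rfl
        have hcardle : ∀ B : Finset (Fin m), B.card ≤ m := fun B => by
          simpa using Finset.card_le_univ B
        have hEm : E.card < m := by
          rcases Nat.lt_or_ge E.card m with h | h
          · exact h
          · have := hcardle E
            have h0 : m - E.card = 0 := by omega
            rw [h0, pow_zero] at hE3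
            omega
        apply hbL
        refine block_contra hk2 L C hC x T B₀.card E.card hTb hbm hEm ?_
        intro B hTB hBc
        obtain ⟨B', hB'1, hB'2, hB'3⟩ := hih B hTB hBc
        refine ⟨B', hB'1, ?_, hB'2⟩
        rw [← hE3] at hB'3
        have := Nat.pow_right_injective hk2 hB'3
        have h1 := hcardle B'
        have h3 : m - B'.card = m - E.card := this
        omega
      · have hNe : N = 1 := by omega
        rw [hNe, one_mul] at hNK
        obtain ⟨v, hv⟩ := Finset.card_pos.mp hKpos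
        refine ⟨B₀, v, hTB0, ?_⟩
        apply Finset.eq_of_subset_of_card_le
        · intro y hy
          exact (mem_cyl B₀ v y).mpr (fun i hi => hKB0 y hy v hv i hi)
        · rw [card_cyl, hNK]
    · have hK1 : K.card = 1 := by omega
      obtain ⟨w, hw⟩ := Finset.card_eq_one.mp hK1
      refine ⟨Finset.univ, w, Finset.subset_univ _, ?_⟩
      rw [hw]
      ext y
      rw [Finset.mem_singleton, mem_cyl]
      constructor
      · rintro rfl i _
        rfl
      · intro h
        funext i
        exact h i (Finset.mem_univ i)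


/-! ### k1 -/

/-- TARGET A2: a colouring of a cylinder all of whose classes are cylinders -/
theorem local_structure {m k : ℕ} (hk : 2 ≤ k) (B : Finset (Fin m)) (w : Fin m → Fin k)
    (g : (Fin m → Fin k) → Fin k)
    (hg : ∀ c : Fin k, (cyl B w).filter (fun x => g x = c) = ∅ ∨
      ∃ (D : Finset (Fin m)) (v : Fin m → Fin k),
        (cyl B w).filter (fun x => g x = c) = cyl D v) :
    (∀ x ∈ cyl B w, ∀ y ∈ cyl B w, g x = g y) ∨
    (∃ j, j ∉ B ∧ (∀ x ∈ cyl B w, ∀ y ∈ cyl B w, (g x = g y ↔ x j = y j)) ∧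
      ∀ c : Fin k, ∃ x ∈ cyl B w, g x = c) := by
  classical
  by_cases hconst : ∀ x ∈ cyl B w, ∀ y ∈ cyl B w, g x = g y
  · left; exact hconst
  right
  push Not at hconst
  obtain ⟨x0, hx0, y0, hy0, hxy0⟩ := hconst
  set S : Fin k → Finset (Fin m → Fin k) := fun c => (cyl B w).filter (fun x => g x = c) with hS
  have hmemS : ∀ c x, x ∈ S c ↔ x ∈ cyl B w ∧ g x = c := by
    intro c x
    simp [hS]
  have hself : ∀ (D : Finset (Fin m)) (v : Fin m → Fin k), v ∈ cyl D v := by
    intro D v
    rw [mem_cyl]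
    intro i _
    rfl
  have hne : ∀ c, S c ≠ cyl B w := by
    intro c h
    apply hxy0
    have h1 : x0 ∈ S c := by rw [h]; exact hx0
    have h2 : y0 ∈ S c := by rw [h]; exact hy0
    rw [((hmemS c x0).1 h1).2, ((hmemS c y0).1 h2).2]
  have hstr : ∀ c, (S c).Nonempty → ∃ (D : Finset (Fin m)) (v : Fin m → Fin k),
      S c = cyl D v ∧ B ⊆ D ∧ B.card + 1 ≤ D.card ∧ v ∈ cyl B w := by
    intro c hc
    rcases hg c with h | ⟨D, v, h⟩
    · exact absurd h hc.ne_empty
    · have h' : S c = cyl D v := h
      have hsub : cyl D v ⊆ cyl B w := by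
        rw [← h']
        exact Finset.filter_subset _ _
      have hBD : B ⊆ D := cyl_sub hk D B v w hsub
      have hv : v ∈ cyl B w := hsub (hself D v)
      refine ⟨D, v, h', hBD, ?_, hv⟩
      have hne' : B ≠ D := by
        rintro rfl
        apply hne c
        rw [h', cyl_eq_of_mem B w v hv]
      exact Finset.card_lt_card (hBD.ssubset_of_ne hne')
  have hBm : B.card + 1 ≤ m := by
    obtain ⟨D, v, -, -, hD, -⟩ := hstr (g x0) ⟨x0, (hmemS _ _).2 ⟨hx0, rfl⟩⟩
    have : D.card ≤ m := by simpa using Finset.card_le_univ D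
    omega
  have hk0 : 0 < k := by omega
  have hle : ∀ c ∈ (univ : Finset (Fin k)), (S c).card ≤ k ^ (m - (B.card + 1)) := by
    intro c _
    rcases Finset.eq_empty_or_nonempty (S c) with h | h
    · rw [h, Finset.card_empty]; exact Nat.zero_le _
    · obtain ⟨D, v, h1, -, h3, -⟩ := hstr c h
      rw [h1, card_cyl]
      exact Nat.pow_le_pow_right hk0 (by omega)
  have hsum : ∑ c : Fin k, (S c).card = ∑ _c : Fin k, k ^ (m - (B.card + 1)) := by
    have h1 : (cyl B w).card = ∑ c : Fin k, (S c).card :=
      Finset.card_eq_sum_card_fiberwise (f := g) (t := univ) (fun x _ => Finset.mem_univ _)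
    rw [← h1, card_cyl, Finset.sum_const, Finset.card_univ, Fintype.card_fin, smul_eq_mul,
      ← pow_succ']
    congr 1
    omega
  have heq := (Finset.sum_eq_sum_iff_of_le hle).1 hsum
  have hfull : ∀ c, ∃ (j : Fin m) (v : Fin m → Fin k), j ∉ B ∧ v ∈ cyl B w ∧
      S c = cyl (insert j B) v := by
    intro c
    have hcard := heq c (Finset.mem_univ c)
    have hpos : 0 < (S c).card := by rw [hcard]; positivity
    obtain ⟨D, v, h1, h2, h3, h4⟩ := hstr c (Finset.card_pos.1 hpos)
    rw [h1, card_cyl] at hcard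
    have h5 := Nat.pow_right_injective hk hcard
    have hDm : D.card ≤ m := by simpa using Finset.card_le_univ D
    have h6 : D.card = B.card + 1 := by omega
    have h7 : (D \ B).card = 1 := by
      rw [Finset.card_sdiff_of_subset h2]; omega
    obtain ⟨j, hj⟩ := Finset.card_eq_one.1 h7
    have hjD : j ∈ D \ B := by rw [hj]; exact Finset.mem_singleton_self j
    rw [Finset.mem_sdiff] at hjD
    refine ⟨j, v, hjD.2, h4, ?_⟩
    rw [h1]
    congr 1
    rw [← Finset.sdiff_union_of_subset h2, hj]
    rfl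
  choose J V hJ hV hSV using hfull
  have hJeq : ∀ c c', J c = J c' := by
    intro c c'
    by_contra hne2
    have hcc : c ≠ c' := by
      rintro rfl
      exact hne2 rfl
    let x : Fin m → Fin k := fun i => if i = J c then V c (J c) else
      if i = J c' then V c' (J c') else w i
    have hxB : ∀ i ∈ B, x i = w i := by
      intro i hi
      have h1 : i ≠ J c := by rintro rfl; exact hJ c hi
      have h2 : i ≠ J c' := by rintro rfl; exact hJ c' hi
      simp [x, h1, h2]
    have h1 : x ∈ S c := by
      rw [hSV c, mem_cyl]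
      intro i hi
      rcases Finset.mem_insert.1 hi with rfl | hi
      · simp [x]
      · rw [hxB i hi, (mem_cyl B w (V c)).1 (hV c) i hi]
    have h2 : x ∈ S c' := by
      rw [hSV c', mem_cyl]
      intro i hi
      rcases Finset.mem_insert.1 hi with rfl | hi
      · simp [x, Ne.symm hne2]
      · rw [hxB i hi, (mem_cyl B w (V c')).1 (hV c') i hi]
    exact hcc (((hmemS c x).1 h1).2.symm.trans ((hmemS c' x).1 h2).2)
  refine ⟨J (g x0), hJ _, ?_, ?_⟩
  · intro x hx y hy
    have hxS : x ∈ S (g x) := (hmemS _ _).2 ⟨hx, rfl⟩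
    rw [hSV, mem_cyl] at hxS
    have hxj := hxS (J (g x)) (Finset.mem_insert_self _ _)
    constructor
    · intro hgxy
      have hyS : y ∈ S (g x) := (hmemS _ _).2 ⟨hy, hgxy.symm⟩
      rw [hSV, mem_cyl] at hyS
      have hyj := hyS (J (g x)) (Finset.mem_insert_self _ _)
      rw [hJeq (g x0) (g x), hxj, hyj]
    · intro hj
      rw [hJeq (g x0) (g x)] at hj
      have hyS : y ∈ S (g x) := by
        rw [hSV, mem_cyl]
        intro i hi
        rcases Finset.mem_insert.1 hi with rfl | hi
        · rw [← hj, hxj]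
        · rw [(mem_cyl B w y).1 hy i hi, (mem_cyl B w (V (g x))).1 (hV _) i hi]
      exact ((hmemS _ _).1 hyS).2.symm
  · intro c
    have h1 : V c ∈ S c := by rw [hSV c]; exact hself _ _
    exact ⟨V c, ((hmemS c _).1 h1).1, ((hmemS c _).1 h1).2⟩


/-! ### k2 -/

/-- TARGET A1: preimages of slices -/
theorem preimage_slice {m k s : ℕ} (hs : 1 ≤ s)
    (f : (Fin m → Fin k) → (Fin m → Fin k))
    (hA : ∀ (B : Finset (Fin m)) (w : Fin m → Fin k), B.card = s →
      ∃ (B' : Finset (Fin m)) (w' : Fin m → Fin k), B'.card = s ∧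
        univ.filter (fun x => f x ∈ cyl B w) = cyl B' w')
    (B : Finset (Fin m)) (w : Fin m → Fin k) (hB : B.card = s) (i : Fin m) (hi : i ∉ B)
    (B' : Finset (Fin m)) (w' : Fin m → Fin k)
    (hB' : univ.filter (fun x => f x ∈ cyl B w) = cyl B' w') (c : Fin k) :
    (cyl B' w').filter (fun x => f x i = c) = ∅ ∨
      ∃ (D : Finset (Fin m)) (v : Fin m → Fin k),
        (cyl B' w').filter (fun x => f x i = c) = cyl D v := by
  obtain ⟨b, hb⟩ : B.Nonempty := Finset.card_pos.1 (by omega)
  have hi2 : i ∉ B.erase b := fun h => hi (Finset.mem_of_mem_erase h)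
  have hcard : (insert i (B.erase b)).card = s := by
    rw [Finset.card_insert_of_notMem hi2, Finset.card_erase_of_mem hb, hB]
    omega
  obtain ⟨B2, w2, hB2, h2⟩ := hA (insert i (B.erase b)) (Function.update w i c) hcard
  have key : (cyl B' w').filter (fun x => f x i = c) = cyl B' w' ∩ cyl B2 w2 := by
    ext x
    rw [Finset.mem_filter, Finset.mem_inter, ← hB', ← h2, Finset.mem_filter, Finset.mem_filter,
      mem_cyl, mem_cyl]
    constructor
    · rintro ⟨⟨_, h3⟩, h4⟩
      refine ⟨⟨Finset.mem_univ _, h3⟩, Finset.mem_univ _, ?_⟩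
      intro j hj
      rcases Finset.mem_insert.1 hj with rfl | hj
      · rw [Function.update_self]
        exact h4
      · have hne : j ≠ i := fun h => hi2 (h ▸ hj)
        rw [Function.update_of_ne hne]
        exact h3 j (Finset.mem_of_mem_erase hj)
    · rintro ⟨⟨_, h3⟩, _, h4⟩
      refine ⟨⟨Finset.mem_univ _, h3⟩, ?_⟩
      have h5 := h4 i (Finset.mem_insert_self _ _)
      rw [Function.update_self] at h5
      exact h5
  rw [key]
  by_cases hne : (cyl B' w' ∩ cyl B2 w2).Nonempty
  · right
    obtain ⟨x, hx⟩ := hne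
    rw [Finset.mem_inter] at hx
    exact ⟨B' ∪ B2, x, cyl_inter B' B2 w' w2 x hx.1 hx.2⟩
  · left
    exact Finset.not_nonempty_iff_eq_empty.1 hne


/-! ### k3 -/

theorem k3_fiber {m k s : ℕ} (hk : 2 ≤ k) (hs : 1 ≤ s)
    (f : (Fin m → Fin k) → (Fin m → Fin k))
    (hA : ∀ (B : Finset (Fin m)) (w : Fin m → Fin k), B.card = s →
      ∃ (B' : Finset (Fin m)) (w' : Fin m → Fin k), B'.card = s ∧
        univ.filter (fun x => f x ∈ cyl B w) = cyl B' w')
    (B : Finset (Fin m)) (w : Fin m → Fin k) (hB : B.card = s) :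
    ∃ N : ℕ, ∀ x : Fin m → Fin k, f x ∈ cyl B w → fib f x = N := by
  classical
  obtain ⟨B', w', -, hpre⟩ := hA B w hB
  have hmem : ∀ x : Fin m → Fin k, f x ∈ cyl B w ↔ x ∈ cyl B' w' := by
    intro x
    rw [← hpre]; simp
  have hP : ∀ i : Fin m, (∀ x ∈ cyl B' w', ∀ y ∈ cyl B' w', f x i = f y i) ∨
      (∃ j, j ∉ B' ∧ ∀ x ∈ cyl B' w', ∀ y ∈ cyl B' w', (f x i = f y i ↔ x j = y j)) := by
    intro i
    by_cases hi : i ∈ B
    · left
      intro x hx y hy
      have h1 := (mem_cyl B w (f x)).1 ((hmem x).2 hx) i hi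
      have h2 := (mem_cyl B w (f y)).1 ((hmem y).2 hy) i hi
      rw [h1, h2]
    · rcases local_structure hk B' w' (fun x => f x i)
        (preimage_slice hs f hA B w hB i hi B' w' hpre) with h | ⟨j, hj, h, -⟩
      · left; exact h
      · right; exact ⟨j, hj, h⟩
  let J : Finset (Fin m) := univ.filter (fun j => ∃ i, ∀ x ∈ cyl B' w', ∀ y ∈ cyl B' w',
    (f x i = f y i ↔ x j = y j))
  refine ⟨k ^ (m - (B' ∪ J).card), ?_⟩
  intro x hx
  have hx' := (hmem x).1 hx
  have key : univ.filter (fun z => f z = f x) = cyl (B' ∪ J) x := by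
    ext z
    rw [mem_cyl]
    simp only [mem_filter, mem_univ, true_and, mem_union]
    constructor
    · intro hz i hi
      have hz' : z ∈ cyl B' w' := (hmem z).1 (by rw [hz]; exact hx)
      rcases hi with hi | hi
      · rw [(mem_cyl B' w' z).1 hz' i hi, (mem_cyl B' w' x).1 hx' i hi]
      · obtain ⟨i', hi'⟩ := (mem_filter.1 hi).2
        exact (hi' z hz' x hx').1 (by rw [hz])
    · intro hz
      have hz' : z ∈ cyl B' w' := by
        rw [mem_cyl]
        intro i hi
        rw [hz i (Or.inl hi), (mem_cyl B' w' x).1 hx' i hi]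
      funext i
      rcases hP i with h | ⟨j, -, h⟩
      · exact h z hz' x hx'
      · refine (h z hz' x hx').2 (hz j (Or.inr ?_))
        exact mem_filter.2 ⟨mem_univ _, i, h⟩
  unfold fib
  rw [key, card_cyl]

/-- TARGET A3: inside one cylinder all nonempty fibres have the same size -/
theorem fib_const_in_cyl {m k s : ℕ} (hk : 2 ≤ k) (hs : 1 ≤ s)
    (f : (Fin m → Fin k) → (Fin m → Fin k))
    (hA : ∀ (B : Finset (Fin m)) (w : Fin m → Fin k), B.card = s →
      ∃ (B' : Finset (Fin m)) (w' : Fin m → Fin k), B'.card = s ∧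
        univ.filter (fun x => f x ∈ cyl B w) = cyl B' w')
    (B : Finset (Fin m)) (w : Fin m → Fin k) (hB : B.card = s)
    (x y : Fin m → Fin k) (hx : f x ∈ cyl B w) (hy : f y ∈ cyl B w) :
    fib f x = fib f y := by
  obtain ⟨N, hN⟩ := k3_fiber hk hs f hA B w hB
  rw [hN x hx, hN y hy]


/-! ### k4 -/

theorem k4_case1 {m k s : ℕ} (hk : 2 ≤ k) (hs : 1 ≤ s)
    (f : (Fin m → Fin k) → (Fin m → Fin k))
    (hA : ∀ (B : Finset (Fin m)) (w : Fin m → Fin k), B.card = s →
      ∃ (B' : Finset (Fin m)) (w' : Fin m → Fin k), B'.card = s ∧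
        univ.filter (fun x => f x ∈ cyl B w) = cyl B' w')
    (B : Finset (Fin m)) (w w' : Fin m → Fin k) (hB : B.card = s) (b : Fin m) (hb : b ∈ B)
    (hww : ∀ i, i ≠ b → w i = w' i)
    (x y : Fin m → Fin k) (hx : f x ∈ cyl B w) (hy : f y ∈ cyl B w')
    (i : Fin m) (hi : i ∉ B)
    (hnc : ¬ ∀ x y : Fin m → Fin k, f x ∈ cyl B w → f y ∈ cyl B w → f x i = f y i) :
    fib f x = fib f y := by
  classical
  have hib : i ≠ b := fun h => hi (h ▸ hb)
  obtain ⟨B', u', hB'c, hB'⟩ := hA B w hB
  have memZ : ∀ z, z ∈ cyl B' u' ↔ f z ∈ cyl B w := by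
    intro z
    rw [← hB', mem_filter]
    exact ⟨fun h => h.2, fun h => ⟨mem_univ _, h⟩⟩
  -- f i takes all values on Z'
  have hall : ∀ c : Fin k, ∃ z ∈ cyl B' u', f z i = c := by
    rcases local_structure hk B' u' (fun z => f z i)
      (fun c => preimage_slice hs f hA B w hB i hi B' u' hB' c) with h | ⟨_, _, _, h⟩
    · exact absurd (fun a b' ha hb' => h a ((memZ a).2 ha) b' ((memZ b').2 hb')) hnc
    · exact h
  obtain ⟨c⟩ : Nonempty (Fin k) := ⟨⟨0, by omega⟩⟩
  -- the cylinder M
  obtain ⟨BM, hBM⟩ : ∃ BM, BM = insert i (B.erase b) := ⟨_, rfl⟩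
  obtain ⟨wM, hwM⟩ : ∃ wM, wM = Function.update w i c := ⟨_, rfl⟩
  have hiE : i ∉ B.erase b := fun h => hi (mem_of_mem_erase h)
  have hBMc : BM.card = s := by
    rw [hBM, card_insert_of_notMem hiE, card_erase_of_mem hb, hB]
    omega
  obtain ⟨BM', uM', hBM'c, hBM'⟩ := hA BM wM hBMc
  have memM : ∀ z, z ∈ cyl BM' uM' ↔ f z ∈ cyl BM wM := by
    intro z
    rw [← hBM', mem_filter]
    exact ⟨fun h => h.2, fun h => ⟨mem_univ _, h⟩⟩
  have memMc : ∀ v : Fin m → Fin k, v ∈ cyl BM wM ↔ v i = c ∧ ∀ j ∈ B, j ≠ b → v j = w j := by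
    intro v
    rw [mem_cyl, hBM, hwM]
    constructor
    · intro h
      refine ⟨?_, fun j hj hjb => ?_⟩
      · have := h i (mem_insert_self _ _)
        rwa [Function.update_self] at this
      · have := h j (mem_insert_of_mem (mem_erase.2 ⟨hjb, hj⟩))
        have hji : j ≠ i := fun h => hi (h ▸ hj)
        rwa [Function.update_of_ne hji] at this
    · rintro ⟨h1, h2⟩ j hj
      rcases mem_insert.1 hj with h | h
      · subst h
        rw [Function.update_self]; exact h1
      · have hji : j ≠ i := fun h' => hiE (h' ▸ h)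
        rw [Function.update_of_ne hji]
        exact h2 j (mem_of_mem_erase h) (ne_of_mem_erase h)
  obtain ⟨x0, hx0, hx0c⟩ := hall c
  have hx0M : x0 ∈ cyl BM' uM' := by
    rw [memM, memMc]
    refine ⟨hx0c, fun j hj _ => ?_⟩
    exact (mem_cyl B w (f x0)).1 ((memZ x0).1 hx0) j hj
  -- another value
  obtain ⟨c2, hc2⟩ : ∃ c2 : Fin k, c2 ≠ c := by
    by_cases h : c = ⟨0, by omega⟩
    · refine ⟨⟨1, by omega⟩, ?_⟩
      rw [h]
      intro h'
      have := congrArg Fin.val h'
      simp at this
    · exact ⟨⟨0, by omega⟩, fun h' => h h'.symm⟩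
  obtain ⟨x2, hx2, hx2c⟩ := hall c2
  have hnotconst : ¬ ∀ a ∈ cyl BM' uM', ∀ a' ∈ cyl BM' uM', f a b = f a' b := by
    intro hconst
    have hsub : cyl BM' uM' ⊆ (cyl B' u').erase x2 := by
      intro z hz
      rw [mem_erase, memZ, mem_cyl]
      have hz1 := (memMc (f z)).1 ((memM z).1 hz)
      refine ⟨?_, fun j hj => ?_⟩
      · rintro rfl
        exact hc2 (hx2c.symm.trans hz1.1)
      · by_cases hjb : j = b
        · subst hjb
          rw [hconst z hz x0 hx0M]
          exact (mem_cyl B w (f x0)).1 ((memZ x0).1 hx0) j hj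
        · exact hz1.2 j hj hjb
    have h1 := card_le_card hsub
    rw [card_erase_of_mem hx2, card_cyl, card_cyl, hBM'c, hB'c] at h1
    have h2 : 0 < k ^ (m - s) := Nat.pow_pos (by omega)
    omega
  have hbM : b ∉ BM := by
    rw [hBM, mem_insert]
    rintro (h | h)
    · exact hib h.symm
    · exact (notMem_erase b B) h
  obtain ⟨y0, hy0, hy0b⟩ : ∃ z ∈ cyl BM' uM', f z b = w' b := by
    rcases local_structure hk BM' uM' (fun z => f z b)
      (fun c => preimage_slice hs f hA BM wM hBMc b hbM BM' uM' hBM' c) with h | ⟨_, _, _, h⟩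
    · exact absurd h hnotconst
    · exact h (w' b)
  have hy0w : f y0 ∈ cyl B w' := by
    rw [mem_cyl]
    intro j hj
    by_cases hjb : j = b
    · subst hjb; exact hy0b
    · rw [← hww j hjb]
      exact ((memMc (f y0)).1 ((memM y0).1 hy0)).2 j hj hjb
  have e1 := fib_const_in_cyl hk hs f hA BM wM hBMc x0 y0 ((memM x0).1 hx0M) ((memM y0).1 hy0)
  have e2 := fib_const_in_cyl hk hs f hA B w hB x x0 hx ((memZ x0).1 hx0)
  have e3 := fib_const_in_cyl hk hs f hA B w' hB y y0 hy hy0w
  rw [e2, e1, e3]

theorem k4_case2 {m k s : ℕ}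
    (f : (Fin m → Fin k) → (Fin m → Fin k))
    (hA : ∀ (B : Finset (Fin m)) (w : Fin m → Fin k), B.card = s →
      ∃ (B' : Finset (Fin m)) (w' : Fin m → Fin k), B'.card = s ∧
        univ.filter (fun x => f x ∈ cyl B w) = cyl B' w')
    (B : Finset (Fin m)) (w : Fin m → Fin k) (hB : B.card = s)
    (x : Fin m → Fin k) (hx : f x ∈ cyl B w)
    (hc : ∀ i, i ∉ B → ∀ x y : Fin m → Fin k, f x ∈ cyl B w → f y ∈ cyl B w → f x i = f y i) :
    fib f x = k ^ (m - s) := by
  obtain ⟨B', u', hB'c, hB'⟩ := hA B w hB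
  have h1 : univ.filter (fun z => f z = f x) = univ.filter (fun z => f z ∈ cyl B w) := by
    apply filter_congr
    intro z _
    constructor
    · intro h; rw [h]; exact hx
    · intro h
      funext i
      by_cases hi : i ∈ B
      · rw [(mem_cyl B w (f z)).1 h i hi, (mem_cyl B w (f x)).1 hx i hi]
      · exact hc i hi z x h hx
  unfold fib
  rw [h1, hB', card_cyl, hB'c]

/-- TARGET A4: neighbouring parallel cylinders -/
theorem fib_neighbour {m k s : ℕ} (hk : 2 ≤ k) (hs : 1 ≤ s)
    (f : (Fin m → Fin k) → (Fin m → Fin k))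
    (hA : ∀ (B : Finset (Fin m)) (w : Fin m → Fin k), B.card = s →
      ∃ (B' : Finset (Fin m)) (w' : Fin m → Fin k), B'.card = s ∧
        univ.filter (fun x => f x ∈ cyl B w) = cyl B' w')
    (B : Finset (Fin m)) (w w' : Fin m → Fin k) (hB : B.card = s) (b : Fin m) (hb : b ∈ B)
    (hww : ∀ i, i ≠ b → w i = w' i)
    (x y : Fin m → Fin k) (hx : f x ∈ cyl B w) (hy : f y ∈ cyl B w') :
    fib f x = fib f y := by
  by_cases h1 : ∃ i, i ∉ B ∧ ¬ ∀ x y : Fin m → Fin k, f x ∈ cyl B w → f y ∈ cyl B w → f x i = f y i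
  · obtain ⟨i, hi, hnc⟩ := h1
    exact k4_case1 hk hs f hA B w w' hB b hb hww x y hx hy i hi hnc
  by_cases h2 : ∃ i, i ∉ B ∧ ¬ ∀ x y : Fin m → Fin k, f x ∈ cyl B w' → f y ∈ cyl B w' →
      f x i = f y i
  · obtain ⟨i, hi, hnc⟩ := h2
    exact (k4_case1 hk hs f hA B w' w hB b hb (fun i hi => (hww i hi).symm) y x hy hx i hi hnc).symm
  push Not at h1 h2
  rw [k4_case2 f hA B w hB x hx h1, k4_case2 f hA B w' hB y hy h2]


/-! ### k5 -/

theorem k5_aux {m k s : ℕ} (hk : 2 ≤ k) (hs : 1 ≤ s)
    (f : (Fin m → Fin k) → (Fin m → Fin k))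
    (hA : ∀ (B : Finset (Fin m)) (w : Fin m → Fin k), B.card = s →
      ∃ (B' : Finset (Fin m)) (w' : Fin m → Fin k), B'.card = s ∧
        univ.filter (fun x => f x ∈ cyl B w) = cyl B' w')
    (B : Finset (Fin m)) (hB : B.card = s) :
    ∀ (n : ℕ) (w w' : Fin m → Fin k) (x y : Fin m → Fin k),
      (B.filter (fun i => w i ≠ w' i)).card = n → f x ∈ cyl B w → f y ∈ cyl B w' →
      fib f x = fib f y := by
  intro n
  induction n with
  | zero =>
    intro w w' x y hn hx hy
    have hall : ∀ i ∈ B, w i = w' i := by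
      intro i hi
      by_contra hne
      have : i ∈ B.filter (fun i => w i ≠ w' i) := Finset.mem_filter.2 ⟨hi, hne⟩
      rw [Finset.card_eq_zero] at hn
      rw [hn] at this
      simp at this
    have hx' : f y ∈ cyl B w := by
      rw [mem_cyl] at hy ⊢
      intro i hi
      rw [hy i hi, hall i hi]
    exact fib_const_in_cyl hk hs f hA B w hB x y hx hx'
  | succ n ih =>
    intro w w' x y hn hx hy
    have hne : (B.filter (fun i => w i ≠ w' i)).Nonempty := by
      rw [← Finset.card_pos]; omega
    obtain ⟨b, hb⟩ := hne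
    rw [Finset.mem_filter] at hb
    obtain ⟨hbB, hbne⟩ := hb
    set w1 := Function.update w b (w' b) with hw1
    obtain ⟨B', v, hB', hBv⟩ := hA B w1 hB
    have hv : v ∈ cyl B' v := by
      rw [mem_cyl]; intros; rfl
    rw [← hBv] at hv
    have hv1 : f v ∈ cyl B w1 := (Finset.mem_filter.1 hv).2
    have h1 : fib f x = fib f v := by
      refine fib_neighbour hk hs f hA B w w1 hB b hbB ?_ x v hx hv1
      intro i hi
      rw [hw1, Function.update_of_ne hi]
    have h2 : fib f v = fib f y := by
      refine ih w1 w' v y ?_ hv1 hy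
      have heq : B.filter (fun i => w1 i ≠ w' i) = (B.filter (fun i => w i ≠ w' i)).erase b := by
        ext i
        simp only [Finset.mem_filter, Finset.mem_erase]
        by_cases hib : i = b
        · subst hib
          simp [hw1]
        · rw [hw1, Function.update_of_ne hib]
          tauto
      rw [heq, Finset.card_erase_of_mem (Finset.mem_filter.2 ⟨hbB, hbne⟩), hn]
      rfl
    exact h1.trans h2

/-- TARGET A5: uniformity if preimages of `s`-cylinders are `s`-cylinders -/
theorem caseA {m k s : ℕ} (hk : 2 ≤ k) (hs : 1 ≤ s) (hsm : s ≤ m)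
    (f : (Fin m → Fin k) → (Fin m → Fin k))
    (hA : ∀ (B : Finset (Fin m)) (w : Fin m → Fin k), B.card = s →
      ∃ (B' : Finset (Fin m)) (w' : Fin m → Fin k), B'.card = s ∧
        univ.filter (fun x => f x ∈ cyl B w) = cyl B' w') :
    ∀ a b : Fin m → Fin k, fib f a = fib f b := by
  intro a b
  obtain ⟨B, _, hB⟩ := Finset.exists_subset_card_eq (s := (univ : Finset (Fin m))) (n := s)
    (by simpa using hsm)
  refine k5_aux hk hs f hA B hB _ (f a) (f b) a b rfl ?_ ?_
  · rw [mem_cyl]; intros; rfl
  · rw [mem_cyl]; intros; rfl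


/-! ### l1 -/

theorem l1_lemA {m k s : ℕ} (hk : 2 ≤ k) (hsm : s < m) (E D : Finset (Fin m))
    (u v : Fin m → Fin k) (hE : E.card = s) (hD : D.card = s) (hne : E ≠ D)
    (X : Finset (Fin m → Fin k)) (hX : X ⊆ cyl E u ∩ cyl D v) (hc : X.card = k ^ (m - (s + 1))) :
    X = cyl E u ∩ cyl D v ∧ (E ∪ D).card = s + 1 := by
  have hXne : X.Nonempty := by
    apply Finset.card_pos.mp
    rw [hc]
    positivity
  obtain ⟨x, hx⟩ := hXne
  have h1 := Finset.mem_inter.mp (hX hx)
  have h2 := cyl_inter E D u v x h1.1 h1.2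
  have h3 : s + 1 ≤ (E ∪ D).card := by
    by_contra hcon
    have hle : (E ∪ D).card ≤ s := by omega
    have h31 : E = E ∪ D := Finset.eq_of_subset_of_card_le Finset.subset_union_left (by omega)
    have h32 : D = E ∪ D := Finset.eq_of_subset_of_card_le Finset.subset_union_right (by omega)
    exact hne (h31.trans h32.symm)
  have h4 : (cyl E u ∩ cyl D v).card = k ^ (m - (E ∪ D).card) := by rw [h2, card_cyl]
  have h5 : X = cyl E u ∩ cyl D v := by
    apply Finset.eq_of_subset_of_card_le hX
    rw [h4, hc]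
    exact Nat.pow_le_pow_right (by omega) (by omega)
  refine ⟨h5, ?_⟩
  have h6 : k ^ (m - (s + 1)) = k ^ (m - (E ∪ D).card) := by
    rw [← hc, ← h4]
    exact congrArg _ h5
  have h7 := Nat.pow_right_injective hk h6
  have h8 : (E ∪ D).card ≤ m := by simpa using Finset.card_le_univ (E ∪ D)
  omega

theorem l1_type3 {m k s : ℕ} (hk : 2 ≤ k) (hsm : s < m) (E D D' : Finset (Fin m))
    (u v v' : Fin m → Fin k) (hE : E.card = s) (hD : D.card = s) (hD' : D'.card = s)
    (hED : E ≠ D) (hED' : E ≠ D')
    (X X' : Finset (Fin m → Fin k)) (hX : X ⊆ cyl E u ∩ cyl D v)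
    (hX' : X' ⊆ cyl E u ∩ cyl D' v') (hc : X.card = k ^ (m - (s + 1)))
    (hc' : X'.card = k ^ (m - (s + 1))) (hdisj : Disjoint X X') (q : Fin m) (hq : q ∈ D')
    (hq2 : q ∉ D) : X = cyl (insert q D) (Function.update v q (v' q)) := by
  obtain ⟨e1, c1⟩ := l1_lemA hk hsm E D u v hE hD hED X hX hc
  obtain ⟨e2, c2⟩ := l1_lemA hk hsm E D' u v' hE hD' hED' X' hX' hc'
  have hXne : X.Nonempty := by
    apply Finset.card_pos.mp
    rw [hc]
    positivity
  have hXne' : X'.Nonempty := by
    apply Finset.card_pos.mp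
    rw [hc']
    positivity
  obtain ⟨x, hx⟩ := hXne
  obtain ⟨x', hx'⟩ := hXne'
  have m1 := Finset.mem_inter.mp (hX hx)
  have m2 := Finset.mem_inter.mp (hX' hx')
  have m11 := (mem_cyl _ _ _).mp m1.1
  have m12 := (mem_cyl _ _ _).mp m1.2
  have m21 := (mem_cyl _ _ _).mp m2.1
  have m22 := (mem_cyl _ _ _).mp m2.2
  have hqE : q ∈ E := by
    by_contra hqE
    have hG' : insert q E = E ∪ D' := by
      apply Finset.eq_of_subset_of_card_le
      · intro i hi
        rcases Finset.mem_insert.mp hi with rfl | hi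
        · exact Finset.mem_union_right _ hq
        · exact Finset.mem_union_left _ hi
      · rw [c2, Finset.card_insert_of_notMem hqE, hE]
    obtain ⟨a, ha, haE⟩ : ∃ a ∈ D, a ∉ E := by
      by_contra hcon
      push Not at hcon
      exact hED (Finset.eq_of_subset_of_card_le hcon (by rw [hD, hE])).symm
    have hG : insert a E = E ∪ D := by
      apply Finset.eq_of_subset_of_card_le
      · intro i hi
        rcases Finset.mem_insert.mp hi with rfl | hi
        · exact Finset.mem_union_right _ ha
        · exact Finset.mem_union_left _ hi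
      · rw [c1, Finset.card_insert_of_notMem haE, hE]
    have haq : a ≠ q := fun h => hq2 (h ▸ ha)
    have haG' : a ∉ D' := by
      intro haD
      have : a ∈ insert q E := by
        rw [hG']; exact Finset.mem_union_right _ haD
      rcases Finset.mem_insert.mp this with h | h
      · exact haq h
      · exact haE h
    set y := Function.update x' a (x a) with hy
    have y1 : y ∈ cyl E u := by
      rw [mem_cyl]
      intro i hi
      have hia : i ≠ a := fun h => haE (h ▸ hi)
      rw [hy, Function.update_of_ne hia]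
      exact m21 i hi
    have y2 : y ∈ cyl D v := by
      rw [mem_cyl]
      intro i hi
      by_cases hia : i = a
      · rw [hia, hy, Function.update_self]
        exact m12 a ha
      · have hiE : i ∈ E := by
          have : i ∈ insert a E := by
            rw [hG]; exact Finset.mem_union_right _ hi
          rcases Finset.mem_insert.mp this with h | h
          · exact absurd h hia
          · exact h
        rw [hy, Function.update_of_ne hia, m21 i hiE, ← m11 i hiE, m12 i hi]
    have y3 : y ∈ cyl D' v' := by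
      rw [mem_cyl]
      intro i hi
      have hia : i ≠ a := fun h => haG' (h ▸ hi)
      rw [hy, Function.update_of_ne hia]
      exact m22 i hi
    have yX : y ∈ X := by rw [e1]; exact Finset.mem_inter.mpr ⟨y1, y2⟩
    have yX' : y ∈ X' := by rw [e2]; exact Finset.mem_inter.mpr ⟨y1, y3⟩
    exact Finset.disjoint_left.mp hdisj yX yX'
  apply Finset.eq_of_subset_of_card_le
  · intro z hz
    have n1 := Finset.mem_inter.mp (hX hz)
    have n11 := (mem_cyl _ _ _).mp n1.1
    have n12 := (mem_cyl _ _ _).mp n1.2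
    rw [mem_cyl]
    intro i hi
    by_cases hiq : i = q
    · rw [hiq, Function.update_self, n11 q hqE, ← m21 q hqE, m22 q hq]
    · rw [Function.update_of_ne hiq]
      rcases Finset.mem_insert.mp hi with h | h
      · exact absurd h hiq
      · exact n12 i h
  · rw [card_cyl, Finset.card_insert_of_notMem hq2, hD, hc]

theorem l1_dist {m k : ℕ} (f : (Fin m → Fin k) → (Fin m → Fin k)) (B : Finset (Fin m))
    (w : Fin m → Fin k) (hinj : Set.InjOn f (cyl B w : Set (Fin m → Fin k))) (j : Fin m)
    (hj : j ∉ B) (d d' : Fin k) (hne : d ≠ d')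
    (heq : (cyl (insert j B) (Function.update w j d)).image f =
      (cyl (insert j B) (Function.update w j d')).image f) : False := by
  have h1 : Function.update w j d ∈ cyl (insert j B) (Function.update w j d) := by
    rw [mem_cyl]; intro i _; rfl
  have h2 : f (Function.update w j d) ∈
      (cyl (insert j B) (Function.update w j d')).image f := by
    rw [← heq]; exact Finset.mem_image_of_mem f h1
  obtain ⟨y, hy, hfy⟩ := Finset.mem_image.mp h2
  have hy2 := (mem_cyl _ _ _).mp hy
  have h3 : Function.update w j d ∈ cyl B w := by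
    rw [mem_cyl]
    intro i hi
    exact Function.update_of_ne (ne_of_mem_of_not_mem hi hj) _ _
  have h4 : y ∈ cyl B w := by
    rw [mem_cyl]
    intro i hi
    rw [hy2 i (Finset.mem_insert_of_mem hi)]
    exact Function.update_of_ne (ne_of_mem_of_not_mem hi hj) _ _
  have h5 := hinj (by exact_mod_cast h4) (by exact_mod_cast h3) hfy
  have h6 := hy2 j (Finset.mem_insert_self _ _)
  rw [h5, Function.update_self, Function.update_self] at h6
  exact hne h6

/-- TARGET B1: images of parallel neighbouring cylinders are parallel -/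
theorem parallel_image {m k s : ℕ} (hk : 4 ≤ k) (hs : 1 ≤ s) (hsm : s < m)
    (f : (Fin m → Fin k) → (Fin m → Fin k))
    (hB : ∀ (B : Finset (Fin m)) (w : Fin m → Fin k), B.card = s →
      (∃ (B' : Finset (Fin m)) (w' : Fin m → Fin k), B'.card = s ∧
        (cyl B w).image f = cyl B' w') ∧ Set.InjOn f (cyl B w : Set (Fin m → Fin k)))
    (B : Finset (Fin m)) (w w' : Fin m → Fin k) (hBs : B.card = s) (b : Fin m) (hb : b ∈ B)
    (hww : ∀ i, i ≠ b → w i = w' i) (hne : w b ≠ w' b)
    (D D' : Finset (Fin m)) (v v' : Fin m → Fin k) (hD : D.card = s) (hD' : D'.card = s)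
    (h : (cyl B w).image f = cyl D v) (h' : (cyl B w').image f = cyl D' v') :
    D = D' := by
  by_contra hDD
  have hk2 : 2 ≤ k := by omega
  obtain ⟨q, hq, hq2⟩ : ∃ q ∈ D', q ∉ D := by
    by_contra hcon
    push Not at hcon
    exact hDD (Finset.eq_of_subset_of_card_le hcon (by rw [hD, hD'])).symm
  obtain ⟨j, hj⟩ : ∃ j, j ∉ B := by
    by_contra hcon
    push Not at hcon
    have : B = univ := Finset.eq_univ_iff_forall.mpr hcon
    rw [this, Finset.card_univ, Fintype.card_fin] at hBs
    omega
  have hjb : b ≠ j := fun h => hj (h ▸ hb)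
  have key : ∀ d : Fin k,
      ((cyl (insert j B) (Function.update w' j d)).image f = cyl D v ∩ cyl D' v') ∨
      ((cyl (insert j B) (Function.update w j d)).image f = cyl D v ∩ cyl D' v') ∨
      ((cyl (insert j B) (Function.update w j d)).image f =
        cyl (insert q D) (Function.update v q (v' q))) := by
    intro d
    have hcard : (insert j (B.erase b)).card = s := by
      rw [Finset.card_insert_of_notMem (fun h => hj (Finset.mem_of_mem_erase h)),
        Finset.card_erase_of_mem hb, hBs]
      omega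
    obtain ⟨⟨E, u, hE, hSu⟩, hinj⟩ := hB (insert j (B.erase b)) (Function.update w j d) hcard
    have hPQ : cyl (insert j B) (Function.update w j d) ⊆ cyl B w := by
      intro x hx
      rw [mem_cyl] at hx ⊢
      intro i hi
      rw [hx i (Finset.mem_insert_of_mem hi)]
      exact Function.update_of_ne (ne_of_mem_of_not_mem hi hj) _ _
    have hPQ' : cyl (insert j B) (Function.update w' j d) ⊆ cyl B w' := by
      intro x hx
      rw [mem_cyl] at hx ⊢
      intro i hi
      rw [hx i (Finset.mem_insert_of_mem hi)]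
      exact Function.update_of_ne (ne_of_mem_of_not_mem hi hj) _ _
    have hPH : cyl (insert j B) (Function.update w j d) ⊆
        cyl (insert j (B.erase b)) (Function.update w j d) := by
      intro x hx
      rw [mem_cyl] at hx ⊢
      intro i hi
      apply hx
      rcases Finset.mem_insert.mp hi with h | h
      · rw [h]; exact Finset.mem_insert_self _ _
      · exact Finset.mem_insert_of_mem (Finset.mem_of_mem_erase h)
    have hPH' : cyl (insert j B) (Function.update w' j d) ⊆
        cyl (insert j (B.erase b)) (Function.update w j d) := by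
      intro x hx
      rw [mem_cyl] at hx ⊢
      intro i hi
      have h1 : i ∈ insert j B := by
        rcases Finset.mem_insert.mp hi with h | h
        · rw [h]; exact Finset.mem_insert_self _ _
        · exact Finset.mem_insert_of_mem (Finset.mem_of_mem_erase h)
      rw [hx i h1]
      by_cases hij : i = j
      · rw [hij, Function.update_self, Function.update_self]
      · rw [Function.update_of_ne hij, Function.update_of_ne hij]
        have h2 : i ∈ B.erase b := by
          rcases Finset.mem_insert.mp hi with h | h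
          · exact absurd h hij
          · exact h
        exact (hww i (Finset.ne_of_mem_erase h2)).symm
    have hcP : ((cyl (insert j B) (Function.update w j d)).image f).card =
        k ^ (m - (s + 1)) := by
      rw [Finset.card_image_of_injOn (hinj.mono (by exact_mod_cast hPH)), card_cyl,
        Finset.card_insert_of_notMem hj, hBs]
    have hcP' : ((cyl (insert j B) (Function.update w' j d)).image f).card =
        k ^ (m - (s + 1)) := by
      rw [Finset.card_image_of_injOn (hinj.mono (by exact_mod_cast hPH')), card_cyl,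
        Finset.card_insert_of_notMem hj, hBs]
    have hsub : (cyl (insert j B) (Function.update w j d)).image f ⊆ cyl E u ∩ cyl D v := by
      apply Finset.subset_inter
      · rw [← hSu]; exact Finset.image_subset_image hPH
      · rw [← h]; exact Finset.image_subset_image hPQ
    have hsub' : (cyl (insert j B) (Function.update w' j d)).image f ⊆
        cyl E u ∩ cyl D' v' := by
      apply Finset.subset_inter
      · rw [← hSu]; exact Finset.image_subset_image hPH'
      · rw [← h']; exact Finset.image_subset_image hPQ'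
    have hdisj : Disjoint ((cyl (insert j B) (Function.update w j d)).image f)
        ((cyl (insert j B) (Function.update w' j d)).image f) := by
      rw [Finset.disjoint_left]
      intro y hy hy'
      obtain ⟨x, hx, rfl⟩ := Finset.mem_image.mp hy
      obtain ⟨x', hx', hxx⟩ := Finset.mem_image.mp hy'
      have h1 := hinj (by exact_mod_cast hPH' hx') (by exact_mod_cast hPH hx) hxx
      subst h1
      rw [mem_cyl] at hx hx'
      have h2 := hx b (Finset.mem_insert_of_mem hb)
      have h3 := hx' b (Finset.mem_insert_of_mem hb)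
      rw [Function.update_of_ne hjb] at h2 h3
      exact hne (h2.symm.trans h3)
    have hne1 : ((cyl (insert j B) (Function.update w j d)).image f).Nonempty := by
      apply Finset.card_pos.mp
      rw [hcP]
      positivity
    have hne2 : ((cyl (insert j B) (Function.update w' j d)).image f).Nonempty := by
      apply Finset.card_pos.mp
      rw [hcP']
      positivity
    by_cases h1 : E = D
    · left
      obtain ⟨x, hx⟩ := hne1
      have hx2 := Finset.mem_inter.mp (hsub hx)
      have hS : cyl E u = cyl D v := by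
        rw [cyl_eq_of_mem E u x hx2.1, cyl_eq_of_mem D v x hx2.2, h1]
      rw [hS] at hsub'
      exact (l1_lemA hk2 hsm D D' v v' hD hD' hDD _ hsub' hcP').1
    by_cases h2 : E = D'
    · right; left
      obtain ⟨x, hx⟩ := hne2
      have hx2 := Finset.mem_inter.mp (hsub' hx)
      have hS : cyl E u = cyl D' v' := by
        rw [cyl_eq_of_mem E u x hx2.1, cyl_eq_of_mem D' v' x hx2.2, h2]
      rw [hS, Finset.inter_comm] at hsub
      exact (l1_lemA hk2 hsm D D' v v' hD hD' hDD _ hsub hcP).1
    · right; right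
      exact l1_type3 hk2 hsm E D D' u v v' hE hD hD' h1 h2 _ _ hsub hsub' hcP hcP' hdisj q hq hq2
  have key2 : ∀ d : Fin k, ∃ i : Fin 3,
      (i = 0 → (cyl (insert j B) (Function.update w' j d)).image f = cyl D v ∩ cyl D' v') ∧
      (i = 1 → (cyl (insert j B) (Function.update w j d)).image f = cyl D v ∩ cyl D' v') ∧
      (i = 2 → (cyl (insert j B) (Function.update w j d)).image f =
        cyl (insert q D) (Function.update v q (v' q))) := by
    intro d
    rcases key d with h | h | h
    · exact ⟨0, fun _ => h, fun h0 => absurd h0 (by decide), fun h0 => absurd h0 (by decide)⟩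
    · exact ⟨1, fun h0 => absurd h0 (by decide), fun _ => h, fun h0 => absurd h0 (by decide)⟩
    · exact ⟨2, fun h0 => absurd h0 (by decide), fun h0 => absurd h0 (by decide), fun _ => h⟩
  choose t ht using key2
  obtain ⟨d, d', hdd, htt⟩ := Fintype.exists_ne_map_eq_of_card_lt t (by
    rw [Fintype.card_fin, Fintype.card_fin]; omega)
  have hQ := (hB B w hBs).2
  have hQ' := (hB B w' (by exact hBs)).2
  rcases (by decide : ∀ i : Fin 3, i = 0 ∨ i = 1 ∨ i = 2) (t d) with h0 | h0 | h0
  · exact l1_dist f B w' hQ' j hj d d' hdd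
      (((ht d).1 h0).trans ((ht d').1 (htt ▸ h0)).symm)
  · exact l1_dist f B w hQ j hj d d' hdd
      (((ht d).2.1 h0).trans ((ht d').2.1 (htt ▸ h0)).symm)
  · exact l1_dist f B w hQ j hj d d' hdd
      (((ht d).2.2 h0).trans ((ht d').2.2 (htt ▸ h0)).symm)


/-! ### l2 -/

/-- a function on words that is invariant under the change of one letter is constant -/
theorem l2_const {m k : ℕ} {α : Type*} (F : (Fin m → Fin k) → α)
    (h : ∀ u i x, F (Function.update u i x) = F u) (w w' : Fin m → Fin k) : F w' = F w := by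
  have key : ∀ T : Finset (Fin m), F (fun i => if i ∈ T then w' i else w i) = F w := by
    intro T
    induction T using Finset.induction_on with
    | empty => simp
    | insert i T hi ih =>
      have h1 : (fun j => if j ∈ insert i T then w' j else w j) =
          Function.update (fun j => if j ∈ T then w' j else w j) i (w' i) := by
        funext j
        by_cases hj : j = i
        · subst hj
          simp
        · rw [Function.update_of_ne hj]
          simp [hj]
      rw [h1, h, ih]
  have := key univ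
  simpa using this

theorem l2_dir {m k : ℕ} (hk : 4 ≤ k) (D D' : Finset (Fin m)) (v v' : Fin m → Fin k)
    (h : cyl D v = cyl D' v') : D = D' :=
  Finset.Subset.antisymm (cyl_sub (by omega) _ _ _ _ h.symm.subset)
    (cyl_sub (by omega) _ _ _ _ h.subset)

theorem l2_self {m k : ℕ} (B : Finset (Fin m)) (w : Fin m → Fin k) : w ∈ cyl B w :=
  (mem_cyl B w w).2 fun _ _ => rfl

theorem l2_step {m k s : ℕ} (hk : 4 ≤ k) (hsm : s < m)
    (f : (Fin m → Fin k) → (Fin m → Fin k))
    (hB : ∀ (B : Finset (Fin m)) (w : Fin m → Fin k), B.card = s →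
      (∃ (B' : Finset (Fin m)) (w' : Fin m → Fin k), B'.card = s ∧
        (cyl B w).image f = cyl B' w') ∧ Set.InjOn f (cyl B w : Set (Fin m → Fin k)))
    (B : Finset (Fin m)) (hBs : B.card = s) (u u' : Fin m → Fin k) (i : Fin m)
    (hu : ∀ j, j ≠ i → u j = u' j) (D D' : Finset (Fin m)) (v v' : Fin m → Fin k)
    (hD : D.card = s) (hD' : D'.card = s)
    (h : (cyl B u).image f = cyl D v) (h' : (cyl B u').image f = cyl D' v') : D = D' := by
  by_cases hi : i ∈ B ∧ u i ≠ u' i
  · have hs : 1 ≤ s := by
      rw [← hBs]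
      exact Finset.card_pos.2 ⟨i, hi.1⟩
    exact parallel_image hk hs hsm f hB B u u' hBs i hi.1 hu hi.2 D D' v v' hD hD' h h'
  · have h1 : cyl B u = cyl B u' := by
      ext z
      rw [mem_cyl, mem_cyl]
      refine forall₂_congr fun j hj => ?_
      have h2 : u j = u' j := by
        by_cases hji : j = i
        · subst hji
          by_contra hne
          exact hi ⟨hj, hne⟩
        · exact hu j hji
      rw [h2]
    rw [h1, h'] at h
    exact l2_dir hk _ _ _ _ h.symm

theorem l2_conn {m k s : ℕ} (hk : 4 ≤ k) (hsm : s < m)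
    (f : (Fin m → Fin k) → (Fin m → Fin k))
    (hB : ∀ (B : Finset (Fin m)) (w : Fin m → Fin k), B.card = s →
      (∃ (B' : Finset (Fin m)) (w' : Fin m → Fin k), B'.card = s ∧
        (cyl B w).image f = cyl B' w') ∧ Set.InjOn f (cyl B w : Set (Fin m → Fin k)))
    (B : Finset (Fin m)) (hBs : B.card = s) (w0 : Fin m → Fin k) :
    ∃ D : Finset (Fin m), D.card = s ∧ ∀ w, ∃ v, (cyl B w).image f = cyl D v := by
  choose D v hD h using fun w => (hB B w hBs).1
  refine ⟨D w0, hD w0, fun w => ⟨v w, ?_⟩⟩
  have h1 : D w = D w0 := by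
    refine l2_const D (fun u i x => ?_) w0 w
    refine l2_step hk hsm f hB B hBs (Function.update u i x) u i (fun j hj => ?_) _ _ _ _
      (hD _) (hD _) (h _) (h _)
    rw [Function.update_of_ne hj]
  rw [← h1]
  exact h w

theorem l2_claim1 {m k : ℕ} (f : (Fin m → Fin k) → (Fin m → Fin k)) (B D : Finset (Fin m))
    (hinj : ∀ w : Fin m → Fin k, Set.InjOn f (cyl B w : Set (Fin m → Fin k)))
    (hD : ∀ w, ∃ v, (cyl B w).image f = cyl D v) (x y v : Fin m → Fin k)
    (hx : f x ∈ cyl D v) (hy : f y ∈ cyl D v) : fib f x ≤ fib f y := by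
  have h1 : ∀ z, f z = f x → ∃ z', z' ∈ cyl B z ∧ f z' = f y := by
    intro z hz
    obtain ⟨vz, hvz⟩ := hD z
    have h2 : f z ∈ cyl D vz := by
      rw [← hvz]
      exact Finset.mem_image_of_mem f (l2_self B z)
    have h3 : cyl D vz = cyl D v := by
      rw [cyl_eq_of_mem D vz _ h2, hz, ← cyl_eq_of_mem D v _ hx]
    rw [← h3, ← hvz, Finset.mem_image] at hy
    exact hy
  classical
  choose! z' hz' using h1
  unfold fib
  refine Finset.card_le_card_of_injOn z' ?_ ?_
  · intro z hz
    rw [Finset.mem_coe, Finset.mem_filter] at hz ⊢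
    exact ⟨Finset.mem_univ _, (hz' z hz.2).2⟩
  · intro z1 h1 z2 h2 h12
    rw [Finset.mem_coe, Finset.mem_filter] at h1 h2
    have e1 := (hz' z1 h1.2).1
    have e2 := (hz' z2 h2.2).1
    rw [← h12] at e2
    have e3 := cyl_eq_of_mem B z1 _ e1
    have e4 := cyl_eq_of_mem B z2 _ e2
    have m1 : z1 ∈ cyl B (z' z1) := by
      rw [← e3]
      exact l2_self B z1
    have m2 : z2 ∈ cyl B (z' z1) := by
      rw [← e4]
      exact l2_self B z2
    exact hinj (z' z1) (Finset.mem_coe.2 m1) (Finset.mem_coe.2 m2) (h1.2.trans h2.2.symm)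

/-- TARGET B2: uniformity if `f` maps `s`-cylinders bijectively onto `s`-cylinders -/
theorem caseB {m k s : ℕ} (hk : 4 ≤ k) (hsm : s < m)
    (f : (Fin m → Fin k) → (Fin m → Fin k))
    (hB : ∀ (B : Finset (Fin m)) (w : Fin m → Fin k), B.card = s →
      (∃ (B' : Finset (Fin m)) (w' : Fin m → Fin k), B'.card = s ∧
        (cyl B w).image f = cyl B' w') ∧ Set.InjOn f (cyl B w : Set (Fin m → Fin k))) :
    ∀ a b : Fin m → Fin k, fib f a = fib f b := by
  intro a b
  refine (l2_const (fib f) (fun u i x => ?_) a b).symm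
  obtain ⟨B, hBi, hBs⟩ := Finset.exists_subset_card_eq (s := univ.erase i) (n := s) (by
    rw [Finset.card_erase_of_mem (Finset.mem_univ i), Finset.card_univ, Fintype.card_fin]
    omega)
  have hiB : i ∉ B := fun hi => Finset.notMem_erase i univ (hBi hi)
  obtain ⟨D, hDs, hD⟩ := l2_conn hk hsm f hB B hBs u
  obtain ⟨v, hv⟩ := hD u
  have hm1 : u ∈ cyl B u := l2_self B u
  have hm2 : Function.update u i x ∈ cyl B u := by
    rw [mem_cyl]
    intro j hj
    rw [Function.update_of_ne]
    rintro rfl
    exact hiB hj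
  have h1 : f u ∈ cyl D v := by
    rw [← hv]
    exact Finset.mem_image_of_mem f hm1
  have h2 : f (Function.update u i x) ∈ cyl D v := by
    rw [← hv]
    exact Finset.mem_image_of_mem f hm2
  exact le_antisymm
    (l2_claim1 f B D (fun w => (hB B w hBs).2) hD _ _ v h2 h1)
    (l2_claim1 f B D (fun w => (hB B w hBs).2) hD _ _ v h1 h2)


/-! ### n1 -/

/-- TARGET N1: case A of the main theorem -/
theorem endoA {m k : ℕ} (hm : 2 ≤ m) (hk : m * m.factorial < k) (L L' : Finset ℕ)
    (hd : Disjoint L L') (hU : L ∪ L' = range m)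
    (f : (Fin m → Fin k) → (Fin m → Fin k))
    (hf : ∀ x y, x ≠ y → agr x y ∈ L' → f x ≠ f y ∧ agr (f x) (f y) ∈ L')
    (C₀ K₀ : Finset (Fin m → Fin k)) (hC : Code L C₀) (hK : Code L' K₀)
    (hcard : C₀.card * K₀.card = k ^ m) (h2 : 2 ≤ K₀.card) (h0 : 0 ∉ L) :
    ∀ a b : Fin m → Fin k, fib f a = fib f b := by
  classical
  have hk2 : 2 ≤ k := by
    have h1 : 1 ≤ m.factorial := Nat.one_le_iff_ne_zero.mpr (Nat.factorial_ne_zero m)
    have h3 : m * 1 ≤ m * m.factorial := Nat.mul_le_mul_left m h1
    omega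
  have hk0 : 0 < k := by omega
  have htight : ∀ C : Finset (Fin m → Fin k), Code L C → C.card * K₀.card = k ^ m →
      ∃ (B : Finset (Fin m)) (w : Fin m → Fin k), C = cyl B w := by
    intro C hCC hCc
    obtain ⟨B, w, -, hB⟩ := tight_cyl hm hk m L' L ∅ K₀ C (by simp) hd.symm hK hCC
      (by intro x _ y _ i hi; simp at hi) (by intro x _ y _ i hi; simp at hi)
      (by rw [Finset.card_empty, Nat.sub_zero, Nat.mul_comm]; exact hCc)
      (by rw [Finset.card_empty]; exact h0)
    exact ⟨B, w, hB⟩
  obtain ⟨B₀, w₀, hB₀⟩ := htight C₀ hC hcard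
  have hs_le : B₀.card ≤ m := by
    have := Finset.card_le_univ B₀
    simpa using this
  have hC0card : C₀.card = k ^ (m - B₀.card) := by rw [hB₀]; exact card_cyl B₀ w₀
  have hr : K₀.card = k ^ B₀.card := by
    have h3 : k ^ (m - B₀.card) * K₀.card = k ^ (m - B₀.card) * k ^ B₀.card := by
      rw [← hC0card, hcard, hC0card, ← pow_add, Nat.sub_add_cancel hs_le]
    exact Nat.eq_of_mul_eq_mul_left (pow_pos hk0 _) h3
  have hs1 : 1 ≤ B₀.card := by
    by_contra hcon
    have h3 : B₀.card = 0 := by omega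
    rw [hr, h3, pow_zero] at h2
    omega
  have hcode : ∀ (B : Finset (Fin m)) (w : Fin m → Fin k), B.card = B₀.card →
      Code L (cyl B w) := by
    intro B w hBc x hx y hy hxy
    have h3 : B.card ≤ agr x y := card_le_agr B x y (fun i hi => by
      rw [(mem_cyl B w x).mp hx i hi, (mem_cyl B w y).mp hy i hi])
    have h4 := agr_lt x y hxy
    obtain ⟨x', hx', y', hy', hne, hag⟩ := cyl_agr hk2 B₀ w₀ (agr x y) (by omega) h4
    rw [← hag]
    rw [← hB₀] at hx' hy'
    exact hC x' hx' y' hy' hne
  have hA : ∀ (B : Finset (Fin m)) (w : Fin m → Fin k), B.card = B₀.card →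
      Code L (univ.filter (fun x => f x ∈ cyl B w)) := by
    intro B w hBc x hx y hy hxy
    have hx' := (Finset.mem_filter.mp hx).2
    have hy' := (Finset.mem_filter.mp hy).2
    have h4 : agr x y ∈ L ∪ L' := by
      rw [hU]; exact Finset.mem_range.mpr (agr_lt x y hxy)
    rcases Finset.mem_union.mp h4 with h5 | h5
    · exact h5
    · exfalso
      obtain ⟨h6, h7⟩ := hf x y hxy h5
      have h8 := hcode B w hBc (f x) hx' (f y) hy' h6
      exact (Finset.disjoint_left.mp hd) h8 h7
  have hAle : ∀ (B : Finset (Fin m)) (w : Fin m → Fin k), B.card = B₀.card →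
      (univ.filter (fun x => f x ∈ cyl B w)).card ≤ k ^ (m - B₀.card) := by
    intro B w hBc
    have h3 := code_mul_le L L' hd _ K₀ (hA B w hBc) hK
    have h4 : k ^ m = k ^ (m - B₀.card) * k ^ B₀.card := by
      rw [← pow_add, Nat.sub_add_cancel hs_le]
    rw [hr, h4] at h3
    exact Nat.le_of_mul_le_mul_right h3 (pow_pos hk0 _)
  have hAeq : ∀ (B : Finset (Fin m)) (w : Fin m → Fin k), B.card = B₀.card →
      (univ.filter (fun x => f x ∈ cyl B w)).card = k ^ (m - B₀.card) := by
    intro B w hBc
    have hsum : ∑ w : Fin m → Fin k, (univ.filter (fun x => f x ∈ cyl B w)).card =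
        ∑ _w : Fin m → Fin k, k ^ (m - B₀.card) := by
      have h3 : ∀ w : Fin m → Fin k, (univ.filter (fun x => f x ∈ cyl B w)).card =
          ∑ x : Fin m → Fin k, if f x ∈ cyl B w then 1 else 0 := by
        intro w
        rw [Finset.card_filter]
      rw [Finset.sum_congr rfl (fun w _ => h3 w), Finset.sum_comm]
      have h4 : ∀ x : Fin m → Fin k, (∑ w : Fin m → Fin k, if f x ∈ cyl B w then 1 else 0) =
          k ^ (m - B₀.card) := by
        intro x
        rw [← Finset.card_filter]
        have h5 : univ.filter (fun w => f x ∈ cyl B w) = cyl B (f x) := by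
          ext w
          rw [Finset.mem_filter, mem_cyl, mem_cyl]
          constructor
          · intro h i hi
            exact (h.2 i hi).symm
          · intro h
            exact ⟨Finset.mem_univ _, fun i hi => (h i hi).symm⟩
        rw [h5, card_cyl, hBc]
      rw [Finset.sum_congr rfl (fun x _ => h4 x)]
    exact (Finset.sum_eq_sum_iff_of_le (fun w _ => hAle B w hBc)).mp hsum w (Finset.mem_univ _)
  refine caseA hk2 hs1 hs_le f ?_
  intro B w hBc
  have h3 : (univ.filter (fun x => f x ∈ cyl B w)).card * K₀.card = k ^ m := by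
    rw [hAeq B w hBc, hr, ← pow_add, Nat.sub_add_cancel hs_le]
  obtain ⟨B', w', hB'⟩ := htight _ (hA B w hBc) h3
  refine ⟨B', w', ?_, hB'⟩
  have h4 := hAeq B w hBc
  rw [hB', card_cyl] at h4
  have h5 := Nat.pow_right_injective hk2 h4
  have h6 : B'.card ≤ m := by
    have := Finset.card_le_univ B'
    simpa using this
  omega


/-! ### n2 -/

/-- TARGET N2: case B of the main theorem -/
theorem endoB {m k : ℕ} (hm : 2 ≤ m) (hk : m * m.factorial < k) (L L' : Finset ℕ)
    (hd : Disjoint L L') (hU : L ∪ L' = range m)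
    (f : (Fin m → Fin k) → (Fin m → Fin k))
    (hf : ∀ x y, x ≠ y → agr x y ∈ L' → f x ≠ f y ∧ agr (f x) (f y) ∈ L')
    (C₀ K₀ : Finset (Fin m → Fin k)) (hC : Code L C₀) (hK : Code L' K₀)
    (hcard : C₀.card * K₀.card = k ^ m) (h2 : 2 ≤ K₀.card) (h0 : 0 ∉ L') :
    ∀ a b : Fin m → Fin k, fib f a = fib f b := by
  have hfac : 2 ≤ m.factorial := by
    calc 2 = (2 : ℕ).factorial := rfl
      _ ≤ m.factorial := Nat.factorial_le hm
  have hk4 : 4 ≤ k := by
    have : 2 * 2 ≤ m * m.factorial := Nat.mul_le_mul hm hfac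
    omega
  have hk2 : 2 ≤ k := by omega
  have h1 : ∀ K : Finset (Fin m → Fin k), Code L' K → C₀.card * K.card = k ^ m →
      ∃ (B : Finset (Fin m)) (w : Fin m → Fin k), K = cyl B w := by
    intro K hK' hcK
    obtain ⟨B, w, _, hB⟩ := tight_cyl hm hk m L L' ∅ C₀ K (by simp) hd hC hK'
      (fun x _ y _ i hi => absurd hi (Finset.notMem_empty i))
      (fun x _ y _ i hi => absurd hi (Finset.notMem_empty i)) (by simpa using hcK) (by simpa using h0)
    exact ⟨B, w, hB⟩
  obtain ⟨B₀, w₀, hK₀⟩ := h1 K₀ hK hcard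
  have hBm : ∀ B : Finset (Fin m), B.card ≤ m := fun B => by
    have := B.card_le_univ
    rwa [Fintype.card_fin] at this
  have hcK₀ : K₀.card = k ^ (m - B₀.card) := by rw [hK₀, card_cyl]
  have hsm : B₀.card < m := by
    by_contra hcon
    have h3 : m - B₀.card = 0 := by omega
    rw [hcK₀, h3, pow_zero] at h2
    omega
  refine caseB (s := B₀.card) hk4 hsm f ?_
  intro B w hBs
  have h3 : Code L' (cyl B w) := by
    intro x hx y hy hxy
    have h4 := card_le_agr B x y (fun i hi => by
      rw [(mem_cyl B w x).1 hx i hi, (mem_cyl B w y).1 hy i hi])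
    have h5 := agr_lt x y hxy
    obtain ⟨x', hx', y', hy', hne, hag⟩ := cyl_agr hk2 B₀ w₀ (agr x y) (by omega) h5
    rw [← hag]
    exact hK x' (by rw [hK₀]; exact hx') y' (by rw [hK₀]; exact hy') hne
  have hinj : Set.InjOn f (cyl B w : Set (Fin m → Fin k)) := by
    intro x hx y hy hxy
    by_contra hne
    exact (hf x y hne (h3 x hx y hy hne)).1 hxy
  have hcode : Code L' ((cyl B w).image f) := by
    intro x hx y hy hxy
    obtain ⟨x', hx', rfl⟩ := Finset.mem_image.1 hx
    obtain ⟨y', hy', rfl⟩ := Finset.mem_image.1 hy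
    have hne : x' ≠ y' := fun h => hxy (by rw [h])
    exact (hf x' y' hne (h3 x' hx' y' hy' hne)).2
  have hcQ : ((cyl B w).image f).card = k ^ (m - B₀.card) := by
    rw [Finset.card_image_of_injOn hinj, card_cyl, hBs]
  obtain ⟨B', w', hQ⟩ := h1 _ hcode (by rw [hcQ, ← hcK₀]; exact hcard)
  refine ⟨⟨B', w', ?_, hQ⟩, hinj⟩
  rw [hQ, card_cyl] at hcQ
  have h6 := Nat.pow_right_injective hk2 hcQ
  have h7 := hBm B'
  omega


/-! ### m1 -/

theorem m1_pair {k : ℕ} (p q p' q' : Fin k) (h : p' = q' ↔ p = q) :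
    ∃ σ : Equiv.Perm (Fin k), σ p = p' ∧ σ q = q' := by
  by_cases hpq : p = q
  · subst hpq
    have h' : p' = q' := h.mpr rfl
    subst h'
    exact ⟨Equiv.swap p p', Equiv.swap_apply_left _ _, Equiv.swap_apply_left _ _⟩
  · have hpq' : p' ≠ q' := fun e => hpq (h.mp e)
    refine ⟨(Equiv.swap p p').trans (Equiv.swap ((Equiv.swap p p') q) q'), ?_, ?_⟩
    · rw [Equiv.trans_apply, Equiv.swap_apply_left]
      refine Equiv.swap_apply_of_ne_of_ne ?_ hpq'
      intro e
      apply hpq
      apply (Equiv.swap p p').injective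
      rw [Equiv.swap_apply_left]
      exact e
    · rw [Equiv.trans_apply, Equiv.swap_apply_left]

/-- TARGET M1: pairs with the same number of agreements are equivalent under the group -/
theorem two_trans {m k : ℕ} (x y x' y' : Fin m → Fin k) (h : agr x y = agr x' y') :
    ∃ (σ : Fin m → Equiv.Perm (Fin k)) (π : Equiv.Perm (Fin m)),
      (∀ i, σ i (x (π i)) = x' i) ∧ (∀ i, σ i (y (π i)) = y' i) := by
  have hc : Fintype.card {i // x' i = y' i} = Fintype.card {i // x i = y i} := by
    rw [Fintype.card_subtype, Fintype.card_subtype]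
    exact h.symm
  let e : {i // x' i = y' i} ≃ {i // x i = y i} := Fintype.equivOfCardEq hc
  have hπ : ∀ i, x' i = y' i ↔ x (e.extendSubtype i) = y (e.extendSubtype i) := by
    intro i
    constructor
    · intro hi
      exact e.extendSubtype_mem i hi
    · intro hi
      by_contra hn
      exact e.extendSubtype_not_mem i hn hi
  have hσ : ∀ i, ∃ σ : Equiv.Perm (Fin k), σ (x (e.extendSubtype i)) = x' i ∧
      σ (y (e.extendSubtype i)) = y' i := fun i => m1_pair _ _ _ _ (hπ i)
  choose σ hσ1 hσ2 using hσ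
  exact ⟨σ, e.extendSubtype, hσ1, hσ2⟩


/-! ### m2 -/

/-- the transformation monoid generated by the wreath product and `f` -/
abbrev Mon (m k : ℕ) (f : (Fin m → Fin k) → (Fin m → Fin k)) :
    Submonoid (Function.End (Fin m → Fin k)) :=
  Submonoid.closure
    ({g : Function.End (Fin m → Fin k) |
        ∃ (σ : Fin m → Equiv.Perm (Fin k)) (π : Equiv.Perm (Fin m)),
          g = fun x i => σ i (x (π i))} ∪ {(f : Function.End (Fin m → Fin k))})

/-- TARGET M2: merging depends only on the number of agreements -/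
theorem merged_agr {m k : ℕ} (f : (Fin m → Fin k) → (Fin m → Fin k))
    (x y x' y' : Fin m → Fin k) (h : agr x y = agr x' y')
    (hm : ∃ s ∈ Mon m k f, s x = s y) : ∃ s ∈ Mon m k f, s x' = s y' := by
  obtain ⟨σ, π, h1, h2⟩ := two_trans x' y' x y h.symm
  obtain ⟨s, hs, hsxy⟩ := hm
  let g : Function.End (Fin m → Fin k) := fun z i => σ i (z (π i))
  have hg : g ∈ Mon m k f := Submonoid.subset_closure (Or.inl ⟨σ, π, rfl⟩)
  refine ⟨s * g, mul_mem hs hg, ?_⟩
  have e1 : g x' = x := funext h1
  have e2 : g y' = y := funext h2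
  show s (g x') = s (g y')
  rw [e1, e2]
  exact hsxy


/-! ### m3 -/


theorem m3_core {m k : ℕ} (hk : 2 ≤ k)
    (P : ((Fin m → Fin k) → (Fin m → Fin k)) → Prop) (h1 : P id)
    (hmul : ∀ s h, P s → P h → P (s ∘ h))
    (hno : ¬ ∃ c, P c ∧ ∃ y : Fin m → Fin k, ∀ x, c x = y)
    (L L' : Finset ℕ) (hd : Disjoint L L')
    (hL : ∀ x y : Fin m → Fin k, x ≠ y → (∃ s, P s ∧ s x = s y) → agr x y ∈ L)
    (hL' : ∀ x y : Fin m → Fin k, x ≠ y → (¬ ∃ s, P s ∧ s x = s y) → agr x y ∈ L') :
    ∃ C₀ K₀ : Finset (Fin m → Fin k), Code L C₀ ∧ Code L' K₀ ∧ C₀.card * K₀.card = k ^ m ∧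
      2 ≤ K₀.card := by
  classical
  have hne : Nonempty (Fin m → Fin k) := ⟨fun _ => ⟨0, by omega⟩⟩
  have hex : ∃ n, ∃ h, P h ∧ (univ.image h).card = n := ⟨_, id, h1, rfl⟩
  obtain ⟨h, hh, hcard⟩ := Nat.find_spec hex
  have hmin : ∀ s, P s → (univ.image h).card ≤ (univ.image s).card := by
    intro s hs
    rw [hcard]
    exact Nat.find_min' hex ⟨s, hs, rfl⟩
  obtain ⟨K0, hK0⟩ : ∃ K0, K0 = univ.image h := ⟨_, rfl⟩
  rw [← hK0] at hmin
  have hcodeK : Code L' K0 := by
    intro u hu v hv huv
    apply hL' u v huv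
    rintro ⟨s, hs, hsuv⟩
    have h1 := hmin (s ∘ h) (hmul _ _ hs hh)
    have h2 : univ.image (s ∘ h) = K0.image s := by
      rw [hK0, Finset.image_image]
    rw [h2] at h1
    have h3 : (K0.image s).card = K0.card := le_antisymm Finset.card_image_le h1
    rw [Finset.card_image_iff] at h3
    exact huv (h3 hu hv hsuv)
  have hcodeC : ∀ u, Code L (univ.filter (fun x => h x = u)) := by
    intro u x hx y hy hxy
    rw [Finset.mem_filter] at hx hy
    exact hL x y hxy ⟨h, hh, hx.2.trans hy.2.symm⟩
  have hsum : ∑ u ∈ K0, (univ.filter (fun x => h x = u)).card = k ^ m := by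
    rw [hK0, ← Finset.card_eq_sum_card_image h univ, Finset.card_univ, Fintype.card_fun,
      Fintype.card_fin, Fintype.card_fin]
  have hle : ∀ u ∈ K0, (univ.filter (fun x => h x = u)).card * K0.card ≤ k ^ m := fun u _ =>
    code_mul_le L L' hd _ K0 (hcodeC u) hcodeK
  have heq : ∑ u ∈ K0, (univ.filter (fun x => h x = u)).card * K0.card = ∑ _u ∈ K0, k ^ m := by
    rw [← Finset.sum_mul, hsum, Finset.sum_const, smul_eq_mul, mul_comm]
  rw [Finset.sum_eq_sum_iff_of_le hle] at heq
  have hK0ne : K0.Nonempty := by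
    rw [hK0]
    exact Finset.univ_nonempty.image _
  obtain ⟨u, hu⟩ := hK0ne
  refine ⟨_, K0, hcodeC u, hcodeK, heq u hu, ?_⟩
  by_contra hlt
  apply hno
  have h1 : K0.card ≤ 1 := by omega
  rw [Finset.card_le_one] at h1
  refine ⟨h, hh, u, fun x => h1 _ ?_ _ hu⟩
  rw [hK0]
  exact Finset.mem_image_of_mem _ (Finset.mem_univ x)

/-- TARGET M3: a map of minimal rank gives a tight pair -/
theorem tight_pair {m k : ℕ} (hk : 2 ≤ k) (hm : 1 ≤ m)
    (f : (Fin m → Fin k) → (Fin m → Fin k))
    (hno : ¬ ∃ c ∈ Mon m k f, ∃ y : Fin m → Fin k, ∀ x, c x = y)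
    (L L' : Finset ℕ) (hd : Disjoint L L')
    (hL : ∀ x y : Fin m → Fin k, x ≠ y → (∃ s ∈ Mon m k f, s x = s y) → agr x y ∈ L)
    (hL' : ∀ x y : Fin m → Fin k, x ≠ y → (¬ ∃ s ∈ Mon m k f, s x = s y) → agr x y ∈ L') :
    ∃ C₀ K₀ : Finset (Fin m → Fin k), Code L C₀ ∧ Code L' K₀ ∧ C₀.card * K₀.card = k ^ m ∧
      2 ≤ K₀.card := by
  exact m3_core hk (fun g => (g : Function.End (Fin m → Fin k)) ∈ Mon m k f)
    (Submonoid.one_mem (Mon m k f)) (fun s h hs hh => Submonoid.mul_mem (Mon m k f) hs hh)
    hno L L' hd hL hL'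


/-! ### z -/


/-- TARGET Z: final theorem -/
theorem final (m k : ℕ) (hm : 2 ≤ m) (hk : m * m.factorial < k)
    (f : (Fin m → Fin k) → (Fin m → Fin k))
    (hf : ∃ a b : Fin m → Fin k,
        (Finset.univ.filter (fun x => f x = f a)).card ≠
          (Finset.univ.filter (fun x => f x = f b)).card) :
    ∃ c ∈ Submonoid.closure
          ({g : Function.End (Fin m → Fin k) |
              ∃ (σ : Fin m → Equiv.Perm (Fin k)) (π : Equiv.Perm (Fin m)),
                g = fun x i => σ i (x (π i))} ∪ {(f : Function.End (Fin m → Fin k))}),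
        ∃ y : Fin m → Fin k, ∀ x, c x = y := by
  classical
  by_contra hno
  have hno' : ¬ ∃ c ∈ Mon m k f, ∃ y : Fin m → Fin k, ∀ x, c x = y := hno
  have hk2 : 2 ≤ k := by
    have h1 : 1 ≤ m.factorial := Nat.succ_le_of_lt m.factorial_pos
    have h2 : 2 * 1 ≤ m * m.factorial := Nat.mul_le_mul hm h1
    omega
  set L : Finset ℕ := (range m).filter (fun a => ∃ x y : Fin m → Fin k, x ≠ y ∧ agr x y = a ∧
    ∃ s ∈ Mon m k f, s x = s y) with hLdef
  set L' : Finset ℕ := range m \ L with hL'def
  have hagr : ∀ x y : Fin m → Fin k, x ≠ y → agr x y < m := by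
    intro x y hxy
    have h1 : agr x y ≤ m := by
      unfold agr
      exact (card_filter_le _ _).trans (by simp)
    rcases lt_or_eq_of_le h1 with h | h
    · exact h
    · exfalso
      apply hxy
      unfold agr at h
      have h2 : (univ.filter (fun i => x i = y i)) = univ := by
        apply Finset.eq_univ_of_card
        rw [h]; simp
      funext i
      have : i ∈ univ.filter (fun i => x i = y i) := by rw [h2]; exact mem_univ i
      exact (mem_filter.1 this).2
  have hd : Disjoint L L' := disjoint_sdiff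
  have hsub : L ⊆ range m := filter_subset _ _
  have hU : L ∪ L' = range m := union_sdiff_of_subset hsub
  have hL : ∀ x y : Fin m → Fin k, x ≠ y → (∃ s ∈ Mon m k f, s x = s y) → agr x y ∈ L := by
    intro x y hxy hs
    rw [hLdef, mem_filter, mem_range]
    exact ⟨hagr x y hxy, x, y, hxy, rfl, hs⟩
  have hL' : ∀ x y : Fin m → Fin k, x ≠ y → (¬ ∃ s ∈ Mon m k f, s x = s y) →
      agr x y ∈ L' := by
    intro x y hxy hs
    rw [hL'def, mem_sdiff, mem_range]
    refine ⟨hagr x y hxy, ?_⟩
    intro hmem
    rw [hLdef, mem_filter] at hmem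
    obtain ⟨_, x', y', _, ha, hs'⟩ := hmem
    exact hs (merged_agr f x' y' x y ha hs')
  obtain ⟨C₀, K₀, hC, hK, hcard, h2⟩ := tight_pair hk2 (by omega) f hno' L L' hd hL hL'
  have hfm : (f : Function.End (Fin m → Fin k)) ∈ Mon m k f :=
    Submonoid.subset_closure (Or.inr rfl)
  have hff : ∀ x y : Fin m → Fin k, x ≠ y → agr x y ∈ L' → f x ≠ f y ∧ agr (f x) (f y) ∈ L' := by
    intro x y hxy ha
    have hnm : ¬ ∃ s ∈ Mon m k f, s x = s y := by
      intro hs
      exact (Finset.disjoint_left.1 hd) (hL x y hxy hs) ha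
    have h1 : f x ≠ f y := fun h => hnm ⟨f, hfm, h⟩
    refine ⟨h1, hL' _ _ h1 ?_⟩
    rintro ⟨s, hs, hsf⟩
    exact hnm ⟨_, Submonoid.mul_mem _ hs hfm, hsf⟩
  obtain ⟨a, b, hab⟩ := hf
  have key : ∀ a b : Fin m → Fin k, fib f a = fib f b := by
    by_cases h0 : 0 ∈ L
    · exact endoB hm hk L L' hd hU f hff C₀ K₀ hC hK hcard h2
        (fun h => (Finset.disjoint_left.1 hd) h0 h)
    · exact endoA hm hk L L' hd hU f hff C₀ K₀ hC hK hcard h2 h0
  exact hab (key a b)

end Pool.Agent.Helper597.AS
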