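import Mathlib

set_option autoImplicit false

/-! The notions used in the statement for MP_733b23_lc: codes, the two decoding delays, completeness. -/

namespace Pool.Agent.Helper597.BiDelay

/-- `X` is a code: every word of `X*` factors in exactly one way as a product of words of `X`
(in particular the empty word is not in `X`). -/
def IsCode {A : Type*} (X : Set (List A)) : Prop :=
  ∀ L M : List (List A), (∀ x ∈ L, x ∈ X) → (∀ x ∈ M, x ∈ X) → L.flatten = M.flatten → L = M

/-- `X` has (left) decoding delay `d`: if `x, x' ∈ X`, `y ∈ X^d`, `u ∈ X*` and `x y` is a prefix of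
`x' u` then `x = x'`. -/
def LeftDelay {A : Type*} (X : Set (List A)) (d : ℕ) : Prop :=
  ∀ x ∈ X, ∀ x' ∈ X, ∀ Y U : List (List A), (∀ y ∈ Y, y ∈ X) → Y.length = d → (∀ u ∈ U, u ∈ X) →
    (x ++ Y.flatten) <+: (x' ++ U.flatten) → x = x'

/-- `X` has right decoding delay `d`: if `x, x' ∈ X`, `y ∈ X^d`, `u ∈ X*` and `y x` is a suffix of
`u x'` then `x = x'`. -/
def RightDelay {A : Type*} (X : Set (List A)) (d : ℕ) : Prop :=
  ∀ x ∈ X, ∀ x' ∈ X, ∀ Y U : List (List A), (∀ y ∈ Y, y ∈ X) → Y.length = d → (∀ u ∈ U, u ∈ X) →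
    (Y.flatten ++ x) <:+ (U.flatten ++ x') → x = x'

/-- `X` is complete: every word is a factor of a word of `X*`. -/
def IsComplete {A : Type*} (X : Set (List A)) : Prop :=
  ∀ w : List A, ∃ U : List (List A), (∀ u ∈ U, u ∈ X) ∧ w <:+: U.flatten


end Pool.Agent.Helper597.BiDelay
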