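import Mathlib
import Pool.Agent.Helper597.BiDelayDefs

set_option autoImplicit false

namespace Pool.Agent.Helper597.BiDelay





/-! ### exists_q -/
theorem exists_q_ind {A : Type*} (X : Set (List A)) (h0 : [] ∉ X) (d : ℕ) (n : ℕ) :
    ∀ q : List A, q.length ≤ n →
      (∃ Y : List (List A), (∀ y ∈ Y, y ∈ X) ∧ Y.length = d ∧ Y.flatten <+: q) →
      (∀ U : List (List A), (∀ u ∈ U, u ∈ X) → ¬ q <+: U.flatten) →
    ∃ q : List A, (∃ Y : List (List A), (∀ y ∈ Y, y ∈ X) ∧ Y.length = d ∧ Y.flatten <+: q) ∧
      (∀ U : List (List A), (∀ u ∈ U, u ∈ X) → ¬ q <+: U.flatten) ∧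
      (∀ V : List (List A), (∀ v ∈ V, v ∈ X) → V.length = d + 1 → ¬ V.flatten <+: q) := by
  induction n with
  | zero =>
    intro q hq h1 h2
    refine ⟨q, h1, h2, fun V hV hVl hpre => ?_⟩
    have hq0 : q = [] := List.length_eq_zero_iff.1 (Nat.le_zero.1 hq)
    match V, hVl with
    | v :: V', hl =>
      have hv : v ∈ X := hV v List.mem_cons_self
      rw [hq0, List.prefix_nil, List.flatten_cons, List.append_eq_nil_iff] at hpre
      exact h0 (hpre.1 ▸ hv)
  | succ n ih =>
    intro q hq h1 h2
    by_cases h3 : ∀ V : List (List A), (∀ v ∈ V, v ∈ X) → V.length = d + 1 → ¬ V.flatten <+: q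
    · exact ⟨q, h1, h2, h3⟩
    · push Not at h3
      obtain ⟨V, hV, hVl, hpre⟩ := h3
      match V, hVl with
      | v :: V', hl =>
        have hv : v ∈ X := hV v List.mem_cons_self
        have hvne : v ≠ [] := fun h => h0 (h ▸ hv)
        obtain ⟨t, ht⟩ := hpre
        rw [List.flatten_cons, List.append_assoc] at ht
        refine ih (V'.flatten ++ t) ?_ ⟨V', fun y hy => hV y (List.mem_cons_of_mem _ hy), ?_,
          List.prefix_append _ _⟩ ?_
        · have h := congrArg List.length ht
          rw [List.length_append] at h
          have : 0 < v.length := List.length_pos_iff.2 hvne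
          omega
        · simpa using hl
        · intro U hU hpu
          apply h2 (v :: U)
          · intro u hu
            rcases List.mem_cons.1 hu with rfl | hu
            · exact hv
            · exact hU u hu
          · rw [← ht, List.flatten_cons]
            exact (List.prefix_append_right_inj v).2 hpu

/-- TARGET. A suitable initial word. -/
theorem exists_q {A : Type*} (X : Set (List A)) (h0 : [] ∉ X) (hne : X.Nonempty) (w : List A)
    (hw : ∀ U : List (List A), (∀ u ∈ U, u ∈ X) → ¬ w <:+: U.flatten) (d : ℕ) :
    ∃ q : List A, (∃ Y : List (List A), (∀ y ∈ Y, y ∈ X) ∧ Y.length = d ∧ Y.flatten <+: q) ∧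
      (∀ U : List (List A), (∀ u ∈ U, u ∈ X) → ¬ q <+: U.flatten) ∧
      (∀ V : List (List A), (∀ v ∈ V, v ∈ X) → V.length = d + 1 → ¬ V.flatten <+: q) := by
  
  obtain ⟨x, hx⟩ := hne
  refine exists_q_ind X h0 d ((List.replicate d x).flatten ++ w).length
    ((List.replicate d x).flatten ++ w) le_rfl
    ⟨List.replicate d x, fun y hy => (List.eq_of_mem_replicate hy) ▸ hx, List.length_replicate,
      List.prefix_append _ _⟩ ?_
  intro U hU hp
  exact hw U hU ((List.suffix_append _ _).isInfix.trans hp.isInfix)


/-! ### expand -/
theorem expand_take {A : Type*} (L : List (List A)) (d : ℕ) : (L.take d).flatten <+: L.flatten := by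
  refine ⟨(L.drop d).flatten, ?_⟩
  rw [← List.flatten_append, List.take_append_drop]

/-- TARGET. Replacing the new word by elements of `X`. -/
theorem expand {A : Type*} (X : Set (List A)) (z : List A) (d : ℕ)
    (hz : ∃ Y : List (List A), (∀ y ∈ Y, y ∈ X) ∧ Y.length = d ∧ Y.flatten <+: z)
    (U : List (List A)) (hU : ∀ u ∈ U, u ∈ X ∨ u = z) (h : d ≤ U.length ∨ z ∈ U) :
    ∃ Y : List (List A), (∀ y ∈ Y, y ∈ X) ∧ Y.length = d ∧ Y.flatten <+: U.flatten := by
  by_cases hzU : z ∈ U
  · obtain ⟨U1, U2, hUeq, hz1⟩ := List.eq_append_cons_of_mem hzU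
    obtain ⟨Yz, hYX, hYl, hYp⟩ := hz
    refine ⟨(U1 ++ Yz).take d, ?_, ?_, ?_⟩
    · intro y hy
      have hy' := List.mem_of_mem_take hy
      rcases List.mem_append.mp hy' with h1 | h1
      · rcases hU y (by rw [hUeq]; exact List.mem_append_left _ h1) with h2 | h2
        · exact h2
        · exact absurd (h2 ▸ h1) hz1
      · exact hYX y h1
    · rw [List.length_take, List.length_append, hYl]
      omega
    · refine (expand_take _ d).trans ?_
      rw [hUeq, List.flatten_append, List.flatten_append, List.flatten_cons]
      exact (List.prefix_append_right_inj _).mpr (hYp.trans (List.prefix_append _ _))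
  · have hd : d ≤ U.length := by
      rcases h with h | h
      · exact h
      · exact absurd h hzU
    refine ⟨U.take d, ?_, ?_, expand_take U d⟩
    · intro y hy
      have hy' := List.mem_of_mem_take hy
      rcases hU y hy' with h2 | h2
      · exact h2
      · exact absurd (h2 ▸ hy') hzU
    · rw [List.length_take]
      omega


/-! ### left_insert -/
/-- TARGET. Adding a word with a suitable beginning preserves the left delay. -/
theorem left_insert {A : Type*} (X : Set (List A)) (d : ℕ) (hX : LeftDelay X d) (q z : List A)
    (hqz : q <+: z)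
    (h1 : ∃ Y : List (List A), (∀ y ∈ Y, y ∈ X) ∧ Y.length = d ∧ Y.flatten <+: q)
    (h2 : ∀ U : List (List A), (∀ u ∈ U, u ∈ X) → ¬ q <+: U.flatten)
    (h3 : ∀ V : List (List A), (∀ v ∈ V, v ∈ X) → V.length = d + 1 → ¬ V.flatten <+: q) :
    LeftDelay (insert z X) d := by
  classical
  have hz : ∃ Y : List (List A), (∀ y ∈ Y, y ∈ X) ∧ Y.length = d ∧ Y.flatten <+: z := by
    obtain ⟨Y, a, b, c⟩ := h1
    exact ⟨Y, a, b, c.trans hqz⟩
  have key : ∀ (V : List (List A)) (W : List A), (∀ v ∈ V, v ∈ X) → V.length = d + 1 →
      V.flatten <+: W → q <+: W → False := by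
    intro V W hV hl hVW hqW
    rcases List.prefix_or_prefix_of_prefix hVW hqW with h | h
    · exact h3 V hV hl h
    · exact h2 V hV h
  intro x hx x' hx' Y U hY hYl hU hp
  obtain ⟨Y', hY', hYl', hYp⟩ := expand X z d hz Y
    (fun y hy => (Set.mem_insert_iff.1 (hY y hy)).symm) (Or.inl hYl.ge)
  have hp' : x ++ Y'.flatten <+: x' ++ U.flatten :=
    ((List.prefix_append_right_inj x).2 hYp).trans hp
  have hUalt : (∀ u ∈ U, u ∈ X) ∨ ∃ U' : List (List A), (∀ y ∈ U', y ∈ X) ∧ U'.length = d ∧
      U'.flatten <+: U.flatten := by
    by_cases hUX : ∀ u ∈ U, u ∈ X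
    · exact Or.inl hUX
    · right
      push Not at hUX
      obtain ⟨u, hu, hun⟩ := hUX
      have huz : u = z := (Set.mem_insert_iff.1 (hU u hu)).resolve_right hun
      subst huz
      exact expand X u d hz U (fun y hy => (Set.mem_insert_iff.1 (hU y hy)).symm) (Or.inr hu)
  rcases Set.mem_insert_iff.1 hx with hxz | hxX
  · rcases Set.mem_insert_iff.1 hx' with hxz' | hxX'
    · rw [hxz, hxz']
    · exfalso
      have hqW : q <+: x' ++ U.flatten := by
        refine hqz.trans ?_
        rw [← hxz]
        exact (List.prefix_append x Y.flatten).trans hp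
      rcases hUalt with hUX | ⟨U', hU', hUl', hUp⟩
      · refine h2 (x' :: U) ?_ (by simpa using hqW)
        intro v hv
        rcases List.mem_cons.1 hv with h | h
        · rw [h]; exact hxX'
        · exact hUX v h
      · refine key (x' :: U') (x' ++ U.flatten) ?_ (by simp [hUl']) ?_ hqW
        · intro v hv
          rcases List.mem_cons.1 hv with h | h
          · rw [h]; exact hxX'
          · exact hU' v h
        · simpa using (List.prefix_append_right_inj x').2 hUp
  · rcases Set.mem_insert_iff.1 hx' with hxz' | hxX'
    · exfalso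
      have hqW : q <+: x' ++ U.flatten := by
        refine hqz.trans ?_
        rw [← hxz']
        exact List.prefix_append x' U.flatten
      refine key (x :: Y') (x' ++ U.flatten) ?_ (by simp [hYl']) (by simpa using hp') hqW
      intro v hv
      rcases List.mem_cons.1 hv with h | h
      · rw [h]; exact hxX
      · exact hY' v h
    · rcases hUalt with hUX | ⟨U', hU', hUl', hUp⟩
      · exact hX x hxX x' hxX' Y' U hY' hYl' hUX hp'
      · have hq' : x' ++ U'.flatten <+: x' ++ U.flatten :=
          (List.prefix_append_right_inj x').2 hUp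
        rcases List.prefix_or_prefix_of_prefix hp' hq' with h | h
        · exact hX x hxX x' hxX' Y' U' hY' hYl' hU' h
        · exact (hX x' hxX' x hxX U' Y' hU' hUl' hY' h).symm


/-! ### right_iff -/
theorem right_iff_mem {A : Type*} (X : Set (List A)) (Y : List (List A))
    (h : ∀ y ∈ Y, y.reverse ∈ X) : ∀ y ∈ (Y.map List.reverse).reverse, y ∈ X := by
  intro y hy
  rw [List.mem_reverse, List.mem_map] at hy
  obtain ⟨z, hz, rfl⟩ := hy
  exact h z hz

theorem right_iff_mem' {A : Type*} (X : Set (List A)) (Y : List (List A))
    (h : ∀ y ∈ Y, y ∈ X) : ∀ y ∈ (Y.map List.reverse).reverse, y ∈ {w : List A | w.reverse ∈ X} := by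
  intro y hy
  rw [List.mem_reverse, List.mem_map] at hy
  obtain ⟨z, hz, rfl⟩ := hy
  simpa using h z hz

/-- TARGET. Reversal exchanges the two delays. -/
theorem right_iff {A : Type*} (X : Set (List A)) (d : ℕ) :
    RightDelay X d ↔ LeftDelay {w | w.reverse ∈ X} d := by
  constructor
  · intro H x hx x' hx' Y U hY hYd hU h
    have := H x.reverse hx x'.reverse hx' (Y.map List.reverse).reverse (U.map List.reverse).reverse
      (right_iff_mem X Y hY) (by simpa using hYd) (right_iff_mem X U hU) (by
        rw [← List.reverse_flatten, ← List.reverse_flatten, ← List.reverse_append,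
          ← List.reverse_append, List.reverse_suffix]
        exact h)
    exact List.reverse_injective this
  · intro H x hx x' hx' Y U hY hYd hU h
    have := H x.reverse (by simpa using hx) x'.reverse (by simpa using hx')
      (Y.map List.reverse).reverse (U.map List.reverse).reverse
      (right_iff_mem' X Y hY) (by simpa using hYd) (right_iff_mem' X U hU) (by
        rw [← List.reverse_flatten, ← List.reverse_flatten, ← List.reverse_append,
          ← List.reverse_append, List.reverse_prefix]
        exact h)
    exact List.reverse_injective this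


/-! ### code_of_delay -/
theorem code_of_delay_nil {A : Type*} (Z : Set (List A)) (h0 : [] ∉ Z) (M : List (List A))
    (hM : ∀ x ∈ M, x ∈ Z) (h : M.flatten = []) : M = [] := by
  cases M with
  | nil => rfl
  | cons x M' =>
    exfalso
    rw [List.flatten_cons, List.append_eq_nil_iff] at h
    apply h0
    have := hM x (by simp)
    rw [h.1] at this
    exact this

/-- TARGET. A set of non-empty words with finite delay is a code. -/
theorem code_of_delay {A : Type*} (Z : Set (List A)) (h0 : [] ∉ Z) (d : ℕ) (hZ : LeftDelay Z d) :
    IsCode Z := by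
  intro L
  induction L with
  | nil =>
    intro M _ hM h
    rw [List.flatten_nil] at h
    exact (code_of_delay_nil Z h0 M hM h.symm).symm
  | cons x L' ih =>
    intro M hL hM h
    cases M with
    | nil =>
      rw [List.flatten_nil] at h
      exact code_of_delay_nil Z h0 _ hL h
    | cons x' M' =>
      have hx : x ∈ Z := hL x (by simp)
      have hx' : x' ∈ Z := hM x' (by simp)
      have hL' : ∀ y ∈ L', y ∈ Z := fun y hy => hL y (by simp [hy])
      have hM' : ∀ y ∈ M', y ∈ Z := fun y hy => hM y (by simp [hy])
      have hT : ∀ y ∈ List.replicate d x, y ∈ Z := by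
        intro y hy
        rw [(List.mem_replicate.1 hy).2]; exact hx
      have key : x = x' := by
        apply hZ x hx x' hx' ((L' ++ List.replicate d x).take d) (M' ++ List.replicate d x)
        · intro y hy
          have := List.mem_of_mem_take hy
          rw [List.mem_append] at this
          rcases this with h1 | h1
          · exact hL' y h1
          · exact hT y h1
        · rw [List.length_take, List.length_append, List.length_replicate]
          omega
        · intro y hy
          rw [List.mem_append] at hy
          rcases hy with h1 | h1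
          · exact hM' y h1
          · exact hT y h1
        · have e1 : x ++ (L' ++ List.replicate d x).flatten
              = x' ++ (M' ++ List.replicate d x).flatten := by
            rw [List.flatten_append, List.flatten_append, ← List.append_assoc, ← List.append_assoc]
            rw [List.flatten_cons, List.flatten_cons] at h
            rw [h]
          rw [← e1]
          have e2 : ((L' ++ List.replicate d x).take d).flatten
              ++ ((L' ++ List.replicate d x).drop d).flatten
              = (L' ++ List.replicate d x).flatten := by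
            rw [← List.flatten_append, List.take_append_drop]
          rw [← e2, ← List.append_assoc]
          exact List.prefix_append _ _
      subst key
      rw [List.flatten_cons, List.flatten_cons, List.append_cancel_left_eq] at h
      rw [ih M' hL' hM' h]


/-! ### enlarge -/
theorem enlarge_left_singleton {A : Type*} (a : List A) (d : ℕ) :
    LeftDelay (insert a (∅ : Set (List A))) d := by
  intro x hx x' hx' _ _ _ _ _ _
  simp only [insert_empty_eq, Set.mem_singleton_iff] at hx hx'
  rw [hx, hx']

theorem enlarge_right_singleton {A : Type*} (a : List A) (d : ℕ) :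
    RightDelay (insert a (∅ : Set (List A))) d := by
  intro x hx x' hx' _ _ _ _ _ _
  simp only [insert_empty_eq, Set.mem_singleton_iff] at hx hx'
  rw [hx, hx']

/-- TARGET. A code with bi-delay `(d, e)` which is not complete can be enlarged by one word. -/
theorem enlarge {A : Type*} (X : Set (List A)) (d e : ℕ) (hX : IsCode X) (hl : LeftDelay X d)
    (hr : RightDelay X e) (hc : ¬ IsComplete X) :
    ∃ z, z ∉ X ∧ IsCode (insert z X) ∧ LeftDelay (insert z X) d ∧ RightDelay (insert z X) e := by
  have h0 : [] ∉ X := by
    intro h
    have := hX [[]] [] (by simpa using h) (by simp) (by simp)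
    simp at this
  unfold IsComplete at hc
  push Not at hc
  obtain ⟨w, hw⟩ := hc
  have hw' : ∀ U : List (List A), (∀ u ∈ U, u ∈ X) → ¬ w <:+: U.flatten := fun U hU => hw U hU
  have hwne : w ≠ [] := by
    rintro rfl
    exact hw' [] (by simp) (by simp)
  rcases X.eq_empty_or_nonempty with hemp | hne
  · subst hemp
    cases w with
    | nil => exact absurd rfl hwne
    | cons a w' =>
      refine ⟨[a], by simp, ?_, enlarge_left_singleton [a] d, enlarge_right_singleton [a] e⟩
      exact code_of_delay _ (by simp) d (enlarge_left_singleton [a] d)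
  · obtain ⟨q, hq1, hq2, hq3⟩ := exists_q X h0 hne w hw' d
    have h0r : [] ∉ {v : List A | v.reverse ∈ X} := by
      simpa using h0
    have hner : ({v : List A | v.reverse ∈ X}).Nonempty := by
      obtain ⟨x, hx⟩ := hne
      exact ⟨x.reverse, by simpa using hx⟩
    have hwr : ∀ U : List (List A), (∀ u ∈ U, u ∈ {v : List A | v.reverse ∈ X}) →
        ¬ w.reverse <:+: U.flatten := by
      intro U hU hcon
      apply hw' (U.map List.reverse).reverse
      · intro u hu
        rw [List.mem_reverse, List.mem_map] at hu
        obtain ⟨v, hv, rfl⟩ := hu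
        exact hU v hv
      · rw [← List.reverse_flatten, ← List.reverse_infix, List.reverse_reverse]
        exact hcon
    obtain ⟨q', hq1', hq2', hq3'⟩ := exists_q {v : List A | v.reverse ∈ X} h0r hner w.reverse hwr e
    have hL : LeftDelay (insert (q ++ q'.reverse) X) d :=
      left_insert X d hl q (q ++ q'.reverse) (List.prefix_append _ _) hq1 hq2 hq3
    have hset : {v : List A | v.reverse ∈ insert (q ++ q'.reverse) X}
        = insert (q ++ q'.reverse).reverse {v : List A | v.reverse ∈ X} := by
      ext v
      simp only [Set.mem_ofPred_eq, Set.mem_insert_iff]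
      constructor
      · rintro (h | h)
        · left; rw [← h, List.reverse_reverse]
        · right; exact h
      · rintro (h | h)
        · left; rw [h, List.reverse_reverse]
        · right; exact h
    have hR : RightDelay (insert (q ++ q'.reverse) X) e := by
      rw [right_iff, hset]
      refine left_insert _ e ((right_iff X e).mp hr) q' _ ?_ hq1' hq2' hq3'
      rw [List.reverse_append, List.reverse_reverse]
      exact List.prefix_append _ _
    refine ⟨q ++ q'.reverse, ?_, ?_, hL, hR⟩
    · intro hz
      refine hq2 [q ++ q'.reverse] (by simpa using hz) ?_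
      simp
    · refine code_of_delay _ ?_ d hL
      intro h
      rw [Set.mem_insert_iff] at h
      rcases h with h | h
      · have hqe : q = [] := by
          have := congrArg List.length h
          simp at this
          exact List.eq_nil_of_length_eq_zero (by omega)
        exact hq2 [] (by simp) (by rw [hqe]; simp)
      · exact h0 h


/-! ### chain_union -/
theorem chain_union_fin {A : Type*} (c : Set (Set (List A))) (hne : c.Nonempty)
    (hc : IsChain (· ⊆ ·) c) (L : List (List A)) (hL : ∀ x ∈ L, x ∈ ⋃₀ c) :
    ∃ X ∈ c, ∀ x ∈ L, x ∈ X := by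
  induction L with
  | nil =>
    obtain ⟨X, hX⟩ := hne
    exact ⟨X, hX, by simp⟩
  | cons a L ih =>
    obtain ⟨X, hX, hXL⟩ := ih (fun x hx => hL x (List.mem_cons_of_mem _ hx))
    obtain ⟨Y, hY, haY⟩ := hL a List.mem_cons_self
    rcases hc.total hX hY with h | h
    · refine ⟨Y, hY, ?_⟩
      intro x hx
      rcases List.mem_cons.1 hx with rfl | hx
      · exact haY
      · exact h (hXL x hx)
    · refine ⟨X, hX, ?_⟩
      intro x hx
      rcases List.mem_cons.1 hx with rfl | hx
      · exact h haY
      · exact hXL x hx

/-- TARGET. Unions of chains. -/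
theorem chain_union {A : Type*} (c : Set (Set (List A))) (hne : c.Nonempty)
    (hc : IsChain (· ⊆ ·) c) (d e : ℕ)
    (h : ∀ X ∈ c, IsCode X ∧ LeftDelay X d ∧ RightDelay X e) :
    IsCode (⋃₀ c) ∧ LeftDelay (⋃₀ c) d ∧ RightDelay (⋃₀ c) e := by
  refine ⟨?_, ?_, ?_⟩
  · intro L M hL hM hLM
    obtain ⟨X, hX, hall⟩ := chain_union_fin c hne hc (L ++ M) (by
      intro x hx
      rcases List.mem_append.1 hx with hx | hx
      · exact hL x hx
      · exact hM x hx)
    exact (h X hX).1 L M (fun x hx => hall x (List.mem_append_left _ hx))
      (fun x hx => hall x (List.mem_append_right _ hx)) hLM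
  · intro x hx x' hx' Y U hY hYd hU hp
    obtain ⟨X, hX, hall⟩ := chain_union_fin c hne hc (x :: x' :: (Y ++ U)) (by
      intro z hz
      rcases List.mem_cons.1 hz with rfl | hz
      · exact hx
      rcases List.mem_cons.1 hz with rfl | hz
      · exact hx'
      rcases List.mem_append.1 hz with hz | hz
      · exact hY z hz
      · exact hU z hz)
    exact (h X hX).2.1 x (hall x (by simp)) x' (hall x' (by simp)) Y U
      (fun y hy => hall y (by simp [hy])) hYd (fun u hu => hall u (by simp [hu])) hp
  · intro x hx x' hx' Y U hY hYd hU hp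
    obtain ⟨X, hX, hall⟩ := chain_union_fin c hne hc (x :: x' :: (Y ++ U)) (by
      intro z hz
      rcases List.mem_cons.1 hz with rfl | hz
      · exact hx
      rcases List.mem_cons.1 hz with rfl | hz
      · exact hx'
      rcases List.mem_append.1 hz with hz | hz
      · exact hY z hz
      · exact hU z hz)
    exact (h X hX).2.2 x (hall x (by simp)) x' (hall x' (by simp)) Y U
      (fun y hy => hall y (by simp [hy])) hYd (fun u hu => hall u (by simp [hu])) hp


/-! ### exists_complete -/
/-- TARGET. Every code with bi-delay `(d, e)` is contained in a complete one. -/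
theorem exists_complete {A : Type*} (X : Set (List A)) (d e : ℕ) (hX : IsCode X)
    (hl : LeftDelay X d) (hr : RightDelay X e) :
    ∃ Y : Set (List A), X ⊆ Y ∧ IsCode Y ∧ LeftDelay Y d ∧ RightDelay Y e ∧ IsComplete Y := by
  classical
  let S : Set (Set (List A)) := {Y | IsCode Y ∧ LeftDelay Y d ∧ RightDelay Y e}
  have hXS : X ∈ S := ⟨hX, hl, hr⟩
  obtain ⟨Y, hXY, hmax⟩ := zorn_subset_nonempty S (by
    intro c hcS hch hne
    refine ⟨⋃₀ c, ?_, ?_⟩
    · exact chain_union c hne hch d e (fun Z hZ => hcS hZ)
    · intro Z hZ
      exact Set.subset_sUnion_of_mem hZ) X hXS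
  have hYS : Y ∈ S := hmax.prop
  refine ⟨Y, hXY, hYS.1, hYS.2.1, hYS.2.2, ?_⟩
  by_contra hc
  obtain ⟨z, hzY, h1, h2, h3⟩ := enlarge Y d e hYS.1 hYS.2.1 hYS.2.2 hc
  have hins : insert z Y ∈ S := ⟨h1, h2, h3⟩
  have hle : insert z Y ≤ Y := hmax.le_of_ge hins (Set.subset_insert z Y)
  exact hzY (hle (Set.mem_insert z Y))


/-! ### regular_insert -/
theorem regular_insert_single {A : Type*} (z : List A) :
    Language.IsRegular (T := A) ({z} : Set (List A)) := by
  apply Language.IsRegular.of_finite_range_leftQuotient
  have hfin : (insert (∅ : Set (List A))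
      ((fun k => ({z.drop k} : Set (List A))) '' (Set.Iic z.length))).Finite :=
    ((Set.finite_Iic _).image _).insert _
  refine Set.Finite.subset hfin ?_
  rintro L ⟨x, rfl⟩
  by_cases h : x <+: z
  · obtain ⟨t, rfl⟩ := h
    right
    refine ⟨x.length, by simp, ?_⟩
    apply Set.ext
    intro y
    change y ∈ ({(x ++ t).drop x.length} : Set (List A)) ↔ x ++ y ∈ ({x ++ t} : Set (List A))
    simp
  · left
    apply Set.ext
    intro y
    change x ++ y ∈ ({z} : Set (List A)) ↔ y ∈ (∅ : Set (List A))
    simp only [Set.mem_singleton_iff, Set.mem_empty_iff_false, iff_false]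
    intro h1
    exact h ⟨y, h1⟩

/-- TARGET. Adding one word preserves regularity. -/
theorem regular_insert {A : Type*} (X : Set (List A)) (z : List A)
    (hX : Language.IsRegular (T := A) X) : Language.IsRegular (T := A) (insert z X) := by
  have h := Language.IsRegular.add (regular_insert_single z) hX
  have e : insert z X = ({z} : Set (List A)) ∪ X := Set.insert_eq z X
  exact e ▸ h

end Pool.Agent.Helper597.BiDelay
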