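import Mathlib

set_option autoImplicit false

namespace Pool.Agent.Helper597.Don

open Finset

/-- the action of a word (`true` is the letter `a`, acting by `f`; `false` is the letter `b`) -/
def run {n : ℕ} (f : ZMod n → ZMod n) (w : List Bool) (q : ZMod n) : ZMod n :=
  w.foldl (fun (p : ZMod n) (c : Bool) => if c then f p else p + 1) q

/-- backward moves on sets of holes, with their costs: rotation by `1`; preimage under `a` keeping
the hole `0`; preimage under `a` removing the hole `0` (allowed if `d` is not a hole) -/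
inductive Mv {n : ℕ} (π : Equiv.Perm (ZMod n)) (d : ZMod n) :
    ℕ → Finset (ZMod n) → Finset (ZMod n) → Prop
  | refl (T : Finset (ZMod n)) : Mv π d 0 T T
  | rot {c : ℕ} {T T' : Finset (ZMod n)} :
      Mv π d c (T.image (fun x => x - 1)) T' → Mv π d (c + 1) T T'
  | keep {c : ℕ} {T T' : Finset (ZMod n)} : (0 : ZMod n) ∈ T →
      Mv π d c (T.image (fun x => π.symm x)) T' → Mv π d (c + 1) T T'
  | rem {c : ℕ} {T T' : Finset (ZMod n)} : (0 : ZMod n) ∈ T → d ∉ T →
      Mv π d c ((T.image (fun x => π.symm x)).erase 0) T' → Mv π d (c + 1) T T'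

/-- with cost at most `c` one reaches a set of the same size that contains `0` and not `d` -/
def Reach {n : ℕ} (π : Equiv.Perm (ZMod n)) (d : ZMod n) (c : ℕ) (T : Finset (ZMod n)) : Prop :=
  ∃ c' ≤ c, ∃ E : Finset (ZMod n), Mv π d c' T E ∧ (0 : ZMod n) ∈ E ∧ d ∉ E ∧ E.card = T.card

/-- the subgroup generated by the orbit of `d`, and its successive enlargements -/
def Pc {n : ℕ} (π : Equiv.Perm (ZMod n)) (d : ZMod n) : ℕ → AddSubgroup (ZMod n)
  | 0 => AddSubgroup.closure (Set.range fun i : ℕ => (π ^ i) d)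
  | (i + 1) => AddSubgroup.closure
      ((Pc π d i : Set (ZMod n)) ∪ (fun x => π x) '' (Pc π d i : Set (ZMod n)))

/-- `T` is periodic with respect to `P` -/
def Per {n : ℕ} (P : AddSubgroup (ZMod n)) (T : Finset (ZMod n)) : Prop :=
  ∀ p ∈ P, ∀ x ∈ T, x + p ∈ T

/-- no proper subgroup containing the orbit of `d` is invariant (follows from complete
reachability) -/
def Rig {n : ℕ} (π : Equiv.Perm (ZMod n)) (d : ZMod n) : Prop :=
  ∀ P : AddSubgroup (ZMod n), P ≠ ⊤ → (∀ i : ℕ, (π ^ i) d ∈ P) → ∃ x ∈ P, π x ∉ P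

/-- the stabiliser of a set -/
def stab {n : ℕ} (A : Finset (ZMod n)) : AddSubgroup (ZMod n) where
  carrier := {s | ∀ x, x ∈ A ↔ x + s ∈ A}
  zero_mem' := by intro x; simp
  add_mem' := by
    intro a b ha hb x
    rw [ha x, hb (x + a), add_assoc]
  neg_mem' := by
    intro a ha x
    rw [ha (x + -a)]
    simp

/-- the relative sizes of the subgroups `Pc` (zero for the whole group) -/
noncomputable def Nf {n : ℕ} (π : Equiv.Perm (ZMod n)) (d : ZMod n) (l : ℕ) : ℕ := by
  classical
  exact if Pc π d l = ⊤ then 0 else Nat.card (Pc π d l) / Nat.card (Pc π d 0)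

/-- the sum of the quotients `q / N (l+1)` -/
def Th (N : ℕ → ℕ) (n q : ℕ) : ℕ := ∑ l ∈ Finset.range n, q / N (l + 1)


/-! ### a -/

/-- TARGET the permutation -/
theorem perm_exists {n : ℕ} [NeZero n] (f : ZMod n → ZMod n)
    (h1 : ∀ q : ZMod n, (∀ p : ZMod n, f p ≠ q) ↔ q = 0)
    (h2 : ∀ q : ZMod n, (∃ p₁ p₂ : ZMod n, p₁ ≠ p₂ ∧ f p₁ = q ∧ f p₂ = q) ↔ q = f 0) :
    ∃ π : Equiv.Perm (ZMod n), π 0 = 0 ∧ (∀ x, x ≠ 0 → π x = f x) ∧ f 0 ≠ 0 := by
  classical
  have hf0 : ∀ p, f p ≠ 0 := (h1 0).mpr rfl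
  have himg : (Finset.univ : Finset (ZMod n)).image f = Finset.univ.erase 0 := by
    ext q
    rw [Finset.mem_image, Finset.mem_erase]
    constructor
    · rintro ⟨p, _, rfl⟩
      exact ⟨hf0 p, Finset.mem_univ _⟩
    · rintro ⟨hq, _⟩
      by_contra hcon
      apply hq
      apply (h1 q).mp
      intro p hp
      exact hcon ⟨p, Finset.mem_univ _, hp⟩
  have hinj : ∀ p₁ p₂ : ZMod n, p₁ ≠ 0 → p₂ ≠ 0 → f p₁ = f p₂ → p₁ = p₂ := by
    intro p₁ p₂ hp₁ hp₂ he
    by_contra hne
    have hf : f p₁ = f 0 := (h2 (f p₁)).mp ⟨p₁, p₂, hne, rfl, he.symm⟩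
    have himg2 : ((Finset.univ.erase p₁).erase p₂).image f = Finset.univ.erase 0 := by
      rw [← himg]
      ext q
      simp only [Finset.mem_image, Finset.mem_erase, Finset.mem_univ, and_true, true_and]
      constructor
      · rintro ⟨p, _, rfl⟩
        exact ⟨p, rfl⟩
      · rintro ⟨p, rfl⟩
        by_cases hp : p = p₁ ∨ p = p₂
        · refine ⟨0, ⟨hp₂.symm, hp₁.symm⟩, ?_⟩
          rcases hp with rfl | rfl
          · exact hf.symm
          · rw [← he]; exact hf.symm
        · push Not at hp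
          exact ⟨p, ⟨hp.2, hp.1⟩, rfl⟩
    have hc := Finset.card_image_le (s := ((Finset.univ : Finset (ZMod n)).erase p₁).erase p₂)
      (f := f)
    rw [himg2, Finset.card_erase_of_mem (Finset.mem_univ _),
      Finset.card_erase_of_mem (Finset.mem_erase.mpr ⟨fun h => hne h.symm, Finset.mem_univ _⟩),
      Finset.card_erase_of_mem (Finset.mem_univ _)] at hc
    have hc2 : 1 < (Finset.univ : Finset (ZMod n)).card :=
      Finset.one_lt_card.mpr ⟨p₁, Finset.mem_univ _, p₂, Finset.mem_univ _, hne⟩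
    omega
  let g : ZMod n → ZMod n := fun x => if x = 0 then 0 else f x
  have hg : Function.Injective g := by
    intro x y hxy
    simp only [g] at hxy
    by_cases hx : x = 0
    · by_cases hy : y = 0
      · rw [hx, hy]
      · rw [if_pos hx, if_neg hy] at hxy
        exact absurd hxy.symm (hf0 y)
    · by_cases hy : y = 0
      · rw [if_neg hx, if_pos hy] at hxy
        exact absurd hxy (hf0 x)
      · rw [if_neg hx, if_neg hy] at hxy
        exact hinj x y hx hy hxy
  refine ⟨Equiv.ofBijective g (Finite.injective_iff_bijective.mp hg), ?_, ?_, hf0 0⟩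
  · simp [g]
  · intro x hx
    simp [g, hx]


/-! ### b -/

theorem b_run_append {n : ℕ} (f : ZMod n → ZMod n) (w : List Bool) (c : Bool) (q : ZMod n) :
    run f (w ++ [c]) q = if c then f (run f w q) else run f w q + 1 := by
  unfold run
  rw [List.foldl_append]
  rfl

/-- TARGET rigidity from complete reachability -/
theorem rig_of_cr {n : ℕ} [NeZero n] (f : ZMod n → ZMod n) (π : Equiv.Perm (ZMod n))
    (h0 : π 0 = 0) (hπ : ∀ x, x ≠ 0 → π x = f x) (hf0 : f 0 ≠ 0)
    (hcr : ∀ P : Finset (ZMod n), P.Nonempty → ∃ w : List Bool, univ.image (run f w) = P) :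
    Rig π (f 0) := by
  classical
  intro P hP horb
  by_contra hcon
  push Not at hcon
  have hd : f 0 ∈ P := by simpa using horb 0
  have hiff : ∀ x, π x ∈ P → x ∈ P := by
    intro x hx
    let g : P → P := fun y => ⟨π y.1, hcon y.1 y.2⟩
    have hginj : Function.Injective g := by
      intro a b hab
      have : π a.1 = π b.1 := congrArg Subtype.val hab
      exact Subtype.ext (π.injective this)
    have hgsurj : Function.Surjective g := Finite.surjective_of_injective hginj
    obtain ⟨y, hy⟩ := hgsurj ⟨π x, hx⟩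
    have h1 : π y.1 = π x := congrArg Subtype.val hy
    have h2 := π.injective h1
    rw [← h2]
    exact y.2
  have hrange : ∀ z, f z ≠ 0 := by
    intro z hz
    by_cases h : z = 0
    · rw [h] at hz
      exact hf0 hz
    · have h1 := hπ z h
      rw [hz, ← h0] at h1
      exact h (π.injective h1)
  have hclaim : ∀ (w : List Bool) (x : ZMod n),
      univ.image (run f w) ≠ univ.filter (fun y => y - x ∉ P) := by
    intro w
    induction w using List.reverseRecOn with
    | nil =>
      intro x hx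
      have h1 : x ∈ univ.image (run f []) := by
        rw [Finset.mem_image]
        exact ⟨x, Finset.mem_univ _, rfl⟩
      rw [hx] at h1
      simp [P.zero_mem] at h1
    | append_singleton w c ih =>
      intro x hx
      have himg : ∀ y, y ∈ univ.image (run f (w ++ [c])) ↔ y - x ∉ P := by
        intro y
        rw [hx]
        simp
      cases c with
      | false =>
        apply ih (x - 1)
        ext y
        have h1 := himg (y + 1)
        have h2 : y + 1 ∈ univ.image (run f (w ++ [false])) ↔ y ∈ univ.image (run f w) := by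
          simp only [Finset.mem_image, Finset.mem_univ, true_and, b_run_append]
          simp
        rw [← h2, h1]
        simp only [Finset.mem_filter, Finset.mem_univ, true_and]
        rw [show y + 1 - x = y - (x - 1) by ring]
      | true =>
        have h2 : ∀ y, y ∈ univ.image (run f (w ++ [true])) ↔
            ∃ z ∈ univ.image (run f w), f z = y := by
          intro y
          simp only [Finset.mem_image, Finset.mem_univ, true_and, b_run_append]
          simp
        have hxP : x ∈ P := by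
          by_contra hxP
          have h3 : (0 : ZMod n) - x ∉ P := by
            rw [zero_sub]
            intro h
            exact hxP (by simpa using P.neg_mem h)
          have h4 := (himg 0).mpr h3
          rw [h2] at h4
          obtain ⟨z, -, hz⟩ := h4
          exact hrange z hz
        have h5 : ∀ y, (∃ z ∈ univ.image (run f w), f z = y) ↔ y ∉ P := by
          intro y
          rw [← h2, himg]
          constructor
          · intro h h'
            exact h (P.sub_mem h' hxP)
          · intro h h'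
            exact h (by simpa using P.add_mem h' hxP)
        apply ih 0
        ext z
        simp only [Finset.mem_filter, Finset.mem_univ, true_and, sub_zero]
        constructor
        · intro hz
          have h6 := (h5 (f z)).mp ⟨z, hz, rfl⟩
          intro hzP
          by_cases hz0 : z = 0
          · rw [hz0] at h6
            exact h6 hd
          · rw [← hπ z hz0] at h6
            exact h6 (hcon z hzP)
        · intro hz
          obtain ⟨z', hz', hfz'⟩ := (h5 (π z)).mpr (fun h => hz (hiff z h))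
          have hz'0 : z' ≠ 0 := by
            intro h
            rw [h] at hfz'
            apply hz
            apply hiff
            rw [← hfz']
            exact hd
          rw [← hπ z' hz'0] at hfz'
          rw [← π.injective hfz']
          exact hz'
  obtain ⟨y, hy⟩ : ∃ y, y ∉ P := by
    by_contra hall
    push Not at hall
    exact hP (by
      rw [AddSubgroup.eq_top_iff']
      exact hall)
  obtain ⟨w, hw⟩ := hcr (univ.filter (fun y => y - 0 ∉ P)) ⟨y, by simp [hy]⟩
  exact hclaim w 0 hw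


/-! ### c -/

theorem c_image_append {n : ℕ} [NeZero n] (f : ZMod n → ZMod n) (w : List Bool) (b : Bool)
    (y : ZMod n) :
    y ∈ univ.image (run f (w ++ [b])) ↔
      ∃ x ∈ univ.image (run f w), (if b then f x else x + 1) = y := by
  simp only [mem_image, mem_univ, true_and, run, List.foldl_append, List.foldl_cons,
    List.foldl_nil]
  constructor
  · rintro ⟨q, rfl⟩
    exact ⟨_, ⟨q, rfl⟩, rfl⟩
  · rintro ⟨x, ⟨q, rfl⟩, rfl⟩
    exact ⟨q, rfl⟩

/-- TARGET words from moves -/
theorem word_of_mv {n : ℕ} [NeZero n] (f : ZMod n → ZMod n) (π : Equiv.Perm (ZMod n))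
    (h0 : π 0 = 0) (hπ : ∀ x, x ≠ 0 → π x = f x) {c : ℕ} {T T' : Finset (ZMod n)}
    (h : Mv π (f 0) c T T') :
    ∀ w : List Bool, univ.image (run f w) = T'ᶜ →
      ∃ w' : List Bool, w'.length = w.length + c ∧ univ.image (run f w') = Tᶜ := by
  have hs0 : π.symm 0 = 0 := by rw [Equiv.symm_apply_eq]; exact h0.symm
  induction h with
  | refl T => intro w hw; exact ⟨w, rfl, hw⟩
  | @rot c T T' _ ih =>
    intro w hw
    obtain ⟨w1, h1, h2⟩ := ih w hw
    refine ⟨w1 ++ [false], by rw [List.length_append, h1]; rfl, ?_⟩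
    ext y
    rw [c_image_append, h2]
    simp only [mem_compl, mem_image, not_exists, not_and]
    constructor
    · rintro ⟨x, hx, hxy⟩ hy
      apply hx y hy
      rw [← hxy]
      simp
    · intro hy
      refine ⟨y - 1, ?_, by simp⟩
      intro t ht hty
      have : t = y := by
        have := congrArg (fun z => z + 1) hty
        simpa using this
      exact hy (this ▸ ht)
  | @keep c T T' h0T _ ih =>
    intro w hw
    obtain ⟨w1, h1, h2⟩ := ih w hw
    refine ⟨w1 ++ [true], by rw [List.length_append, h1]; rfl, ?_⟩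
    ext y
    rw [c_image_append, h2]
    simp only [mem_compl, mem_image, not_exists, not_and, if_true]
    constructor
    · rintro ⟨x, hx, hxy⟩ hy
      have hx0 : x ≠ 0 := by
        intro h
        exact hx 0 h0T (by rw [hs0, h])
      rw [← hπ x hx0] at hxy
      apply hx y hy
      rw [← hxy, Equiv.symm_apply_apply]
    · intro hy
      have hx0 : π.symm y ≠ 0 := by
        intro h
        rw [Equiv.symm_apply_eq, h0] at h
        exact hy (h ▸ h0T)
      refine ⟨π.symm y, ?_, ?_⟩
      · intro t ht hty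
        exact hy ((π.symm.injective hty) ▸ ht)
      · rw [← hπ _ hx0, Equiv.apply_symm_apply]
  | @rem c T T' h0T hd _ ih =>
    intro w hw
    obtain ⟨w1, h1, h2⟩ := ih w hw
    refine ⟨w1 ++ [true], by rw [List.length_append, h1]; rfl, ?_⟩
    ext y
    rw [c_image_append, h2]
    simp only [mem_compl, mem_erase, mem_image, not_exists, not_and, if_true]
    constructor
    · rintro ⟨x, hx, hxy⟩ hy
      by_cases hx0 : x = 0
      · rw [hx0] at hxy
        exact hd (hxy ▸ hy)
      · rw [← hπ x hx0] at hxy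
        apply hx hx0 y hy
        rw [← hxy, Equiv.symm_apply_apply]
    · intro hy
      have hx0 : π.symm y ≠ 0 := by
        intro h
        rw [Equiv.symm_apply_eq, h0] at h
        exact hy (h ▸ h0T)
      refine ⟨π.symm y, ?_, ?_⟩
      · intro _ t ht hty
        exact hy ((π.symm.injective hty) ▸ ht)
      · rw [← hπ _ hx0, Equiv.apply_symm_apply]


/-! ### d -/

/-- TARGET composition of moves -/
theorem mv_trans {n : ℕ} {π : Equiv.Perm (ZMod n)} {d : ZMod n} {a b : ℕ}
    {T T' T'' : Finset (ZMod n)} (h : Mv π d a T T') (h' : Mv π d b T' T'') :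
    Mv π d (a + b) T T'' := by
  induction h with
  | refl T => rwa [Nat.zero_add]
  | rot h ih =>
    have := Mv.rot (ih h')
    rwa [Nat.add_right_comm] at this
  | keep h0 h ih =>
    have := Mv.keep h0 (ih h')
    rwa [Nat.add_right_comm] at this
  | rem h0 hd h ih =>
    have := Mv.rem h0 hd (ih h')
    rwa [Nat.add_right_comm] at this

theorem d_mv_rot_nat {n : ℕ} (π : Equiv.Perm (ZMod n)) (d : ZMod n) (m : ℕ) :
    ∀ T : Finset (ZMod n), Mv π d m T (T.image (fun x => x - (m : ZMod n))) := by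
  induction m with
  | zero =>
    intro T
    have : T.image (fun x => x - ((0 : ℕ) : ZMod n)) = T := by
      simp
    rw [this]
    exact Mv.refl T
  | succ m ih =>
    intro T
    apply Mv.rot
    have h := ih (T.image (fun x => x - 1))
    rw [Finset.image_image] at h
    have h2 : ((fun x : ZMod n => x - (m : ZMod n)) ∘ fun x => x - 1) =
        fun x => x - ((m + 1 : ℕ) : ZMod n) := by
      funext x
      simp only [Function.comp]
      push_cast
      ring
    rw [h2] at h
    exact h

/-- TARGET rotation by `y` costs `y` -/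
theorem mv_rot {n : ℕ} [NeZero n] (π : Equiv.Perm (ZMod n)) (d : ZMod n) (T : Finset (ZMod n))
    (y : ZMod n) : Mv π d y.val T (T.image (fun x => x - y)) := by
  have h := d_mv_rot_nat π d y.val T
  rwa [ZMod.natCast_zmod_val] at h

/-- TARGET repeated keep -/
theorem mv_keep {n : ℕ} (π : Equiv.Perm (ZMod n)) (d : ZMod n) (h0 : π 0 = 0)
    (T : Finset (ZMod n)) (hT : (0 : ZMod n) ∈ T) (i : ℕ) :
    Mv π d i T (T.image (fun x => (π ^ i).symm x)) := by
  have h0' : π.symm 0 = 0 := by
    rw [Equiv.symm_apply_eq]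
    exact h0.symm
  induction i generalizing T with
  | zero =>
    have : T.image (fun x => (π ^ 0).symm x) = T := by
      have : (fun x : ZMod n => (π ^ 0).symm x) = id := by
        funext x
        rw [pow_zero]
        rfl
      rw [this, Finset.image_id]
    rw [this]
    exact Mv.refl T
  | succ i ih =>
    apply Mv.keep hT
    have h1 : (0 : ZMod n) ∈ T.image (fun x => π.symm x) :=
      Finset.mem_image.2 ⟨0, hT, h0'⟩
    have h := ih _ h1
    rw [Finset.image_image] at h
    have h2 : ((fun x : ZMod n => (π ^ i).symm x) ∘ fun x => π.symm x) =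
        fun x => (π ^ (i + 1)).symm x := by
      funext x
      simp only [Function.comp]
      rw [Equiv.symm_apply_eq, pow_succ']
      have h3 : (π ^ i) ((π * π ^ i).symm x) = π.symm x := by
        rw [Equiv.eq_symm_apply]
        exact (π * π ^ i).apply_symm_apply x
      exact h3.symm
    rw [h2] at h
    exact h

/-- TARGET monotonicity -/
theorem reach_mono {n : ℕ} {π : Equiv.Perm (ZMod n)} {d : ZMod n} {a b : ℕ}
    {T : Finset (ZMod n)} (hab : a ≤ b) (h : Reach π d a T) : Reach π d b T := by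
  obtain ⟨c, hc, E, h⟩ := h
  exact ⟨c, hc.trans hab, E, h⟩


/-! ### e -/

theorem e_sub_inj {n : ℕ} (y : ZMod n) : Function.Injective (fun x : ZMod n => x - y) := by
  intro a b h
  have h' : a - y = b - y := h
  exact sub_left_injective h'

/-- TARGET basic way to reach -/
theorem reach_of {n : ℕ} [NeZero n] (π : Equiv.Perm (ZMod n)) (d : ZMod n) (h0 : π 0 = 0)
    (T : Finset (ZMod n)) (y : ZMod n) (i : ℕ) (hy : y ∈ T) (hyd : y + (π ^ i) d ∉ T) :
    Reach π d (y.val + i) T := by
  have h0' : (0 : ZMod n) ∈ T.image (fun x => x - y) := by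
    refine Finset.mem_image.2 ⟨y, hy, ?_⟩
    show y - y = 0
    exact sub_self y
  have hpi : ∀ j : ℕ, (π ^ j) (0 : ZMod n) = 0 := by
    intro j
    induction j with
    | zero => simp
    | succ j ih => rw [pow_succ, Equiv.Perm.mul_apply, h0, ih]
  refine ⟨y.val + i, le_refl _, (T.image (fun x => x - y)).image (fun x => (π ^ i).symm x),
    mv_trans (mv_rot π d T y) (mv_keep π d h0 _ h0' i), ?_, ?_, ?_⟩
  · refine Finset.mem_image.2 ⟨0, h0', ?_⟩
    show (π ^ i).symm 0 = 0
    rw [Equiv.symm_apply_eq, hpi i]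
  · intro hd
    obtain ⟨z, hz, hzd⟩ := Finset.mem_image.1 hd
    obtain ⟨x, hx, hxz⟩ := Finset.mem_image.1 hz
    have hzd' : (π ^ i).symm z = d := hzd
    have hxz' : x - y = z := hxz
    rw [Equiv.symm_apply_eq] at hzd'
    apply hyd
    rw [← hzd', ← hxz']
    have : y + (x - y) = x := by ring
    rw [this]
    exact hx
  · rw [Finset.card_image_of_injective _ (Equiv.injective _),
      Finset.card_image_of_injective _ (e_sub_inj y)]

/-- TARGET rotate, then reach -/
theorem reach_rot {n : ℕ} [NeZero n] {π : Equiv.Perm (ZMod n)} {d : ZMod n} {c : ℕ}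
    {T : Finset (ZMod n)} (y : ZMod n) (h : Reach π d c (T.image (fun x => x - y))) :
    Reach π d (y.val + c) T := by
  obtain ⟨c', hc', E, hE, h0E, hdE, hcard⟩ := h
  refine ⟨y.val + c', by omega, E, mv_trans (mv_rot π d T y) hE, h0E, hdE, ?_⟩
  rw [hcard, Finset.card_image_of_injective _ (e_sub_inj y)]

/-- TARGET rotate, keep, then reach -/
theorem reach_rot_keep {n : ℕ} [NeZero n] {π : Equiv.Perm (ZMod n)} {d : ZMod n} {c : ℕ}
    {T : Finset (ZMod n)} (y : ZMod n) (hy : y ∈ T)
    (h : Reach π d c ((T.image (fun x => x - y)).image (fun x => π.symm x))) :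
    Reach π d (y.val + 1 + c) T := by
  obtain ⟨c', hc', E, hE, h0E, hdE, hcard⟩ := h
  have h0' : (0 : ZMod n) ∈ T.image (fun x => x - y) := by
    refine Finset.mem_image.2 ⟨y, hy, ?_⟩
    show y - y = 0
    exact sub_self y
  refine ⟨y.val + (c' + 1), by omega, E,
    mv_trans (mv_rot π d T y) (Mv.keep h0' hE), h0E, hdE, ?_⟩
  rw [hcard, Finset.card_image_of_injective _ (Equiv.injective _),
    Finset.card_image_of_injective _ (e_sub_inj y)]

/-- TARGET remove one hole after reaching -/
theorem remove {n : ℕ} {π : Equiv.Perm (ZMod n)} {d : ZMod n} (h0 : π 0 = 0) {c : ℕ}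
    {T : Finset (ZMod n)} (h : Reach π d c T) :
    ∃ c' ≤ c + 1, ∃ T' : Finset (ZMod n), Mv π d c' T T' ∧ T'.card + 1 = T.card := by
  obtain ⟨c', hc', E, hE, h0E, hdE, hcard⟩ := h
  refine ⟨c' + 1, by omega, (E.image (fun x => π.symm x)).erase 0,
    mv_trans hE (Mv.rem h0E hdE (Mv.refl _)), ?_⟩
  have h0' : (0 : ZMod n) ∈ E.image (fun x => π.symm x) := by
    refine Finset.mem_image.2 ⟨0, h0E, ?_⟩
    show π.symm 0 = 0
    rw [Equiv.symm_apply_eq, h0]
  have hc : (E.image (fun x => π.symm x)).card = E.card :=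
    Finset.card_image_of_injective _ (Equiv.injective _)
  have hpos : 0 < (E.image (fun x => π.symm x)).card := Finset.card_pos.2 ⟨0, h0'⟩
  rw [Finset.card_erase_of_mem h0', ← hcard, ← hc]
  omega


/-! ### f -/

/-- TARGET index times cardinality -/
theorem idx_card {n : ℕ} [NeZero n] (P : AddSubgroup (ZMod n)) : P.index * Nat.card P = n := by
  rw [AddSubgroup.index_mul_card, Nat.card_zmod]

/-- TARGET small representatives modulo a subgroup -/
theorem small_rep {n : ℕ} [NeZero n] (P : AddSubgroup (ZMod n)) (y : ZMod n) :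
    ∃ z ∈ P, (y + z).val < P.index := by
  have hpos : 0 < P.index := by
    have h := idx_card P
    have hn : 0 < n := Nat.pos_of_ne_zero (NeZero.ne n)
    by_contra hc
    have h0 : P.index = 0 := by omega
    rw [h0, zero_mul] at h
    omega
  have hmem : ((P.index : ℕ) : ZMod n) ∈ P := by
    have h := AddSubgroup.nsmul_index_mem P (1 : ZMod n)
    rwa [nsmul_eq_mul, mul_one] at h
  refine ⟨-((y.val / P.index * P.index : ℕ) : ZMod n), ?_, ?_⟩
  · apply P.neg_mem
    have h := P.nsmul_mem hmem (y.val / P.index)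
    rw [nsmul_eq_mul] at h
    push_cast
    exact h
  · have hy : y = ((y.val : ℕ) : ZMod n) := (ZMod.natCast_zmod_val y).symm
    have hdiv : y.val % P.index + y.val / P.index * P.index = y.val := Nat.mod_add_div' _ _
    have e : y + -((y.val / P.index * P.index : ℕ) : ZMod n) =
        ((y.val % P.index : ℕ) : ZMod n) := by
      have h : y = ((y.val % P.index + y.val / P.index * P.index : ℕ) : ZMod n) := by
        rw [hdiv]
        exact hy
      calc y + -((y.val / P.index * P.index : ℕ) : ZMod n)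
          = ((y.val % P.index + y.val / P.index * P.index : ℕ) : ZMod n) +
            -((y.val / P.index * P.index : ℕ) : ZMod n) := by rw [← h]
        _ = _ := by
          rw [Nat.cast_add]
          ring
    rw [e, ZMod.val_natCast_of_lt]
    · exact Nat.mod_lt _ hpos
    · exact lt_of_le_of_lt (Nat.mod_le _ _) (ZMod.val_lt y)


/-! ### g -/

theorem g_dvd_val {n : ℕ} [NeZero n] (P : AddSubgroup (ZMod n)) (x : ZMod n) (hx : x ∈ P) :
    P.index ∣ x.val := by
  have h1 : addOrderOf (((1 : ZMod n) : ZMod n ⧸ P)) = Nat.card (ZMod n ⧸ P) := by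
    apply addOrderOf_eq_card_of_forall_mem_zmultiples
    intro y
    induction y using QuotientAddGroup.induction_on with
    | H z =>
      rw [AddSubgroup.mem_zmultiples_iff]
      refine ⟨(z.val : ℤ), ?_⟩
      rw [← QuotientAddGroup.mk_zsmul]
      congr 1
      simp
  have h2 : P.index = Nat.card (ZMod n ⧸ P) := rfl
  rw [h2, ← h1]
  apply addOrderOf_dvd_of_nsmul_eq_zero
  rw [← QuotientAddGroup.mk_nsmul]
  have h3 : x.val • (1 : ZMod n) = x := by simp
  rw [h3]
  exact (QuotientAddGroup.eq_zero_iff x).mpr hx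

theorem g_add_le (p a b : ℕ) (ha : p ∣ a) (hb : p ∣ b) (h : a < b) : a + p ≤ b := by
  obtain ⟨s, rfl⟩ := ha
  obtain ⟨t, rfl⟩ := hb
  have h1 : s < t := lt_of_mul_lt_mul_left h (Nat.zero_le p)
  calc p * s + p = p * (s + 1) := by ring
    _ ≤ p * t := Nat.mul_le_mul_left p h1

/-- TARGET values of elements of a subgroup -/
theorem mem_val_le {n : ℕ} [NeZero n] (P Q : AddSubgroup (ZMod n)) (hQP : Q ≤ P) (x : ZMod n)
    (hx : x ∈ P) (h : x.val < Q.index) : x.val + P.index ≤ Q.index := by
  exact g_add_le _ _ _ (g_dvd_val P x hx) (AddSubgroup.index_dvd_of_le hQP) h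

/-- TARGET the coset of `-1` -/
theorem coset_val {n : ℕ} [NeZero n] (P : AddSubgroup (ZMod n)) (hP : P ≠ ⊤) (z : ZMod n)
    (h1 : z + 1 ∈ P) (h2 : z ≠ -1) : z.val + 3 ≤ n := by
  have hp0 : P.index ≠ 0 := AddSubgroup.index_ne_zero_of_finite
  have hp1 : P.index ≠ 1 := fun h => hP (AddSubgroup.index_eq_one.mp h)
  have hn0 : 0 < n := Nat.pos_of_ne_zero (NeZero.ne n)
  have hz : z.val < n := ZMod.val_lt z
  have hpn : P.index ∣ n := ⟨Nat.card P, (idx_card P).symm⟩
  have hlt : z.val + 1 < n := by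
    by_contra hc
    apply h2
    have h3 : z.val + 1 = n := by omega
    have h4 : ((z.val + 1 : ℕ) : ZMod n) = 0 := by rw [h3]; exact ZMod.natCast_self n
    push_cast at h4
    rw [ZMod.natCast_zmod_val] at h4
    exact eq_neg_of_add_eq_zero_left h4
  have h1n : (1 : ZMod n).val = 1 := by
    rw [ZMod.val_one_eq_one_mod]
    exact Nat.mod_eq_of_lt (by omega)
  have hv : (z + 1).val = z.val + 1 := by
    rw [ZMod.val_add_of_lt (by rw [h1n]; exact hlt), h1n]
  have hd := g_dvd_val P _ h1
  rw [hv] at hd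
  have := g_add_le _ _ _ hd hpn hlt
  omega


/-! ### h -/

theorem h_first_out_leave {n : ℕ} (π : Equiv.Perm (ZMod n)) (d : ZMod n)
    (S : AddSubgroup (ZMod n)) (hS : ¬ Pc π d 0 ≤ S) : ∃ t : ℕ, (π ^ t) d ∉ S := by
  by_contra h
  push Not at h
  apply hS
  have h1 : Pc π d 0 = AddSubgroup.closure (Set.range fun i : ℕ => (π ^ i) d) := rfl
  rw [h1, AddSubgroup.closure_le]
  rintro _ ⟨i, rfl⟩
  exact h i

theorem h_first_out_inj {n : ℕ} (π : Equiv.Perm (ZMod n)) (d : ZMod n)
    (S : AddSubgroup (ZMod n)) (i : ℕ) (hi : (π ^ i) d ∉ S) (hmin : ∀ j < i, (π ^ j) d ∈ S)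
    (a b : ℕ) (hab : a < b) (hb : b < i) : (π ^ a) d ≠ (π ^ b) d := by
  intro h
  have h1 : (π ^ b) d = (π ^ a) ((π ^ (b - a)) d) := by
    rw [← Equiv.Perm.mul_apply, ← pow_add]
    congr 2
    omega
  rw [h1] at h
  have h2 : d = (π ^ (b - a)) d := (π ^ a).injective h
  have h3 : (π ^ i) d = (π ^ (i - (b - a))) ((π ^ (b - a)) d) := by
    rw [← Equiv.Perm.mul_apply, ← pow_add]
    congr 2
    omega
  rw [← h2] at h3
  apply hi
  rw [h3]
  exact hmin _ (by omega)

theorem h_first_out_ne {n : ℕ} (π : Equiv.Perm (ZMod n)) (d : ZMod n) (h0 : π 0 = 0)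
    (hd : d ≠ 0) (j : ℕ) : (π ^ j) d ≠ 0 := by
  have h1 : (π ^ j) 0 = 0 := by
    induction j with
    | zero => simp
    | succ j ih => rw [pow_succ, Equiv.Perm.mul_apply, h0, ih]
  intro h
  apply hd
  apply (π ^ j).injective
  rw [h, h1]

/-- TARGET the orbit of `d` leaves a subgroup early -/
theorem first_out {n : ℕ} [NeZero n] (π : Equiv.Perm (ZMod n)) (d : ZMod n) (h0 : π 0 = 0)
    (hd : d ≠ 0) (S : AddSubgroup (ZMod n)) (hS : ¬ Pc π d 0 ≤ S) :
    ∃ i : ℕ, (π ^ i) d ∉ S ∧ i + 1 ≤ Nat.card S := by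
  classical
  have hex := h_first_out_leave π d S hS
  have hi := Nat.find_spec hex
  have hmin : ∀ j < Nat.find hex, (π ^ j) d ∈ S := fun j hj => not_not.1 (Nat.find_min hex hj)
  generalize Nat.find hex = i at hi hmin
  refine ⟨i, hi, ?_⟩
  have hcard : (insert (0 : ZMod n) ((range i).image (fun j => (π ^ j) d))).card = i + 1 := by
    rw [card_insert_of_notMem, card_image_of_injOn, card_range]
    · intro a ha b hb hab
      have ha' : a < i := by simpa using ha
      have hb' : b < i := by simpa using hb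
      rcases lt_trichotomy a b with h | h | h
      · exact absurd hab (h_first_out_inj π d S i hi hmin a b h hb')
      · exact h
      · exact absurd hab.symm (h_first_out_inj π d S i hi hmin b a h ha')
    · intro hmem
      rw [mem_image] at hmem
      obtain ⟨j, _, hj⟩ := hmem
      exact h_first_out_ne π d h0 hd j hj
  rw [← hcard]
  have hsub : ((insert (0 : ZMod n) ((range i).image (fun j => (π ^ j) d)) : Finset (ZMod n)) :
      Set (ZMod n)) ⊆ (S : Set (ZMod n)) := by
    intro x hx
    rw [mem_coe, mem_insert, mem_image] at hx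
    rcases hx with rfl | ⟨j, hj, rfl⟩
    · exact S.zero_mem
    · exact hmin j (mem_range.1 hj)
  have h1 := Set.ncard_le_ncard hsub (Set.toFinite _)
  rw [Set.ncard_coe_finset] at h1
  exact h1


/-! ### i -/

/-- TARGET moving out of a set -/
theorem stab_move {n : ℕ} (A : Finset (ZMod n)) (s : ZMod n) (hs : s ∉ stab A) :
    ∃ y ∈ A, y + s ∉ A := by
  classical
  by_contra hcon
  push Not at hcon
  apply hs
  have h1 : A.image (fun x => x + s) ⊆ A := by
    intro x hx
    obtain ⟨y, hy, rfl⟩ := Finset.mem_image.1 hx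
    exact hcon y hy
  have hinj : Function.Injective (fun x : ZMod n => x + s) := add_left_injective s
  have h2 : A.image (fun x => x + s) = A := by
    apply Finset.eq_of_subset_of_card_le h1
    rw [Finset.card_image_of_injective _ hinj]
  show ∀ x, x ∈ A ↔ x + s ∈ A
  intro x
  constructor
  · exact hcon x
  · intro hx
    rw [← h2, Finset.mem_image] at hx
    obtain ⟨y, hy, hyx⟩ := hx
    rwa [← hinj hyx]

/-- TARGET the basic estimate -/
theorem key_reach {n : ℕ} [NeZero n] (π : Equiv.Perm (ZMod n)) (d : ZMod n) (h0 : π 0 = 0)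
    (hd : d ≠ 0) (A T : Finset (ZMod n)) (hA : A ⊆ T)
    (hAT : ∀ y ∈ A, ∀ i : ℕ, y + (π ^ i) d ∉ A → y + (π ^ i) d ∉ T)
    (hS : ¬ Pc π d 0 ≤ stab A) :
    ∃ y ∈ A, ∃ i : ℕ, y + (π ^ i) d ∉ T ∧ y.val < (stab A).index ∧
      i + 1 ≤ Nat.card (stab A) := by
  obtain ⟨i, hi, hic⟩ := first_out π d h0 hd (stab A) hS
  obtain ⟨y, hy, hyd⟩ := stab_move A _ hi
  obtain ⟨z, hz, hzi⟩ := small_rep (stab A) y
  have hz' : ∀ x, x ∈ A ↔ x + z ∈ A := hz
  have h1 : y + z ∈ A := (hz' y).1 hy
  have h2 : y + z + (π ^ i) d ∉ A := by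
    intro h
    apply hyd
    rw [hz']
    have : y + (π ^ i) d + z = y + z + (π ^ i) d := by ring
    rw [this]
    exact h
  exact ⟨y + z, h1, i, hAT _ h1 i h2, hzi, hic⟩


/-! ### j -/

theorem j_mem {n : ℕ} (π : Equiv.Perm (ZMod n)) (d : ZMod n) (i : ℕ) : (π ^ i) d ∈ Pc π d 0 :=
  AddSubgroup.subset_closure ⟨i, rfl⟩

theorem j_arith {s m n : ℕ} (h : s * m = n) (hs : 1 ≤ s) (hm : 1 ≤ m) : s + m ≤ n + 1 := by
  obtain ⟨s', rfl⟩ : ∃ s', s = s' + 1 := ⟨s - 1, by omega⟩
  obtain ⟨m', rfl⟩ : ∃ m', m = m' + 1 := ⟨m - 1, by omega⟩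
  subst h
  nlinarith [Nat.zero_le (s' * m')]

/-- TARGET non-periodic sets -/
theorem nonper {n : ℕ} [NeZero n] (π : Equiv.Perm (ZMod n)) (d : ZMod n) (h0 : π 0 = 0)
    (hd : d ≠ 0) (T : Finset (ZMod n)) (hT : ¬ Per (Pc π d 0) T) : Reach π d (n - 1) T := by
  have hS : ¬ Pc π d 0 ≤ stab T := by
    intro hle
    apply hT
    intro p hp x hx
    exact (hle hp x).1 hx
  obtain ⟨y, hy, i, h1, h2, h3⟩ := key_reach π d h0 hd T T (Finset.Subset.refl _)
    (fun y _ i h => h) hS
  have h4 := idx_card (stab T)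
  have h5 := j_arith h4 (by omega) (by omega)
  exact reach_mono (by omega) (reach_of π d h0 T y i hy h1)

/-- TARGET partial coset of the smallest subgroup -/
theorem lemma_base {n : ℕ} [NeZero n] (π : Equiv.Perm (ZMod n)) (d : ZMod n) (h0 : π 0 = 0)
    (hd : d ≠ 0) (T : Finset (ZMod n)) (h1 : ∃ x ∈ Pc π d 0, x ∈ T) (h2 : ∃ x ∈ Pc π d 0, x ∉ T) :
    ∃ c, c + (Pc π d 0).index ≤ n ∧ Reach π d c T := by
  classical
  obtain ⟨x, hxK, hxT⟩ := h1
  obtain ⟨x', hx'K, hx'T⟩ := h2
  obtain ⟨A, hA⟩ : ∃ A : Finset (ZMod n), ∀ z, z ∈ A ↔ z ∈ T ∧ z ∈ Pc π d 0 :=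
    ⟨T.filter (fun z => z ∈ Pc π d 0), fun z => Finset.mem_filter⟩
  have hxA : x ∈ A := (hA x).2 ⟨hxT, hxK⟩
  have hS : ¬ Pc π d 0 ≤ stab A := by
    intro hle
    have h3 := (hle ((Pc π d 0).sub_mem hx'K hxK) x).1 hxA
    rw [add_sub_cancel] at h3
    exact hx'T ((hA x').1 h3).1
  have hSK : stab A ≤ Pc π d 0 := by
    intro s hs
    have h3 := (hs x).1 hxA
    have h4 := ((hA _).1 h3).2
    have h5 := (Pc π d 0).sub_mem h4 hxK
    rwa [add_sub_cancel_left] at h5
  obtain ⟨y, hy, i, h4, h5, h6⟩ := key_reach π d h0 hd A T (fun z hz => ((hA z).1 hz).1)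
    (fun y hy i h hT => h ((hA _).2 ⟨hT, (Pc π d 0).add_mem ((hA y).1 hy).2 (j_mem π d i)⟩)) hS
  have hyT := ((hA y).1 hy).1
  have h7 := mem_val_le (Pc π d 0) (stab A) hSK y ((hA y).1 hy).2 h5
  have h8 := idx_card (stab A)
  have h9 := j_arith h8 (by omega) (by omega)
  exact ⟨y.val + i, by omega, reach_of π d h0 T y i hyT h4⟩


/-! ### k -/

theorem k_stab {n : ℕ} (A : Finset (ZMod n)) (s : ZMod n) (h : ∀ y ∈ A, y + s ∈ A) :
    s ∈ stab A := by
  intro x
  constructor
  · exact h x
  · intro hx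
    have hsub : A.image (fun y => y + s) ⊆ A := by
      intro y hy
      obtain ⟨w, hw, rfl⟩ := Finset.mem_image.1 hy
      exact h w hw
    have hcard : (A.image (fun y => y + s)).card = A.card :=
      Finset.card_image_of_injective _ (add_left_injective s)
    have heq : A.image (fun y => y + s) = A := Finset.eq_of_subset_of_card_le hsub hcard.ge
    rw [← heq] at hx
    obtain ⟨w, hw, hws⟩ := Finset.mem_image.1 hx
    have : w = x := add_right_cancel hws
    rw [← this]
    exact hw

theorem k_le {n : ℕ} (π : Equiv.Perm (ZMod n)) (d : ZMod n) (j : ℕ) :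
    Pc π d j ≤ Pc π d (j + 1) := by
  intro x hx
  show x ∈ AddSubgroup.closure
      ((Pc π d j : Set (ZMod n)) ∪ (fun x => π x) '' (Pc π d j : Set (ZMod n)))
  exact AddSubgroup.subset_closure (Or.inl hx)

theorem k_pi {n : ℕ} (π : Equiv.Perm (ZMod n)) (d : ZMod n) (j : ℕ) (x : ZMod n)
    (hx : x ∈ Pc π d j) : π x ∈ Pc π d (j + 1) := by
  show π x ∈ AddSubgroup.closure
      ((Pc π d j : Set (ZMod n)) ∪ (fun x => π x) '' (Pc π d j : Set (ZMod n)))
  exact AddSubgroup.subset_closure (Or.inr ⟨x, hx, rfl⟩)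


/-- TARGET partial coset of a subgroup of the chain -/
theorem lemma_chain {n : ℕ} [NeZero n] (π : Equiv.Perm (ZMod n)) (d : ZMod n) (h0 : π 0 = 0)
    (hd : d ≠ 0) (j : ℕ) : ∀ T : Finset (ZMod n),
    (∃ x ∈ Pc π d j, x ∈ T) → (∃ x ∈ Pc π d j, x ∉ T) →
    ∃ c, c + (Pc π d j).index ≤ n + j ∧ Reach π d c T := by
  classical
  induction j with
  | zero =>
    intro T h1 h2
    obtain ⟨c, hc, hr⟩ := lemma_base π d h0 hd T h1 h2
    exact ⟨c, by omega, hr⟩
  | succ j ih =>
    intro T h1 h2
    have hPQ := k_le π d j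
    by_cases hcase : ∃ x0 ∈ Pc π d (j + 1), ∃ z1 ∈ Pc π d j, ∃ z2 ∈ Pc π d j,
        x0 + z1 ∈ T ∧ x0 + z2 ∉ T
    · obtain ⟨x0, hx0, z1, hz1, z2, hz2, ht1, ht2⟩ := hcase
      obtain ⟨z, hz, hzv⟩ := small_rep (Pc π d j) x0
      have hxQ : x0 + z ∈ Pc π d (j + 1) := AddSubgroup.add_mem _ hx0 (hPQ hz)
      have hval := mem_val_le (Pc π d (j + 1)) (Pc π d j) hPQ (x0 + z) hxQ hzv
      obtain ⟨c', hc', hr⟩ := ih (T.image (fun y => y - (x0 + z)))
        ⟨z1 - z, AddSubgroup.sub_mem _ hz1 hz, Finset.mem_image.2 ⟨x0 + z1, ht1, by abel⟩⟩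
        ⟨z2 - z, AddSubgroup.sub_mem _ hz2 hz, by
          intro hmem
          obtain ⟨y, hy, hyz⟩ := Finset.mem_image.1 hmem
          apply ht2
          have : y = x0 + z2 := by
            have h3 : y = (z2 - z) + (x0 + z) := by rw [← hyz]; abel
            rw [h3]
            abel
          rw [← this]
          exact hy⟩
      exact ⟨(x0 + z).val + c', by omega, reach_rot (x0 + z) hr⟩
    · push Not at hcase
      have hclaim : ∃ c0 ∈ Pc π d (j + 1), c0 ∈ T ∧ ∃ x ∈ Pc π d j, c0 + π x ∉ T := by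
        by_contra hno
        push Not at hno
        have hle : Pc π d (j + 1) ≤ stab (T.filter (fun y => y ∈ Pc π d (j + 1))) := by
          conv_lhs => unfold Pc
          rw [AddSubgroup.closure_le]
          rintro s (hs | ⟨x, hx, rfl⟩)
          · apply k_stab
            intro y hy
            rw [Finset.mem_filter] at hy ⊢
            refine ⟨?_, AddSubgroup.add_mem _ hy.2 (hPQ hs)⟩
            exact hcase y hy.2 0 (AddSubgroup.zero_mem _) s hs (by rw [add_zero]; exact hy.1)
          · apply k_stab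
            intro y hy
            rw [Finset.mem_filter] at hy ⊢
            exact ⟨hno y hy.2 hy.1 x hx, AddSubgroup.add_mem _ hy.2 (k_pi π d j x hx)⟩
        obtain ⟨x, hx, hxT⟩ := h1
        obtain ⟨x', hx', hxT'⟩ := h2
        have h3 : x' - x ∈ stab (T.filter (fun y => y ∈ Pc π d (j + 1))) :=
          hle (AddSubgroup.sub_mem _ hx' hx)
        have h4 := (h3 x).1 (Finset.mem_filter.2 ⟨hxT, hx⟩)
        rw [add_sub_cancel, Finset.mem_filter] at h4
        exact hxT' h4.1
      obtain ⟨c0, hc0, hc0T, x, hx, hcx⟩ := hclaim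
      obtain ⟨z, hz, hzv⟩ := small_rep (Pc π d j) c0
      have hcQ : c0 + z ∈ Pc π d (j + 1) := AddSubgroup.add_mem _ hc0 (hPQ hz)
      have hval := mem_val_le (Pc π d (j + 1)) (Pc π d j) hPQ (c0 + z) hcQ hzv
      have hcT : c0 + z ∈ T :=
        hcase c0 hc0 0 (AddSubgroup.zero_mem _) z hz (by rw [add_zero]; exact hc0T)
      have hcx' : c0 + z + π x ∉ T := by
        intro hmem
        apply hcx
        have h5 : c0 + z + π x = (c0 + π x) + z := by abel
        rw [h5] at hmem
        have h6 := hcase (c0 + π x) (AddSubgroup.add_mem _ hc0 (k_pi π d j x hx)) z hz 0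
          (AddSubgroup.zero_mem _) hmem
        rwa [add_zero] at h6
      have hsymm0 : π.symm 0 = 0 := by
        rw [Equiv.symm_apply_eq]
        exact h0.symm
      obtain ⟨c', hc', hr⟩ := ih ((T.image (fun y => y - (c0 + z))).image (fun y => π.symm y))
        ⟨0, AddSubgroup.zero_mem _, Finset.mem_image.2 ⟨0, Finset.mem_image.2
          ⟨c0 + z, hcT, sub_self _⟩, hsymm0⟩⟩
        ⟨x, hx, by
          intro hmem
          obtain ⟨y, hy, hyx⟩ := Finset.mem_image.1 hmem
          obtain ⟨w, hw, hwy⟩ := Finset.mem_image.1 hy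
          apply hcx'
          have h7 : y = π x := by
            rw [← hyx]
            exact (Equiv.apply_symm_apply π y).symm
          have h8 : w = c0 + z + π x := by
            rw [← h7, ← hwy]
            abel
          rw [← h8]
          exact hw⟩
      exact ⟨(c0 + z).val + 1 + c', by omega, reach_rot_keep (c0 + z) hcT hr⟩



/-! ### l -/

theorem l_passage_per {n : ℕ} [NeZero n] (π : Equiv.Perm (ZMod n)) (d : ZMod n) (i : ℕ)
    (T : Finset (ZMod n)) (h1 : Per (Pc π d i) T)
    (h : ∀ c ∈ T, ∀ x ∈ Pc π d i, c + π x ∈ T) : Per (Pc π d (i + 1)) T := by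
  intro p hp
  have hp' : p ∈ AddSubgroup.closure
      ((Pc π d i : Set (ZMod n)) ∪ (fun x => π x) '' (Pc π d i : Set (ZMod n))) := hp
  induction hp' using AddSubgroup.closure_induction with
  | mem y hy =>
    intro x hx
    rcases hy with hy | ⟨y', hy', rfl⟩
    · exact h1 y hy x hx
    · exact h x hx y' hy'
  | zero => intro x hx; rw [add_zero]; exact hx
  | add a b ha hb iha ihb =>
    intro x hx
    rw [← add_assoc]
    exact ihb hb _ (iha ha x hx)
  | neg a ha iha =>
    intro x hx
    have hsub : T.image (fun y => y + a) ⊆ T := by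
      intro y hy
      obtain ⟨z, hz, rfl⟩ := Finset.mem_image.mp hy
      exact iha ha z hz
    have heq : T.image (fun y => y + a) = T := by
      apply Finset.eq_of_subset_of_card_le hsub
      rw [Finset.card_image_of_injective T (add_left_injective a)]
    rw [← heq] at hx
    obtain ⟨z, hz, rfl⟩ := Finset.mem_image.mp hx
    have : z + a + -a = z := by ring
    rw [this]
    exact hz

/-- TARGET periodic sets -/
theorem passage {n : ℕ} [NeZero n] (π : Equiv.Perm (ZMod n)) (d : ZMod n) (h0 : π 0 = 0)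
    (hd : d ≠ 0) (i : ℕ) (T : Finset (ZMod n)) (hne : T.Nonempty)
    (h1 : Per (Pc π d i) T) (h2 : ¬ Per (Pc π d (i + 1)) T) : Reach π d (n + i) T := by
  have hex : ∃ c0 ∈ T, ∃ x ∈ Pc π d i, c0 + π x ∉ T := by
    by_contra hcon
    push Not at hcon
    exact h2 (l_passage_per π d i T h1 hcon)
  obtain ⟨c0, hc0, x, hx, hcx⟩ := hex
  obtain ⟨z, hz, hzlt⟩ := small_rep (Pc π d i) c0
  have hc1 : c0 + z ∈ T := h1 z hz c0 hc0
  have hc1x : (c0 + z) + π x ∉ T := by
    intro hcon
    have h3 := h1 (-z) ((Pc π d i).neg_mem hz) _ hcon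
    have h4 : c0 + z + π x + -z = c0 + π x := by ring
    rw [h4] at h3
    exact hcx h3
  have h0' : π.symm 0 = 0 := by
    rw [Equiv.symm_apply_eq]; exact h0.symm
  obtain ⟨c, hc, hR⟩ := lemma_chain π d h0 hd i
    ((T.image (fun y => y - (c0 + z))).image (fun y => π.symm y))
    ⟨0, (Pc π d i).zero_mem, by
      rw [Finset.mem_image]
      refine ⟨0, ?_, h0'⟩
      rw [Finset.mem_image]
      exact ⟨c0 + z, hc1, sub_self _⟩⟩
    ⟨x, hx, by
      intro hcon
      obtain ⟨y, hy, hyx⟩ := Finset.mem_image.mp hcon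
      obtain ⟨w, hw, rfl⟩ := Finset.mem_image.mp hy
      apply hc1x
      have h5 : π x = w - (c0 + z) := by rw [← hyx]; exact π.apply_symm_apply _
      rw [h5]
      have h6 : c0 + z + (w - (c0 + z)) = w := by ring
      rw [h6]
      exact hw⟩
  exact reach_mono (by omega) (reach_rot_keep (c0 + z) hc1 hR)


/-! ### m -/

theorem m_mem {n : ℕ} (π : Equiv.Perm (ZMod n)) (d : ZMod n) (i : ℕ) :
    (π ^ i) d ∈ Pc π d 0 := AddSubgroup.subset_closure ⟨i, rfl⟩

theorem m_cardK {n : ℕ} [NeZero n] (K : AddSubgroup (ZMod n)) [DecidablePred (· ∈ K)] :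
    (Finset.univ.filter (fun x : ZMod n => x ∈ K)).card = Nat.card K := by
  rw [Nat.card_eq_fintype_card, Fintype.card_subtype]

theorem m_card_dvd {n : ℕ} [NeZero n] (K : AddSubgroup (ZMod n)) (B : Finset (ZMod n))
    (hB : ∀ x ∈ B, ∀ k ∈ K, x + k ∈ B) : Nat.card K ∣ B.card := by
  classical
  rw [Finset.card_eq_sum_card_image (fun x => (QuotientAddGroup.mk x : ZMod n ⧸ K)) B]
  apply Finset.dvd_sum
  intro b hb
  obtain ⟨x0, hx0, rfl⟩ := Finset.mem_image.1 hb
  have h1 : (B.filter (fun a => (QuotientAddGroup.mk a : ZMod n ⧸ K) =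
      QuotientAddGroup.mk x0)).card = (Finset.univ.filter (fun x : ZMod n => x ∈ K)).card := by
    symm
    apply Finset.card_bij (fun k _ => x0 + k)
    · intro k hk
      rw [Finset.mem_filter] at hk ⊢
      refine ⟨hB x0 hx0 k hk.2, ?_⟩
      rw [eq_comm, QuotientAddGroup.eq]
      simpa using hk.2
    · intro k _ k' _ h
      exact add_left_cancel h
    · intro x hx
      rw [Finset.mem_filter] at hx
      refine ⟨x - x0, ?_, by ring⟩
      rw [Finset.mem_filter]
      refine ⟨Finset.mem_univ _, ?_⟩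
      have h2 := hx.2
      rw [eq_comm, QuotientAddGroup.eq] at h2
      have e : x - x0 = -x0 + x := by ring
      rw [e]
      exact h2
  rw [h1, m_cardK]

theorem m_step1 {n : ℕ} [NeZero n] (π : Equiv.Perm (ZMod n)) (d : ZMod n) (h0 : π 0 = 0)
    (hd : d ≠ 0) (hK : Pc π d 0 ≠ ⊤) (T : Finset (ZMod n))
    (H : ∀ y ∈ T, ∀ i : ℕ, y.val + i + 2 ≤ n → y + (π ^ i) d ∈ T)
    (c x : ZMod n) (hc : c ∈ T) (hx : x - c ∈ Pc π d 0) (hxT : x ∉ T) :
    -1 - c ∈ Pc π d 0 ∧ (-1 : ZMod n) ∈ T ∧ -1 + d ∉ T := by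
  classical
  set K := Pc π d 0 with hKdef
  set A := T.filter (fun x => x - c ∈ K) with hA
  have hcA : c ∈ A := by
    rw [hA, Finset.mem_filter]
    exact ⟨hc, by rw [sub_self]; exact K.zero_mem⟩
  have hstab : stab A ≤ K := by
    intro s hs
    have h1 : c + s ∈ A := (hs c).1 hcA
    rw [hA, Finset.mem_filter] at h1
    simpa using h1.2
  have hnot : ¬ K ≤ stab A := by
    intro h
    have h1 : c + (x - c) ∈ A := ((h hx) c).1 hcA
    rw [hA, Finset.mem_filter] at h1
    apply hxT
    have e : c + (x - c) = x := by ring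
    rw [e] at h1
    exact h1.1
  have hAT : ∀ y ∈ A, ∀ i : ℕ, y + (π ^ i) d ∉ A → y + (π ^ i) d ∉ T := by
    intro y hy i hyi hyT
    apply hyi
    rw [hA, Finset.mem_filter] at hy ⊢
    refine ⟨hyT, ?_⟩
    have e : y + (π ^ i) d - c = (y - c) + (π ^ i) d := by ring
    rw [e]
    exact K.add_mem hy.2 (m_mem π d i)
  obtain ⟨y, hyA, i, hyi, hyv, him⟩ :=
    key_reach π d h0 hd A T (Finset.filter_subset _ _) hAT hnot
  have hidx := idx_card (stab A)
  have hn : n ≠ 0 := NeZero.ne n
  have hyT : y ∈ T := (Finset.mem_filter.1 hyA).1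
  by_cases hm : Nat.card (stab A) = 1
  · have hbot : stab A = ⊥ := AddSubgroup.card_eq_one.1 hm
    have hdn : d ∉ stab A := by
      rw [hbot, AddSubgroup.mem_bot]
      exact hd
    have hex : ∃ y ∈ A, y + d ∉ A := by
      by_contra hcon
      push Not at hcon
      apply hdn
      intro x
      refine ⟨hcon x, fun hxd => ?_⟩
      have himg : A.image (fun y => y + d) = A := by
        apply Finset.eq_of_subset_of_card_le
        · intro z hz
          obtain ⟨w, hw, rfl⟩ := Finset.mem_image.1 hz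
          exact hcon w hw
        · rw [Finset.card_image_of_injective _ (add_left_injective d)]
      rw [← himg] at hxd
      obtain ⟨w, hw, hwx⟩ := Finset.mem_image.1 hxd
      have : w = x := add_right_cancel hwx
      rw [← this]
      exact hw
    obtain ⟨w, hwA, hwd⟩ := hex
    have hwT := (Finset.mem_filter.1 hwA)
    have hwdT : w + d ∉ T := hAT w hwA 0 (by simpa using hwd)
    have hwv : n < w.val + 2 := by
      by_contra hh
      push Not at hh
      have := H w hwT.1 0 (by omega)
      exact hwdT (by simpa using this)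
    have hlt := ZMod.val_lt w
    have hwe : w.val + 1 = n := by omega
    have hw1 : w = -1 := by
      have h1 : ((w.val + 1 : ℕ) : ZMod n) = 0 := by rw [hwe]; simp
      rw [Nat.cast_add, ZMod.natCast_zmod_val, Nat.cast_one] at h1
      exact eq_neg_of_add_eq_zero_left h1
    rw [hw1] at hwT hwdT
    exact ⟨hwT.2, hwT.1, hwdT⟩
  · exfalso
    have hm0 : Nat.card (stab A) ≠ 0 := by
      intro h
      rw [h, mul_zero] at hidx
      exact hn hidx.symm
    have hs0 : (stab A).index ≠ 0 := by
      intro h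
      rw [h, zero_mul] at hidx
      exact hn hidx.symm
    have hs1 : (stab A).index ≠ 1 := by
      intro h
      rw [AddSubgroup.index_eq_one] at h
      rw [h] at hstab
      exact hK (top_le_iff.1 hstab)
    have h2 : (stab A).index + Nat.card (stab A) ≤ n := by
      have a1 : 2 ≤ (stab A).index := by omega
      have a2 : 2 ≤ Nat.card (stab A) := by omega
      have a3 : (stab A).index + Nat.card (stab A) ≤ (stab A).index * Nat.card (stab A) := by
        obtain ⟨p, hp⟩ := Nat.exists_eq_add_of_le a1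
        obtain ⟨r, hr⟩ := Nat.exists_eq_add_of_le a2
        rw [hp, hr]
        nlinarith [Nat.zero_le (p * r)]
      omega
    exact hyi (H y hyT i (by omega))

theorem m_end {n : ℕ} [NeZero n] (π : Equiv.Perm (ZMod n)) (d : ZMod n) (h0 : π 0 = 0)
    (hd : d ≠ 0) (hK : Pc π d 0 ≠ ⊤) (h4 : 4 ≤ Nat.card (Pc π d 0)) (hl : π d ≠ d)
    (T : Finset (ZMod n))
    (H : ∀ y ∈ T, ∀ i : ℕ, y.val + i + 2 ≤ n → y + (π ^ i) d ∈ T)
    (hm1 : (-1 : ZMod n) ∈ T) (hmd : -1 + d ∉ T)
    (hY : (∃ a, ∀ y, (y ∈ Pc π d 0 ∧ -1 - y ∉ T) ↔ y = a) ∨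
      ∃ a b, ∀ y, (y ∈ Pc π d 0 ∧ -1 - y ∉ T) ↔ y = a ∨ y = b) : False := by
  have hP0 : ¬ ((0 : ZMod n) ∈ Pc π d 0 ∧ -1 - (0 : ZMod n) ∉ T) := by
    rintro ⟨-, h⟩
    exact h (by simpa using hm1)
  have hdK : d ∈ Pc π d 0 := m_mem π d 0
  have hPd : -d ∈ Pc π d 0 ∧ -1 - (-d) ∉ T :=
    ⟨(Pc π d 0).neg_mem hdK, by simpa using hmd⟩
  have step : ∀ j : ℕ, ∀ y, (y ∈ Pc π d 0 ∧ -1 - y ∉ T) → y + (π ^ j) d ≠ 0 →
      ¬ (y + (π ^ j) d ∈ Pc π d 0 ∧ -1 - (y + (π ^ j) d) ∉ T) →
      (-1 - (y + (π ^ j) d)).val + 3 ≤ n ∧ n < (-1 - (y + (π ^ j) d)).val + j + 2 := by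
    intro j y hy hne hnP
    have hw : y + (π ^ j) d ∈ Pc π d 0 := (Pc π d 0).add_mem hy.1 (m_mem π d j)
    have hz : -1 - (y + (π ^ j) d) ∈ T := by
      by_contra hcon
      exact hnP ⟨hw, hcon⟩
    constructor
    · apply coset_val (Pc π d 0) hK
      · have e : -1 - (y + (π ^ j) d) + 1 = -(y + (π ^ j) d) := by ring
        rw [e]
        exact (Pc π d 0).neg_mem hw
      · intro h
        apply hne
        linear_combination -h
    · by_contra hcon
      push Not at hcon
      have h1 := H _ hz j hcon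
      apply hy.2
      have e : -1 - (y + (π ^ j) d) + (π ^ j) d = -1 - y := by ring
      rw [e] at h1
      exact h1
  have s0 : ∀ y, (y ∈ Pc π d 0 ∧ -1 - y ∉ T) → y ≠ -d →
      (y + d ∈ Pc π d 0 ∧ -1 - (y + d) ∉ T) := by
    intro y hy hne
    by_contra hcon
    have h1 := step 0 y hy (by
      intro h
      apply hne
      have h' : y + d = 0 := by simpa using h
      exact eq_neg_of_add_eq_zero_left h') (by simpa using hcon)
    omega
  have s1 : ∀ y, (y ∈ Pc π d 0 ∧ -1 - y ∉ T) → y ≠ -(π d) →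
      (y + π d ∈ Pc π d 0 ∧ -1 - (y + π d) ∉ T) := by
    intro y hy hne
    by_contra hcon
    have h1 := step 1 y hy (by
      intro h
      apply hne
      have h' : y + π d = 0 := by simpa using h
      exact eq_neg_of_add_eq_zero_left h') (by simpa using hcon)
    omega
  have hpd0 : π d ≠ 0 := by
    intro h
    apply hd
    apply π.injective
    rw [h, h0]
  rcases hY with ⟨a, ha⟩ | ⟨a, b, hab⟩
  · have h1 := (ha _).1 hPd
    have h2 := (ha _).1 (s1 (-d) hPd (fun h => hl (neg_injective h).symm))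
    apply hpd0
    linear_combination h2 - h1
  · have hex : ∃ y0, ∀ y, (y ∈ Pc π d 0 ∧ -1 - y ∉ T) ↔ y = -d ∨ y = y0 := by
      rcases (hab _).1 hPd with h | h
      · exact ⟨b, fun y => by rw [hab, ← h]⟩
      · exact ⟨a, fun y => by rw [hab, ← h, or_comm]⟩
    obtain ⟨y0, hy0⟩ := hex
    clear hab
    by_cases hyd : y0 = -d
    · have h2 := (hy0 _).1 (s1 (-d) hPd (fun h => hl (neg_injective h).symm))
      rw [hyd, or_self] at h2
      apply hpd0
      linear_combination h2
    have hPy0 := (hy0 y0).2 (Or.inr rfl)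
    have e1 : y0 = -2 * d := by
      rcases (hy0 _).1 (s0 y0 hPy0 hyd) with h | h
      · linear_combination h
      · exact absurd (by linear_combination h) hd
    have e2 : π d = -d := by
      rcases (hy0 _).1 (s1 (-d) hPd (fun h => hl (neg_injective h).symm)) with h | h
      · exact absurd (by linear_combination h) hpd0
      · linear_combination h + e1
    have h3 : 3 * d = 0 := by
      by_contra hcon
      have h1 : y0 ≠ -(π d) := by
        intro h
        apply hcon
        linear_combination e1 - h + e2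
      rcases (hy0 _).1 (s1 y0 hPy0 h1) with h | h
      · -- y0 + π d = -d
        have h5 : y0 = 0 := by linear_combination h - e2
        rw [h5] at hPy0
        exact hP0 hPy0
      · exact hpd0 (by linear_combination h)
    have h2d : 2 * d ≠ 0 := by
      intro h
      apply hd
      linear_combination h3 - h
    have hv : (π ^ 2) d = π (-d) := by
      rw [pow_two, Equiv.Perm.mul_apply, e2]
    set v := (π ^ 2) d with hvdef
    have hvK : v ∈ Pc π d 0 := m_mem π d 2
    have v0 : v ≠ 0 := by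
      intro h
      rw [hv, ← h0] at h
      have := π.injective h
      exact hd (neg_eq_zero.1 this)
    have v1 : v ≠ -d := by
      intro h
      rw [hv, ← e2] at h
      exact hl (π.injective h)
    have v2 : v ≠ d := by
      intro h
      rw [hv] at h
      have horb : ∀ i : ℕ, (π ^ i) d = d ∨ (π ^ i) d = -d := by
        intro i
        induction i with
        | zero => left; rfl
        | succ i ih =>
          rw [pow_succ', Equiv.Perm.mul_apply]
          rcases ih with h5 | h5
          · rw [h5, e2]; right; rfl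
          · rw [h5, h]; left; rfl
      have hle : Pc π d 0 ≤ AddSubgroup.zmultiples d := by
        show AddSubgroup.closure (Set.range fun i : ℕ => (π ^ i) d) ≤ _
        rw [AddSubgroup.closure_le]
        rintro _ ⟨i, rfl⟩
        rcases horb i with h5 | h5
        · show (π ^ i) d ∈ AddSubgroup.zmultiples d
          rw [h5]
          exact AddSubgroup.mem_zmultiples d
        · show (π ^ i) d ∈ AddSubgroup.zmultiples d
          rw [h5]
          exact (AddSubgroup.zmultiples d).neg_mem (AddSubgroup.mem_zmultiples d)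
      have hc1 : Nat.card (Pc π d 0) ≤ Nat.card (AddSubgroup.zmultiples d) :=
        Nat.card_le_card_of_injective _ (AddSubgroup.inclusion_injective hle)
      have hc2 : Nat.card (AddSubgroup.zmultiples d) ≤ 3 := by
        rw [Nat.card_zmultiples]
        apply Nat.le_of_dvd (by norm_num)
        rw [addOrderOf_dvd_iff_nsmul_eq_zero, nsmul_eq_mul]
        exact_mod_cast h3
      omega
    have hPdd : d ∈ Pc π d 0 ∧ -1 - d ∉ T := by
      apply (hy0 d).2
      right
      linear_combination h3 - e1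
    have k1 := step 2 d hPdd (by
      intro h
      apply v1
      linear_combination h) (by
      rw [hy0]
      rintro (h | h)
      · apply v2
        linear_combination h - h3
      · apply v0
        linear_combination h + e1 - h3)
    have k2 := step 2 (-d) hPd (by
      intro h
      apply v2
      linear_combination h) (by
      rw [hy0]
      rintro (h | h)
      · apply v0
        linear_combination h
      · apply v1
        linear_combination h + e1)
    have hval : (-1 - (d + (π ^ 2) d)).val = (-1 - (-d + (π ^ 2) d)).val := by omega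
    have heq := ZMod.val_injective n hval
    apply h2d
    linear_combination -heq

/-- TARGET a step of cost at most `n-1` -/
theorem gain {n : ℕ} [NeZero n] (π : Equiv.Perm (ZMod n)) (d : ZMod n) (h0 : π 0 = 0)
    (hd : d ≠ 0) (hK : Pc π d 0 ≠ ⊤) (h4 : 4 ≤ Nat.card (Pc π d 0)) (hl : π d ≠ d)
    (T : Finset (ZMod n))
    (hT : T.card % Nat.card (Pc π d 0) + 2 = Nat.card (Pc π d 0) ∨
      T.card % Nat.card (Pc π d 0) + 1 = Nat.card (Pc π d 0)) : Reach π d (n - 2) T := by
  classical
  by_contra hR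
  have H : ∀ y ∈ T, ∀ i : ℕ, y.val + i + 2 ≤ n → y + (π ^ i) d ∈ T := by
    intro y hy i hi
    by_contra hcon
    exact hR (reach_mono (by omega) (reach_of π d h0 T y i hy hcon))
  set A := T.filter (fun x => x + 1 ∈ Pc π d 0) with hA
  set B := T.filter (fun x => ¬ (x + 1 ∈ Pc π d 0)) with hB
  have hAB : A.card + B.card = T.card := Finset.card_filter_add_card_filter_not _
  have hBd : Nat.card (Pc π d 0) ∣ B.card := by
    apply m_card_dvd
    intro x hx k hk
    rw [hB, Finset.mem_filter] at hx ⊢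
    constructor
    · by_contra hcon
      have h1 := (m_step1 π d h0 hd hK T H x (x + k) hx.1 (by simpa using hk) hcon).1
      apply hx.2
      have e : x + 1 = -(-1 - x) := by ring
      rw [e]
      exact (Pc π d 0).neg_mem h1
    · intro h
      apply hx.2
      have e : x + 1 = (x + k + 1) - k := by ring
      rw [e]
      exact (Pc π d 0).sub_mem h hk
  set Kf := Finset.univ.filter (fun x : ZMod n => x ∈ Pc π d 0) with hKf
  have hKc : Kf.card = Nat.card (Pc π d 0) := m_cardK _
  set Y := Kf.filter (fun y => ¬ (-1 - y ∈ T)) with hYd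
  set Y' := Kf.filter (fun y => -1 - y ∈ T) with hYd'
  have hYY : Y'.card + Y.card = Kf.card := Finset.card_filter_add_card_filter_not _
  have hY'A : Y'.card = A.card := by
    apply Finset.card_bij (fun y _ => -1 - y)
    · intro y hy
      rw [hYd', Finset.mem_filter, hKf, Finset.mem_filter] at hy
      rw [hA, Finset.mem_filter]
      refine ⟨hy.2, ?_⟩
      have e : -1 - y + 1 = -y := by ring
      rw [e]
      exact (Pc π d 0).neg_mem hy.1.2
    · intro y _ y' _ h
      linear_combination -h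
    · intro x hx
      rw [hA, Finset.mem_filter] at hx
      refine ⟨-1 - x, ?_, by ring⟩
      rw [hYd', Finset.mem_filter, hKf, Finset.mem_filter]
      refine ⟨⟨Finset.mem_univ _, ?_⟩, ?_⟩
      · have e : -1 - x = -(x + 1) := by ring
        rw [e]
        exact (Pc π d 0).neg_mem hx.2
      · have e : -1 - (-1 - x) = x := by ring
        rw [e]
        exact hx.1
  obtain ⟨t, ht⟩ := hBd
  have hAle : A.card ≤ Nat.card (Pc π d 0) := by omega
  have hmod : T.card % Nat.card (Pc π d 0) = A.card % Nat.card (Pc π d 0) := by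
    rw [← hAB, ht, Nat.add_mul_mod_self_left]
  have hAlt : A.card < Nat.card (Pc π d 0) := by
    rcases lt_or_eq_of_le hAle with h | h
    · exact h
    · exfalso
      rw [h, Nat.mod_self] at hmod
      omega
  rw [Nat.mod_eq_of_lt hAlt] at hmod
  have hYcard : Y.card = 1 ∨ Y.card = 2 := by omega
  have hPY : ∀ y, (y ∈ Pc π d 0 ∧ -1 - y ∉ T) ↔ y ∈ Y := by
    intro y
    rw [hYd, Finset.mem_filter, hKf, Finset.mem_filter]
    simp
  have hAne : A.Nonempty := by
    rw [← Finset.card_pos]
    omega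
  have hYne : Y.Nonempty := by
    rw [← Finset.card_pos]
    omega
  obtain ⟨c, hc⟩ := hAne
  obtain ⟨y, hy⟩ := hYne
  rw [← hPY] at hy
  rw [hA, Finset.mem_filter] at hc
  have hst := m_step1 π d h0 hd hK T H c (-1 - y) hc.1 (by
    have e : -1 - y - c = -(y + (c + 1)) := by ring
    rw [e]
    exact (Pc π d 0).neg_mem ((Pc π d 0).add_mem hy.1 hc.2)) hy.2
  refine m_end π d h0 hd hK h4 hl T H hst.2.1 hst.2.2 ?_
  rcases hYcard with h | h
  · left
    obtain ⟨a, ha⟩ := Finset.card_eq_one.1 h
    refine ⟨a, fun y => ?_⟩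
    rw [hPY, ha, Finset.mem_singleton]
  · right
    obtain ⟨a, b, -, hab⟩ := Finset.card_eq_two.1 h
    refine ⟨a, b, fun y => ?_⟩
    rw [hPY, hab, Finset.mem_insert, Finset.mem_singleton]


/-! ### n -/

/-- TARGET size of the smallest subgroup -/
theorem card_K {n : ℕ} [NeZero n] (π : Equiv.Perm (ZMod n)) (d : ZMod n) (h0 : π 0 = 0)
    (hd : d ≠ 0) (hr : Rig π d) (hK : Pc π d 0 ≠ ⊤) (hl : π d ≠ d) :
    4 ≤ Nat.card (Pc π d 0) := by
  classical
  have hpow : ∀ i : ℕ, (π ^ i) d ∈ Pc π d 0 := fun i =>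
    AddSubgroup.subset_closure ⟨i, rfl⟩
  have hdK : d ∈ Pc π d 0 := by simpa using hpow 0
  have hπdK : π d ∈ Pc π d 0 := by simpa using hpow 1
  have hπ2 : π (π d) ∈ Pc π d 0 := by
    have := hpow 2
    rwa [pow_two, Equiv.Perm.mul_apply] at this
  obtain ⟨x, hx, hπx⟩ := hr (Pc π d 0) hK hpow
  have hx0 : x ≠ 0 := by
    rintro rfl
    exact hπx (by rw [h0]; exact (Pc π d 0).zero_mem)
  have hxd : x ≠ d := by
    rintro rfl
    exact hπx hπdK
  have hxπ : x ≠ π d := by
    rintro rfl
    exact hπx hπ2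
  have hπ0 : π d ≠ 0 := by
    intro h
    exact hd (π.injective (h.trans h0.symm))
  have hsub : ({0, d, π d, x} : Set (ZMod n)) ⊆ (Pc π d 0 : Set (ZMod n)) := by
    intro y hy
    simp only [Set.mem_insert_iff, Set.mem_singleton_iff] at hy
    rcases hy with rfl | rfl | rfl | rfl
    · exact (Pc π d 0).zero_mem
    · exact hdK
    · exact hπdK
    · exact hx
  have hcard : Set.ncard ({0, d, π d, x} : Set (ZMod n)) = 4 := by
    have : ({0, d, π d, x} : Set (ZMod n)) = (({0, d, π d, x} : Finset (ZMod n)) : Set (ZMod n)) := by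
      simp
    rw [this, Set.ncard_coe_finset]
    rw [Finset.card_insert_of_notMem, Finset.card_insert_of_notMem, Finset.card_insert_of_notMem,
      Finset.card_singleton]
    · simp only [Finset.mem_singleton]; exact fun h => hxπ h.symm
    · simp only [Finset.mem_insert, Finset.mem_singleton, not_or]
      exact ⟨fun h => hl h.symm, fun h => hxd h.symm⟩
    · simp only [Finset.mem_insert, Finset.mem_singleton, not_or]
      exact ⟨fun h => hd h.symm, fun h => hπ0 h.symm, fun h => hx0 h.symm⟩
  have hle := Set.ncard_le_ncard hsub (Set.toFinite _)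
  rw [hcard] at hle
  rw [← Nat.card_coe_set_eq] at hle
  exact hle


/-! ### o -/

theorem o_sum (n q : ℕ) : ∑ l ∈ Finset.range n, q / 2 ^ (l + 1) ≤ q - q / 2 ^ n := by
  induction n with
  | zero => simp
  | succ n ih =>
    rw [Finset.sum_range_succ]
    have h1 : q / 2 ^ (n + 1) = q / 2 ^ n / 2 := by
      rw [pow_succ, Nat.div_div_eq_div_mul]
    have h2 : q / 2 ^ n ≤ q := Nat.div_le_self _ _
    obtain ⟨a, ha⟩ : ∃ a, a = q / 2 ^ n := ⟨_, rfl⟩
    rw [← ha] at ih h1 h2
    rw [h1]
    omega

/-- TARGET bound for the sum of quotients -/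
theorem th_le (N : ℕ → ℕ) (n q : ℕ) (hN : ∀ l, N l = 0 ∨ 2 ^ l ≤ N l) : Th N n q ≤ q := by
  unfold Th
  have h1 : ∑ l ∈ Finset.range n, q / N (l + 1) ≤ ∑ l ∈ Finset.range n, q / 2 ^ (l + 1) := by
    apply Finset.sum_le_sum
    intro l _
    rcases hN (l + 1) with h | h
    · rw [h, Nat.div_zero]; exact Nat.zero_le _
    · exact Nat.div_le_div_left h (by positivity)
  exact le_trans h1 (le_trans (o_sum n q) (Nat.sub_le _ _))

/-- TARGET increments of the sum of quotients -/
theorem th_step (N : ℕ → ℕ) (n q i : ℕ) (hi : i ≤ n) (hq : 1 ≤ q)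
    (h : ∀ l, 1 ≤ l → l ≤ i → 0 < N l ∧ N l ∣ q) : Th N n (q - 1) + i ≤ Th N n q := by
  unfold Th
  have h1 : ∑ l ∈ Finset.range n, ((q - 1) / N (l + 1) + (if l < i then 1 else 0)) ≤
      ∑ l ∈ Finset.range n, q / N (l + 1) := by
    apply Finset.sum_le_sum
    intro l _
    by_cases hl : l < i
    · rw [if_pos hl]
      obtain ⟨hpos, k, hk⟩ := h (l + 1) (by omega) (by omega)
      have hk1 : 1 ≤ k := by
        rcases Nat.eq_zero_or_pos k with h0 | h0
        · rw [h0, mul_zero] at hk; omega
        · exact h0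
      obtain ⟨m, rfl⟩ : ∃ m, k = m + 1 := ⟨k - 1, by omega⟩
      have h2 : q / N (l + 1) = m + 1 := by
        rw [hk]; exact Nat.mul_div_cancel_left _ hpos
      have h3 : (q - 1) / N (l + 1) < m + 1 := by
        rw [Nat.div_lt_iff_lt_mul hpos, mul_comm, ← hk]
        omega
      omega
    · rw [if_neg hl, add_zero]
      exact Nat.div_le_div_right (Nat.sub_le _ _)
  rw [Finset.sum_add_distrib] at h1
  have h4 : ∑ l ∈ Finset.range n, (if l < i then 1 else 0) = i := by
    rw [← Finset.sum_filter, Finset.sum_const, smul_eq_mul, mul_one]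
    have h5 : (Finset.range n).filter (fun l => l < i) = Finset.range i := by
      ext l
      rw [Finset.mem_filter, Finset.mem_range, Finset.mem_range]
      omega
    rw [h5, Finset.card_range]
  rw [h4] at h1
  exact h1

/-- TARGET monotonicity of the sum of quotients -/
theorem th_mono (N : ℕ → ℕ) (n q : ℕ) : Th N n (q - 1) ≤ Th N n q := by
  unfold Th
  exact Finset.sum_le_sum (fun l _ => Nat.div_le_div_right (Nat.sub_le _ _))


/-! ### p -/

/-- TARGET the chain is increasing -/
theorem pc_mono {n : ℕ} [NeZero n] (π : Equiv.Perm (ZMod n)) (d : ZMod n) (i j : ℕ) (h : i ≤ j) :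
    Pc π d i ≤ Pc π d j := by
  have hmono : Monotone (Pc π d) := by
    refine monotone_nat_of_le_succ ?_
    intro k x hx
    have hx' : x ∈ ((Pc π d k : Set (ZMod n)) ∪ (fun x => π x) '' (Pc π d k : Set (ZMod n))) :=
      Or.inl hx
    exact AddSubgroup.subset_closure hx'
  exact hmono h

/-- TARGET the size of a periodic set -/
theorem per_card {n : ℕ} [NeZero n] (P : AddSubgroup (ZMod n)) (T : Finset (ZMod n))
    (h : Per P T) : Nat.card P ∣ T.card := by
  classical
  rw [Finset.card_eq_sum_card_image (fun x : ZMod n => (QuotientAddGroup.mk x : ZMod n ⧸ P)) T]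
  refine Finset.dvd_sum ?_
  intro b hb
  obtain ⟨x, hx, rfl⟩ := Finset.mem_image.1 hb
  have hcard : (T.filter (fun y => (QuotientAddGroup.mk y : ZMod n ⧸ P) = QuotientAddGroup.mk x)).card
      = Nat.card P := by
    have heq : ((T.filter (fun y => (QuotientAddGroup.mk y : ZMod n ⧸ P) =
        QuotientAddGroup.mk x) : Finset (ZMod n)) : Set (ZMod n)) =
        (fun p => x + p) '' (P : Set (ZMod n)) := by
      ext y
      simp only [Finset.coe_filter, Set.mem_setOf_eq, Set.mem_image, SetLike.mem_coe]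
      constructor
      · rintro ⟨hy, hyx⟩
        have h1 : -x + y ∈ P := QuotientAddGroup.eq.1 hyx.symm
        exact ⟨-x + y, h1, by ring⟩
      · rintro ⟨p, hp, rfl⟩
        refine ⟨h p hp x hx, ?_⟩
        refine (QuotientAddGroup.eq.2 ?_).symm
        have : -x + (x + p) = p := by ring
        rw [this]; exact hp
    have h2 : Nat.card ((T.filter (fun y => (QuotientAddGroup.mk y : ZMod n ⧸ P) =
        QuotientAddGroup.mk x) : Finset (ZMod n)) : Set (ZMod n)) = Nat.card P := by
      rw [heq]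
      exact Nat.card_image_of_injective (add_right_injective x) (P : Set (ZMod n))
    rw [← h2]
    simp
  exact dvd_of_eq hcard.symm


/-! ### q -/

/-- TARGET growth of the chain -/
theorem pc_growth {n : ℕ} [NeZero n] (π : Equiv.Perm (ZMod n)) (d : ZMod n) (hr : Rig π d)
    (i : ℕ) (hi : Pc π d i ≠ ⊤) :
    2 ^ i * Nat.card (Pc π d 0) ≤ Nat.card (Pc π d i) := by
  induction i with
  | zero => simp
  | succ i ih =>
    have hle : Pc π d i ≤ Pc π d (i + 1) := pc_mono π d i (i + 1) (Nat.le_succ i)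
    have hi' : Pc π d i ≠ ⊤ := by
      intro h
      apply hi
      rw [h] at hle
      exact top_le_iff.1 hle
    have horb : ∀ k : ℕ, (π ^ k) d ∈ Pc π d i := by
      intro k
      have h0 : Pc π d 0 ≤ Pc π d i := pc_mono π d 0 i (Nat.zero_le i)
      apply h0
      exact AddSubgroup.subset_closure ⟨k, rfl⟩
    obtain ⟨x, hx, hpx⟩ := hr _ hi' horb
    have hpx' : π x ∈ Pc π d (i + 1) := by
      apply AddSubgroup.subset_closure
      exact Or.inr ⟨x, hx, rfl⟩
    have hne : Nat.card (Pc π d i) ≠ Nat.card (Pc π d (i + 1)) := by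
      intro h
      have hEq : Pc π d i = Pc π d (i + 1) := AddSubgroup.eq_of_le_of_card_ge hle h.symm.le
      exact hpx (hEq ▸ hpx')
    have hdvd : Nat.card (Pc π d i) ∣ Nat.card (Pc π d (i + 1)) :=
      AddSubgroup.card_dvd_of_le hle
    have hpos : 0 < Nat.card (Pc π d (i + 1)) := Nat.card_pos
    obtain ⟨k, hk⟩ := hdvd
    have h2 : 2 ≤ k := by
      rcases k with _ | _ | k
      · simp at hk; omega
      · simp at hk; exact absurd hk.symm hne
      · omega
    have ih' := ih hi'
    calc 2 ^ (i + 1) * Nat.card (Pc π d 0) = 2 * (2 ^ i * Nat.card (Pc π d 0)) := by ring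
      _ ≤ 2 * Nat.card (Pc π d i) := Nat.mul_le_mul_left _ ih'
      _ ≤ k * Nat.card (Pc π d i) := Nat.mul_le_mul_right _ h2
      _ = Nat.card (Pc π d (i + 1)) := by rw [hk, mul_comm]


/-! ### r -/

/-- TARGET level of a periodic set -/
theorem level {n : ℕ} [NeZero n] (π : Equiv.Perm (ZMod n)) (d : ZMod n) (hr : Rig π d)
    (T : Finset (ZMod n)) (hne : T.Nonempty) (hu : T ≠ univ) (h : Per (Pc π d 0) T) :
    ∃ i : ℕ, i ≤ n ∧ Per (Pc π d i) T ∧ ¬ Per (Pc π d (i + 1)) T ∧
      ∀ l, 1 ≤ l → l ≤ i →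
        0 < Nf π d l ∧ Nf π d l ∣ T.card / Nat.card (Pc π d 0) := by
  classical
  have hnt : ∀ i, Per (Pc π d i) T → Pc π d i ≠ ⊤ := by
    intro i hi htop
    apply hu
    obtain ⟨x, hx⟩ := hne
    ext y
    simp only [mem_univ, iff_true]
    have := hi (y - x) (by rw [htop]; trivial) x hx
    simpa using this
  have hM : 0 < Nat.card (Pc π d 0) := Nat.card_pos
  have hlt : ∀ i, Per (Pc π d i) T → i < n := by
    intro i hi
    have h1 := pc_growth π d hr i (hnt i hi)
    have h2 : Nat.card (Pc π d i) ≤ n := by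
      have := Nat.card_le_card_of_injective (fun x : Pc π d i => (x : ZMod n)) Subtype.val_injective
      rwa [Nat.card_zmod] at this
    have h3 : i < 2 ^ i := Nat.lt_two_pow_self
    have h4 : 2 ^ i * 1 ≤ 2 ^ i * Nat.card (Pc π d 0) := Nat.mul_le_mul_left _ hM
    omega
  have hex : ∃ j, ¬ Per (Pc π d j) T := ⟨n, fun h' => lt_irrefl _ (hlt n h')⟩
  have hmin := Nat.find_spec hex
  set j := Nat.find hex with hj
  have hj0 : j ≠ 0 := by
    intro h0
    rw [h0] at hmin
    exact hmin h
  obtain ⟨i, hi⟩ := Nat.exists_eq_succ_of_ne_zero hj0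
  have hPi : Per (Pc π d i) T := by
    by_contra hcon
    have := Nat.find_min' hex hcon
    omega
  refine ⟨i, (hlt i hPi).le, hPi, ?_, ?_⟩
  · rw [← Nat.succ_eq_add_one, ← hi]; exact hmin
  · intro l _ hl
    have hPl : Per (Pc π d l) T := fun p hp x hx => hPi p (pc_mono π d l i hl hp) x hx
    have hl' := hnt l hPl
    have hdv : Nat.card (Pc π d 0) ∣ Nat.card (Pc π d l) :=
      AddSubgroup.card_dvd_of_le (pc_mono π d 0 l (Nat.zero_le _))
    have hdT := per_card (Pc π d l) T hPl
    have hpos : 0 < Nat.card (Pc π d l) := Nat.card_pos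
    have hN : Nf π d l = Nat.card (Pc π d l) / Nat.card (Pc π d 0) := by
      unfold Nf; rw [if_neg hl']
    rw [hN]
    exact ⟨Nat.div_pos (Nat.le_of_dvd hpos hdv) hM, Nat.div_dvd_div hdv hdT⟩

/-- TARGET the sizes in the chain -/
theorem nf_bound {n : ℕ} [NeZero n] (π : Equiv.Perm (ZMod n)) (d : ZMod n) (hr : Rig π d)
    (l : ℕ) : Nf π d l = 0 ∨ 2 ^ l ≤ Nf π d l := by
  classical
  by_cases h : Pc π d l = ⊤
  · left; unfold Nf; rw [if_pos h]
  · right
    have hN : Nf π d l = Nat.card (Pc π d l) / Nat.card (Pc π d 0) := by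
      unfold Nf; rw [if_neg h]
    rw [hN]
    have hM : 0 < Nat.card (Pc π d 0) := Nat.card_pos
    exact (Nat.le_div_iff_mul_le hM).2 (pc_growth π d hr l h)


/-! ### s -/

/-- TARGET main induction -/
theorem main_ind {n : ℕ} [NeZero n] (π : Equiv.Perm (ZMod n)) (d : ZMod n) (h0 : π 0 = 0)
    (hd : d ≠ 0) (hr : Rig π d) (hK : Pc π d 0 ≠ ⊤) (hl : π d ≠ d) (k : ℕ) :
    ∀ T : Finset (ZMod n), T ≠ univ → T.card = k →
      ∃ c, Mv π d c T ∅ ∧
        c + k / Nat.card (Pc π d 0) +
          ((k % Nat.card (Pc π d 0) + 3) - Nat.card (Pc π d 0)) ≤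
        n * k + Th (Nf π d) n (k / Nat.card (Pc π d 0)) := by
  have hM4 : 4 ≤ Nat.card (Pc π d 0) := card_K π d h0 hd hr hK hl
  have hMn : Nat.card (Pc π d 0) ≤ n := by
    have h1 : Nat.card (Pc π d 0) ∣ Nat.card (ZMod n) := AddSubgroup.card_addSubgroup_dvd_card _
    rw [Nat.card_zmod] at h1
    exact Nat.le_of_dvd (Nat.pos_of_ne_zero (NeZero.ne n)) h1
  have hnonper0 : ∀ T : Finset (ZMod n), ¬ Per (Pc π d 0) T → Reach π d (n - 1) T :=
    fun T hT => nonper π d h0 hd T hT
  have hgain := fun T hT => gain π d h0 hd hK hM4 hl T hT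
  have hper : ∀ T : Finset (ZMod n), Per (Pc π d 0) T → Nat.card (Pc π d 0) ∣ T.card :=
    fun T hT => per_card _ T hT
  have hlevel := fun T hne hu h => level π d hr T hne hu h
  generalize hMdef : Nat.card (Pc π d 0) = M at *
  have hMpos : 0 < M := by omega
  induction k with
  | zero =>
    intro T hu hc
    rw [Finset.card_eq_zero] at hc
    subst hc
    refine ⟨0, Mv.refl _, ?_⟩
    rw [Nat.zero_div, Nat.zero_mod]
    omega
  | succ k ih =>
    intro T hu hc
    have hne : T.Nonempty := by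
      rw [← Finset.card_pos, hc]
      omega
    have hstep : ∀ r, Reach π d r T → ∃ c1 c2, c1 ≤ r + 1 ∧ Mv π d (c1 + c2) T ∅ ∧
        c2 + k / M + ((k % M + 3) - M) ≤ n * k + Th (Nf π d) n (k / M) := by
      intro r hr'
      obtain ⟨c1, hc1, T', hmv, hcard⟩ := remove h0 hr'
      have hT'u : T' ≠ univ := by
        intro h
        have h1 := Finset.card_le_univ T
        rw [h, Finset.card_univ] at hcard
        omega
      obtain ⟨c2, hc2, hle⟩ := ih T' hT'u (by omega)
      exact ⟨c1, c2, hc1, mv_trans hmv hc2, hle⟩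
    have hdm := Nat.div_add_mod (k + 1) M
    have hlt := Nat.mod_lt (k + 1) hMpos
    generalize hq : (k + 1) / M = q at *
    generalize hj : (k + 1) % M = j at *
    have hnk : n * (k + 1) = n * k + n := by ring
    rcases Nat.eq_zero_or_pos j with hj0 | hjpos
    · have hq1 : 1 ≤ q := by
        rcases Nat.eq_zero_or_pos q with hq0 | hq0
        · rw [hq0, hj0] at hdm
          simp at hdm
        · exact hq0
      have hkd : k / M = q - 1 ∧ k % M = M - 1 := by
        rw [Nat.div_mod_unique hMpos]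
        refine ⟨?_, by omega⟩
        have h1 : M * q = M * (q - 1) + M := by
          obtain ⟨q', rfl⟩ : ∃ q', q = q' + 1 := ⟨q - 1, by omega⟩
          rw [Nat.add_sub_cancel]; ring
        omega
      rw [hkd.1, hkd.2] at hstep
      by_cases hp : Per (Pc π d 0) T
      · obtain ⟨i, hin, hi1, hi2, hi3⟩ := hlevel T hne hu hp
        have hq' : T.card / M = q := by rw [hc, hq]
        rw [hq'] at hi3
        obtain ⟨c1, c2, hc1, hmv, hle⟩ := hstep _ (passage π d h0 hd i T hne hi1 hi2)
        have hth := th_step (Nf π d) n q i hin hq1 hi3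
        refine ⟨c1 + c2, hmv, ?_⟩
        rw [hnk, hj0]
        omega
      · obtain ⟨c1, c2, hc1, hmv, hle⟩ := hstep _ (hnonper0 T hp)
        have hth := th_mono (Nf π d) n q
        refine ⟨c1 + c2, hmv, ?_⟩
        rw [hnk, hj0]
        omega
    · have hkd : k / M = q ∧ k % M = j - 1 := by
        rw [Nat.div_mod_unique hMpos]
        omega
      rw [hkd.1, hkd.2] at hstep
      have hnp : ¬ Per (Pc π d 0) T := by
        intro hp
        have h1 := hper T hp
        rw [hc] at h1
        have h2 := Nat.mod_eq_zero_of_dvd h1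
        omega
      by_cases hcase : j + 2 = M ∨ j + 1 = M
      · obtain ⟨c1, c2, hc1, hmv, hle⟩ := hstep _ (hgain T (by rw [hc, hj]; exact hcase))
        refine ⟨c1 + c2, hmv, ?_⟩
        rw [hnk]
        omega
      · obtain ⟨c1, c2, hc1, hmv, hle⟩ := hstep _ (hnonper0 T hnp)
        refine ⟨c1 + c2, hmv, ?_⟩
        rw [hnk]
        omega


/-! ### t -/

theorem t_top {n : ℕ} [NeZero n] (π : Equiv.Perm (ZMod n)) (d : ZMod n) (h0 : π 0 = 0)
    (hd : d ≠ 0) (hP : Pc π d 0 = ⊤) (k : ℕ) : ∀ T : Finset (ZMod n), T ≠ univ → T.card = k →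
      ∃ c ≤ n * k, Mv π d c T ∅ := by
  have hn : 1 ≤ n := Nat.one_le_iff_ne_zero.2 (NeZero.ne n)
  induction k with
  | zero =>
    intro T _ hT
    rw [Finset.card_eq_zero.1 hT]
    exact ⟨0, Nat.zero_le _, Mv.refl ∅⟩
  | succ k ih =>
    intro T hTu hT
    have hne : T.Nonempty := Finset.card_pos.1 (by omega)
    obtain ⟨x, hx⟩ := hne
    obtain ⟨y, hy⟩ : ∃ y, y ∉ T := by
      by_contra hc
      push Not at hc
      exact hTu (Finset.eq_univ_iff_forall.2 hc)
    have hper : ¬ Per (Pc π d 0) T := by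
      intro hp
      apply hy
      have := hp (y - x) (by rw [hP]; exact AddSubgroup.mem_top _) x hx
      rwa [add_sub_cancel] at this
    obtain ⟨c', hc', T', hm, hcard⟩ := remove h0 (nonper π d h0 hd T hper)
    have hT'u : T' ≠ univ := by
      intro h
      have h1 : T.card ≤ (univ : Finset (ZMod n)).card := Finset.card_le_univ T
      rw [← h] at h1
      omega
    obtain ⟨c'', hc'', hm'⟩ := ih T' hT'u (by omega)
    refine ⟨c' + c'', ?_, mv_trans hm hm'⟩
    have : n * (k + 1) = n * k + n := by ring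
    omega

/-- TARGET the bound for sets of holes -/
theorem holes {n : ℕ} [NeZero n] (π : Equiv.Perm (ZMod n)) (d : ZMod n) (h0 : π 0 = 0)
    (hd : d ≠ 0) (hr : Rig π d) (hl : π d ≠ d) (T : Finset (ZMod n)) (hT : T ≠ univ) :
    ∃ c ≤ n * T.card, Mv π d c T ∅ := by
  by_cases hP : Pc π d 0 = ⊤
  · exact t_top π d h0 hd hP T.card T hT rfl
  · obtain ⟨c, hm, hc⟩ := main_ind π d h0 hd hr hP hl T.card T hT rfl
    refine ⟨c, ?_, hm⟩
    have := th_le (Nf π d) n (T.card / Nat.card (Pc π d 0)) (nf_bound π d hr)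
    omega

/-- TARGET the final theorem -/
theorem final (n : ℕ) [NeZero n] (f : ZMod n → ZMod n)
    (hcr : ∀ P : Finset (ZMod n), P.Nonempty →
        ∃ w : List Bool,
          Finset.univ.image (fun q : ZMod n =>
            w.foldl (fun (p : ZMod n) (c : Bool) => if c then f p else p + 1) q) = P)
    (h1 : ∀ q : ZMod n, (∀ p : ZMod n, f p ≠ q) ↔ q = 0)
    (h2 : ∀ q : ZMod n, (∃ p₁ p₂ : ZMod n, p₁ ≠ p₂ ∧ f p₁ = q ∧ f p₂ = q) ↔ q = f 0)
    (hne : f (f 0) ≠ f 0) (S : Finset (ZMod n)) (hS : S.Nonempty) :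
    ∃ w : List Bool, w.length ≤ n * (n - S.card) ∧
      Finset.univ.image (fun q : ZMod n =>
        w.foldl (fun (p : ZMod n) (c : Bool) => if c then f p else p + 1) q) = S := by
  obtain ⟨π, h0, hπ, hf0⟩ := perm_exists f h1 h2
  have hr : Rig π (f 0) := rig_of_cr f π h0 hπ hf0 (fun P hP => hcr P hP)
  have hl : π (f 0) ≠ f 0 := by
    rw [hπ (f 0) hf0]; exact hne
  have hT : Sᶜ ≠ univ := by
    obtain ⟨x, hx⟩ := hS
    intro h
    have : x ∈ Sᶜ := by rw [h]; exact Finset.mem_univ x
    exact (Finset.mem_compl.1 this) hx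
  obtain ⟨c, hc, hm⟩ := holes π (f 0) h0 hf0 hr hl Sᶜ hT
  obtain ⟨w', hw', himg⟩ := word_of_mv f π h0 hπ hm [] (by
    have : (run f [] : ZMod n → ZMod n) = id := by
      funext q
      rfl
    rw [this, Finset.image_id, Finset.compl_empty])
  refine ⟨w', ?_, ?_⟩
  · rw [hw', List.length_nil, zero_add]
    rw [Finset.card_compl, ZMod.card] at hc
    exact hc
  · rw [compl_compl] at himg
    exact himg

end Pool.Agent.Helper597.Don
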