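import Mathlib

set_option autoImplicit false

namespace Pool.Agent.Helper597.DonA2

open Finset

/-- the element of value `3g - a` (that is, `-a`) -/
def X (n g a : ℕ) : ZMod n := ((3 * g - a : ℕ) : ZMod n)

/-- the element of value `g - a` -/
def Y (n g a : ℕ) : ZMod n := ((g - a : ℕ) : ZMod n)

/-- the element of value `2g - a` -/
def D (n g a : ℕ) : ZMod n := ((2 * g - a : ℕ) : ZMod n)

/-- the standing assumptions (`E` is the set of holes without `0`; `tight` says that every step of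
cost at most `n-2` is impossible) -/
structure Hyp (n g : ℕ) (π : Equiv.Perm (ZMod n)) (E : Finset (ZMod n)) : Prop where
  hg : 1 ≤ g
  hn : n = 3 * g
  p0 : π 0 = 0
  pd : π ((2 * g : ℕ) : ZMod n) = ((2 * g : ℕ) : ZMod n)
  E0 : (0 : ZMod n) ∉ E
  Ed : ((2 * g : ℕ) : ZMod n) ∉ E
  Eg : ((g : ℕ) : ZMod n) ∈ E
  card : 5 ≤ E.card
  tight : ∀ m v : ℕ, 1 ≤ m → 0 < v → v < 3 * g → (π ^ m) ((v : ℕ) : ZMod n) ∈ E →
    m + v + 2 ≤ 3 * g →
    v ≠ g ∧ (g < v → (π ^ m) ((v - g : ℕ) : ZMod n) ∈ E) ∧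
      (v < g → (π ^ m) ((v + 2 * g : ℕ) : ZMod n) ∈ E)

/-- the point at position `s` on the cycle of `g`: `π^s` maps it to `g` -/
def γ {n : ℕ} (π : Equiv.Perm (ZMod n)) (g : ℕ) (s : ℤ) : ZMod n := (π ^ (-s)) ((g : ℕ) : ZMod n)

/-- the length of the cycle of `g` is `2g - 1 + B`, and the points of `E` on it are at positions in
`[0, B]` -/
structure Cyc (n g : ℕ) (π : Equiv.Perm (ZMod n)) (E : Finset (ZMod n)) (B : ℕ) : Prop where
  hB : B + 1 ≤ g
  inj : ∀ s t : ℤ, γ π g s = γ π g t ↔ (2 * (g : ℤ) - 1 + B) ∣ s - t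
  pos : ∀ s : ℤ, γ π g s ∈ E → ∃ c : ℕ, c ≤ B ∧ (2 * (g : ℤ) - 1 + B) ∣ s - c

/-- `z` lies on the cycle of `g` -/
def inC {n : ℕ} (π : Equiv.Perm (ZMod n)) (g : ℕ) (z : ZMod n) : Prop := ∃ s : ℤ, z = γ π g s

/-- what is outside the cycle -/
structure Out (n g : ℕ) (π : Equiv.Perm (ZMod n)) (E : Finset (ZMod n)) (B : ℕ) : Prop where
  both : ∀ a, B < a → a < g → ¬ (inC π g (X n g a) ∧ inC π g (Y n g a))
  one : ∀ a, 1 ≤ a → a < g → inC π g (X n g a) ∨ inC π g (Y n g a)
  low : ∀ a, 1 ≤ a → a ≤ B → inC π g (X n g a) ∧ inC π g (Y n g a)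
  mid : ∀ a, 1 ≤ a → a < g → inC π g (D n g a)
  yout : ∀ a, 1 ≤ a → a < g → ¬ inC π g (Y n g a) → ∀ m : ℕ, (π ^ m) (Y n g a) ∉ E

/-- the points of `E` on the cycle are at the positions `0, δ, ..., kδ` -/
structure AP (n g : ℕ) (π : Equiv.Perm (ZMod n)) (E : Finset (ZMod n)) (B δ k : ℕ) : Prop where
  hδ : 1 ≤ δ
  hk : k * δ ≤ B
  mem : ∀ s : ℤ, γ π g s ∈ E ↔ ∃ j : ℕ, j ≤ k ∧ (2 * (g : ℤ) - 1 + B) ∣ s - j * δ
  yB : 1 ≤ B → 1 ≤ k ∧ Y n g B = γ π g ((k * δ : ℕ) : ℤ)


/-! ### a -/

/-- TARGET casts of small numbers are distinct -/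
theorem cast_inj {n v w : ℕ} (hv : v < n) (hw : w < n) (h : (v : ZMod n) = (w : ZMod n)) :
    v = w := by
  have h1 := ZMod.val_natCast_of_lt hv
  have h2 := ZMod.val_natCast_of_lt hw
  rw [h] at h1
  omega

/-- TARGET from `Y` to `X` -/
theorem fA {n g : ℕ} {π : Equiv.Perm (ZMod n)} {E : Finset (ZMod n)} (h : Hyp n g π E) (a m : ℕ)
    (ha : 1 ≤ a) (ha' : a < g) (hm : 1 ≤ m) (hm' : m + 2 ≤ 2 * g + a)
    (hy : (π ^ m) (Y n g a) ∈ E) : (π ^ m) (X n g a) ∈ E := by
  have h3 := (h.tight m (g - a) hm (by omega) (by omega) hy (by omega)).2.2 (by omega)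
  have e : g - a + 2 * g = 3 * g - a := by omega
  rw [e] at h3
  exact h3

/-- TARGET from `D` to `Y` -/
theorem fB {n g : ℕ} {π : Equiv.Perm (ZMod n)} {E : Finset (ZMod n)} (h : Hyp n g π E) (a m : ℕ)
    (ha : 1 ≤ a) (ha' : a < g) (hm : 1 ≤ m) (hm' : m + 2 ≤ g + a)
    (hy : (π ^ m) (D n g a) ∈ E) : (π ^ m) (Y n g a) ∈ E := by
  have h3 := (h.tight m (2 * g - a) hm (by omega) (by omega) hy (by omega)).2.1 (by omega)
  have e : 2 * g - a - g = g - a := by omega
  rw [e] at h3
  exact h3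

/-- TARGET from `X` to `D` -/
theorem fC {n g : ℕ} {π : Equiv.Perm (ZMod n)} {E : Finset (ZMod n)} (h : Hyp n g π E) (a m : ℕ)
    (ha : 1 ≤ a) (ha' : a < g) (hm : 1 ≤ m) (hm' : m + 2 ≤ a)
    (hy : (π ^ m) (X n g a) ∈ E) : (π ^ m) (D n g a) ∈ E := by
  have h3 := (h.tight m (3 * g - a) hm (by omega) (by omega) hy (by omega)).2.1 (by omega)
  have e : 3 * g - a - g = 2 * g - a := by omega
  rw [e] at h3
  exact h3

/-- TARGET `g` does not come back early -/
theorem f1 {n g : ℕ} {π : Equiv.Perm (ZMod n)} {E : Finset (ZMod n)} (h : Hyp n g π E) (m : ℕ)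
    (hm : 1 ≤ m) (hm' : m + 2 ≤ 2 * g) : (π ^ m) ((g : ℕ) : ZMod n) ∉ E := by
  intro hy
  have hg := h.hg
  exact (h.tight m g hm (by omega) (by omega) hy (by omega)).1 rfl

/-- TARGET all elements -/
theorem cover {n g : ℕ} {π : Equiv.Perm (ZMod n)} {E : Finset (ZMod n)} (h : Hyp n g π E)
    (z : ZMod n) : z = 0 ∨ z = ((2 * g : ℕ) : ZMod n) ∨ z = ((g : ℕ) : ZMod n) ∨
      ∃ a, 1 ≤ a ∧ a < g ∧ (z = X n g a ∨ z = Y n g a ∨ z = D n g a) := by
  have hg := h.hg
  have hn := h.hn
  haveI : NeZero n := ⟨by omega⟩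
  have hz : z = ((z.val : ℕ) : ZMod n) := (ZMod.natCast_zmod_val z).symm
  have hlt : z.val < n := ZMod.val_lt z
  generalize z.val = v at hz hlt
  subst hz
  rcases Nat.eq_zero_or_pos v with h0 | h0
  · left; rw [h0, Nat.cast_zero]
  right
  rcases eq_or_ne v (2 * g) with h1 | h1
  · left; rw [h1]
  right
  rcases eq_or_ne v g with h2 | h2
  · left; rw [h2]
  right
  rcases lt_or_ge v g with h3 | h3
  · refine ⟨g - v, by omega, by omega, Or.inr (Or.inl ?_)⟩
    unfold Y
    congr 1
    omega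
  rcases lt_or_ge v (2 * g) with h4 | h4
  · refine ⟨2 * g - v, by omega, by omega, Or.inr (Or.inr ?_)⟩
    unfold D
    congr 1
    omega
  · refine ⟨3 * g - v, by omega, by omega, Or.inl ?_⟩
    unfold X
    congr 1
    omega

/-- TARGET the elements are distinct -/
theorem distinct {n g : ℕ} {π : Equiv.Perm (ZMod n)} {E : Finset (ZMod n)} (h : Hyp n g π E)
    (a b : ℕ) (ha : 1 ≤ a) (ha' : a < g) (hb : 1 ≤ b) (hb' : b < g) :
    (X n g a = X n g b → a = b) ∧ (Y n g a = Y n g b → a = b) ∧ (D n g a = D n g b → a = b) ∧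
    X n g a ≠ Y n g b ∧ X n g a ≠ D n g b ∧ Y n g a ≠ D n g b ∧
    X n g a ≠ 0 ∧ Y n g a ≠ 0 ∧ D n g a ≠ 0 ∧
    X n g a ≠ ((2 * g : ℕ) : ZMod n) ∧ Y n g a ≠ ((2 * g : ℕ) : ZMod n) ∧
    D n g a ≠ ((2 * g : ℕ) : ZMod n) ∧
    X n g a ≠ ((g : ℕ) : ZMod n) ∧ Y n g a ≠ ((g : ℕ) : ZMod n) ∧
    D n g a ≠ ((g : ℕ) : ZMod n) := by
  have hg := h.hg
  have hn := h.hn
  unfold X Y D
  have z0 : (0 : ZMod n) = ((0 : ℕ) : ZMod n) := Nat.cast_zero.symm
  refine ⟨?_, ?_, ?_, ?_, ?_, ?_, ?_, ?_, ?_, ?_, ?_, ?_, ?_, ?_, ?_⟩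
  · intro e
    have := cast_inj (by omega) (by omega) e
    omega
  · intro e
    have := cast_inj (by omega) (by omega) e
    omega
  · intro e
    have := cast_inj (by omega) (by omega) e
    omega
  · intro e
    have := cast_inj (by omega) (by omega) e
    omega
  · intro e
    have := cast_inj (by omega) (by omega) e
    omega
  · intro e
    have := cast_inj (by omega) (by omega) e
    omega
  · intro e
    have := cast_inj (by omega) (by omega) (e.trans z0)
    omega
  · intro e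
    have := cast_inj (by omega) (by omega) (e.trans z0)
    omega
  · intro e
    have := cast_inj (by omega) (by omega) (e.trans z0)
    omega
  · intro e
    have := cast_inj (by omega) (by omega) e
    omega
  · intro e
    have := cast_inj (by omega) (by omega) e
    omega
  · intro e
    have := cast_inj (by omega) (by omega) e
    omega
  · intro e
    have := cast_inj (by omega) (by omega) e
    omega
  · intro e
    have := cast_inj (by omega) (by omega) e
    omega
  · intro e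
    have := cast_inj (by omega) (by omega) e
    omega

/-- TARGET moving along the cycle -/
theorem pow_γ {n g : ℕ} (π : Equiv.Perm (ZMod n)) (s : ℤ) (m : ℕ) :
    (π ^ m) (γ π g s) = γ π g (s - m) := by
  unfold γ
  have e : -(s - (m : ℤ)) = (m : ℤ) + -s := by ring
  rw [e, zpow_add, zpow_natCast]
  rfl

/-- TARGET the fixed points are not on the cycle -/
theorem fixed_out {n g : ℕ} {π : Equiv.Perm (ZMod n)} {E : Finset (ZMod n)} (h : Hyp n g π E) :
    ¬ inC π g (0 : ZMod n) ∧ ¬ inC π g ((2 * g : ℕ) : ZMod n) := by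
  have hg := h.hg
  have hn := h.hn
  have key : ∀ x : ZMod n, π x = x → inC π g x → x = ((g : ℕ) : ZMod n) := by
    rintro x hx ⟨s, hs⟩
    have h1 : (π ^ s) x = x := Equiv.Perm.zpow_apply_eq_self_of_apply_eq_self hx s
    have h2 : (π ^ s) (γ π g s) = ((g : ℕ) : ZMod n) := by
      unfold γ
      have : (π ^ s * π ^ (-s)) ((g : ℕ) : ZMod n) = ((g : ℕ) : ZMod n) := by
        rw [← zpow_add, add_neg_cancel, zpow_zero]
        rfl
      exact this
    rw [← hs, h1] at h2
    exact h2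
  constructor
  · intro hc
    have e := key _ h.p0 hc
    have z0 : (0 : ZMod n) = ((0 : ℕ) : ZMod n) := Nat.cast_zero.symm
    have := cast_inj (by omega) (by omega) (z0.symm.trans e)
    omega
  · intro hc
    have e := key _ h.pd hc
    have := cast_inj (by omega) (by omega) e
    omega


/-! ### b -/

theorem b_period {n : ℕ} [NeZero n] (π : Equiv.Perm (ZMod n)) (x : ZMod n) :
    0 < Function.minimalPeriod π x ∧
      ∀ k : ℤ, (π ^ k) x = x ↔ ((Function.minimalPeriod π x : ℕ) : ℤ) ∣ k := by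
  have hn : ∀ k : ℕ, (π ^ k) x = x ↔ Function.minimalPeriod π x ∣ k := by
    intro k
    rw [← Function.isPeriodicPt_iff_minimalPeriod_dvd, ← Equiv.Perm.iterate_eq_pow]
    rfl
  refine ⟨Function.minimalPeriod_pos_of_mem_periodicPts (π.injective.mem_periodicPts x), ?_⟩
  intro k
  obtain ⟨m, rfl | rfl⟩ := k.eq_nat_or_neg
  · rw [zpow_natCast, hn, Int.natCast_dvd_natCast]
  · rw [zpow_neg, zpow_natCast, Equiv.Perm.inv_eq_iff_eq, dvd_neg, Int.natCast_dvd_natCast, ← hn]
    exact eq_comm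

/-- TARGET structure of the cycle of `g` -/
theorem cyc {n g : ℕ} {π : Equiv.Perm (ZMod n)} {E : Finset (ZMod n)} (h : Hyp n g π E) :
    ∃ B : ℕ, Cyc n g π E B := by
  have hg := h.hg
  have hn := h.hn
  have hne : NeZero n := ⟨by omega⟩
  obtain ⟨hl0, hper⟩ := b_period π ((g : ℕ) : ZMod n)
  obtain ⟨l, hl⟩ : ∃ l, l = Function.minimalPeriod π ((g : ℕ) : ZMod n) := ⟨_, rfl⟩
  rw [← hl] at hl0 hper
  have hγ : ∀ s t : ℤ, γ π g s = γ π g t ↔ (l : ℤ) ∣ s - t := by
    intro s t
    have h1 : γ π g s = γ π g t ↔ (π ^ (t - s)) ((g : ℕ) : ZMod n) = ((g : ℕ) : ZMod n) := by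
      unfold γ
      rw [sub_eq_add_neg, zpow_add, Equiv.Perm.mul_apply]
      constructor
      · intro h2
        rw [h2, ← Equiv.Perm.mul_apply, ← zpow_add]
        simp
      · intro h2
        rw [← Equiv.Perm.eq_inv_iff_eq] at h2
        rw [h2, ← zpow_neg]
    rw [h1, hper, ← dvd_neg, neg_sub]
  have hll : 2 * g - 1 ≤ l := by
    by_contra hcon
    have h1 := f1 h l hl0 (by omega)
    have h2 : (π ^ (l : ℤ)) ((g : ℕ) : ZMod n) = ((g : ℕ) : ZMod n) := (hper l).2 dvd_rfl
    rw [zpow_natCast] at h2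
    rw [h2] at h1
    exact h1 h.Eg
  have hlu : l + 2 ≤ 3 * g := by
    have hinj : Set.InjOn (fun i : ℕ => γ π g (i : ℤ)) (Finset.range l : Set ℕ) := by
      intro a ha b hb hab
      have h1 := (hγ a b).1 hab
      have ha' : a < l := Finset.mem_range.1 ha
      have hb' : b < l := Finset.mem_range.1 hb
      have h2 : ((a : ℤ) - b) = 0 := by
        apply Int.eq_zero_of_abs_lt_dvd h1
        rw [abs_lt]
        constructor <;> omega
      omega
    have h1 : ((Finset.range l).image (fun i : ℕ => γ π g (i : ℤ))).card = l := by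
      rw [Finset.card_image_of_injOn hinj, Finset.card_range]
    obtain ⟨ho1, ho2⟩ := fixed_out h
    have h2 : ((Finset.range l).image (fun i : ℕ => γ π g (i : ℤ))) ⊆
        ((Finset.univ : Finset (ZMod n)).erase 0).erase ((2 * g : ℕ) : ZMod n) := by
      intro z hz
      obtain ⟨i, hi, rfl⟩ := Finset.mem_image.1 hz
      rw [Finset.mem_erase, Finset.mem_erase]
      refine ⟨fun h3 => ho2 ⟨i, h3.symm⟩, fun h3 => ho1 ⟨i, h3.symm⟩, Finset.mem_univ _⟩
    have h3 := Finset.card_le_card h2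
    have h4 : ((2 * g : ℕ) : ZMod n) ≠ 0 := by
      intro h5
      have := cast_inj (n := n) (v := 2 * g) (w := 0) (by omega) (by omega) (by rw [h5]; simp)
      omega
    rw [h1, Finset.card_erase_of_mem (Finset.mem_erase.2 ⟨h4, Finset.mem_univ _⟩),
      Finset.card_erase_of_mem (Finset.mem_univ _), Finset.card_univ, ZMod.card] at h3
    omega
  have hL : (2 * (g : ℤ) - 1 + ((l - (2 * g - 1) : ℕ) : ℤ)) = l := by omega
  refine ⟨l - (2 * g - 1), by omega, ?_, ?_⟩
  · intro s t
    rw [hL]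
    exact hγ s t
  · intro s hs
    rw [hL]
    have hl0' : (0 : ℤ) < l := by exact_mod_cast hl0
    have h1 := Int.emod_nonneg s hl0'.ne'
    have h2 := Int.emod_lt_of_pos s hl0'
    obtain ⟨c, hc⟩ := Int.eq_ofNat_of_zero_le h1
    have h3 : (l : ℤ) ∣ s - c := by
      rw [← hc]
      exact Int.dvd_self_sub_emod
    refine ⟨c, ?_, h3⟩
    rcases Nat.eq_zero_or_pos c with h0 | h0
    · omega
    · have hcl : c < l := by omega
      have h4 : γ π g s = γ π g (c : ℤ) := (hγ s c).2 h3
      have h5 : γ π g (c : ℤ) = γ π g ((c : ℤ) - l) := (hγ _ _).2 (by simp)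
      have h6 : γ π g ((c : ℤ) - l) = (π ^ (l - c)) ((g : ℕ) : ZMod n) := by
        unfold γ
        rw [neg_sub, ← Nat.cast_sub hcl.le, zpow_natCast]
      rw [h4, h5, h6] at hs
      by_contra hcon
      exact f1 h (l - c) (by omega) (by omega) hs


/-! ### c -/

/-- TARGET shifts preserving the points of `E` on the cycle -/
theorem shift {n g B : ℕ} {π : Equiv.Perm (ZMod n)} {E : Finset (ZMod n)} (h : Hyp n g π E)
    (hc : Cyc n g π E B) (t : ℤ) (ht : ∀ s : ℤ, γ π g s ∈ E → γ π g (s + t) ∈ E) :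
    (2 * (g : ℤ) - 1 + B) ∣ t := by
  set L : ℤ := 2 * (g : ℤ) - 1 + B with hL
  have hg := h.hg
  have hB := hc.hB
  have hLpos : 0 < L := by omega
  have h0 : γ π g 0 ∈ E := by
    unfold γ
    simpa using h.Eg
  have hk : ∀ k : ℕ, γ π g (k * t) ∈ E := by
    intro k
    induction k with
    | zero => simpa using h0
    | succ k ih =>
      have := ht _ ih
      have e : ((k + 1 : ℕ) : ℤ) * t = k * t + t := by push_cast; ring
      rw [e]; exact this
  obtain ⟨c1, hc1, hd1⟩ := hc.pos (t) (by simpa using hk 1)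
  obtain ⟨c2, hc2, hd2⟩ := hc.pos (((L - 1).toNat : ℤ) * t) (hk _)
  rw [Int.toNat_of_nonneg (by omega)] at hd2
  have h3 : L ∣ (c1 : ℤ) + c2 := by
    have e : (c1 : ℤ) + c2 = L * t - (t - c1) - ((L - 1) * t - c2) := by ring
    rw [e]
    exact dvd_sub (dvd_sub (dvd_mul_right _ _) hd1) hd2
  have h4 : (c1 : ℤ) + c2 = 0 := by
    by_contra hne
    have := Int.le_of_dvd (by omega) h3
    omega
  have h5 : (c1 : ℤ) = 0 := by omega
  rw [h5, sub_zero] at hd1
  exact hd1

/-- TARGET not both on the cycle -/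
theorem out_both {n g B : ℕ} {π : Equiv.Perm (ZMod n)} {E : Finset (ZMod n)} (h : Hyp n g π E)
    (hc : Cyc n g π E B) (a : ℕ) (haB : B < a) (ha' : a < g) :
    ¬ (inC π g (X n g a) ∧ inC π g (Y n g a)) := by
  rintro ⟨⟨p, hp⟩, ⟨r, hr⟩⟩
  set L : ℤ := 2 * (g : ℤ) - 1 + B with hL
  have hg := h.hg
  have hB := hc.hB
  have hLpos : 0 < L := by omega
  have hsh := shift h hc (p - r) ?_
  · have e : X n g a = Y n g a := by
      rw [hp, hr]
      exact (hc.inj p r).2 hsh
    exact (distinct h a a (by omega) ha' (by omega) ha').2.2.2.1 e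
  · intro s hs
    have hm0 : 0 ≤ (r - s - 1) % L := Int.emod_nonneg _ hLpos.ne'
    have hm1 : (r - s - 1) % L < L := Int.emod_lt_of_pos _ hLpos
    set m : ℕ := ((r - s - 1) % L + 1).toNat with hm
    have hmz : (m : ℤ) = (r - s - 1) % L + 1 := by rw [hm]; exact Int.toNat_of_nonneg (by omega)
    have hdm : L ∣ r - s - m := by
      have h1 := Int.emod_add_mul_ediv (r - s - 1) L
      refine ⟨(r - s - 1) / L, ?_⟩
      rw [hmz]
      linarith
    have hm1' : 1 ≤ m := by omega
    have hm2 : m + 2 ≤ 2 * g + a := by omega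
    have hY : (π ^ m) (Y n g a) ∈ E := by
      rw [hr, pow_γ]
      have : γ π g (r - m) = γ π g s := by
        rw [hc.inj]
        have e : r - (m : ℤ) - s = r - s - m := by ring
        rw [e]; exact hdm
      rw [this]; exact hs
    have hX := fA h a m (by omega) ha' hm1' hm2 hY
    rw [hp, pow_γ] at hX
    have : γ π g (s + (p - r)) = γ π g (p - m) := by
      rw [hc.inj]
      have e : s + (p - r) - (p - (m : ℤ)) = -(r - s - m) := by ring
      rw [e]; exact (dvd_neg).2 hdm
    rw [this]; exact hX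


/-! ### d -/

open Classical in
theorem d_cardC {n g B : ℕ} [NeZero n] {π : Equiv.Perm (ZMod n)} {E : Finset (ZMod n)}
    (h : Hyp n g π E) (hc : Cyc n g π E B) :
    2 * g - 1 + B ≤ (Finset.univ.filter (fun z : ZMod n => inC π g z)).card := by
  have hg := h.hg
  have h1 : ((Finset.range (2 * g - 1 + B)).image (fun s : ℕ => γ π g (s : ℤ))).card =
      2 * g - 1 + B := by
    rw [Finset.card_image_of_injOn, Finset.card_range]
    intro s hs t ht hst
    have hs' := Finset.mem_range.mp hs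
    have ht' := Finset.mem_range.mp ht
    have h2 := (hc.inj s t).mp hst
    have h3 : ((s:ℤ) - t) = 0 := by
      apply Int.eq_zero_of_abs_lt_dvd h2
      rw [abs_lt]
      constructor <;> omega
    omega
  rw [← h1]
  apply Finset.card_le_card
  intro z hz
  obtain ⟨s, _, rfl⟩ := Finset.mem_image.mp hz
  rw [Finset.mem_filter]
  exact ⟨Finset.mem_univ _, s, rfl⟩

/-- TARGET counting outside the cycle -/
theorem out_count {n g B : ℕ} {π : Equiv.Perm (ZMod n)} {E : Finset (ZMod n)} (h : Hyp n g π E)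
    (hc : Cyc n g π E B) :
    (∀ a, 1 ≤ a → a < g → inC π g (X n g a) ∨ inC π g (Y n g a)) ∧
    (∀ a, 1 ≤ a → a ≤ B → inC π g (X n g a) ∧ inC π g (Y n g a)) ∧
    (∀ a, 1 ≤ a → a < g → inC π g (D n g a)) ∧
    ∃ f : ℕ → ZMod n, ∀ z : ZMod n, z ≠ 0 → z ≠ ((2 * g : ℕ) : ZMod n) → ¬ inC π g z →
      ∃ a, B < a ∧ a < g ∧ z = f a := by
  classical
  have hg := h.hg
  have hn := h.hn
  have hB := hc.hB
  haveI : NeZero n := ⟨by omega⟩
  set Z : Finset (ZMod n) := Finset.univ.filter
    (fun z : ZMod n => z ≠ 0 ∧ z ≠ ((2 * g : ℕ) : ZMod n) ∧ ¬ inC π g z) with hZ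
  have hZmem : ∀ z, z ∈ Z ↔ (z ≠ 0 ∧ z ≠ ((2 * g : ℕ) : ZMod n) ∧ ¬ inC π g z) := by
    intro z
    rw [hZ, Finset.mem_filter]
    simp
  have h0g : (0 : ZMod n) ≠ ((2 * g : ℕ) : ZMod n) := by
    intro h1
    have h2 : ((0 : ℕ) : ZMod n) = ((2 * g : ℕ) : ZMod n) := by
      rw [Nat.cast_zero]; exact h1
    have h3 := cast_inj (by omega) (by omega) h2
    omega
  obtain ⟨hf1, hf2⟩ := fixed_out h
  have hZcard : Z.card ≤ g - 1 - B := by
    have h1 := d_cardC h hc
    set C : Finset (ZMod n) := Finset.univ.filter (fun z : ZMod n => inC π g z) with hC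
    have hCmem : ∀ z, z ∈ C ↔ inC π g z := by
      intro z
      rw [hC, Finset.mem_filter]
      simp
    have hd1 : Disjoint Z C := by
      rw [Finset.disjoint_left]
      intro z hz hz'
      exact ((hZmem z).mp hz).2.2 ((hCmem z).mp hz')
    have hd2 : Disjoint (Z ∪ C) {0, ((2 * g : ℕ) : ZMod n)} := by
      rw [Finset.disjoint_right]
      intro z hz hz'
      rw [Finset.mem_insert, Finset.mem_singleton] at hz
      rw [Finset.mem_union, hZmem, hCmem] at hz'
      rcases hz with rfl | rfl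
      · rcases hz' with hz' | hz'
        · exact hz'.1 rfl
        · exact hf1 hz'
      · rcases hz' with hz' | hz'
        · exact hz'.2.1 rfl
        · exact hf2 hz'
    have h2 : (Z ∪ C ∪ {0, ((2 * g : ℕ) : ZMod n)}).card ≤ n := by
      have h3 := Finset.card_le_univ (Z ∪ C ∪ {0, ((2 * g : ℕ) : ZMod n)})
      rwa [ZMod.card] at h3
    rw [Finset.card_union_of_disjoint hd2, Finset.card_union_of_disjoint hd1,
      Finset.card_pair h0g] at h2
    omega
  let f : ℕ → ZMod n := fun a => if inC π g (X n g a) then Y n g a else X n g a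
  have hfXY : ∀ a, f a = X n g a ∨ f a = Y n g a := by
    intro a
    by_cases h1 : inC π g (X n g a)
    · right; simp only [f, if_pos h1]
    · left; simp only [f, if_neg h1]
  have hfZ : ∀ a, B < a → a < g → f a ∈ Z := by
    intro a ha ha'
    have hd := distinct h a a (by omega) ha' (by omega) ha'
    rw [hZmem]
    by_cases h1 : inC π g (X n g a)
    · have h2 : f a = Y n g a := by simp only [f, if_pos h1]
      rw [h2]
      exact ⟨hd.2.2.2.2.2.2.2.1, hd.2.2.2.2.2.2.2.2.2.2.1,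
        fun h3 => out_both h hc a ha ha' ⟨h1, h3⟩⟩
    · have h2 : f a = X n g a := by simp only [f, if_neg h1]
      rw [h2]
      exact ⟨hd.2.2.2.2.2.2.1, hd.2.2.2.2.2.2.2.2.2.1, h1⟩
  have hfinj : ∀ a b, 1 ≤ a → a < g → 1 ≤ b → b < g → f a = f b → a = b := by
    intro a b ha ha' hb hb' hab
    have hd := distinct h a b ha ha' hb hb'
    have hd' := distinct h b a hb hb' ha ha'
    rcases hfXY a with h1 | h1 <;> rcases hfXY b with h2 | h2 <;> rw [h1, h2] at hab
    · exact hd.1 hab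
    · exact absurd hab hd.2.2.2.1
    · exact absurd hab.symm hd'.2.2.2.1
    · exact hd.2.1 hab
  have himg : (Finset.Ioo B g).image f = Z := by
    apply Finset.eq_of_subset_of_card_le
    · intro z hz
      obtain ⟨a, ha, rfl⟩ := Finset.mem_image.mp hz
      rw [Finset.mem_Ioo] at ha
      exact hfZ a ha.1 ha.2
    · rw [Finset.card_image_of_injOn, Nat.card_Ioo]
      · omega
      · intro a ha b hb hab
        have ha' := Finset.mem_Ioo.mp (Finset.mem_coe.mp ha)
        have hb' := Finset.mem_Ioo.mp (Finset.mem_coe.mp hb)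
        exact hfinj a b (by omega) ha'.2 (by omega) hb'.2 hab
  have hex : ∀ z, z ∈ Z → ∃ a, B < a ∧ a < g ∧ z = f a := by
    intro z hz
    rw [← himg] at hz
    obtain ⟨a, ha, rfl⟩ := Finset.mem_image.mp hz
    rw [Finset.mem_Ioo] at ha
    exact ⟨a, ha.1, ha.2, rfl⟩
  -- X a not in the cycle
  have hX : ∀ a, 1 ≤ a → a < g → ¬ inC π g (X n g a) → B < a ∧ f a = X n g a := by
    intro a ha ha' h1
    have hd := distinct h a a ha ha' ha ha'
    obtain ⟨b, hb, hb', hab⟩ := hex (X n g a) ((hZmem _).mpr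
      ⟨hd.2.2.2.2.2.2.1, hd.2.2.2.2.2.2.2.2.2.1, h1⟩)
    have hd' := distinct h a b ha ha' (by omega) hb'
    rcases hfXY b with h2 | h2
    · have h3 := hab
      rw [h2] at h3
      have h4 := hd'.1 h3
      subst h4
      exact ⟨hb, h2⟩
    · rw [h2] at hab
      exact absurd hab hd'.2.2.2.1
  have hY : ∀ a, 1 ≤ a → a < g → ¬ inC π g (Y n g a) → B < a ∧ f a = Y n g a := by
    intro a ha ha' h1
    have hd := distinct h a a ha ha' ha ha'
    obtain ⟨b, hb, hb', hab⟩ := hex (Y n g a) ((hZmem _).mpr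
      ⟨hd.2.2.2.2.2.2.2.1, hd.2.2.2.2.2.2.2.2.2.2.1, h1⟩)
    have hd' := distinct h a b ha ha' (by omega) hb'
    have hd'' := distinct h b a (by omega) hb' ha ha'
    rcases hfXY b with h2 | h2
    · rw [h2] at hab
      exact absurd hab.symm hd''.2.2.2.1
    · have h3 := hab
      rw [h2] at h3
      have h4 := hd'.2.1 h3
      subst h4
      exact ⟨hb, h2⟩
  refine ⟨?_, ?_, ?_, f, ?_⟩
  · intro a ha ha'
    by_contra hcon
    rw [not_or] at hcon
    have h1 := (hX a ha ha' hcon.1).2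
    have h2 := (hY a ha ha' hcon.2).2
    exact (distinct h a a ha ha' ha ha').2.2.2.1 (h1.symm.trans h2)
  · intro a ha ha'
    constructor
    · by_contra hcon
      have := (hX a ha (by omega) hcon).1
      omega
    · by_contra hcon
      have := (hY a ha (by omega) hcon).1
      omega
  · intro a ha ha'
    by_contra hcon
    have hd := distinct h a a ha ha' ha ha'
    obtain ⟨b, hb, hb', hab⟩ := hex (D n g a) ((hZmem _).mpr
      ⟨hd.2.2.2.2.2.2.2.2.1, hd.2.2.2.2.2.2.2.2.2.2.2.1, hcon⟩)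
    have hd' := distinct h b a (by omega) hb' ha ha'
    rcases hfXY b with h2 | h2
    · rw [h2] at hab
      exact hd'.2.2.2.2.1 hab.symm
    · rw [h2] at hab
      exact hd'.2.2.2.2.2.1 hab.symm
  · intro z hz0 hz2 hzC
    exact hex z ((hZmem z).mpr ⟨hz0, hz2, hzC⟩)


/-! ### e -/

theorem e_exists_mod (lam m0 s : ℕ) (hl : 0 < lam) :
    ∃ m, s + 1 ≤ m ∧ m ≤ s + lam ∧ m % lam = m0 % lam := by
  refine ⟨s + 1 + ((m0 + lam * (s + 1) - (s + 1)) % lam), by omega, ?_, ?_⟩
  · have := Nat.mod_lt (m0 + lam * (s + 1) - (s + 1)) hl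
    omega
  · have h1 : s + 1 ≤ lam * (s + 1) := Nat.le_mul_of_pos_left _ hl
    have h2 : s + 1 + (m0 + lam * (s + 1) - (s + 1)) = m0 + lam * (s + 1) := by omega
    rw [Nat.add_mod, Nat.mod_mod, ← Nat.add_mod, h2, Nat.add_mul_mod_self_left]

theorem e_pow_mod {n : ℕ} (π : Equiv.Perm (ZMod n)) (y : ZMod n) (m m0 : ℕ)
    (h : m % Function.minimalPeriod π y = m0 % Function.minimalPeriod π y) :
    (π ^ m) y = (π ^ m0) y := by
  rw [← Equiv.Perm.iterate_eq_pow, ← Equiv.Perm.iterate_eq_pow,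
    ← Function.iterate_mod_minimalPeriod_eq, h, Function.iterate_mod_minimalPeriod_eq]

theorem e_fix_pow {n : ℕ} (π : Equiv.Perm (ZMod n)) (z : ZMod n) (hz : π z = z) (i : ℕ) :
    (π ^ i) z = z := by
  induction i with
  | zero => rfl
  | succ i ih =>
    rw [pow_succ, Equiv.Perm.mul_apply, hz, ih]

theorem e_lam_le {n g B : ℕ} {π : Equiv.Perm (ZMod n)} {E : Finset (ZMod n)} (h : Hyp n g π E)
    (f : ℕ → ZMod n)
    (hf : ∀ z : ZMod n, z ≠ 0 → z ≠ ((2 * g : ℕ) : ZMod n) → ¬ inC π g z →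
      ∃ a, B < a ∧ a < g ∧ z = f a)
    (y : ZMod n) (hy0 : y ≠ 0) (hy2 : y ≠ ((2 * g : ℕ) : ZMod n)) (hy : ¬ inC π g y) :
    Function.minimalPeriod π y ≤ g - B - 1 := by
  have hinj : Set.InjOn (fun i => (π ^ i) y)
      ((Finset.range (Function.minimalPeriod π y) : Finset ℕ) : Set ℕ) := by
    intro i hi j hj hij
    rw [Finset.mem_coe, Finset.mem_range] at hi hj
    apply Function.iterate_injOn_Iio_minimalPeriod (f := π) (x := y) hi hj
    show π^[i] y = π^[j] y
    rw [Equiv.Perm.iterate_eq_pow, Equiv.Perm.iterate_eq_pow]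
    exact hij
  have hsub : (Finset.range (Function.minimalPeriod π y)).image (fun i => (π ^ i) y) ⊆
      (Finset.Ioo B g).image f := by
    intro z hz
    obtain ⟨i, _, rfl⟩ := Finset.mem_image.mp hz
    have h0 : (π ^ i) y ≠ 0 := by
      intro he
      apply hy0
      apply (π ^ i).injective
      rw [he, e_fix_pow π 0 h.p0]
    have h2 : (π ^ i) y ≠ ((2 * g : ℕ) : ZMod n) := by
      intro he
      apply hy2
      apply (π ^ i).injective
      rw [he, e_fix_pow π _ h.pd]
    have h3 : ¬ inC π g ((π ^ i) y) := by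
      rintro ⟨s, hs⟩
      apply hy
      refine ⟨s + i, ?_⟩
      apply (π ^ i).injective
      rw [hs, pow_γ]
      congr 1
      ring
    obtain ⟨b, hb1, hb2, hb3⟩ := hf _ h0 h2 h3
    exact Finset.mem_image.mpr ⟨b, Finset.mem_Ioo.mpr ⟨hb1, hb2⟩, hb3.symm⟩
  have hc1 : ((Finset.range (Function.minimalPeriod π y)).image (fun i => (π ^ i) y)).card =
      Function.minimalPeriod π y := by
    rw [Finset.card_image_of_injOn hinj, Finset.card_range]
  rw [← hc1]
  refine (Finset.card_le_card hsub).trans (Finset.card_image_le.trans ?_)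
  rw [Nat.card_Ioo]

/-- TARGET `Y a` outside the cycle never meets `E` -/
theorem yout {n g B : ℕ} {π : Equiv.Perm (ZMod n)} {E : Finset (ZMod n)} (h : Hyp n g π E)
    (hc : Cyc n g π E B) (f : ℕ → ZMod n)
    (hf : ∀ z : ZMod n, z ≠ 0 → z ≠ ((2 * g : ℕ) : ZMod n) → ¬ inC π g z →
      ∃ a, B < a ∧ a < g ∧ z = f a)
    (a : ℕ) (haB : B < a) (ha' : a < g) (hx : inC π g (X n g a)) (hy : ¬ inC π g (Y n g a)) :
    ∀ m : ℕ, (π ^ m) (Y n g a) ∉ E := by
  intro m0 hm0
  have hg := h.hg
  have hn := h.hn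
  haveI : NeZero n := ⟨by omega⟩
  have ha1 : 1 ≤ a := by omega
  obtain ⟨_, _, _, _, _, _, _, hY0, _, _, hY2, _⟩ := distinct h a a ha1 ha' ha1 ha'
  have hlam := e_lam_le h f hf (Y n g a) hY0 hY2 hy
  have hlpos : 0 < Function.minimalPeriod π (Y n g a) := by
    refine Function.IsPeriodicPt.minimalPeriod_pos (n := orderOf π) (orderOf_pos π) ?_
    show π^[orderOf π] (Y n g a) = Y n g a
    rw [Equiv.Perm.iterate_eq_pow, pow_orderOf_eq_one]
    rfl
  obtain ⟨p0, hp0⟩ := hx
  -- normalise the representative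
  obtain ⟨L, hL⟩ : ∃ L : ℤ, L = 2 * (g : ℤ) - 1 + B := ⟨_, rfl⟩
  have hLpos : 0 < L := by omega
  obtain ⟨p, hp1, hpL, hXp⟩ : ∃ p : ℕ, 1 ≤ p ∧ (p : ℤ) ≤ L ∧ X n g a = γ π g (p : ℤ) := by
    have hm1 := Int.emod_nonneg (p0 - 1) hLpos.ne'
    have hm2 := Int.emod_lt_of_pos (p0 - 1) hLpos
    refine ⟨((p0 - 1) % L + 1).toNat, by omega, by omega, ?_⟩
    rw [hp0, hc.inj, ← hL]
    have h3 : (((p0 - 1) % L + 1).toNat : ℤ) = (p0 - 1) % L + 1 := Int.toNat_of_nonneg (by omega)
    rw [h3]
    have h4 : p0 - ((p0 - 1) % L + 1) = L * ((p0 - 1) / L) := by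
      have := Int.emod_add_mul_ediv (p0 - 1) L
      linarith
    rw [h4]
    exact Dvd.intro _ rfl
  have key : ∀ m : ℕ, 1 ≤ m → m + 2 ≤ 2 * g + a →
      m % Function.minimalPeriod π (Y n g a) = m0 % Function.minimalPeriod π (Y n g a) →
      ∃ c : ℕ, c ≤ B ∧ L ∣ (p : ℤ) - m - c := by
    intro m hm1 hm2 hm3
    have h1 : (π ^ m) (Y n g a) ∈ E := by
      rw [e_pow_mod π _ m m0 hm3]
      exact hm0
    have h2 := fA h a m ha1 ha' hm1 hm2 h1
    rw [hXp, pow_γ] at h2
    rw [hL]
    exact hc.pos _ h2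
  have hBg := hc.hB
  rcases Nat.lt_or_ge p g with hpg | hpg
  · obtain ⟨m, hm1, hm2, hm3⟩ := e_exists_mod _ m0 p hlpos
    obtain ⟨c, hc1, k, hk⟩ := key m (by omega) (by omega) hm3
    have h1 : (p : ℤ) - m - c < 0 := by omega
    have h2 : -L < (p : ℤ) - m - c := by omega
    rw [hk] at h1 h2
    have h3 : k < 0 := by
      by_contra hcon
      push Not at hcon
      have := mul_nonneg hLpos.le hcon
      omega
    have h4 : -1 < k := by
      by_contra hcon
      push Not at hcon
      have : L * k ≤ L * (-1) := mul_le_mul_of_nonneg_left hcon hLpos.le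
      linarith
    omega
  · obtain ⟨m, hm1, hm2, hm3⟩ := e_exists_mod _ m0 0 hlpos
    obtain ⟨c, hc1, k, hk⟩ := key m (by omega) (by omega) hm3
    have h1 : 0 < (p : ℤ) - m - c := by omega
    have h2 : (p : ℤ) - m - c < L := by omega
    rw [hk] at h1 h2
    have h3 : 0 < k := by
      by_contra hcon
      push Not at hcon
      have : L * k ≤ L * 0 := mul_le_mul_of_nonneg_left hcon hLpos.le
      linarith
    have h4 : k < 1 := by
      by_contra hcon
      push Not at hcon
      have : L * 1 ≤ L * k := mul_le_mul_of_nonneg_left hcon hLpos.le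
      linarith
    omega


/-! ### f -/

/-- TARGET the elements outside the cycle -/
theorem out {n g B : ℕ} {π : Equiv.Perm (ZMod n)} {E : Finset (ZMod n)} (h : Hyp n g π E)
    (hc : Cyc n g π E B) : Out n g π E B := by
  obtain ⟨h1, h2, h3, f, hf⟩ := out_count h hc
  refine ⟨fun a haB ha' => out_both h hc a haB ha', h1, h2, h3, ?_⟩
  intro a ha ha' hy
  have haB : B < a := by
    by_contra hcon
    exact hy (h2 a ha (not_lt.1 hcon)).2
  have hx : inC π g (X n g a) := by
    rcases h1 a ha ha' with h4 | h4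
    · exact h4
    · exact absurd h4 hy
  exact yout h hc f hf a haB ha' hx hy


/-! ### g -/

theorem g_zero {n g : ℕ} {π : Equiv.Perm (ZMod n)} {E : Finset (ZMod n)} (h : Hyp n g π E) :
    γ π g 0 ∈ E := by
  have : γ π g 0 = ((g : ℕ) : ZMod n) := by
    unfold γ
    simp
  rw [this]
  exact h.Eg

/-- small multiples vanish -/
theorem g_small {L x : ℤ} (hx : L ∣ x) (h1 : x < L) (h2 : -L < x) : x = 0 := by
  obtain ⟨q, rfl⟩ := hx
  have hL : 0 < L := by linarith
  have hq1 : q < 1 := by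
    by_contra hq
    push Not at hq
    nlinarith
  have hq2 : -1 < q := by
    by_contra hq
    push Not at hq
    nlinarith
  have : q = 0 := by omega
  rw [this, mul_zero]

theorem g_star {n g B : ℕ} {π : Equiv.Perm (ZMod n)} {E : Finset (ZMod n)} (h : Hyp n g π E)
    (hc : Cyc n g π E B) (hB : 1 ≤ B) (p r : ℤ) (hX : X n g B = γ π g p) (hY : Y n g B = γ π g r)
    (s : ℤ) (hs : γ π g s ∈ E) (hns : ¬ (2 * (g : ℤ) - 1 + B) ∣ r - s) :
    γ π g (s + (p - r)) ∈ E := by
  have hg := h.hg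
  have hBg := hc.hB
  set L : ℤ := 2 * (g : ℤ) - 1 + B with hL
  have hLpos : 0 < L := by omega
  have h1 : 0 ≤ (r - s) % L := Int.emod_nonneg _ hLpos.ne'
  have h2 : (r - s) % L < L := Int.emod_lt_of_pos _ hLpos
  have h3 : (r - s) % L ≠ 0 := fun h0 => hns (Int.dvd_of_emod_eq_zero h0)
  obtain ⟨m, hm⟩ := Int.eq_ofNat_of_zero_le h1
  have hdiv : L ∣ (r - s) - m := by
    rw [← hm]
    exact Int.dvd_self_sub_emod
  have h4 : (π ^ m) (Y n g B) ∈ E := by
    rw [hY, pow_γ]
    have : γ π g (r - m) = γ π g s := by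
      rw [hc.inj]
      have : r - m - s = (r - s) - m := by ring
      rw [this]
      exact hdiv
    rw [this]
    exact hs
  have h5 := fA h B m hB (by omega) (by omega) (by omega) h4
  rw [hX, pow_γ] at h5
  have h6 : γ π g (p - m) = γ π g (s + (p - r)) := by
    rw [hc.inj]
    have : p - m - (s + (p - r)) = (r - s) - m := by ring
    rw [this]
    exact hdiv
  rw [h6] at h5
  exact h5

theorem g_chain (B δ c : ℕ) (hδ : 1 ≤ δ) (P : ℕ → Prop)
    (hP : ∀ a, a ≤ B → P a → a ≠ c → P (a + δ) ∧ a + δ ≤ B) :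
    ∀ N a : ℕ, B - a ≤ N → a ≤ B → P a → ∃ i, c = a + i * δ ∧ ∀ i' ≤ i, P (a + i' * δ) := by
  intro N
  induction N with
  | zero =>
    intro a hN ha hPa
    by_cases hac : a = c
    · exact ⟨0, by rw [hac]; simp, fun i' hi' => by
        have : i' = 0 := by omega
        rw [this, zero_mul, add_zero]; exact hPa⟩
    · have := (hP a ha hPa hac).2
      omega
  | succ N ih =>
    intro a hN ha hPa
    by_cases hac : a = c
    · exact ⟨0, by rw [hac]; simp, fun i' hi' => by
        have : i' = 0 := by omega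
        rw [this, zero_mul, add_zero]; exact hPa⟩
    · obtain ⟨h1, h2⟩ := hP a ha hPa hac
      obtain ⟨i, hi, hi2⟩ := ih (a + δ) (by omega) h2 h1
      refine ⟨i + 1, by rw [hi]; ring, fun i' hi' => ?_⟩
      rcases Nat.eq_zero_or_pos i' with h0 | h0
      · rw [h0, zero_mul, add_zero]; exact hPa
      · obtain ⟨i'', rfl⟩ : ∃ i'', i' = i'' + 1 := ⟨i' - 1, by omega⟩
        have := hi2 i'' (by omega)
        have h3 : a + (i'' + 1) * δ = a + δ + i'' * δ := by ring
        rw [h3]
        exact this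

/-- TARGET the positions of the points of `E` form a progression -/
theorem ap {n g B : ℕ} {π : Equiv.Perm (ZMod n)} {E : Finset (ZMod n)} (h : Hyp n g π E)
    (hc : Cyc n g π E B) (ho : Out n g π E B) : ∃ δ k : ℕ, AP n g π E B δ k := by
  have hg := h.hg
  have hBg := hc.hB
  have h0 := g_zero h
  rcases Nat.eq_zero_or_pos B with hB | hB
  · subst hB
    refine ⟨1, 0, le_rfl, by simp, ?_, fun h1 => absurd h1 (by norm_num)⟩
    intro s
    constructor
    · intro hs
      obtain ⟨c, hc1, hc2⟩ := hc.pos s hs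
      have : c = 0 := by omega
      subst this
      exact ⟨0, le_rfl, by simpa using hc2⟩
    · rintro ⟨j, hj, hd⟩
      have : j = 0 := by omega
      subst this
      have h1 : γ π g s = γ π g 0 := by
        rw [hc.inj]
        simpa using hd
      rw [h1]
      exact h0
  · obtain ⟨⟨p, hX⟩, ⟨r, hY⟩⟩ := ho.low B hB le_rfl
    have hdist := distinct h B B hB (by omega) hB (by omega)
    have hstar := g_star h hc hB p r hX hY
    have hnt : ¬ (2 * (g : ℤ) - 1 + B) ∣ p - r := by
      intro hd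
      have : γ π g p = γ π g r := (hc.inj p r).2 hd
      apply hdist.2.2.2.1
      rw [hX, hY, this]
    have hr : γ π g r ∈ E := by
      by_contra hr
      apply hnt
      refine shift h hc (p - r) fun s hs => hstar s hs fun hd => hr ?_
      have : γ π g r = γ π g s := (hc.inj r s).2 hd
      rw [this]
      exact hs
    obtain ⟨c, hcB, hcd⟩ := hc.pos r hr
    have hc1 : 1 ≤ c := by
      rcases Nat.eq_zero_or_pos c with hc0 | hc0
      · exfalso
        subst hc0
        have h1 : γ π g r = γ π g 0 := (hc.inj r 0).2 (by simpa using hcd)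
        have h2 : Y n g B = ((g : ℕ) : ZMod n) := by
          rw [hY, h1]
          unfold γ
          simp
        exact hdist.2.2.2.2.2.2.2.2.2.2.2.2.2.1 h2
      · exact hc0
    have ht : γ π g (0 + (p - r)) ∈ E := by
      refine hstar 0 h0 fun hd => ?_
      have h1 : (2 * (g : ℤ) - 1 + B) ∣ (c : ℤ) := by
        have := dvd_sub hd hcd
        have h2 : r - 0 - (r - (c : ℤ)) = c := by ring
        rwa [h2] at this
      have := g_small h1 (by omega) (by omega)
      omega
    rw [zero_add] at ht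
    obtain ⟨δ, hδB, hδd⟩ := hc.pos (p - r) ht
    have hδ : 1 ≤ δ := by
      rcases Nat.eq_zero_or_pos δ with hd0 | hd0
      · exfalso
        subst hd0
        apply hnt
        simpa using hδd
      · exact hd0
    have hstep : ∀ a : ℕ, a ≤ B → γ π g (a : ℤ) ∈ E → a ≠ c →
        γ π g ((a + δ : ℕ) : ℤ) ∈ E ∧ a + δ ≤ B := by
      intro a ha haE hac
      have h1 : γ π g (a + (p - r)) ∈ E := by
        refine hstar a haE fun hd => hac ?_
        have h2 : (2 * (g : ℤ) - 1 + B) ∣ (c : ℤ) - a := by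
          have := dvd_sub hd hcd
          have h2 : r - a - (r - (c : ℤ)) = c - a := by ring
          rwa [h2] at this
        have := g_small h2 (by omega) (by omega)
        omega
      have h2 : γ π g (a + (p - r)) = γ π g ((a + δ : ℕ) : ℤ) := by
        rw [hc.inj]
        have : (a : ℤ) + (p - r) - ((a + δ : ℕ) : ℤ) = p - r - δ := by push_cast; ring
        rw [this]
        exact hδd
      rw [h2] at h1
      refine ⟨h1, ?_⟩
      obtain ⟨e, he, hed⟩ := hc.pos _ h1
      have := g_small hed (by push_cast; omega) (by push_cast; omega)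
      omega
    have hchain := g_chain B δ c hδ (fun a => γ π g (a : ℤ) ∈ E) hstep
    obtain ⟨k, hk, hk2⟩ := hchain B 0 (by omega) (by omega) h0
    simp only [zero_add] at hk hk2
    refine ⟨δ, k, hδ, by omega, ?_, ?_⟩
    · intro s
      constructor
      · intro hs
        obtain ⟨c', hc'B, hc'd⟩ := hc.pos s hs
        have h1 : γ π g s = γ π g (c' : ℤ) := (hc.inj _ _).2 hc'd
        rw [h1] at hs
        obtain ⟨i, hi, -⟩ := hchain B c' (by omega) hc'B hs
        have hik : i ≤ k := by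
          by_contra hik
          push Not at hik
          have : k * δ < i * δ := Nat.mul_lt_mul_of_pos_right hik (by omega)
          omega
        refine ⟨k - i, by omega, ?_⟩
        have h2 : (c' : ℤ) = ((k - i : ℕ) : ℤ) * δ := by
          have h3 : c' + i * δ = k * δ := by omega
          have h4 : (c' : ℤ) + i * δ = k * δ := by exact_mod_cast h3
          push_cast [Nat.cast_sub hik]
          linarith
        rw [← h2]
        exact hc'd
      · rintro ⟨j, hj, hd⟩
        have h1 : γ π g s = γ π g ((j * δ : ℕ) : ℤ) := by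
          rw [hc.inj]
          push_cast
          exact hd
        rw [h1]
        exact hk2 j hj
    · intro _
      refine ⟨?_, ?_⟩
      · rcases Nat.eq_zero_or_pos k with hk0 | hk0
        · subst hk0; omega
        · exact hk0
      · rw [hY, hc.inj, ← hk]
        exact hcd


/-! ### h -/

/-- TARGET positions of `Y a` -/
theorem ypos {n g B δ k : ℕ} {π : Equiv.Perm (ZMod n)} {E : Finset (ZMod n)} (h : Hyp n g π E)
    (hc : Cyc n g π E B) (ho : Out n g π E B) (hp : AP n g π E B δ k) (a r : ℕ) (ha : 1 ≤ a)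
    (haB : a ≤ B) (hr : Y n g a = γ π g (r : ℤ)) (hr' : r + 1 ≤ 2 * g) : r ≤ k * δ := by
  by_contra hcon
  push Not at hcon
  have hag : a < g := by
    have := hc.hB
    omega
  obtain ⟨p, hp1⟩ := (ho.low a ha haB).1
  have ht : ∀ s : ℤ, γ π g s ∈ E → γ π g (s + (p - r)) ∈ E := by
    intro s hs
    obtain ⟨j, hj, hd⟩ := (hp.mem s).1 hs
    have hjk : j * δ ≤ k * δ := Nat.mul_le_mul_right δ hj
    have hy : (π ^ (r - j * δ)) (Y n g a) ∈ E := by
      rw [hr, pow_γ]
      rw [hp.mem]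
      refine ⟨j, hj, ?_⟩
      have e : ((r : ℤ) - ((r - j * δ : ℕ) : ℤ) - (j : ℤ) * δ) = 0 := by
        rw [Nat.cast_sub (by omega)]
        push_cast
        ring
      rw [e]
      exact dvd_zero _
    have hx := fA h a (r - j * δ) ha hag (by omega) (by omega) hy
    rw [hp1, pow_γ] at hx
    have e2 : γ π g (s + (p - r)) = γ π g (p - ((r - j * δ : ℕ) : ℤ)) := by
      rw [hc.inj]
      have e : s + (p - (r : ℤ)) - (p - ((r - j * δ : ℕ) : ℤ)) = s - (j : ℤ) * δ := by
        rw [Nat.cast_sub (by omega)]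
        push_cast
        ring
      rw [e]
      exact hd
    rw [e2]
    exact hx
  have h1 := shift h hc (p - r) ht
  have h2 := (hc.inj p r).2 h1
  have h3 := (distinct h a a ha hag ha hag).2.2.2.1
  exact h3 (by rw [hp1, hr, h2])


/-! ### i -/

theorem i_g2 {n g : ℕ} {π : Equiv.Perm (ZMod n)} {E : Finset (ZMod n)} (h : Hyp n g π E) :
    2 ≤ g := by
  have hg := h.hg
  have hn := h.hn
  have : NeZero n := ⟨by omega⟩
  have h1 := Finset.card_le_univ E
  rw [ZMod.card] at h1
  have h2 := h.card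
  omega

/-- classification of the elements mapped into `E` -/
theorem i_class {n g B δ k : ℕ} {π : Equiv.Perm (ZMod n)} {E : Finset (ZMod n)}
    (h : Hyp n g π E) (hc : Cyc n g π E B) (ho : Out n g π E B) (hp : AP n g π E B δ k)
    (z : ZMod n) (hz : π z ∈ E) :
    (inC π g z ∧ ∃ j : ℕ, j ≤ k ∧ z = γ π g (1 + j * δ)) ∨
      (∃ a, 1 ≤ a ∧ B < a ∧ a < g ∧ z = X n g a ∧ ¬ inC π g z) := by
  have hg2 := i_g2 h
  by_cases hin : inC π g z
  · left
    refine ⟨hin, ?_⟩
    obtain ⟨s, rfl⟩ := hin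
    have h1 := pow_γ π (g := g) s 1
    rw [pow_one] at h1
    rw [h1] at hz
    obtain ⟨j, hj, hd⟩ := (hp.mem _).1 hz
    refine ⟨j, hj, ?_⟩
    rw [hc.inj]
    have e : s - (1 + (j : ℤ) * δ) = s - ((1 : ℕ) : ℤ) - j * δ := by push_cast; ring
    rw [e]
    exact hd
  · right
    rcases cover h z with h0 | h0 | h0 | ⟨a, ha1, hag, h0 | h0 | h0⟩
    · rw [h0, h.p0] at hz
      exact absurd hz h.E0
    · rw [h0, h.pd] at hz
      exact absurd hz h.Ed
    · have h1 := f1 h 1 le_rfl (by omega)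
      rw [pow_one, ← h0] at h1
      exact absurd hz h1
    · refine ⟨a, ha1, ?_, hag, h0, hin⟩
      by_contra hB
      apply hin
      rw [h0]
      exact (ho.low a ha1 (by omega)).1
    · have h1 := ho.yout a ha1 hag (by rw [← h0]; exact hin) 1
      rw [pow_one, ← h0] at h1
      exact absurd hz h1
    · exfalso
      apply hin
      rw [h0]
      exact ho.mid a ha1 hag

/-- consequences for large `a` -/
theorem i_big {n g B δ k : ℕ} {π : Equiv.Perm (ZMod n)} {E : Finset (ZMod n)}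
    (h : Hyp n g π E) (hc : Cyc n g π E B) (ho : Out n g π E B) (hp : AP n g π E B δ k)
    (a : ℕ) (ha3 : 3 ≤ a) (hag : a < g) (hz : π (X n g a) ∈ E) (hin : ¬ inC π g (X n g a)) :
    (∃ j : ℕ, j ≤ k ∧ D n g a = γ π g (1 + j * δ)) ∧
      (∃ j : ℕ, j ≤ k ∧ Y n g a = γ π g (1 + j * δ)) := by
  have hD : π (D n g a) ∈ E := by
    have := fC h a 1 (by omega) hag le_rfl (by omega) (by rw [pow_one]; exact hz)
    rwa [pow_one] at this
  have hY : π (Y n g a) ∈ E := by
    have := fB h a 1 (by omega) hag le_rfl (by omega) (by rw [pow_one]; exact hD)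
    rwa [pow_one] at this
  have hDin := ho.mid a (by omega) hag
  have hYin : inC π g (Y n g a) := (ho.one a (by omega) hag).resolve_left hin
  constructor
  · rcases i_class h hc ho hp _ hD with ⟨-, h1⟩ | ⟨b, -, -, -, -, h1⟩
    · exact h1
    · exact absurd hDin h1
  · rcases i_class h hc ho hp _ hY with ⟨-, h1⟩ | ⟨b, -, -, -, -, h1⟩
    · exact h1
    · exact absurd hYin h1

/-- TARGET at most one gap -/
theorem small {n g B δ k : ℕ} {π : Equiv.Perm (ZMod n)} {E : Finset (ZMod n)} (h : Hyp n g π E)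
    (hc : Cyc n g π E B) (ho : Out n g π E B) (hp : AP n g π E B δ k) (hk : k ≤ 1) : False := by
  classical
  have hg2 := i_g2 h
  obtain ⟨T, hT⟩ : ∃ T : Finset (ZMod n), T = E.image π.symm := ⟨_, rfl⟩
  have hTcard : T.card = E.card := by
    rw [hT]; exact Finset.card_image_of_injective _ π.symm.injective
  have hTmem : ∀ z, z ∈ T → π z ∈ E := by
    intro z hz
    rw [hT, Finset.mem_image] at hz
    obtain ⟨y, hy, rfl⟩ := hz
    rw [Equiv.apply_symm_apply]
    exact hy
  have h5 := h.card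
  rcases Nat.lt_or_ge k 1 with hk0 | hk1
  · -- k = 0
    have hk0' : k = 0 := by omega
    subst hk0'
    have hsub : T ⊆ {γ π g 1, X n g 1, X n g 2} := by
      intro z hz
      have hzE := hTmem z hz
      simp only [Finset.mem_insert, Finset.mem_singleton]
      rcases i_class h hc ho hp z hzE with ⟨-, j, hj, h1⟩ | ⟨a, ha1, haB, hag, h1, h2⟩
      · have : j = 0 := by omega
        subst this
        left
        rw [h1]
        congr 1
        push_cast
        ring
      · by_cases ha3 : 3 ≤ a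
        · exfalso
          rw [h1] at hzE h2
          obtain ⟨⟨j, hj, hD⟩, ⟨j', hj', hY⟩⟩ := i_big h hc ho hp a ha3 hag hzE h2
          have e1 : j = 0 := by omega
          have e2 : j' = 0 := by omega
          rw [e1] at hD
          rw [e2] at hY
          exact (distinct h a a (by omega) hag (by omega) hag).2.2.2.2.2.1 (hY.trans hD.symm)
        · have : a = 1 ∨ a = 2 := by omega
          rcases this with rfl | rfl
          · right; left; exact h1
          · right; right; exact h1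
    have := (Finset.card_le_card hsub).trans Finset.card_le_three
    omega
  · have hk1' : k = 1 := by omega
    subst hk1'
    have hB1 : 1 ≤ B := by
      have := hp.hk
      have := hp.hδ
      omega
    by_cases hex : ∃ a0, 3 ≤ a0 ∧ a0 < g ∧ π (X n g a0) ∈ E ∧ ¬ inC π g (X n g a0)
    · obtain ⟨a0, ha03, ha0g, ha0E, ha0C⟩ := hex
      have hsub : T ⊆ {γ π g 1, γ π g (1 + δ), X n g 2, X n g a0} := by
        intro z hz
        have hzE := hTmem z hz
        simp only [Finset.mem_insert, Finset.mem_singleton]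
        rcases i_class h hc ho hp z hzE with ⟨-, j, hj, h1⟩ | ⟨a, ha1, haB, hag, h1, h2⟩
        · have : j = 0 ∨ j = 1 := by omega
          rcases this with rfl | rfl
          · left
            rw [h1]
            congr 1
            push_cast
            ring
          · right; left
            rw [h1]
            congr 1
            push_cast
            ring
        · by_cases ha3 : 3 ≤ a
          · right; right; right
            rw [h1] at hzE h2 ⊢
            obtain ⟨⟨j, hj, hD⟩, ⟨j', hj', hY⟩⟩ := i_big h hc ho hp a ha3 hag hzE h2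
            obtain ⟨⟨i, hi, hD0⟩, ⟨i', hi', hY0⟩⟩ := i_big h hc ho hp a0 ha03 ha0g ha0E ha0C
            have hne1 : j ≠ j' := by
              intro hjj
              rw [hjj] at hD
              exact (distinct h a a (by omega) hag (by omega) hag).2.2.2.2.2.1 (hY.trans hD.symm)
            have hne2 : i ≠ j' := by
              intro hjj
              rw [hjj] at hD0
              exact (distinct h a a0 (by omega) hag (by omega) ha0g).2.2.2.2.2.1
                (hY.trans hD0.symm)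
            have hij : i = j := by omega
            rw [hij] at hD0
            have := (distinct h a a0 (by omega) hag (by omega) ha0g).2.2.1 (hD.trans hD0.symm)
            rw [this]
          · have : a = 2 := by omega
            subst this
            right; right; left; exact h1
      have := (Finset.card_le_card hsub).trans Finset.card_le_four
      omega
    · have hsub : T ⊆ {γ π g 1, γ π g (1 + δ), X n g 2} := by
        intro z hz
        have hzE := hTmem z hz
        simp only [Finset.mem_insert, Finset.mem_singleton]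
        rcases i_class h hc ho hp z hzE with ⟨-, j, hj, h1⟩ | ⟨a, ha1, haB, hag, h1, h2⟩
        · have : j = 0 ∨ j = 1 := by omega
          rcases this with rfl | rfl
          · left
            rw [h1]
            congr 1
            push_cast
            ring
          · right; left
            rw [h1]
            congr 1
            push_cast
            ring
        · by_cases ha3 : 3 ≤ a
          · exfalso
            rw [h1] at hzE h2
            exact hex ⟨a, ha3, hag, hzE, h2⟩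
          · have : a = 2 := by omega
            subst this
            right; right; exact h1
      have := (Finset.card_le_card hsub).trans Finset.card_le_three
      omega


/-! ### j -/

theorem j_bd {n g B δ k : ℕ} {π : Equiv.Perm (ZMod n)} {E : Finset (ZMod n)}
    (hc : Cyc n g π E B) (hp : AP n g π E B δ k) (hk : 2 ≤ k) : 2 * δ ≤ B ∧ B + 1 ≤ g ∧ 1 ≤ δ := by
  refine ⟨?_, hc.hB, hp.hδ⟩
  have h1 := hp.hk
  have h2 : 2 * δ ≤ k * δ := Nat.mul_le_mul_right δ hk
  omega

theorem j_met {n g B δ k : ℕ} {π : Equiv.Perm (ZMod n)} {E : Finset (ZMod n)} (h : Hyp n g π E)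
    (hc : Cyc n g π E B) (hp : AP n g π E B δ k) (hk : 2 ≤ k) (m : ℕ)
    (hm : 1 ≤ m) (hm' : m ≤ δ) (z : ZMod n) (hz : (π ^ m) z ∈ E) :
    ∃ a, 1 ≤ a ∧ a < g ∧ (z = X n g a ∨ z = Y n g a ∨ z = D n g a) ∧
      (π ^ m) (X n g a) ∈ E := by
  obtain ⟨hb1, hb2, hb3⟩ := j_bd hc hp hk
  have hpow : ∀ x : ZMod n, π x = x → (π ^ m) x = x := by
    intro x hx
    clear hm hm' hz
    induction m with
    | zero => simp
    | succ q ih =>
      rw [pow_succ, Equiv.Perm.mul_apply, hx, ih]
  rcases cover h z with h0 | h0 | h0 | ⟨a, ha, ha', h0⟩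
  · exfalso
    rw [h0, hpow 0 h.p0] at hz
    exact h.E0 hz
  · exfalso
    rw [h0, hpow _ h.pd] at hz
    exact h.Ed hz
  · exfalso
    rw [h0] at hz
    exact f1 h m hm (by omega) hz
  · refine ⟨a, ha, ha', h0, ?_⟩
    rcases h0 with h0 | h0 | h0
    · rw [← h0]
      exact hz
    · rw [h0] at hz
      exact fA h a m ha ha' hm (by omega) hz
    · rw [h0] at hz
      exact fA h a m ha ha' hm (by omega) (fB h a m ha ha' hm (by omega) hz)

theorem j_two {n g B δ k : ℕ} {π : Equiv.Perm (ZMod n)} {E : Finset (ZMod n)} (h : Hyp n g π E)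
    (hc : Cyc n g π E B) (hp : AP n g π E B δ k) (hk : 2 ≤ k) (m : ℕ)
    (hm : 1 ≤ m) (hm' : m ≤ δ) :
    ∃ a b, 1 ≤ a ∧ a < g ∧ 1 ≤ b ∧ b < g ∧ a ≠ b ∧ (π ^ m) (X n g a) ∈ E ∧
      (π ^ m) (X n g b) ∈ E := by
  classical
  obtain ⟨T, hT⟩ : ∃ T : Finset (ZMod n), T = E.map (π ^ m).symm.toEmbedding := ⟨_, rfl⟩
  have hTc : 5 ≤ T.card := by
    rw [hT, Finset.card_map]
    exact h.card
  have hTm : ∀ z ∈ T, (π ^ m) z ∈ E := by
    intro z hz
    rw [hT, Finset.mem_map] at hz
    obtain ⟨e, he, rfl⟩ := hz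
    simpa using he
  have hne : T.Nonempty := by
    rw [← Finset.card_pos]
    omega
  obtain ⟨z0, hz0⟩ := hne
  obtain ⟨a, ha, ha', -, hXa⟩ := j_met h hc hp hk m hm hm' z0 (hTm z0 hz0)
  by_contra hcon
  have hsub : T ⊆ {X n g a, Y n g a, D n g a} := by
    intro z hz
    obtain ⟨b, hb, hb', hzb, hXb⟩ := j_met h hc hp hk m hm hm' z (hTm z hz)
    have hab : a = b := by
      by_contra hab
      exact hcon ⟨a, b, ha, ha', hb, hb', hab, hXa, hXb⟩
    subst hab
    simpa using hzb
  have h3 := Finset.card_le_card hsub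
  have h4 : ({X n g a, Y n g a, D n g a} : Finset (ZMod n)).card ≤ 3 := Finset.card_le_three
  omega

theorem j_col {n g B δ k : ℕ} {π : Equiv.Perm (ZMod n)} {E : Finset (ZMod n)} (h : Hyp n g π E)
    (hc : Cyc n g π E B) (ho : Out n g π E B) (hp : AP n g π E B δ k) (hk : 2 ≤ k) (m : ℕ)
    (hm : 1 ≤ m) (hm' : m ≤ δ) (a : ℕ) (ha : 1 ≤ a) (ha' : a < g)
    (hX : (π ^ m) (X n g a) ∈ E) :
    ∃ j : ℕ, j ≤ k ∧
      ((inC π g (X n g a) ∧ γ π g ((m + j * δ : ℕ) : ℤ) = X n g a) ∨
        (¬ inC π g (X n g a) ∧ γ π g ((m + j * δ : ℕ) : ℤ) = Y n g a)) := by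
  obtain ⟨hb1, hb2, hb3⟩ := j_bd hc hp hk
  have key : ∀ z : ZMod n, inC π g z → (π ^ m) z ∈ E →
      ∃ j : ℕ, j ≤ k ∧ γ π g ((m + j * δ : ℕ) : ℤ) = z := by
    rintro z ⟨s, hs⟩ hz
    rw [hs, pow_γ] at hz
    obtain ⟨j, hj, hdvd⟩ := (hp.mem _).mp hz
    refine ⟨j, hj, ?_⟩
    rw [hs]
    refine ((hc.inj _ _).mpr ?_)
    rw [← dvd_neg]
    have he : -(((m + j * δ : ℕ) : ℤ) - s) = s - m - j * δ := by
      push_cast
      ring
    rw [he]
    exact hdvd
  by_cases hin : inC π g (X n g a)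
  · obtain ⟨j, hj, hj'⟩ := key _ hin hX
    exact ⟨j, hj, Or.inl ⟨hin, hj'⟩⟩
  · have haB : B < a := by
      by_contra hle
      exact hin (ho.low a ha (by omega)).1
    have hD := fC h a m ha ha' hm (by omega) hX
    have hY := fB h a m ha ha' hm (by omega) hD
    have hYin : inC π g (Y n g a) := (ho.one a ha ha').resolve_left hin
    obtain ⟨j, hj, hj'⟩ := key _ hYin hY
    exact ⟨j, hj, Or.inr ⟨hin, hj'⟩⟩

/-- TARGET early times: a special element at an early position -/
theorem early {n g B δ k : ℕ} {π : Equiv.Perm (ZMod n)} {E : Finset (ZMod n)} (h : Hyp n g π E)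
    (hc : Cyc n g π E B) (ho : Out n g π E B) (hp : AP n g π E B δ k) (hk : 2 ≤ k) (m : ℕ)
    (hm : 1 ≤ m) (hm' : m ≤ δ) :
    ∃ j : ℕ, j < k ∧ ∃ a, 1 ≤ a ∧ a < g ∧
      ((inC π g (X n g a) ∧ γ π g ((m + j * δ : ℕ) : ℤ) = X n g a) ∨
        (¬ inC π g (X n g a) ∧ γ π g ((m + j * δ : ℕ) : ℤ) = Y n g a)) := by
  obtain ⟨a, b, ha, ha', hb, hb', hab, hXa, hXb⟩ := j_two h hc hp hk m hm hm'
  obtain ⟨i, hi, hi'⟩ := j_col h hc ho hp hk m hm hm' a ha ha' hXa
  obtain ⟨j, hj, hj'⟩ := j_col h hc ho hp hk m hm hm' b hb hb' hXb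
  rcases Nat.lt_or_ge i k with h1 | h1
  · exact ⟨i, h1, a, ha, ha', hi'⟩
  rcases Nat.lt_or_ge j k with h2 | h2
  · exact ⟨j, h2, b, hb, hb', hj'⟩
  exfalso
  have e1 : i = k := by omega
  have e2 : j = k := by omega
  subst e1
  subst e2
  have hd := distinct h a b ha ha' hb hb'
  have hd' := distinct h b a hb hb' ha ha'
  rcases hi' with ⟨-, h3⟩ | ⟨-, h3⟩ <;> rcases hj' with ⟨-, h4⟩ | ⟨-, h4⟩
  · exact hab (hd.1 (h3.symm.trans h4))
  · exact hd.2.2.2.1 (h3.symm.trans h4)
  · exact hd'.2.2.2.1 (h4.symm.trans h3)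
  · exact hab (hd.2.1 (h3.symm.trans h4))


/-! ### k -/

/-- TARGET later positions -/
theorem late {n g B δ k : ℕ} {π : Equiv.Perm (ZMod n)} {E : Finset (ZMod n)} (h : Hyp n g π E)
    (hc : Cyc n g π E B) (ho : Out n g π E B) (hp : AP n g π E B δ k) (hk : 2 ≤ k) (s : ℕ)
    (hs : k * δ < s) (hs' : s + 1 ≤ k * δ + g) :
    (∃ a, 1 ≤ a ∧ a < g ∧
      ((inC π g (X n g a) ∧ γ π g (s : ℤ) = X n g a) ∨
        (¬ inC π g (X n g a) ∧ γ π g (s : ℤ) = Y n g a))) ∨
    (∃ a r : ℕ, 1 ≤ a ∧ a < g ∧ γ π g (s : ℤ) = D n g a ∧ Y n g a = γ π g (r : ℤ) ∧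
      g ≤ r + δ ∧ r < k * δ) := by
  have hg := h.hg
  have hB := hc.hB
  have hδ := hp.hδ
  have hkB := hp.hk
  have hL : (s : ℤ) < 2 * (g : ℤ) - 1 + B := by
    have h1 : s + 1 ≤ B + g := by omega
    omega
  have h2δ : 2 * δ ≤ k * δ := Nat.mul_le_mul_right δ hk
  have hs0 : (0 : ℤ) < s := by
    have : 0 < s := by omega
    exact_mod_cast this
  rcases cover h (γ π g (s : ℤ)) with h0 | h0 | h0 | ⟨a, ha, ha', h0⟩
  · exact absurd ⟨(s : ℤ), h0.symm⟩ (fixed_out h).1
  · exact absurd ⟨(s : ℤ), h0.symm⟩ (fixed_out h).2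
  · exfalso
    have h1 : γ π g (s : ℤ) = γ π g 0 := by
      rw [h0]
      simp [γ]
    rw [hc.inj] at h1
    have := Int.le_of_dvd (by simpa using hs0) h1
    omega
  · rcases h0 with h0 | h0 | h0
    · left
      exact ⟨a, ha, ha', Or.inl ⟨⟨_, h0.symm⟩, h0⟩⟩
    · left
      by_cases hX : inC π g (X n g a)
      · exfalso
        have haB : a ≤ B := by
          by_contra hcon
          exact ho.both a (by omega) ha' ⟨hX, ⟨_, h0.symm⟩⟩
        have h1 := ypos h hc ho hp a s ha haB h0.symm (by omega)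
        omega
      · exact ⟨a, ha, ha', Or.inr ⟨hX, h0⟩⟩
    · right
      obtain ⟨m, hm⟩ : ∃ m : ℕ, s = k * δ + m := ⟨s - k * δ, by omega⟩
      have hEj : ∀ j : ℕ, j ≤ k → γ π g ((j * δ : ℕ) : ℤ) ∈ E := by
        intro j hj
        rw [hp.mem]
        refine ⟨j, hj, ?_⟩
        push_cast
        rw [sub_self]
        exact dvd_zero _
      have hm1 : (π ^ m) (D n g a) ∈ E := by
        rw [← h0, pow_γ]
        have : (s : ℤ) - m = ((k * δ : ℕ) : ℤ) := by rw [hm]; push_cast; ring
        rw [this]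
        exact hEj k le_rfl
      have hm2 : (π ^ m) (Y n g a) ∈ E := fB h a m ha ha' (by omega) (by omega) hm1
      have hYC : inC π g (Y n g a) := by
        by_contra hcon
        exact ho.yout a ha ha' hcon m hm2
      obtain ⟨r0, hr0⟩ := hYC
      rw [hr0, pow_γ, hp.mem] at hm2
      obtain ⟨j, hj, hjL⟩ := hm2
      set r : ℕ := m + j * δ with hr
      have hYr : Y n g a = γ π g (r : ℤ) := by
        rw [hr0, hc.inj]
        have : r0 - (r : ℤ) = r0 - m - j * δ := by rw [hr]; push_cast; ring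
        rw [this]
        exact hjL
      have hjδ : j * δ ≤ k * δ := Nat.mul_le_mul_right δ hj
      have hrs : r ≤ s := by omega
      have hne : ¬ ((2 * (g : ℤ) - 1 + B) ∣ (r : ℤ) - s) := by
        intro hd
        have h1 : γ π g (r : ℤ) = γ π g (s : ℤ) := (hc.inj _ _).mpr hd
        rw [← hYr, h0] at h1
        exact (distinct h a a ha ha' ha ha').2.2.2.2.2.1 h1
      have hXC : inC π g (X n g a) := by
        by_contra hX
        have haB : B < a := by
          by_contra hcon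
          exact hX (ho.low a ha (by omega)).1
        apply hne
        apply shift h hc
        intro u hu
        rw [hp.mem] at hu
        obtain ⟨j', hj', hjL'⟩ := hu
        have hj'δ : j' * δ ≤ k * δ := Nat.mul_le_mul_right δ hj'
        obtain ⟨m', hm'⟩ : ∃ m' : ℕ, s = j' * δ + m' := ⟨s - j' * δ, by omega⟩
        have e1 : (π ^ m') (D n g a) ∈ E := by
          rw [← h0, pow_γ]
          have : (s : ℤ) - m' = ((j' * δ : ℕ) : ℤ) := by rw [hm']; push_cast; ring
          rw [this]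
          exact hEj j' hj'
        have e2 := fB h a m' ha ha' (by omega) (by omega) e1
        rw [hYr, pow_γ] at e2
        have e3 : γ π g (u + ((r : ℤ) - s)) = γ π g ((r : ℤ) - m') := by
          rw [hc.inj]
          have : u + ((r : ℤ) - s) - ((r : ℤ) - m') = u - j' * δ := by
            rw [hm']; push_cast; ring
          rw [this]
          exact hjL'
        rw [e3]
        exact e2
      have haB : a ≤ B := by
        by_contra hcon
        exact ho.both a (by omega) ha' ⟨hXC, ⟨_, hYr⟩⟩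
      have hrc : r ≤ k * δ := ypos h hc ho hp a r ha haB hYr (by omega)
      have hjk : j < k := by
        by_contra hcon
        have : j = k := by omega
        apply hne
        have e1 : r = s := by rw [hr, this]; omega
        rw [e1, sub_self]
        exact dvd_zero _
      have hj1δ : (j + 1) * δ ≤ k * δ := Nat.mul_le_mul_right δ hjk
      have hj1 : (j + 1) * δ = j * δ + δ := by ring
      obtain ⟨i, hi⟩ : ∃ i : ℕ, k = j + 1 + i := ⟨k - (j + 1), by omega⟩
      have hkk : k * δ = (j + 1) * δ + i * δ := by rw [hi]; ring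
      have hbig : g + a < r + δ + 2 := by
        by_contra hcon
        have e1 : (π ^ (r + δ)) (D n g a) ∈ E := by
          rw [← h0, pow_γ]
          have : (s : ℤ) - ((r + δ : ℕ) : ℤ) = ((i * δ : ℕ) : ℤ) := by
            have : s = r + δ + i * δ := by omega
            rw [this]; push_cast; ring
          rw [this]
          exact hEj i (by omega)
        have e2 := fB h a (r + δ) ha ha' (by omega) (by omega) e1
        rw [hYr, pow_γ, hp.mem] at e2
        obtain ⟨j', hj', hjL'⟩ := e2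
        have hj'δ : j' * δ ≤ k * δ := Nat.mul_le_mul_right δ hj'
        have e3 : (2 * (g : ℤ) - 1 + B) ∣ ((j' * δ + δ : ℕ) : ℤ) := by
          have : (r : ℤ) - ((r + δ : ℕ) : ℤ) - j' * δ = -((j' * δ + δ : ℕ) : ℤ) := by
            push_cast; ring
          rw [this] at hjL'
          exact (dvd_neg).mp hjL'
        have e4 := Int.le_of_dvd (by
          have : 0 < j' * δ + δ := by omega
          exact_mod_cast this) e3
        omega
      refine ⟨a, r, ha, ha', h0, hYr, by omega, ?_⟩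
      rcases lt_or_eq_of_le hrc with h1 | h1
      · exact h1
      · exfalso
        have hB1 : 1 ≤ B := by omega
        have hYB := (hp.yB hB1).2
        rw [← h1, ← hYr] at hYB
        have haB' : B = a := (distinct h B a hB1 (by omega) ha ha').2.1 hYB
        omega


/-! ### l -/

theorem l_mod (δ m m' j j' : ℕ) (hm : 1 ≤ m) (hm' : m ≤ δ) (hn : 1 ≤ m') (hn' : m' ≤ δ)
    (h : m + j * δ = m' + j' * δ) : m = m' := by
  have h1 : (m - 1 + j * δ) % δ = m - 1 := by
    rw [Nat.add_mul_mod_self_right]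
    exact Nat.mod_eq_of_lt (by omega)
  have h2 : (m' - 1 + j' * δ) % δ = m' - 1 := by
    rw [Nat.add_mul_mod_self_right]
    exact Nat.mod_eq_of_lt (by omega)
  have h3 : m - 1 + j * δ = m' - 1 + j' * δ := by omega
  rw [h3] at h1
  omega

theorem l_inj {n g B : ℕ} {π : Equiv.Perm (ZMod n)} {E : Finset (ZMod n)} (hg : 1 ≤ g)
    (hc : Cyc n g π E B) (s t : ℕ) (hs1 : 1 ≤ s) (hs : s ≤ B + g - 1) (ht1 : 1 ≤ t)
    (ht : t ≤ B + g - 1) (h : γ π g (s : ℤ) = γ π g (t : ℤ)) : s = t := by
  have h1 := (hc.inj s t).1 h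
  have h2 : |(s : ℤ) - t| < 2 * (g : ℤ) - 1 + B := by
    rw [abs_lt]; constructor <;> omega
  have h3 := Int.eq_zero_of_abs_lt_dvd h1 h2
  omega


/-- TARGET counting -/
theorem big {n g B δ k : ℕ} {π : Equiv.Perm (ZMod n)} {E : Finset (ZMod n)} (h : Hyp n g π E)
    (hc : Cyc n g π E B) (ho : Out n g π E B) (hp : AP n g π E B δ k) (hk : 2 ≤ k) : False := by
  classical
  have hg := h.hg
  have hδ := hp.hδ
  have hkB := hp.hk
  have hB := hc.hB
  have hδk : 2 * δ ≤ k * δ := Nat.mul_le_mul_right δ hk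
  obtain ⟨c, hcdef⟩ : ∃ c, c = k * δ := ⟨_, rfl⟩
  rw [← hcdef] at hkB hδk
  let Q : ℕ → ℕ → Prop := fun s a => 1 ≤ a ∧ a < g ∧
      ((inC π g (X n g a) ∧ γ π g (s : ℤ) = X n g a) ∨
        (¬ inC π g (X n g a) ∧ γ π g (s : ℤ) = Y n g a))
  have hQ : ∀ s t a, 1 ≤ s → s ≤ c + g - 1 → 1 ≤ t → t ≤ c + g - 1 → Q s a → Q t a → s = t := by
    intro s t a hs1 hs2 ht1 ht2 h1 h2
    apply l_inj hg hc s t hs1 (by omega) ht1 (by omega)
    rcases h1.2.2 with ⟨h3, h4⟩ | ⟨h3, h4⟩ <;> rcases h2.2.2 with ⟨h5, h6⟩ | ⟨h5, h6⟩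
    · rw [h4, h6]
    · exact absurd h3 h5
    · exact absurd h5 h3
    · rw [h4, h6]
  -- the set `T1`
  let T1 : Finset ℕ := (Finset.Icc 1 (c + g - 1)).filter (fun s => ∃ a, Q s a)
  have hT1 : T1.card ≤ g - 1 := by
    have h1 : ∀ s ∈ T1, ∃ a, Q s a := fun s hs => (Finset.mem_filter.1 hs).2
    choose! f hf using h1
    have h2 : (Finset.Icc 1 (g - 1)).card = g - 1 := by simp
    rw [← h2]
    apply Finset.card_le_card_of_injOn f
    · intro s hs
      have := hf s hs
      simp only [Finset.coe_Icc, Set.mem_Icc]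
      exact ⟨this.1, by have := this.2.1; omega⟩
    · intro s hs t ht hst
      have h3 := hf s hs
      have h4 := hf t ht
      rw [← hst] at h4
      have h5 := Finset.mem_Icc.1 (Finset.mem_filter.1 hs).1
      have h6 := Finset.mem_Icc.1 (Finset.mem_filter.1 ht).1
      exact hQ s t (f s) h5.1 h5.2 h6.1 h6.2 h3 h4
  -- early positions
  have hearly : ∀ m, 1 ≤ m ∧ m ≤ δ → ∃ j, j < k ∧ ∃ a, Q (m + j * δ) a := by
    intro m hm
    obtain ⟨j, hj, a, ha⟩ := early h hc ho hp hk m hm.1 hm.2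
    exact ⟨j, hj, a, ha⟩
  choose! J hJ using hearly
  let M : Finset ℕ := (Finset.Icc 1 δ).image (fun m => m + J m * δ)
  have hM : M.card = δ := by
    rw [Finset.card_image_of_injOn]
    · simp
    · intro m hm m' hm' hmm
      have h1 := Finset.mem_Icc.1 (Finset.mem_coe.1 hm)
      have h2 := Finset.mem_Icc.1 (Finset.mem_coe.1 hm')
      exact l_mod δ m m' (J m) (J m') h1.1 h1.2 h2.1 h2.2 hmm
  have hMle : ∀ m, 1 ≤ m → m ≤ δ → m + J m * δ ≤ c := by
    intro m h1 h2
    have h3 := (hJ m ⟨h1, h2⟩).1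
    have h4 : (J m + 1) * δ ≤ k * δ := Nat.mul_le_mul_right δ (by omega)
    rw [hcdef]
    have h5 : (J m + 1) * δ = J m * δ + δ := by ring
    omega
  let S1 : Finset ℕ := (Finset.Ioc c (c + g - 1)).filter (fun s => ∃ a, Q s a)
  let S2 : Finset ℕ := (Finset.Ioc c (c + g - 1)).filter (fun s => ¬ ∃ a, Q s a)
  have hS : S1.card + S2.card = g - 1 := by
    have h1 := Finset.card_filter_add_card_filter_not (s := Finset.Ioc c (c + g - 1))
      (fun s => ∃ a, Q s a)
    rw [Nat.card_Ioc] at h1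
    have h2 : c + g - 1 - c = g - 1 := by omega
    rw [h2] at h1
    exact h1
  have hsub : δ + S1.card ≤ T1.card := by
    rw [← hM, ← Finset.card_union_of_disjoint]
    · apply Finset.card_le_card
      intro s hs
      rcases Finset.mem_union.1 hs with hs | hs
      · obtain ⟨m, hm, rfl⟩ := Finset.mem_image.1 hs
        have h1 := Finset.mem_Icc.1 hm
        have h2 := hMle m h1.1 h1.2
        refine Finset.mem_filter.2 ⟨Finset.mem_Icc.2 ⟨by omega, by omega⟩, (hJ m h1).2⟩
      · have h1 := Finset.mem_filter.1 hs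
        have h2 := Finset.mem_Ioc.1 h1.1
        exact Finset.mem_filter.2 ⟨Finset.mem_Icc.2 ⟨by omega, h2.2⟩, h1.2⟩
    · rw [Finset.disjoint_left]
      intro s hs hs'
      obtain ⟨m, hm, rfl⟩ := Finset.mem_image.1 hs
      have h1 := Finset.mem_Icc.1 hm
      have h2 := hMle m h1.1 h1.2
      have h3 := Finset.mem_Ioc.1 (Finset.mem_filter.1 hs').1
      omega
  have hS2 : S2.card ≤ c - (g - δ) := by
    have h1 : ∀ s ∈ S2, ∃ r a : ℕ, 1 ≤ a ∧ a < g ∧ γ π g (s : ℤ) = D n g a ∧
        Y n g a = γ π g (r : ℤ) ∧ g ≤ r + δ ∧ r < c := by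
      intro s hs
      have h2 := Finset.mem_filter.1 hs
      have h3 := Finset.mem_Ioc.1 h2.1
      rcases late h hc ho hp hk s (by rw [← hcdef]; exact h3.1) (by rw [← hcdef]; omega) with h4 | h4
      · exact absurd h4 h2.2
      · obtain ⟨a, r, h5⟩ := h4
        rw [← hcdef] at h5
        exact ⟨r, a, h5⟩
    choose! r a hra using h1
    have h2 : (Finset.Ico (g - δ) c).card = c - (g - δ) := Nat.card_Ico _ _
    rw [← h2]
    apply Finset.card_le_card_of_injOn r
    · intro s hs
      have h3 := hra s hs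
      simp only [Finset.coe_Ico, Set.mem_Ico]
      omega
    · intro s hs t ht hst
      have h3 := hra s hs
      have h4 := hra t ht
      rw [← hst] at h4
      have h5 : Y n g (a s) = Y n g (a t) := h3.2.2.2.1.trans h4.2.2.2.1.symm
      have h6 := (distinct h (a s) (a t) h3.1 h3.2.1 h4.1 h4.2.1).2.1 h5
      have h7 := Finset.mem_Ioc.1 (Finset.mem_filter.1 hs).1
      have h8 := Finset.mem_Ioc.1 (Finset.mem_filter.1 ht).1
      apply l_inj hg hc s t (by omega) (by omega) (by omega) (by omega)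
      rw [h3.2.2.1, h4.2.2.1, h6]
  omega


/-! ### m -/

/-- TARGET the claim -/
theorem claimA2 {n g : ℕ} [NeZero n] (hg : 1 ≤ g) (h3 : n = 3 * g) (π : Equiv.Perm (ZMod n))
    (h0 : π 0 = 0) (hd : π (-(g : ZMod n)) = -(g : ZMod n)) (E : Finset (ZMod n))
    (h0E : (0 : ZMod n) ∈ E) (hgE : (g : ZMod n) ∈ E) (hdE : -(g : ZMod n) ∉ E)
    (h6 : 6 ≤ E.card) :
    ∃ (m : ℕ) (y : ZMod n), 1 ≤ m ∧ y ≠ 0 ∧ (π ^ m) y ∈ E ∧
      (y - g = 0 ∨ (π ^ m) (y - g) ∉ E) ∧ m + y.val ≤ n - 2 := by
  by_contra hcon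
  have h30 : (3 : ZMod n) * (g : ZMod n) = 0 := by
    have h1 : ((3 * g : ℕ) : ZMod n) = 0 := by
      rw [← h3]; exact ZMod.natCast_self n
    push_cast at h1
    exact h1
  have hneg : -(g : ZMod n) = ((2 * g : ℕ) : ZMod n) := by
    push_cast
    linear_combination -h30
  have hg0 : (g : ZMod n) ≠ 0 := by
    intro h
    rw [ZMod.natCast_eq_zero_iff] at h
    have := Nat.le_of_dvd hg h
    omega
  have hpm0 : ∀ m : ℕ, (π ^ m) 0 = 0 := by
    intro m
    induction m with
    | zero => simp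
    | succ m ih => rw [pow_succ, Equiv.Perm.mul_apply, h0, ih]
  have H : Hyp n g π (E.erase 0) := by
    refine ⟨hg, h3, h0, ?_, ?_, ?_, ?_, ?_, ?_⟩
    · rw [← hneg]; exact hd
    · exact Finset.notMem_erase _ _
    · rw [← hneg]
      intro h
      exact hdE (Finset.mem_of_mem_erase h)
    · exact Finset.mem_erase.2 ⟨hg0, hgE⟩
    · rw [Finset.card_erase_of_mem h0E]; omega
    · intro m v hm hv hvn hmem hcost
      have hvE := Finset.mem_of_mem_erase hmem
      have hv0 : ((v : ℕ) : ZMod n) ≠ 0 := by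
        intro h
        rw [ZMod.natCast_eq_zero_iff] at h
        have := Nat.le_of_dvd hv h
        omega
      have hval : ((v : ℕ) : ZMod n).val = v := ZMod.val_natCast_of_lt (by omega)
      have hkey : ((v : ℕ) : ZMod n) - g ≠ 0 ∧ (π ^ m) (((v : ℕ) : ZMod n) - g) ∈ E := by
        by_contra hk
        apply hcon
        refine ⟨m, ((v : ℕ) : ZMod n), hm, hv0, hvE, ?_, ?_⟩
        · by_contra h
          push Not at h
          exact hk h
        · rw [hval]; omega
      have hne0 : (π ^ m) (((v : ℕ) : ZMod n) - g) ≠ 0 := by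
        intro h
        rw [← hpm0 m] at h
        exact hkey.1 ((π ^ m).injective h)
      have hE' : (π ^ m) (((v : ℕ) : ZMod n) - g) ∈ E.erase 0 :=
        Finset.mem_erase.2 ⟨hne0, hkey.2⟩
      refine ⟨?_, ?_, ?_⟩
      · rintro rfl
        exact hkey.1 (sub_self _)
      · intro hgv
        rw [Nat.cast_sub hgv.le]
        exact hE'
      · intro hvg
        have h1 : ((v + 2 * g : ℕ) : ZMod n) = ((v : ℕ) : ZMod n) - g := by
          push_cast
          linear_combination h30
        rw [h1]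
        exact hE'
  obtain ⟨B, hc⟩ := cyc H
  have ho := out H hc
  obtain ⟨δ, k, hp⟩ := ap H hc ho
  rcases Nat.lt_or_ge k 2 with hk | hk
  · exact small H hc ho hp (by omega)
  · exact big H hc ho hp hk

end Pool.Agent.Helper597.DonA2
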