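import Mathlib

set_option autoImplicit false

namespace Pool.Agent.Helper597.KStar

open Finset
open scoped Classical

/-- `v` lies in the closed neighbourhood of the set `S` -/
def Dom {V : Type} (G : SimpleGraph V) (S : Finset V) (v : V) : Prop :=
  v ∈ S ∨ ∃ s ∈ S, G.Adj s v

/-- inside `U`, after deleting the closed neighbourhood of `S`, every vertex has fewer than `k`
neighbours left -/
def IsoIn {V : Type} (G : SimpleGraph V) (k : ℕ) (U S : Finset V) : Prop :=
  ∀ v ∈ U, ¬ Dom G S v → (U.filter (fun w => G.Adj v w ∧ ¬ Dom G S w)).card < k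

/-- `U` is connected in `G`: a nonempty subset of `U` that is closed under adjacency inside `U`
is all of `U` -/
def ConnIn {V : Type} (G : SimpleGraph V) (U : Finset V) : Prop :=
  ∀ T ⊆ U, T.Nonempty → (∀ x ∈ T, ∀ y ∈ U, G.Adj x y → y ∈ T) → T = U

/-- the closed neighbourhood of `c` inside `V'` -/
noncomputable def blk {V : Type} (G : SimpleGraph V) (V' : Finset V) (c : V) : Finset V :=
  V'.filter (fun y => y = c ∨ G.Adj c y)

/-- the union of the blocks of the centres in `P` -/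
noncomputable def ub {V : Type} (G : SimpleGraph V) (V' P : Finset V) : Finset V :=
  P.biUnion (blk G V')

/-- `D` is a set of centres of pairwise disjoint blocks of size `k+1` inside `V'`, and the rest of
`V'` contains no `k`-star -/
def Pack {V : Type} (G : SimpleGraph V) (k : ℕ) (V' D : Finset V) : Prop :=
  D ⊆ V' ∧ (∀ c ∈ D, (blk G V' c).card = k + 1) ∧
  (∀ c ∈ D, ∀ c' ∈ D, c ≠ c' → Disjoint (blk G V' c) (blk G V' c')) ∧
  (∀ v ∈ V' \ ub G V' D, ((V' \ ub G V' D).filter (fun w => G.Adj v w)).card < k)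

/-- a nonempty set of at most three centres whose blocks are not joined to the leftover vertices and
can be isolated with fewer vertices once the neighbours of `X` are removed -/
def Good {V : Type} (G : SimpleGraph V) (k : ℕ) (V' D X P : Finset V) : Prop :=
  P ⊆ D ∧ P.Nonempty ∧ P.card ≤ 3 ∧
  (∀ x ∈ ub G V' P, ∀ y ∈ V' \ ub G V' D, ¬ G.Adj x y) ∧
  ∃ S : Finset V, S.card < P.card ∧ IsoIn G k ((ub G V' P).filter (fun v => ¬ Dom G X v)) S

/-- a family of good sets, pairwise disjoint and with no edges between their blocks -/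
def GoodFam {V : Type} (G : SimpleGraph V) (k : ℕ) (V' D X : Finset V)
    (F : Finset (Finset V)) : Prop :=
  (∀ P ∈ F, Good G k V' D X P) ∧
  (∀ P ∈ F, ∀ P' ∈ F, P ≠ P' → Disjoint P P' ∧
    ∀ x ∈ ub G V' P, ∀ y ∈ ub G V' P', ¬ G.Adj x y)

/-- one step of closed neighbourhood inside `V'` -/
noncomputable def nx {V : Type} (G : SimpleGraph V) (V' X : Finset V) : Finset V :=
  V'.filter (fun y => y ∈ X ∨ ∃ x ∈ X, G.Adj x y)


/-! ### a -/

theorem a_greedy {V : Type} (G : SimpleGraph V) (k : ℕ) : ∀ (n : ℕ) (U : Finset V),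
    U.card = n → ∃ S ⊆ U, (k + 1) * S.card ≤ U.card ∧ IsoIn G k U S := by
  intro n
  induction n using Nat.strong_induction_on with
  | _ n ih =>
    intro U hU
    by_cases h : IsoIn G k U ∅
    · exact ⟨∅, empty_subset _, by simp, h⟩
    · unfold IsoIn at h
      push Not at h
      obtain ⟨v, hvU, _, hk⟩ := h
      obtain ⟨N, hNdef⟩ : ∃ N : Finset V, N = U.filter (fun w => w = v ∨ G.Adj v w) := ⟨_, rfl⟩
      have hNU : N ⊆ U := by
        rw [hNdef]
        exact filter_subset _ _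
      have hN : k + 1 ≤ N.card := by
        have hsub : insert v (U.filter (fun w => G.Adj v w ∧ ¬ Dom G ∅ w)) ⊆ N := by
          intro w hw
          rw [mem_insert, mem_filter] at hw
          rw [hNdef, mem_filter]
          rcases hw with rfl | ⟨h1, h2, _⟩
          · exact ⟨hvU, Or.inl rfl⟩
          · exact ⟨h1, Or.inr h2⟩
        have hcard := card_le_card hsub
        rw [card_insert_of_notMem (by
          rw [mem_filter]
          rintro ⟨_, h1, _⟩
          exact G.loopless.irrefl v h1)] at hcard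
        omega
      have hcardU : (U \ N).card + N.card = U.card := card_sdiff_add_card_eq_card hNU
      obtain ⟨S', hS'U, hS'c, hS'i⟩ := ih (U \ N).card (by omega) (U \ N) rfl
      have hvN : v ∈ N := by
        rw [hNdef, mem_filter]
        exact ⟨hvU, Or.inl rfl⟩
      have hvS' : v ∉ S' := by
        intro h1
        exact (mem_sdiff.mp (hS'U h1)).2 hvN
      have hdomS' : ∀ w, ¬ Dom G (insert v S') w → ¬ Dom G S' w := by
        intro w hw h1
        apply hw
        rcases h1 with h1 | ⟨s, hs, h1⟩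
        · exact Or.inl (mem_insert_of_mem h1)
        · exact Or.inr ⟨s, mem_insert_of_mem hs, h1⟩
      have hdomN : ∀ w ∈ U, ¬ Dom G (insert v S') w → w ∈ U \ N := by
        intro w hwU hw
        rw [mem_sdiff]
        refine ⟨hwU, ?_⟩
        intro h1
        rw [hNdef, mem_filter] at h1
        apply hw
        rcases h1.2 with h2 | h2
        · rw [h2]
          exact Or.inl (mem_insert_self _ _)
        · exact Or.inr ⟨v, mem_insert_self _ _, h2⟩
      refine ⟨insert v S', ?_, ?_, ?_⟩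
      · intro w hw
        rw [mem_insert] at hw
        rcases hw with rfl | hw
        · exact hvU
        · exact (mem_sdiff.mp (hS'U hw)).1
      · rw [card_insert_of_notMem hvS', mul_add, mul_one]
        omega
      · intro x hxU hx
        have h1 := hS'i x (hdomN x hxU hx) (hdomS' x hx)
        refine lt_of_le_of_lt (card_le_card ?_) h1
        intro w hw
        rw [mem_filter] at hw ⊢
        exact ⟨hdomN w hw.1 hw.2.2, hw.2.1, hdomS' w hw.2.2⟩

/-- TARGET monotonicity -/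
theorem iso_mono {V : Type} (G : SimpleGraph V) (k : ℕ) (U U' S : Finset V) (h : U' ⊆ U)
    (hi : IsoIn G k U S) : IsoIn G k U' S := by
  intro v hv hd
  refine lt_of_le_of_lt (card_le_card ?_) (hi v (h hv) hd)
  exact filter_subset_filter _ h

/-- TARGET greedy bound -/
theorem iso_greedy {V : Type} (G : SimpleGraph V) (k : ℕ) (U : Finset V) :
    ∃ S ⊆ U, (k + 1) * S.card ≤ U.card ∧ IsoIn G k U S := by
  exact a_greedy G k U.card U rfl


/-! ### b -/

/-- TARGET P2: no two vertices isolate -/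
theorem far_exists {V : Type} [Fintype V] (G : SimpleGraph V) (k : ℕ)
    (hcard : Fintype.card V = 3 * (k + 1))
    (h : ∀ S : Finset V, S.card ≤ 2 → ¬ IsoIn G k univ S) (x y : V) :
    ∃ w, (blk G univ w).card = k + 1 ∧ Disjoint (blk G univ w) (blk G univ x) ∧
      Disjoint (blk G univ w) (blk G univ y) := by
  have hmemblk : ∀ c z : V, z ∈ blk G univ c ↔ z = c ∨ G.Adj c z := by
    intro c z
    simp [blk]
  -- step 1
  have hle : ∀ v, (blk G univ v).card ≤ k + 1 := by
    intro v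
    by_contra hgt
    push Not at hgt
    obtain ⟨S', hS'U, hS'c, hS'⟩ := iso_greedy G k (univ \ blk G univ v)
    have hUcard : (univ \ blk G univ v).card + (blk G univ v).card = 3 * (k + 1) := by
      rw [Finset.card_sdiff_add_card_eq_card (Finset.subset_univ _), Finset.card_univ, hcard]
    have hS'1 : S'.card ≤ 1 := by
      by_contra hc
      push Not at hc
      have : (k + 1) * 2 ≤ (k + 1) * S'.card := Nat.mul_le_mul_left _ hc
      omega
    apply h (insert v S') ((Finset.card_insert_le _ _).trans (by omega))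
    have hdom : ∀ u, ¬ Dom G (insert v S') u → u ∈ univ \ blk G univ v ∧ ¬ Dom G S' u := by
      intro u hu
      constructor
      · rw [Finset.mem_sdiff, hmemblk]
        refine ⟨Finset.mem_univ _, ?_⟩
        rintro (rfl | hadj)
        · exact hu (Or.inl (Finset.mem_insert_self _ _))
        · exact hu (Or.inr ⟨v, Finset.mem_insert_self _ _, hadj⟩)
      · rintro (hmem | ⟨s, hs, hadj⟩)
        · exact hu (Or.inl (Finset.mem_insert_of_mem hmem))
        · exact hu (Or.inr ⟨s, Finset.mem_insert_of_mem hs, hadj⟩)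
    intro u _ hu
    obtain ⟨huU, hu'⟩ := hdom u hu
    refine lt_of_le_of_lt (Finset.card_le_card ?_) (hS' u huU hu')
    intro z hz
    rw [Finset.mem_filter] at hz ⊢
    obtain ⟨hzU, hz'⟩ := hdom z hz.2.2
    exact ⟨hzU, hz.2.1, hz'⟩
  -- step 2
  have h2 := h {x, y} (Finset.card_le_two)
  unfold IsoIn at h2
  push Not at h2
  obtain ⟨w, -, hw, hwk⟩ := h2
  set F := univ.filter (fun z => G.Adj w z ∧ ¬ Dom G {x, y} z) with hF
  set Nw := univ.filter (fun z => G.Adj w z) with hNw
  have hblk : blk G univ w = insert w Nw := by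
    ext z
    rw [hmemblk, Finset.mem_insert, hNw, Finset.mem_filter]
    simp
  have hwN : w ∉ Nw := by
    rw [hNw, Finset.mem_filter]
    rintro ⟨-, h⟩
    exact G.loopless.irrefl w h
  have hcardblk : (blk G univ w).card = Nw.card + 1 := by
    rw [hblk, Finset.card_insert_of_notMem hwN]
  have hFN : F ⊆ Nw := by
    intro z hz
    rw [hF, Finset.mem_filter] at hz
    rw [hNw, Finset.mem_filter]
    exact ⟨hz.1, hz.2.1⟩
  have hNk : Nw.card ≤ k := by
    have := hle w
    omega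
  have hFN2 : F = Nw := Finset.eq_of_subset_of_card_le hFN (hNk.trans hwk)
  have hnd : ∀ z ∈ blk G univ w, ¬ Dom G {x, y} z := by
    intro z hz
    rw [hblk, Finset.mem_insert] at hz
    rcases hz with rfl | hz
    · exact hw
    · rw [← hFN2, hF, Finset.mem_filter] at hz
      exact hz.2.2
  refine ⟨w, ?_, ?_, ?_⟩
  · have h3 : k ≤ Nw.card := by rw [← hFN2]; exact hwk
    omega
  · rw [Finset.disjoint_left]
    intro z hz hzx
    apply hnd z hz
    rcases (hmemblk x z).mp hzx with rfl | hadj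
    · exact Or.inl (by simp)
    · exact Or.inr ⟨x, by simp, hadj⟩
  · rw [Finset.disjoint_left]
    intro z hz hzy
    apply hnd z hz
    rcases (hmemblk y z).mp hzy with rfl | hadj
    · exact Or.inl (by simp)
    · exact Or.inr ⟨y, by simp, hadj⟩


/-! ### c -/

theorem c_mem {V : Type} [Fintype V] (G : SimpleGraph V) (c y : V) :
    y ∈ blk G univ c ↔ (y = c ∨ G.Adj c y) := by
  unfold blk
  rw [Finset.mem_filter]
  simp

theorem c_symm {V : Type} [Fintype V] (G : SimpleGraph V) {c y : V} (h : y ∈ blk G univ c) :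
    c ∈ blk G univ y := by
  rw [c_mem] at h ⊢
  rcases h with h | h
  · exact Or.inl h.symm
  · exact Or.inr h.symm

/-- TARGET the complement of two disjoint blocks is a block -/
theorem third_block {V : Type} [Fintype V] (G : SimpleGraph V) (k : ℕ)
    (hcard : Fintype.card V = 3 * (k + 1))
    (hP : ∀ x y : V, ∃ w, (blk G univ w).card = k + 1 ∧ Disjoint (blk G univ w) (blk G univ x) ∧
      Disjoint (blk G univ w) (blk G univ y))
    (u v : V) (hu : (blk G univ u).card = k + 1) (hv : (blk G univ v).card = k + 1)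
    (huv : Disjoint (blk G univ u) (blk G univ v)) :
    ∃ w, (blk G univ w).card = k + 1 ∧ blk G univ w = univ \ (blk G univ u ∪ blk G univ v) := by
  obtain ⟨w, hw, h1, h2⟩ := hP u v
  refine ⟨w, hw, ?_⟩
  have hsub : blk G univ w ⊆ univ \ (blk G univ u ∪ blk G univ v) := by
    intro y hy
    rw [Finset.mem_sdiff, Finset.mem_union]
    refine ⟨Finset.mem_univ _, ?_⟩
    rintro (h | h)
    · exact Finset.disjoint_left.1 h1 hy h
    · exact Finset.disjoint_left.1 h2 hy h
  refine Finset.eq_of_subset_of_card_le hsub ?_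
  rw [Finset.card_sdiff_of_subset (Finset.subset_univ _), Finset.card_union_of_disjoint huv, hu, hv,
    hw, Finset.card_univ, hcard]
  omega

/-- TARGET four closed neighbourhoods that meet in pairs do not cover -/
theorem no_four_cover {V : Type} [Fintype V] (G : SimpleGraph V) (k : ℕ)
    (hP : ∀ x y : V, ∃ w, (blk G univ w).card = k + 1 ∧ Disjoint (blk G univ w) (blk G univ x) ∧
      Disjoint (blk G univ w) (blk G univ y))
    (a b c e s s' : V) (ha : s ∈ blk G univ a) (hb : s ∈ blk G univ b)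
    (hc : s' ∈ blk G univ c) (he : s' ∈ blk G univ e) :
    ∃ w, w ∉ blk G univ a ∧ w ∉ blk G univ b ∧ w ∉ blk G univ c ∧ w ∉ blk G univ e := by
  obtain ⟨w, _, h1, h2⟩ := hP s s'
  have key : ∀ x z : V, Disjoint (blk G univ w) (blk G univ z) → z ∈ blk G univ x →
      w ∉ blk G univ x := by
    intro x z hd hz hw
    exact Finset.disjoint_left.1 hd (c_symm G hw) (c_symm G hz)
  exact ⟨w, key a s h1 ha, key b s h1 hb, key c s' h2 hc, key e s' h2 he⟩


/-! ### d -/

/-- TARGET lower bound for intersections of blocks, from the minimality of differences -/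
theorem inter_ge {V : Type} [Fintype V] (G : SimpleGraph V) (k : ℕ)
    (hcard : Fintype.card V = 3 * (k + 1))
    (hP : ∀ x y : V, ∃ w, (blk G univ w).card = k + 1 ∧ Disjoint (blk G univ w) (blk G univ x) ∧
      Disjoint (blk G univ w) (blk G univ y))
    (μ : ℕ)
    (hmin : ∀ x y : V, (blk G univ x).card = k + 1 → (blk G univ y).card = k + 1 →
      (blk G univ x ∩ blk G univ y).Nonempty → blk G univ x ≠ blk G univ y →
      μ ≤ (blk G univ x \ blk G univ y).card)
    (x y : V) (hx : (blk G univ x).card = k + 1) (hy : (blk G univ y).card = k + 1)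
    (hxy : (blk G univ x ∩ blk G univ y).Nonempty) (hne : blk G univ x ≠ blk G univ y) :
    μ ≤ (blk G univ x ∩ blk G univ y).card := by
  obtain ⟨t, ht, htx, hty⟩ := hP x y
  obtain ⟨q, hq, hqe⟩ := third_block G k hcard hP y t hy ht hty.symm
  have hsub : blk G univ x \ blk G univ q ⊆ blk G univ x ∩ blk G univ y := by
    intro z hz
    rw [mem_sdiff, hqe, mem_sdiff, mem_union] at hz
    rw [mem_inter]
    refine ⟨hz.1, ?_⟩
    by_contra hzy
    apply hz.2
    refine ⟨mem_univ z, fun h => ?_⟩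
    rcases h with h | h
    · exact hzy h
    · exact Finset.disjoint_left.1 htx h hz.1
  have hxq : (blk G univ x ∩ blk G univ q).Nonempty := by
    by_contra hcon
    rw [not_nonempty_iff_eq_empty] at hcon
    apply hne
    apply eq_of_subset_of_card_le
    · intro z hz
      have : z ∉ blk G univ q := fun h => by
        have hmem : z ∈ blk G univ x ∩ blk G univ q := mem_inter.2 ⟨hz, h⟩
        rw [hcon] at hmem
        exact absurd hmem (notMem_empty z)
      exact (mem_inter.1 (hsub (mem_sdiff.2 ⟨hz, this⟩))).2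
    · rw [hx, hy]
  have hnq : blk G univ x ≠ blk G univ q := by
    intro h
    obtain ⟨z, hz⟩ := hxy
    rw [mem_inter] at hz
    have h1 : z ∈ blk G univ q := h ▸ hz.1
    rw [hqe, mem_sdiff, mem_union] at h1
    exact h1.2 (Or.inl hz.2)
  exact (hmin x q hx hq hxq hnq).trans (card_le_card hsub)


/-! ### e -/

theorem e_mem {V : Type} [Fintype V] (G : SimpleGraph V) (x y : V) :
    y ∈ blk G univ x ↔ (y = x ∨ G.Adj x y) := by
  unfold blk
  rw [Finset.mem_filter]
  simp

theorem e_self {V : Type} [Fintype V] (G : SimpleGraph V) (x : V) : x ∈ blk G univ x := by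
  rw [e_mem]
  exact Or.inl rfl

theorem e_symm {V : Type} [Fintype V] (G : SimpleGraph V) {x y : V} (h : y ∈ blk G univ x) :
    x ∈ blk G univ y := by
  rw [e_mem] at h ⊢
  rcases h with h | h
  · exact Or.inl h.symm
  · exact Or.inr h.symm

/-- TARGET half of the key step -/
theorem key_half {V : Type} [Fintype V] (G : SimpleGraph V) (k : ℕ)
    (hcard : Fintype.card V = 3 * (k + 1))
    (hP : ∀ x y : V, ∃ w, (blk G univ w).card = k + 1 ∧ Disjoint (blk G univ w) (blk G univ x) ∧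
      Disjoint (blk G univ w) (blk G univ y))
    (u v p q t : V)
    (hu : (blk G univ u).card = k + 1) (hv : (blk G univ v).card = k + 1)
    (hp : (blk G univ p).card = k + 1) (hq : (blk G univ q).card = k + 1)
    (ht : (blk G univ t).card = k + 1)
    (hut : Disjoint (blk G univ u) (blk G univ t)) (hvt : Disjoint (blk G univ v) (blk G univ t))
    (hpe : blk G univ p = univ \ (blk G univ u ∪ blk G univ t))
    (hqe : blk G univ q = univ \ (blk G univ v ∪ blk G univ t))
    (hne : blk G univ u ≠ blk G univ v)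
    (hmin : ∀ x y : V, (blk G univ x).card = k + 1 → (blk G univ y).card = k + 1 →
      (blk G univ x ∩ blk G univ y).Nonempty → blk G univ x ≠ blk G univ y →
      (blk G univ u \ blk G univ v).card ≤ (blk G univ x \ blk G univ y).card)
    (t' a : V) (ht' : t' ∈ blk G univ t) (ha : a ∈ blk G univ u) : ¬ G.Adj t' a := by
  intro hadj
  have hut' := Finset.disjoint_left.1 hut
  have hvt' := Finset.disjoint_left.1 hvt
  have hpm : ∀ z, z ∈ blk G univ p ↔ (z ∉ blk G univ u ∧ z ∉ blk G univ t) := by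
    intro z
    rw [hpe, Finset.mem_sdiff, Finset.mem_union]
    simp
  have hqm : ∀ z, z ∈ blk G univ q ↔ (z ∉ blk G univ v ∧ z ∉ blk G univ t) := by
    intro z
    rw [hqe, Finset.mem_sdiff, Finset.mem_union]
    simp
  have hA0 : (blk G univ u \ blk G univ v).Nonempty := by
    rw [Finset.sdiff_nonempty]
    intro hsub
    exact hne (Finset.eq_of_subset_of_card_le hsub (by rw [hu, hv]))
  have hB0 : (blk G univ v \ blk G univ u).Nonempty := by
    rw [Finset.sdiff_nonempty]
    intro hsub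
    exact hne (Finset.eq_of_subset_of_card_le hsub (by rw [hu, hv])).symm
  have hmu : 0 < (blk G univ u \ blk G univ v).card := Finset.card_pos.2 hA0
  obtain ⟨s, hs⟩ := hB0
  rw [Finset.mem_sdiff] at hs
  have hsp : s ∈ blk G univ p := (hpm s).2 ⟨hs.2, hvt' hs.1⟩
  obtain ⟨w, hw, hwa, hwp⟩ := hP a p
  have hwa' := Finset.disjoint_left.1 hwa
  have hwp' := Finset.disjoint_left.1 hwp
  have hwself := e_self G w
  have hwu : w ∉ blk G univ u := fun h => hwa' (e_symm G h) (e_symm G ha)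
  have hwnp : w ∉ blk G univ p := hwp' hwself
  have hwt : w ∈ blk G univ t := by
    by_contra hcon
    exact hwnp ((hpm w).2 ⟨hwu, hcon⟩)
  obtain ⟨e, he, hee⟩ := third_block G k hcard hP w p hw hp hwp
  have hem : ∀ z, z ∈ blk G univ e ↔ (z ∉ blk G univ w ∧ z ∉ blk G univ p) := by
    intro z
    rw [hee, Finset.mem_sdiff, Finset.mem_union]
    simp
  have ht'a : t' ∈ blk G univ a := by
    rw [e_mem]
    exact Or.inr hadj.symm
  have ht'w : t' ∉ blk G univ w := fun h => hwa' h ht'a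
  have ht'p : t' ∉ blk G univ p := fun h => ((hpm t').1 h).2 ht'
  have ht'e : t' ∈ blk G univ e := (hem t').2 ⟨ht'w, ht'p⟩
  have hor : blk G univ u \ blk G univ v ⊆ blk G univ e ∨
      blk G univ u \ blk G univ v ⊆ blk G univ w := by
    by_contra hcon
    push Not at hcon
    obtain ⟨h1, h2⟩ := hcon
    rw [Finset.not_subset] at h1 h2
    obtain ⟨x, hx, hxe⟩ := h1
    obtain ⟨y, hy, hyw⟩ := h2
    rw [Finset.mem_sdiff] at hx hy
    have hxq : x ∈ blk G univ q := (hqm x).2 ⟨hx.2, hut' hx.1⟩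
    have hyq : y ∈ blk G univ q := (hqm y).2 ⟨hy.2, hut' hy.1⟩
    have hxp : x ∉ blk G univ p := fun h => ((hpm x).1 h).1 hx.1
    have hyp : y ∉ blk G univ p := fun h => ((hpm y).1 h).1 hy.1
    have hxw : x ∈ blk G univ w := by
      by_contra hc
      exact hxe ((hem x).2 ⟨hc, hxp⟩)
    have hye : y ∈ blk G univ e := (hem y).2 ⟨hyw, hyp⟩
    have hneq : blk G univ e ≠ blk G univ q := by
      intro h
      rw [h] at ht'e
      exact ((hqm t').1 ht'e).2 ht'
    have hnwq : blk G univ w ≠ blk G univ q := by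
      intro h
      have h3 : w ∈ blk G univ q := by
        rw [← h]
        exact hwself
      exact ((hqm w).1 h3).2 hwt
    have i1 := inter_ge G k hcard hP _ hmin e q he hq
      ⟨y, Finset.mem_inter.2 ⟨hye, hyq⟩⟩ hneq
    have i2 := inter_ge G k hcard hP _ hmin w q hw hq
      ⟨x, Finset.mem_inter.2 ⟨hxw, hxq⟩⟩ hnwq
    have hdis : Disjoint (blk G univ e ∩ blk G univ q) (blk G univ w ∩ blk G univ q) := by
      rw [Finset.disjoint_left]
      intro z hz1 hz2
      rw [Finset.mem_inter] at hz1 hz2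
      exact ((hem z).1 hz1.1).1 hz2.1
    have hsub : (blk G univ e ∩ blk G univ q) ∪ (blk G univ w ∩ blk G univ q) ⊆
        blk G univ u \ blk G univ v := by
      intro z hz
      rw [Finset.mem_union, Finset.mem_inter, Finset.mem_inter] at hz
      rw [Finset.mem_sdiff]
      have hzp : z ∉ blk G univ p := by
        rcases hz with hz | hz
        · exact ((hem z).1 hz.1).2
        · exact hwp' hz.1
      have hzq : z ∈ blk G univ q := by
        rcases hz with hz | hz
        · exact hz.2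
        · exact hz.2
      have h4 := (hqm z).1 hzq
      refine ⟨?_, h4.1⟩
      by_contra hc
      exact hzp ((hpm z).2 ⟨hc, h4.2⟩)
    have h5 := Finset.card_le_card hsub
    rw [Finset.card_union_of_disjoint hdis] at h5
    omega
  have hfin : ∀ e' s' : V, s' ∈ blk G univ t → s' ∈ blk G univ e' →
      blk G univ u \ blk G univ v ⊆ blk G univ e' → False := by
    intro e' s' hs1 hs2 hsub
    obtain ⟨z, hz1, hz2, hz3, hz4⟩ := no_four_cover G k hP v p t e' s s' hs.1 hsp hs1 hs2
    apply hz4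
    apply hsub
    rw [Finset.mem_sdiff]
    refine ⟨?_, hz1⟩
    by_contra hc
    exact hz2 ((hpm z).2 ⟨hc, hz3⟩)
  rcases hor with h | h
  · exact hfin e t' ht' ht'e h
  · exact hfin w w hwt hwself h


/-! ### f -/

/-- TARGET blocks that meet are equal -/
theorem blocks_eq {V : Type} [Fintype V] (G : SimpleGraph V) (k : ℕ)
    (hcard : Fintype.card V = 3 * (k + 1))
    (hP : ∀ x y : V, ∃ w, (blk G univ w).card = k + 1 ∧ Disjoint (blk G univ w) (blk G univ x) ∧
      Disjoint (blk G univ w) (blk G univ y))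
    (hc : ConnIn G univ)
    (x y : V) (hx : (blk G univ x).card = k + 1) (hy : (blk G univ y).card = k + 1)
    (hxy : (blk G univ x ∩ blk G univ y).Nonempty) : blk G univ x = blk G univ y := by
  by_contra hne0
  obtain ⟨uv, huv, hmin0⟩ := Finset.exists_min_image
    ((univ : Finset (V × V)).filter (fun z => (blk G univ z.1).card = k + 1 ∧
      (blk G univ z.2).card = k + 1 ∧ (blk G univ z.1 ∩ blk G univ z.2).Nonempty ∧
      blk G univ z.1 ≠ blk G univ z.2))
    (fun z => (blk G univ z.1 \ blk G univ z.2).card)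
    ⟨(x, y), Finset.mem_filter.2 ⟨Finset.mem_univ _, hx, hy, hxy, hne0⟩⟩
  obtain ⟨u, v⟩ := uv
  obtain ⟨-, hu, hv, huv1, hne⟩ := Finset.mem_filter.1 huv
  simp only at hu hv huv1 hne hmin0
  have hmin : ∀ x y : V, (blk G univ x).card = k + 1 → (blk G univ y).card = k + 1 →
      (blk G univ x ∩ blk G univ y).Nonempty → blk G univ x ≠ blk G univ y →
      (blk G univ u \ blk G univ v).card ≤ (blk G univ x \ blk G univ y).card :=
    fun x y h1 h2 h3 h4 => hmin0 (x, y)
      (Finset.mem_filter.2 ⟨Finset.mem_univ _, h1, h2, h3, h4⟩)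
  obtain ⟨t, ht, htu, htv⟩ := hP u v
  obtain ⟨p, hp, hpe⟩ := third_block G k hcard hP u t hu ht htu.symm
  obtain ⟨q, hq, hqe⟩ := third_block G k hcard hP v t hv ht htv.symm
  have key1 := fun (t' a : V) => key_half G k hcard hP u v p q t hu hv hp hq ht htu.symm htv.symm
    hpe hqe hne hmin t' a
  have mp : ∀ z, z ∈ blk G univ p ↔ z ∉ blk G univ u ∧ z ∉ blk G univ t := by
    intro z
    rw [hpe, Finset.mem_sdiff, Finset.mem_union, not_or]
    simp
  have mq : ∀ z, z ∈ blk G univ q ↔ z ∉ blk G univ v ∧ z ∉ blk G univ t := by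
    intro z
    rw [hqe, Finset.mem_sdiff, Finset.mem_union, not_or]
    simp
  have dut : ∀ z, z ∈ blk G univ u → z ∉ blk G univ t := fun z h1 h2 =>
    Finset.disjoint_left.1 htu h2 h1
  have dvt : ∀ z, z ∈ blk G univ v → z ∉ blk G univ t := fun z h1 h2 =>
    Finset.disjoint_left.1 htv h2 h1
  have hue : blk G univ u = univ \ (blk G univ p ∪ blk G univ t) := by
    ext z
    rw [Finset.mem_sdiff, Finset.mem_union, not_or, mp z]
    have := dut z
    constructor
    · intro h
      exact ⟨Finset.mem_univ _, fun h' => h'.1 h, this h⟩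
    · rintro ⟨-, h1, h2⟩
      by_contra h3
      exact h1 ⟨h3, h2⟩
  have hve : blk G univ v = univ \ (blk G univ q ∪ blk G univ t) := by
    ext z
    rw [Finset.mem_sdiff, Finset.mem_union, not_or, mq z]
    have := dvt z
    constructor
    · intro h
      exact ⟨Finset.mem_univ _, fun h' => h'.1 h, this h⟩
    · rintro ⟨-, h1, h2⟩
      by_contra h3
      exact h1 ⟨h3, h2⟩
  have hpq : blk G univ p ≠ blk G univ q := by
    intro h
    apply hne
    rw [hue, hve, h]
  have hpt : Disjoint (blk G univ p) (blk G univ t) :=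
    Finset.disjoint_left.2 fun z h1 h2 => ((mp z).1 h1).2 h2
  have hqt : Disjoint (blk G univ q) (blk G univ t) :=
    Finset.disjoint_left.2 fun z h1 h2 => ((mq z).1 h1).2 h2
  have hd : blk G univ p \ blk G univ q = blk G univ v \ blk G univ u := by
    ext z
    rw [Finset.mem_sdiff, Finset.mem_sdiff, mp z, mq z]
    constructor
    · rintro ⟨⟨h1, h2⟩, h3⟩
      refine ⟨?_, h1⟩
      by_contra h4
      exact h3 ⟨h4, h2⟩
    · rintro ⟨h1, h2⟩
      exact ⟨⟨h2, dvt z h1⟩, fun h => h.1 h1⟩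
  have hcd : (blk G univ p \ blk G univ q).card = (blk G univ u \ blk G univ v).card := by
    rw [hd]
    have e1 := Finset.card_sdiff_add_card_inter (blk G univ v) (blk G univ u)
    have e2 := Finset.card_sdiff_add_card_inter (blk G univ u) (blk G univ v)
    rw [Finset.inter_comm] at e1
    omega
  have hmin2 : ∀ x y : V, (blk G univ x).card = k + 1 → (blk G univ y).card = k + 1 →
      (blk G univ x ∩ blk G univ y).Nonempty → blk G univ x ≠ blk G univ y →
      (blk G univ p \ blk G univ q).card ≤ (blk G univ x \ blk G univ y).card := by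
    intro x y h1 h2 h3 h4
    rw [hcd]
    exact hmin x y h1 h2 h3 h4
  have key2 := fun (t' a : V) => key_half G k hcard hP p q u v t hp hq hu hv ht hpt hqt
    hue hve hpq hmin2 t' a
  have hTn : (blk G univ t).Nonempty := by
    rw [← Finset.card_pos, ht]
    omega
  have hUn : (blk G univ u).Nonempty := by
    rw [← Finset.card_pos, hu]
    omega
  have hT := hc (blk G univ t) (Finset.subset_univ _) hTn (by
    intro a ha b _ hab
    by_contra hb
    have h1 : b ∉ blk G univ u := fun h => key1 a b ha h hab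
    exact key2 a b ha ((mp b).2 ⟨h1, hb⟩) hab)
  obtain ⟨z, hz⟩ := hUn
  apply dut z hz
  rw [hT]
  exact Finset.mem_univ _


/-! ### g -/

theorem g_mem {V : Type} [Fintype V] (G : SimpleGraph V) (y c : V) :
    y ∈ blk G univ c ↔ y = c ∨ G.Adj c y := by
  simp [blk]

theorem g_self {V : Type} [Fintype V] (G : SimpleGraph V) (c : V) : c ∈ blk G univ c := by
  rw [g_mem]; exact Or.inl rfl

theorem g_symm {V : Type} [Fintype V] (G : SimpleGraph V) (y c : V) (h : y ∈ blk G univ c) :
    c ∈ blk G univ y := by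
  rw [g_mem] at h ⊢
  rcases h with h | h
  · exact Or.inl h.symm
  · exact Or.inr h.symm

/-- the last step of the argument -/
theorem g_step {V : Type} [Fintype V] (G : SimpleGraph V) (k : ℕ)
    (hcard : Fintype.card V = 3 * (k + 1))
    (hP : ∀ x y : V, ∃ w, (blk G univ w).card = k + 1 ∧ Disjoint (blk G univ w) (blk G univ x) ∧
      Disjoint (blk G univ w) (blk G univ y))
    (hc : ConnIn G univ) (x0 y0 z0 a b : V)
    (hy0 : (blk G univ y0).card = k + 1)
    (hcov : ∀ v, v ∈ blk G univ x0 ∨ v ∈ blk G univ y0 ∨ v ∈ blk G univ z0)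
    (ha : a ∈ blk G univ x0) (hb : b ∈ blk G univ y0) (hab : G.Adj a b) : False := by
  obtain ⟨w, hw, hwa, hwz⟩ := hP a z0
  have hww := g_self G w
  have h1 : w ∉ blk G univ z0 := fun h => Finset.disjoint_left.mp hwz hww h
  have h2 : w ∉ blk G univ x0 := fun h =>
    Finset.disjoint_left.mp hwa (g_symm G w x0 h) (g_symm G a x0 ha)
  have h3 : w ∈ blk G univ y0 := by
    rcases hcov w with h | h | h
    · exact absurd h h2
    · exact h
    · exact absurd h h1
  have h4 := blocks_eq G k hcard hP hc w y0 hw hy0 ⟨w, Finset.mem_inter.mpr ⟨hww, h3⟩⟩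
  have h5 : b ∈ blk G univ w := by rw [h4]; exact hb
  have h6 : b ∈ blk G univ a := by rw [g_mem]; exact Or.inr hab
  exact Finset.disjoint_left.mp hwa h5 h6

/-- TARGET a connected graph with 3(k+1) vertices is isolated by two vertices -/
theorem three_blocks {V : Type} [Fintype V] (G : SimpleGraph V) (k : ℕ)
    (hcard : Fintype.card V = 3 * (k + 1)) (hc : ConnIn G univ) :
    ∃ S : Finset V, S.card ≤ 2 ∧ IsoIn G k univ S := by
  by_contra hcon
  have hno : ∀ S : Finset V, S.card ≤ 2 → ¬ IsoIn G k univ S :=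
    fun S hS hI => hcon ⟨S, hS, hI⟩
  have hP := far_exists G k hcard hno
  have hne : Nonempty V := by
    rw [← Fintype.card_pos_iff, hcard]; omega
  obtain ⟨z⟩ := hne
  obtain ⟨x0, hx0, -, -⟩ := hP z z
  obtain ⟨y0, hy0, hyx, -⟩ := hP x0 x0
  obtain ⟨z0, hz0, hz⟩ := third_block G k hcard hP x0 y0 hx0 hy0 hyx.symm
  have hcov : ∀ v, v ∈ blk G univ x0 ∨ v ∈ blk G univ y0 ∨ v ∈ blk G univ z0 := by
    intro v
    by_cases h1 : v ∈ blk G univ x0
    · exact Or.inl h1
    · by_cases h2 : v ∈ blk G univ y0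
      · exact Or.inr (Or.inl h2)
      · right; right
        rw [hz, Finset.mem_sdiff]
        exact ⟨Finset.mem_univ _, fun h => (Finset.mem_union.mp h).elim h1 h2⟩
  have hT : ¬ (∀ x ∈ blk G univ x0, ∀ y ∈ (univ : Finset V), G.Adj x y → y ∈ blk G univ x0) := by
    intro h
    have h1 := hc (blk G univ x0) (Finset.subset_univ _) ⟨x0, g_self G x0⟩ h
    have h2 : y0 ∈ blk G univ x0 := by rw [h1]; exact Finset.mem_univ _
    exact Finset.disjoint_left.mp hyx (g_self G y0) h2
  push Not at hT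
  obtain ⟨a, ha, b, -, hab, hb⟩ := hT
  rcases hcov b with h | h | h
  · exact hb h
  · exact g_step G k hcard hP hc x0 y0 z0 a b hy0 hcov ha h hab
  · refine g_step G k hcard hP hc x0 z0 y0 a b hz0 ?_ ha h hab
    intro v
    rcases hcov v with h | h | h
    · exact Or.inl h
    · exact Or.inr (Or.inr h)
    · exact Or.inr (Or.inl h)


/-! ### h -/

theorem h_mem_map {V : Type} (U : Finset V) (T : Finset {x // x ∈ U}) (z : {x // x ∈ U}) :
    z.1 ∈ T.map (Function.Embedding.subtype (fun x => x ∈ U)) ↔ z ∈ T := by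
  rw [Finset.mem_map]
  constructor
  · rintro ⟨z', hz', h⟩
    have : z' = z := Subtype.ext h
    rwa [← this]
  · intro h
    exact ⟨z, h, rfl⟩

theorem h_dom {V : Type} (G : SimpleGraph V) (U : Finset V) (S' : Finset {x // x ∈ U})
    (z : {x // x ∈ U}) :
    Dom (G.comap (Subtype.val : {x // x ∈ U} → V)) S' z ↔
      Dom G (S'.map (Function.Embedding.subtype (fun x => x ∈ U))) z.1 := by
  unfold Dom
  rw [h_mem_map]
  constructor
  · rintro (h | ⟨s, hs, h⟩)
    · exact Or.inl h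
    · exact Or.inr ⟨s.1, (h_mem_map U S' s).2 hs, h⟩
  · rintro (h | ⟨s, hs, h⟩)
    · exact Or.inl h
    · rw [Finset.mem_map] at hs
      obtain ⟨s', hs', rfl⟩ := hs
      exact Or.inr ⟨s', hs', h⟩

/-- TARGET transfer to a subset -/
theorem three_blocks_in {V : Type} (G : SimpleGraph V) (k : ℕ) (U : Finset V)
    (hcard : U.card = 3 * (k + 1)) (hc : ConnIn G U) :
    ∃ S : Finset V, S.card ≤ 2 ∧ IsoIn G k U S := by
  set G' : SimpleGraph {x // x ∈ U} := G.comap (Subtype.val : {x // x ∈ U} → V) with hG'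
  have hc' : ConnIn G' univ := by
    intro T _ hne hcl
    have h1 : T.map (Function.Embedding.subtype (fun x => x ∈ U)) = U := by
      apply hc
      · intro x hx
        rw [Finset.mem_map] at hx
        obtain ⟨x', _, rfl⟩ := hx
        exact x'.2
      · obtain ⟨z, hz⟩ := hne
        exact ⟨z.1, (h_mem_map U T z).2 hz⟩
      · intro x hx y hy hxy
        rw [Finset.mem_map] at hx
        obtain ⟨x', hx', rfl⟩ := hx
        exact (h_mem_map U T ⟨y, hy⟩).2 (hcl x' hx' ⟨y, hy⟩ (Finset.mem_univ _) hxy)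
    ext z
    simp only [Finset.mem_univ, iff_true]
    rw [← h_mem_map U T z, h1]
    exact z.2
  obtain ⟨S', hS'c, hS'⟩ := three_blocks G' k (by rw [Fintype.card_coe]; exact hcard) hc'
  refine ⟨S'.map (Function.Embedding.subtype (fun x => x ∈ U)), by rw [Finset.card_map]; exact hS'c, ?_⟩
  intro v hv hnd
  have h := hS' ⟨v, hv⟩ (Finset.mem_univ _) (fun hd => hnd ((h_dom G U S' ⟨v, hv⟩).1 hd))
  have e : U.filter (fun w => G.Adj v w ∧
      ¬ Dom G (S'.map (Function.Embedding.subtype (fun x => x ∈ U))) w) =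
      (univ.filter (fun w : {x // x ∈ U} => G'.Adj ⟨v, hv⟩ w ∧ ¬ Dom G' S' w)).map
        (Function.Embedding.subtype (fun x => x ∈ U)) := by
    ext w
    rw [Finset.mem_filter, Finset.mem_map]
    constructor
    · rintro ⟨hw, hvw, hd⟩
      refine ⟨⟨w, hw⟩, ?_, rfl⟩
      rw [Finset.mem_filter]
      exact ⟨Finset.mem_univ _, hvw, fun hd' => hd ((h_dom G U S' ⟨w, hw⟩).1 hd')⟩
    · rintro ⟨w', hw', rfl⟩
      rw [Finset.mem_filter] at hw'
      obtain ⟨-, h1, h2⟩ := hw'
      exact ⟨w'.2, h1, fun hd' => h2 ((h_dom G U S' w').2 hd')⟩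
  rw [e, Finset.card_map]
  exact h


/-! ### i -/

/-- TARGET greedy removal of vertices with at least `k+1` neighbours -/
theorem heavy {V : Type} [Fintype V] (G : SimpleGraph V) (k : ℕ) :
    ∃ H : Finset V, (k + 2) * H.card ≤ (univ.filter (fun v => Dom G H v)).card ∧
      ∀ v, ¬ Dom G H v → (univ.filter (fun w => G.Adj v w ∧ ¬ Dom G H w)).card ≤ k := by
  have hne : (univ.filter (fun H : Finset V =>
      (k + 2) * H.card ≤ (univ.filter (fun v => Dom G H v)).card)).Nonempty := by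
    refine ⟨∅, ?_⟩
    rw [mem_filter]
    refine ⟨mem_univ _, ?_⟩
    rw [card_empty, mul_zero]
    exact Nat.zero_le _
  obtain ⟨H, hH, hmax⟩ := exists_max_image _
    (fun H : Finset V => (univ.filter (fun v => Dom G H v)).card) hne
  rw [mem_filter] at hH
  refine ⟨H, hH.2, ?_⟩
  intro v hv
  by_contra hcon
  push Not at hcon
  -- the enlarged set
  have hsub : (univ.filter (fun w => Dom G H w)) ∪
      insert v (univ.filter (fun w => G.Adj v w ∧ ¬ Dom G H w)) ⊆
      univ.filter (fun w => Dom G (insert v H) w) := by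
    intro w hw
    rw [mem_filter]
    refine ⟨mem_univ _, ?_⟩
    rw [mem_union, mem_insert, mem_filter, mem_filter] at hw
    rcases hw with ⟨_, hw⟩ | hw | ⟨_, hw, _⟩
    · rcases hw with h | ⟨s, hs, h⟩
      · exact Or.inl (mem_insert_of_mem h)
      · exact Or.inr ⟨s, mem_insert_of_mem hs, h⟩
    · rw [hw]
      exact Or.inl (mem_insert_self _ _)
    · exact Or.inr ⟨v, mem_insert_self _ _, hw⟩
  have hdisj : Disjoint (univ.filter (fun w => Dom G H w))
      (insert v (univ.filter (fun w => G.Adj v w ∧ ¬ Dom G H w))) := by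
    rw [disjoint_left]
    intro w hw hw'
    rw [mem_filter] at hw
    rw [mem_insert, mem_filter] at hw'
    rcases hw' with rfl | ⟨_, _, h⟩
    · exact hv hw.2
    · exact h hw.2
  have hvN : v ∉ univ.filter (fun w => G.Adj v w ∧ ¬ Dom G H w) := by
    rw [mem_filter]
    rintro ⟨_, h, _⟩
    exact G.loopless.irrefl v h
  have hcard := card_le_card hsub
  rw [card_union_of_disjoint hdisj, card_insert_of_notMem hvN] at hcard
  have hvH : v ∉ H := fun h => hv (Or.inl h)
  have hmem : insert v H ∈ univ.filter (fun H : Finset V =>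
      (k + 2) * H.card ≤ (univ.filter (fun v => Dom G H v)).card) := by
    rw [mem_filter]
    refine ⟨mem_univ _, ?_⟩
    rw [card_insert_of_notMem hvH, mul_add, mul_one]
    have := hH.2
    omega
  have := hmax _ hmem
  beta_reduce at this
  omega


/-! ### j -/

/-- TARGET a maximal packing of blocks -/
theorem pack_exists {V : Type} (G : SimpleGraph V) (k : ℕ) (V' : Finset V)
    (hd : ∀ v ∈ V', (V'.filter (fun w => G.Adj v w)).card ≤ k) :
    ∃ D : Finset V, Pack G k V' D := by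
  let F : Finset (Finset V) := V'.powerset.filter (fun D =>
    (∀ c ∈ D, (blk G V' c).card = k + 1) ∧
      (∀ c ∈ D, ∀ c' ∈ D, c ≠ c' → Disjoint (blk G V' c) (blk G V' c')))
  have hF : ∀ D, D ∈ F ↔ D ⊆ V' ∧ ((∀ c ∈ D, (blk G V' c).card = k + 1) ∧
      (∀ c ∈ D, ∀ c' ∈ D, c ≠ c' → Disjoint (blk G V' c) (blk G V' c'))) := by
    intro D
    show D ∈ V'.powerset.filter _ ↔ _
    rw [Finset.mem_filter, Finset.mem_powerset]
  have hne : F.Nonempty := ⟨∅, (hF ∅).mpr ⟨Finset.empty_subset _, by simp, by simp⟩⟩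
  obtain ⟨D, hD, hmax⟩ := Finset.exists_max_image F Finset.card hne
  obtain ⟨hD1, hD2, hD3⟩ := (hF D).mp hD
  refine ⟨D, hD1, hD2, hD3, ?_⟩
  intro v hv
  by_contra hcon
  push Not at hcon
  obtain ⟨hvV, hvU⟩ := Finset.mem_sdiff.mp hv
  have hsub : (V' \ ub G V' D).filter (fun w => G.Adj v w) ⊆ V'.filter (fun w => G.Adj v w) :=
    Finset.filter_subset_filter _ Finset.sdiff_subset
  have heq : (V' \ ub G V' D).filter (fun w => G.Adj v w) = V'.filter (fun w => G.Adj v w) :=
    Finset.eq_of_subset_of_card_le hsub ((hd v hvV).trans hcon)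
  have hcard : (V'.filter (fun w => G.Adj v w)).card = k :=
    le_antisymm (hd v hvV) (by rw [← heq]; exact hcon)
  have hblk : blk G V' v = insert v (V'.filter (fun w => G.Adj v w)) := by
    ext y
    unfold blk
    rw [Finset.mem_filter, Finset.mem_insert, Finset.mem_filter]
    constructor
    · rintro ⟨h1, h2 | h2⟩
      · exact Or.inl h2
      · exact Or.inr ⟨h1, h2⟩
    · rintro (h2 | ⟨h1, h2⟩)
      · exact ⟨h2 ▸ hvV, Or.inl h2⟩
      · exact ⟨h1, Or.inr h2⟩
  have hvb : v ∈ blk G V' v := by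
    rw [hblk]
    exact Finset.mem_insert_self _ _
  have hblkc : (blk G V' v).card = k + 1 := by
    rw [hblk, Finset.card_insert_of_notMem, hcard]
    intro h
    exact G.irrefl (Finset.mem_filter.mp h).2
  have hblkL : blk G V' v ⊆ V' \ ub G V' D := by
    rw [hblk]
    intro y hy
    rcases Finset.mem_insert.mp hy with h | h
    · rw [h]; exact hv
    · rw [← heq] at h
      exact (Finset.mem_filter.mp h).1
  have hvD : v ∉ D := by
    intro h
    apply hvU
    unfold ub
    exact Finset.mem_biUnion.mpr ⟨v, h, hvb⟩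
  have hdisj : ∀ c ∈ D, Disjoint (blk G V' v) (blk G V' c) := by
    intro c hc
    rw [Finset.disjoint_left]
    intro y hy hy'
    have h1 := (Finset.mem_sdiff.mp (hblkL hy)).2
    apply h1
    unfold ub
    exact Finset.mem_biUnion.mpr ⟨c, hc, hy'⟩
  have hins : insert v D ∈ F := by
    refine (hF _).mpr ⟨?_, ?_, ?_⟩
    · exact Finset.insert_subset hvV hD1
    · intro c hc
      rcases Finset.mem_insert.mp hc with h | h
      · rw [h]; exact hblkc
      · exact hD2 c h
    · intro c hc c' hc' hne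
      rcases Finset.mem_insert.mp hc with h | h <;> rcases Finset.mem_insert.mp hc' with h' | h'
      · exact absurd (h.trans h'.symm) hne
      · rw [h]; exact hdisj c' h'
      · rw [h']; exact (hdisj c h).symm
      · exact hD3 c h c' h' hne
  have := hmax _ hins
  rw [Finset.card_insert_of_notMem hvD] at this
  omega


/-! ### k -/

/-- TARGET size of unions of blocks of a packing -/
theorem card_ub {V : Type} (G : SimpleGraph V) (k : ℕ) (V' D P : Finset V)
    (hD : Pack G k V' D) (hP : P ⊆ D) : (ub G V' P).card = (k + 1) * P.card := by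
  unfold ub
  rw [Finset.card_biUnion]
  · rw [Finset.sum_congr rfl (fun c hc => hD.2.1 c (hP hc)), Finset.sum_const, smul_eq_mul,
      mul_comm]
  · intro c hc c' hc' hne
    exact hD.2.2.1 c (hP hc) c' (hP hc') hne

/-- TARGET a packing isolates -/
theorem pack_iso {V : Type} [Fintype V] (G : SimpleGraph V) (k : ℕ) (V' D H : Finset V)
    (hH : ∀ v, v ∉ V' → Dom G H v) (hD : Pack G k V' D) : IsoIn G k univ (H ∪ D) := by
  have key : ∀ w, ¬ Dom G (H ∪ D) w → w ∈ V' \ ub G V' D := by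
    intro w hw
    rw [Finset.mem_sdiff]
    constructor
    · by_contra h
      apply hw
      rcases hH w h with h1 | ⟨s, hs, h1⟩
      · exact Or.inl (Finset.mem_union_left _ h1)
      · exact Or.inr ⟨s, Finset.mem_union_left _ hs, h1⟩
    · intro h
      apply hw
      unfold ub at h
      rw [Finset.mem_biUnion] at h
      obtain ⟨c, hc, h1⟩ := h
      unfold blk at h1
      rw [Finset.mem_filter] at h1
      rcases h1.2 with h2 | h2
      · rw [h2]
        exact Or.inl (Finset.mem_union_right _ hc)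
      · exact Or.inr ⟨c, Finset.mem_union_right _ hc, h2⟩
  intro v _ hv
  refine lt_of_le_of_lt (Finset.card_le_card ?_) (hD.2.2.2 v (key v hv))
  intro w hw
  rw [Finset.mem_filter] at hw ⊢
  exact ⟨key w hw.2.2, hw.2.1⟩


/-! ### l -/

/-- TARGET modification of a packing along a good family -/
theorem modify {V : Type} [Fintype V] (G : SimpleGraph V) (k : ℕ) (V' D X : Finset V)
    (F : Finset (Finset V)) (hX : ∀ v, v ∉ V' → Dom G X v) (hD : Pack G k V' D)
    (hF : GoodFam G k V' D X F) :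
    ∃ S : Finset V, IsoIn G k univ S ∧ S.card + F.card ≤ X.card + D.card := by
  have h0 : ∀ P : Finset V, ∃ S : Finset V, P ∈ F → (S.card < P.card ∧
      IsoIn G k ((ub G V' P).filter (fun v => ¬ Dom G X v)) S) := by
    intro P
    by_cases hP : P ∈ F
    · obtain ⟨-, -, -, -, S, hS1, hS2⟩ := hF.1 P hP
      exact ⟨S, fun _ => ⟨hS1, hS2⟩⟩
    · exact ⟨∅, fun h => absurd h hP⟩
  choose SP hSP using h0
  obtain ⟨Z, hZ⟩ : ∃ Z, Z = F.biUnion id := ⟨_, rfl⟩
  have hZD : Z ⊆ D := by
    intro c hc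
    rw [hZ, Finset.mem_biUnion] at hc
    obtain ⟨P, hP, hcP⟩ := hc
    exact (hF.1 P hP).1 hcP
  have hZc : Z.card = ∑ P ∈ F, P.card := by
    rw [hZ]
    exact Finset.card_biUnion (fun P hP P' hP' hne => (hF.2 P hP P' hP' hne).1)
  obtain ⟨S, hS⟩ : ∃ S, S = X ∪ (D \ Z) ∪ F.biUnion SP := ⟨_, rfl⟩
  have hmono : ∀ A B : Finset V, A ⊆ B → ∀ v, Dom G A v → Dom G B v := by
    intro A B hAB v hv
    rcases hv with hv | ⟨s, hs, hsv⟩
    · exact Or.inl (hAB hv)
    · exact Or.inr ⟨s, hAB hs, hsv⟩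
  have hXS : X ⊆ S := by
    rw [hS]; exact (Finset.subset_union_left).trans Finset.subset_union_left
  have hDS : D \ Z ⊆ S := by
    rw [hS]; exact (Finset.subset_union_right).trans Finset.subset_union_left
  have hPS : ∀ P ∈ F, SP P ⊆ S := by
    intro P hP
    rw [hS]
    exact (Finset.subset_biUnion_of_mem SP hP).trans Finset.subset_union_right
  refine ⟨S, ?_, ?_⟩
  · have hclass : ∀ w, ¬ Dom G S w → w ∈ V' \ ub G V' D ∨ ∃ P ∈ F, w ∈ ub G V' P := by
      intro w hw
      have hwV : w ∈ V' := by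
        by_contra hc
        exact hw (hmono _ _ hXS w (hX w hc))
      by_cases hwD : w ∈ ub G V' D
      · right
        unfold ub at hwD
        rw [Finset.mem_biUnion] at hwD
        obtain ⟨c, hc, hwc⟩ := hwD
        by_cases hcZ : c ∈ Z
        · rw [hZ, Finset.mem_biUnion] at hcZ
          obtain ⟨P, hP, hcP⟩ := hcZ
          refine ⟨P, hP, ?_⟩
          unfold ub
          rw [Finset.mem_biUnion]
          exact ⟨c, hcP, hwc⟩
        · exfalso
          have hcS : c ∈ S := hDS (Finset.mem_sdiff.2 ⟨hc, hcZ⟩)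
          unfold blk at hwc
          rw [Finset.mem_filter] at hwc
          rcases hwc.2 with h | h
          · exact hw (Or.inl (h ▸ hcS))
          · exact hw (Or.inr ⟨c, hcS, h⟩)
      · left
        exact Finset.mem_sdiff.2 ⟨hwV, hwD⟩
    intro v _ hv
    rcases hclass v hv with hvL | ⟨P, hP, hvP⟩
    · refine lt_of_le_of_lt (Finset.card_le_card ?_) (hD.2.2.2 v hvL)
      intro w hw
      rw [Finset.mem_filter] at hw ⊢
      rcases hclass w hw.2.2 with hwL | ⟨P, hP, hwP⟩
      · exact ⟨hwL, hw.2.1⟩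
      · exact absurd hw.2.1.symm ((hF.1 P hP).2.2.2.1 w hwP v hvL)
    · have hvX : ¬ Dom G X v := fun h => hv (hmono _ _ hXS v h)
      have hvS : ¬ Dom G (SP P) v := fun h => hv (hmono _ _ (hPS P hP) v h)
      refine lt_of_le_of_lt (Finset.card_le_card ?_)
        ((hSP P hP).2 v (Finset.mem_filter.2 ⟨hvP, hvX⟩) hvS)
      intro w hw
      rw [Finset.mem_filter] at hw
      rw [Finset.mem_filter, Finset.mem_filter]
      have hwP : w ∈ ub G V' P := by
        rcases hclass w hw.2.2 with hwL | ⟨P', hP', hwP'⟩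
        · exact absurd hw.2.1 ((hF.1 P hP).2.2.2.1 v hvP w hwL)
        · by_cases hPP : P = P'
          · rw [hPP]; exact hwP'
          · exact absurd hw.2.1 ((hF.2 P hP P' hP' hPP).2 v hvP w hwP')
      exact ⟨⟨hwP, fun h => hw.2.2 (hmono _ _ hXS w h)⟩, hw.2.1,
        fun h => hw.2.2 (hmono _ _ (hPS P hP) w h)⟩
  · have h1 : S.card ≤ X.card + (D \ Z).card + (F.biUnion SP).card := by
      rw [hS]
      refine (Finset.card_union_le _ _).trans ?_
      have := Finset.card_union_le X (D \ Z)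
      omega
    have h2 : (F.biUnion SP).card ≤ ∑ P ∈ F, (SP P).card := Finset.card_biUnion_le
    have h3 : ∑ P ∈ F, ((SP P).card + 1) ≤ ∑ P ∈ F, P.card :=
      Finset.sum_le_sum (fun P hP => (hSP P hP).1)
    rw [Finset.sum_add_distrib, Finset.sum_const, smul_eq_mul, mul_one, ← hZc] at h3
    have h4 : (D \ Z).card + Z.card = D.card := Finset.card_sdiff_add_card_eq_card hZD
    omega


/-! ### m -/

/-- TARGET growth of neighbourhoods -/
theorem card_nx {V : Type} (G : SimpleGraph V) (k : ℕ) (V' X : Finset V)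
    (hd : ∀ v ∈ V', (V'.filter (fun w => G.Adj v w)).card ≤ k) (hX : X ⊆ V') :
    (nx G V' X).card ≤ (k + 1) * X.card := by
  have h1 : nx G V' X ⊆ X.biUnion (fun x => insert x (V'.filter (fun w => G.Adj x w))) := by
    intro y hy
    unfold nx at hy
    rw [Finset.mem_filter] at hy
    rw [Finset.mem_biUnion]
    rcases hy.2 with h | ⟨x, hx, hxy⟩
    · exact ⟨y, h, Finset.mem_insert_self _ _⟩
    · exact ⟨x, hx, Finset.mem_insert_of_mem (Finset.mem_filter.mpr ⟨hy.1, hxy⟩)⟩
  refine (Finset.card_le_card h1).trans ?_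
  rw [mul_comm]
  refine Finset.card_biUnion_le_card_mul _ _ _ fun x hx => ?_
  exact (Finset.card_insert_le _ _).trans (Nat.add_le_add_right (hd x (hX hx)) 1)


/-! ### n -/

theorem n_mem_blk {V : Type} (G : SimpleGraph V) (V' : Finset V) (c y : V) :
    y ∈ blk G V' c ↔ y ∈ V' ∧ (y = c ∨ G.Adj c y) := by
  simp [blk]

theorem n_mem_ub {V : Type} (G : SimpleGraph V) (V' P : Finset V) (y : V) :
    y ∈ ub G V' P ↔ ∃ d ∈ P, y ∈ blk G V' d := by
  simp [ub]

theorem n_ub_sub {V : Type} (G : SimpleGraph V) (V' P : Finset V) : ub G V' P ⊆ V' := by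
  intro y hy
  obtain ⟨d, _, h⟩ := (n_mem_ub G V' P y).1 hy
  exact ((n_mem_blk G V' d y).1 h).1

theorem n_mem_nx {V : Type} (G : SimpleGraph V) (V' X : Finset V) (y : V) :
    y ∈ nx G V' X ↔ y ∈ V' ∧ (y ∈ X ∨ ∃ x ∈ X, G.Adj x y) := by
  simp [nx]

theorem n_Q_sub {V : Type} (G : SimpleGraph V) (V' R : Finset V) (hR : R ⊆ V') (i : ℕ) :
    (nx G V')^[i] R ⊆ V' := by
  cases i with
  | zero => simpa using hR
  | succ i =>
    rw [Function.iterate_succ_apply']
    intro y hy
    exact ((n_mem_nx G V' _ y).1 hy).1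

theorem n_Q_mono {V : Type} (G : SimpleGraph V) (V' R : Finset V) (hR : R ⊆ V') (i : ℕ) :
    R ⊆ (nx G V')^[i] R := by
  induction i with
  | zero => simp
  | succ i ih =>
    rw [Function.iterate_succ_apply']
    intro y hy
    exact (n_mem_nx G V' _ y).2 ⟨hR hy, Or.inl (ih hy)⟩

theorem n_step {V : Type} (G : SimpleGraph V) (V' R : Finset V) (i : ℕ)
    (v w : V) (hv : v ∈ V') (h : v = w ∨ G.Adj w v) (hn : v ∉ (nx G V')^[i + 1] R) :
    w ∉ (nx G V')^[i] R := by
  intro hw
  apply hn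
  rw [Function.iterate_succ_apply']
  refine (n_mem_nx G V' _ v).2 ⟨hv, ?_⟩
  rcases h with h | h
  · left; rw [h]; exact hw
  · right; exact ⟨w, hw, h⟩

theorem n_finish {V : Type} [Fintype V] (G : SimpleGraph V) (k : ℕ) (V' D : Finset V)
    (F : Finset (Finset V)) (hD : Pack G k V' D) (hF : GoodFam G k V' D (univ \ V') F)
    (P : Finset V) (hPD : P ⊆ D) (hPn : P.Nonempty) (hP3 : P.card ≤ 3)
    (hfar : ∀ v ∈ ub G V' P,
      v ∉ (nx G V')^[1] ((V' \ ub G V' D) ∪ F.biUnion (ub G V')))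
    (hS : ∃ S : Finset V, S.card < P.card ∧
      IsoIn G k ((ub G V' P).filter (fun v => ¬ Dom G (univ \ V') v)) S) :
    P ∉ F ∧ GoodFam G k V' D (univ \ V') (insert P F) := by
  set R := (V' \ ub G V' D) ∪ F.biUnion (ub G V') with hR
  have h1 : ∀ v ∈ ub G V' P, v ∉ R ∧ ∀ x ∈ R, ¬ G.Adj x v := by
    intro v hv
    have h := hfar v hv
    rw [Function.iterate_one, n_mem_nx] at h
    have hvV := n_ub_sub G V' P hv
    push Not at h
    exact h hvV
  have hself : ∀ d ∈ D, d ∈ blk G V' d := fun d hd =>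
    (n_mem_blk G V' d d).2 ⟨hD.1 hd, Or.inl rfl⟩
  have hselfP : ∀ (A : Finset V), A ⊆ D → ∀ d ∈ A, d ∈ ub G V' A := fun A hA d hd =>
    (n_mem_ub G V' A d).2 ⟨d, hd, hself d (hA hd)⟩
  have hFR : ∀ A ∈ F, ub G V' A ⊆ R := by
    intro A hA y hy
    rw [hR, Finset.mem_union]
    right
    rw [Finset.mem_biUnion]
    exact ⟨A, hA, hy⟩
  have hgood : Good G k V' D (univ \ V') P := by
    refine ⟨hPD, hPn, hP3, ?_, hS⟩
    intro x hx y hy hadj
    exact (h1 x hx).2 y (by rw [hR, Finset.mem_union]; exact Or.inl hy) hadj.symm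
  have hdis : ∀ A ∈ F, Disjoint P A ∧ ∀ x ∈ ub G V' P, ∀ y ∈ ub G V' A, ¬ G.Adj x y := by
    intro A hA
    refine ⟨?_, ?_⟩
    · rw [Finset.disjoint_left]
      intro d hd hdA
      exact (h1 d (hselfP P hPD d hd)).1 (hFR A hA (hselfP A (hF.1 A hA).1 d hdA))
    · intro x hx y hy hadj
      exact (h1 x hx).2 y (hFR A hA hy) hadj.symm
  refine ⟨?_, ?_, ?_⟩
  · intro hPF
    obtain ⟨c0, hc0⟩ := hPn
    exact (h1 c0 (hselfP P hPD c0 hc0)).1 (hFR P hPF (hselfP P hPD c0 hc0))
  · intro A hA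
    rcases Finset.mem_insert.1 hA with rfl | hA
    · exact hgood
    · exact hF.1 A hA
  · intro A hA B hB hAB
    rcases Finset.mem_insert.1 hA with hA' | hA'
    · rcases Finset.mem_insert.1 hB with hB' | hB'
      · exact absurd (hA'.trans hB'.symm) hAB
      · rw [hA']; exact hdis B hB'
    · rcases Finset.mem_insert.1 hB with hB' | hB'
      · rw [hB']
        obtain ⟨h2, h3⟩ := hdis A hA'
        exact ⟨h2.symm, fun x hx y hy hadj => h3 y hy x hx hadj.symm⟩
      · exact hF.2 A hA' B hB' hAB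

theorem n_closed {V : Type} [Fintype V] (G : SimpleGraph V) (k : ℕ) (V' D : Finset V)
    (hn : 2 * (k + 1) < Fintype.card V) (hc : ConnIn G univ)
    (hD : Pack G k V' D) (P : Finset V) (hPD : P ⊆ D) (hPn : P.Nonempty) (hP2 : P.card ≤ 2)
    (hcl : ∀ x ∈ ub G V' P, ∀ y ∈ V', y ∉ ub G V' P → ¬ G.Adj x y) :
    ∃ S : Finset V, S.card < P.card ∧
      IsoIn G k ((ub G V' P).filter (fun v => ¬ Dom G (univ \ V') v)) S := by
  have hcard := card_ub G k V' D P hD hPD
  have hlt : (ub G V' P).card < Fintype.card V := by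
    rw [hcard]
    calc (k + 1) * P.card ≤ (k + 1) * 2 := Nat.mul_le_mul_left _ hP2
      _ = 2 * (k + 1) := by ring
      _ < _ := hn
  have hne : ub G V' P ≠ univ := by
    intro h
    rw [h, Finset.card_univ] at hlt
    exact lt_irrefl _ hlt
  obtain ⟨c0, hc0⟩ := hPn
  have hcu : c0 ∈ ub G V' P :=
    (n_mem_ub G V' P c0).2 ⟨c0, hc0, (n_mem_blk G V' c0 c0).2 ⟨hD.1 (hPD hc0), Or.inl rfl⟩⟩
  have hex : ∃ x ∈ ub G V' P, ∃ y, G.Adj x y ∧ y ∉ ub G V' P := by
    by_contra hcon
    push Not at hcon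
    exact hne (hc (ub G V' P) (Finset.subset_univ _) ⟨c0, hcu⟩
      (fun x hx y _ hadj => hcon x hx y hadj))
  obtain ⟨x, hx, y, hadj, hy⟩ := hex
  have hyV : y ∉ V' := fun h => hcl x hx y h hy hadj
  have hdom : Dom G (univ \ V') x :=
    Or.inr ⟨y, by simp [hyV], hadj.symm⟩
  set U := (ub G V' P).filter (fun v => ¬ Dom G (univ \ V') v) with hU
  have hUlt : U.card < (ub G V' P).card := by
    apply Finset.card_lt_card
    rw [Finset.ssubset_iff_of_subset (Finset.filter_subset _ _)]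
    exact ⟨x, hx, fun h => (Finset.mem_filter.1 h).2 hdom⟩
  obtain ⟨S, _, hS1, hS2⟩ := iso_greedy G k U
  refine ⟨S, ?_, hS2⟩
  rw [hcard] at hUlt
  have : (k + 1) * S.card < (k + 1) * P.card := lt_of_le_of_lt hS1 hUlt
  exact Nat.lt_of_mul_lt_mul_left this

theorem n_conn {V : Type} (G : SimpleGraph V) (V' : Finset V) (c c2 c3 : V)
    (hc : c ∈ V') (hc2 : c2 ∈ V') (hc3 : c3 ∈ V')
    (x y x2 z : V) (hx : x ∈ blk G V' c) (hy : y ∈ blk G V' c2) (hxy : G.Adj x y)
    (hx2 : x2 ∈ blk G V' c ∨ x2 ∈ blk G V' c2) (hz : z ∈ blk G V' c3) (hxz : G.Adj x2 z) :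
    ConnIn G (ub G V' {c, c2, c3}) := by
  intro T hT hTn hcl
  have hm : ∀ v, v ∈ ub G V' {c, c2, c3} ↔ v ∈ blk G V' c ∨ v ∈ blk G V' c2 ∨ v ∈ blk G V' c3 := by
    intro v
    rw [n_mem_ub]
    simp
  have hfull : ∀ d, d ∈ V' → blk G V' d ⊆ ub G V' {c, c2, c3} →
      (∃ t ∈ T, t ∈ blk G V' d) → blk G V' d ⊆ T := by
    rintro d hd hsub ⟨t, htT, htd⟩
    have hdd : d ∈ blk G V' d := (n_mem_blk G V' d d).2 ⟨hd, Or.inl rfl⟩
    have hdT : d ∈ T := by
      rcases ((n_mem_blk G V' d t).1 htd).2 with h | h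
      · rw [← h]; exact htT
      · exact hcl t htT d (hsub hdd) h.symm
    intro v hv
    rcases ((n_mem_blk G V' d v).1 hv).2 with h | h
    · rw [h]; exact hdT
    · exact hcl d hdT v (hsub hv) h
  have s1 : blk G V' c ⊆ ub G V' {c, c2, c3} := fun v hv => (hm v).2 (Or.inl hv)
  have s2 : blk G V' c2 ⊆ ub G V' {c, c2, c3} := fun v hv => (hm v).2 (Or.inr (Or.inl hv))
  have s3 : blk G V' c3 ⊆ ub G V' {c, c2, c3} := fun v hv => (hm v).2 (Or.inr (Or.inr hv))
  have e12 : blk G V' c ⊆ T → blk G V' c2 ⊆ T := fun h =>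
    hfull c2 hc2 s2 ⟨y, hcl x (h hx) y (s2 hy) hxy, hy⟩
  have e21 : blk G V' c2 ⊆ T → blk G V' c ⊆ T := fun h =>
    hfull c hc s1 ⟨x, hcl y (h hy) x (s1 hx) hxy.symm, hx⟩
  have e3 : blk G V' c ⊆ T → blk G V' c2 ⊆ T → blk G V' c3 ⊆ T := by
    intro h1 h2
    have hx2T : x2 ∈ T := by
      rcases hx2 with h | h
      · exact h1 h
      · exact h2 h
    exact hfull c3 hc3 s3 ⟨z, hcl x2 hx2T z (s3 hz) hxz, hz⟩
  have e31 : blk G V' c3 ⊆ T → blk G V' c ⊆ T := by
    intro h
    have hx2U : x2 ∈ ub G V' {c, c2, c3} := by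
      rcases hx2 with h | h
      · exact s1 h
      · exact s2 h
    have hx2T : x2 ∈ T := hcl z (h hz) x2 hx2U hxz.symm
    rcases hx2 with h' | h'
    · exact hfull c hc s1 ⟨x2, hx2T, h'⟩
    · exact e21 (hfull c2 hc2 s2 ⟨x2, hx2T, h'⟩)
  have hall : blk G V' c ⊆ T := by
    obtain ⟨t, ht⟩ := hTn
    rcases (hm t).1 (hT ht) with h | h | h
    · exact hfull c hc s1 ⟨t, ht, h⟩
    · exact e21 (hfull c2 hc2 s2 ⟨t, ht, h⟩)
    · exact e31 (hfull c3 hc3 s3 ⟨t, ht, h⟩)
  apply Finset.Subset.antisymm hT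
  intro v hv
  rcases (hm v).1 hv with h | h | h
  · exact hall h
  · exact e12 hall h
  · exact e3 hall (e12 hall) h

theorem extend_fam {V : Type} [Fintype V] (G : SimpleGraph V) (k : ℕ) (V' D : Finset V)
    (F : Finset (Finset V)) (hn : 2 * (k + 1) < Fintype.card V) (hc : ConnIn G univ)
    (hD : Pack G k V' D) (hF : GoodFam G k V' D (univ \ V') F)
    (c : V) (hcD : c ∈ D)
    (hfar : c ∉ (nx G V')^[8] ((V' \ ub G V' D) ∪ F.biUnion (ub G V'))) :
    ∃ P : Finset V, P ∉ F ∧ GoodFam G k V' D (univ \ V') (insert P F) := by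
  set R := (V' \ ub G V' D) ∪ F.biUnion (ub G V') with hR
  have hRV : R ⊆ V' := by
    rw [hR]
    apply Finset.union_subset Finset.sdiff_subset
    intro y hy
    obtain ⟨A, _, h⟩ := Finset.mem_biUnion.1 hy
    exact n_ub_sub G V' A h
  have hLR : ∀ y ∈ V', y ∉ ub G V' D → y ∈ R := by
    intro y hy hy2
    rw [hR, Finset.mem_union]
    left
    exact Finset.mem_sdiff.2 ⟨hy, hy2⟩
  have hcV : c ∈ V' := hD.1 hcD
  -- lower the index
  have hlow : ∀ i v, v ∈ V' → v ∉ (nx G V')^[i + 1] R → v ∉ (nx G V')^[i] R := fun i v hv h =>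
    n_step G V' R i v v hv (Or.inl rfl) h
  have hblk : ∀ i d, d ∈ V' → d ∉ (nx G V')^[i + 1] R →
      ∀ v ∈ blk G V' d, v ∉ (nx G V')^[i] R := by
    intro i d hd hdn v hv
    rcases ((n_mem_blk G V' d v).1 hv).2 with h | h
    · rw [h]; exact hlow i d hd hdn
    · exact n_step G V' R i d v hd (Or.inr h.symm) hdn
  have hctr : ∀ i d v, v ∈ blk G V' d → v ∉ (nx G V')^[i + 1] R → d ∉ (nx G V')^[i] R := by
    intro i d v hv hvn
    obtain ⟨hvV, h⟩ := (n_mem_blk G V' d v).1 hv
    exact n_step G V' R i v d hvV h hvn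
  have b7 := hblk 7 c hcV hfar
  have b6 : ∀ v ∈ blk G V' c, v ∉ (nx G V')^[6] R := fun v hv =>
    hlow 6 v ((n_mem_blk G V' c v).1 hv).1 (b7 v hv)
  have b5 : ∀ v ∈ blk G V' c, v ∉ (nx G V')^[5] R := fun v hv =>
    hlow 5 v ((n_mem_blk G V' c v).1 hv).1 (b6 v hv)
  have b4 : ∀ v ∈ blk G V' c, v ∉ (nx G V')^[4] R := fun v hv =>
    hlow 4 v ((n_mem_blk G V' c v).1 hv).1 (b5 v hv)
  have b3 : ∀ v ∈ blk G V' c, v ∉ (nx G V')^[3] R := fun v hv =>
    hlow 3 v ((n_mem_blk G V' c v).1 hv).1 (b4 v hv)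
  have b2 : ∀ v ∈ blk G V' c, v ∉ (nx G V')^[2] R := fun v hv =>
    hlow 2 v ((n_mem_blk G V' c v).1 hv).1 (b3 v hv)
  have b1 : ∀ v ∈ blk G V' c, v ∉ (nx G V')^[1] R := fun v hv =>
    hlow 1 v ((n_mem_blk G V' c v).1 hv).1 (b2 v hv)
  by_cases h1 : ∃ x ∈ blk G V' c, ∃ y ∈ V', y ∉ blk G V' c ∧ G.Adj x y
  swap
  · push Not at h1
    have hu : ub G V' {c} = blk G V' c := by simp [ub]
    refine ⟨{c}, n_finish G k V' D F hD hF {c} (by simpa using hcD) (by simp) (by simp) ?_ ?_⟩
    · rw [hu]; exact b1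
    · apply n_closed G k V' D hn hc hD {c} (by simpa using hcD) (by simp) (by simp)
      rw [hu]
      exact h1
  obtain ⟨x, hx, y, hyV, hyc, hxy⟩ := h1
  have hy6 : y ∉ (nx G V')^[6] R :=
    n_step G V' R 6 x y ((n_mem_blk G V' c x).1 hx).1 (Or.inr hxy.symm) (b7 x hx)
  have hyu : y ∈ ub G V' D := by
    by_contra h
    exact hy6 (n_Q_mono G V' R hRV 6 (hLR y hyV h))
  obtain ⟨c2, hc2D, hyc2⟩ := (n_mem_ub G V' D y).1 hyu
  have hc2c : c2 ≠ c := by
    rintro rfl
    exact hyc hyc2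
  have hc2V : c2 ∈ V' := hD.1 hc2D
  have hc25 : c2 ∉ (nx G V')^[5] R := hctr 5 c2 y hyc2 hy6
  have d4 := hblk 4 c2 hc2V hc25
  have d3 : ∀ v ∈ blk G V' c2, v ∉ (nx G V')^[3] R := fun v hv =>
    hlow 3 v ((n_mem_blk G V' c2 v).1 hv).1 (d4 v hv)
  have d2 : ∀ v ∈ blk G V' c2, v ∉ (nx G V')^[2] R := fun v hv =>
    hlow 2 v ((n_mem_blk G V' c2 v).1 hv).1 (d3 v hv)
  have d1 : ∀ v ∈ blk G V' c2, v ∉ (nx G V')^[1] R := fun v hv =>
    hlow 1 v ((n_mem_blk G V' c2 v).1 hv).1 (d2 v hv)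
  have hsub2 : ({c, c2} : Finset V) ⊆ D := by
    intro d hd
    simp only [Finset.mem_insert, Finset.mem_singleton] at hd
    rcases hd with rfl | rfl
    · exact hcD
    · exact hc2D
  have hm2 : ∀ v, v ∈ ub G V' {c, c2} ↔ v ∈ blk G V' c ∨ v ∈ blk G V' c2 := by
    intro v
    rw [n_mem_ub]
    simp
  by_cases h2 : ∃ x2, (x2 ∈ blk G V' c ∨ x2 ∈ blk G V' c2) ∧
      ∃ z ∈ V', z ∉ ub G V' {c, c2} ∧ G.Adj x2 z
  swap
  · push Not at h2
    refine ⟨{c, c2}, n_finish G k V' D F hD hF {c, c2} hsub2 (by simp)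
      ((Finset.card_le_two).trans (by norm_num)) ?_ ?_⟩
    · intro v hv
      rcases (hm2 v).1 hv with h | h
      · exact b1 v h
      · exact d1 v h
    · apply n_closed G k V' D hn hc hD {c, c2} hsub2 (by simp) Finset.card_le_two
      intro v hv
      exact h2 v ((hm2 v).1 hv)
  obtain ⟨x2, hx2, z, hzV, hzn, hxz⟩ := h2
  have hx2V : x2 ∈ V' := by
    rcases hx2 with h | h
    · exact ((n_mem_blk G V' c x2).1 h).1
    · exact ((n_mem_blk G V' c2 x2).1 h).1
  have hx24 : x2 ∉ (nx G V')^[4] R := by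
    rcases hx2 with h | h
    · exact b4 x2 h
    · exact d4 x2 h
  have hz3 : z ∉ (nx G V')^[3] R := n_step G V' R 3 x2 z hx2V (Or.inr hxz.symm) hx24
  have hzu : z ∈ ub G V' D := by
    by_contra h
    exact hz3 (n_Q_mono G V' R hRV 3 (hLR z hzV h))
  obtain ⟨c3, hc3D, hzc3⟩ := (n_mem_ub G V' D z).1 hzu
  have hc3V : c3 ∈ V' := hD.1 hc3D
  have hc3c : c3 ≠ c := by
    rintro rfl
    exact hzn ((hm2 z).2 (Or.inl hzc3))
  have hc3c2 : c3 ≠ c2 := by
    rintro rfl
    exact hzn ((hm2 z).2 (Or.inr hzc3))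
  have hc32 : c3 ∉ (nx G V')^[2] R := hctr 2 c3 z hzc3 hz3
  have e1 := hblk 1 c3 hc3V hc32
  have hsub3 : ({c, c2, c3} : Finset V) ⊆ D := by
    intro d hd
    simp only [Finset.mem_insert, Finset.mem_singleton] at hd
    rcases hd with rfl | rfl | rfl
    · exact hcD
    · exact hc2D
    · exact hc3D
  have hcard3 : ({c, c2, c3} : Finset V).card = 3 := by
    rw [Finset.card_eq_three]
    exact ⟨c, c2, c3, hc2c.symm, hc3c.symm, hc3c2.symm, rfl⟩
  refine ⟨{c, c2, c3}, n_finish G k V' D F hD hF {c, c2, c3} hsub3 (by simp) (by rw [hcard3]) ?_ ?_⟩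
  · intro v hv
    rw [n_mem_ub] at hv
    obtain ⟨d, hd, hvd⟩ := hv
    simp only [Finset.mem_insert, Finset.mem_singleton] at hd
    rcases hd with rfl | rfl | rfl
    · exact b1 v hvd
    · exact d1 v hvd
    · exact e1 v hvd
  · have hconn := n_conn G V' c c2 c3 hcV hc2V hc3V x y x2 z hx hyc2 hxy hx2 hzc3 hxz
    have hcu := card_ub G k V' D {c, c2, c3} hD hsub3
    rw [hcard3] at hcu
    obtain ⟨S, hS1, hS2⟩ := three_blocks_in G k (ub G V' {c, c2, c3}) (by rw [hcu]; ring) hconn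
    refine ⟨S, by rw [hcard3]; omega, ?_⟩
    exact iso_mono G k _ _ S (Finset.filter_subset _ _) hS2


/-! ### o -/

theorem o_ub_sub_21315 {V : Type} (G : SimpleGraph V) (V' P : Finset V) : ub G V' P ⊆ V' := by
  intro x hx
  unfold ub at hx
  obtain ⟨c, _, hc⟩ := mem_biUnion.1 hx
  exact (mem_filter.1 hc).1

theorem o_iter_21315 {V : Type} (G : SimpleGraph V) (k : ℕ) (V' R : Finset V)
    (hd : ∀ v ∈ V', (V'.filter (fun w => G.Adj v w)).card ≤ k) (hR : R ⊆ V') (m : ℕ) :
    (nx G V')^[m] R ⊆ V' ∧ ((nx G V')^[m] R).card ≤ (k + 1) ^ m * R.card := by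
  induction m with
  | zero => exact ⟨hR, by simp⟩
  | succ m ih =>
    rw [Function.iterate_succ_apply']
    refine ⟨filter_subset _ _, ?_⟩
    refine (card_nx G k V' _ hd ih.1).trans ?_
    rw [pow_succ, mul_comm ((k + 1) ^ m) (k + 1), mul_assoc]
    exact Nat.mul_le_mul_left _ ih.2

/-- TARGET a maximal good family is large -/
theorem fam_exists {V : Type} [Fintype V] (G : SimpleGraph V) (k : ℕ) (V' D : Finset V)
    (hn : 2 * (k + 1) < Fintype.card V) (hc : ConnIn G univ)
    (hd : ∀ v ∈ V', (V'.filter (fun w => G.Adj v w)).card ≤ k)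
    (hD : Pack G k V' D) :
    ∃ F : Finset (Finset V), GoodFam G k V' D (univ \ V') F ∧
      D.card ≤ (k + 1) ^ 8 * ((V' \ ub G V' D).card + 3 * (k + 1) * F.card) := by
  have h0 : GoodFam G k V' D (univ \ V') (∅ : Finset (Finset V)) :=
    ⟨fun P hP => absurd hP (notMem_empty _), fun P hP => absurd hP (notMem_empty _)⟩
  obtain ⟨F, hF, hmax⟩ := Finset.exists_max_image
    ((univ : Finset (Finset (Finset V))).filter (fun F => GoodFam G k V' D (univ \ V') F))
    (fun F => F.card) ⟨∅, mem_filter.2 ⟨mem_univ _, h0⟩⟩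
  have hFg : GoodFam G k V' D (univ \ V') F := (mem_filter.1 hF).2
  refine ⟨F, hFg, ?_⟩
  set R : Finset V := (V' \ ub G V' D) ∪ F.biUnion (ub G V') with hR
  have hRV : R ⊆ V' := by
    rw [hR]
    refine union_subset sdiff_subset ?_
    intro x hx
    obtain ⟨P, _, hP⟩ := mem_biUnion.1 hx
    exact o_ub_sub_21315 G V' P hP
  have hDsub : D ⊆ (nx G V')^[8] R := by
    intro c hcD
    by_contra hfar
    obtain ⟨P, hP, hPF⟩ := extend_fam G k V' D F hn hc hD hFg c hcD hfar
    have h1 := hmax (insert P F) (mem_filter.2 ⟨mem_univ _, hPF⟩)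
    rw [card_insert_of_notMem hP] at h1
    omega
  have hcard := (o_iter_21315 G k V' R hd hRV 8).2
  have hRc : R.card ≤ (V' \ ub G V' D).card + 3 * (k + 1) * F.card := by
    rw [hR]
    refine (card_union_le _ _).trans ?_
    refine Nat.add_le_add_left ?_ _
    refine (card_biUnion_le_card_mul F (ub G V') (3 * (k + 1)) fun P hP => ?_).trans ?_
    · have hg := hFg.1 P hP
      rw [card_ub G k V' D P hD hg.1, mul_comm]
      exact Nat.mul_le_mul_right _ hg.2.2.1
    · rw [mul_comm]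
  exact ((card_le_card hDsub).trans hcard).trans (Nat.mul_le_mul_left _ hRc)


/-! ### p -/

/-- TARGET arithmetic -/
theorem arith (k n t b l f w i₁ i₂ : ℕ) (hk : 1 ≤ k)
    (hw : (k + 2) * t ≤ w) (hn : n = w + (k + 1) * b + l) (hi₁ : i₁ ≤ t + b)
    (hi₂ : i₂ + f ≤ w + b) (hb : b ≤ (k + 1) ^ 8 * (l + 3 * (k + 1) * f)) :
    6 * (k + 1) ^ 12 * min i₁ i₂ ≤ (6 * (k + 1) ^ 11 - 1) * n := by
  obtain ⟨m, hm⟩ : ∃ m, m = min i₁ i₂ := ⟨_, rfl⟩
  have hm1 : m ≤ t + b := by omega
  have hm2 : m + f ≤ w + b := by omega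
  rw [← hm]
  have hpos : 1 ≤ 6 * (k + 1) ^ 11 := by
    have : 0 < (k + 1) ^ 11 := by positivity
    omega
  zify [hpos]
  zify at hk hw hn hm1 hm2 hb
  obtain ⟨s, hs⟩ : ∃ s : ℤ, s = (k : ℤ) + 1 := ⟨_, rfl⟩
  have hs2 : 2 ≤ s := by omega
  rw [← hs] at hb hn ⊢
  have hw' : (s + 1) * (t : ℤ) ≤ w := by rw [hs]; linarith
  clear hw hm hi₁ hi₂ hpos
  have ht0 : (0 : ℤ) ≤ t := by positivity
  have hb0 : (0 : ℤ) ≤ b := by positivity
  have hl0 : (0 : ℤ) ≤ l := by positivity
  have hf0 : (0 : ℤ) ≤ f := by positivity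
  have hw0 : (0 : ℤ) ≤ w := by positivity
  have hm0 : (0 : ℤ) ≤ m := by positivity
  generalize (t : ℤ) = t' at *
  generalize (b : ℤ) = b' at *
  generalize (l : ℤ) = l' at *
  generalize (f : ℤ) = f' at *
  generalize (w : ℤ) = w' at *
  generalize (m : ℤ) = m' at *
  generalize (n : ℤ) = n' at *
  have hs0 : 0 < s := by omega
  by_contra hcon
  push Not at hcon
  -- e = n - s m
  obtain ⟨e, he⟩ : ∃ e : ℤ, e = n' - s * m' := ⟨_, rfl⟩
  have hsm : s * m' ≤ s * t' + s * b' := by nlinarith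
  have h1 : t' + l' ≤ e := by nlinarith
  have h2 : w' ≤ (s + 1) * e := by nlinarith
  have hsb : s * b' ≤ n' := by nlinarith
  have h3 : s * f' ≤ s * w' + e := by nlinarith [mul_le_mul_of_nonneg_left hm2 hs0.le]
  have h4 : s * f' ≤ (s * (s + 1) + 1) * e := by nlinarith [mul_le_mul_of_nonneg_left h2 hs0.le]
  have hle : l' ≤ e := by linarith
  have he0 : 0 ≤ e := by linarith
  have h5 : l' + 3 * s * f' ≤ (3 * s ^ 2 + 3 * s + 4) * e := by nlinarith
  have h6 : b' ≤ s ^ 8 * ((3 * s ^ 2 + 3 * s + 4) * e) :=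
    hb.trans (mul_le_mul_of_nonneg_left h5 (by positivity))
  have h7 : n' ≤ e + s * t' + s * b' := by linarith
  have h8 : s * t' ≤ s * e := mul_le_mul_of_nonneg_left (by linarith) hs0.le
  have h9 : s * b' ≤ s * (s ^ 8 * ((3 * s ^ 2 + 3 * s + 4) * e)) :=
    mul_le_mul_of_nonneg_left h6 hs0.le
  have h10 : n' ≤ (3 * s ^ 11 + 3 * s ^ 10 + 4 * s ^ 9 + s + 1) * e := by
    have : s * (s ^ 8 * ((3 * s ^ 2 + 3 * s + 4) * e))
        = (3 * s ^ 11 + 3 * s ^ 10 + 4 * s ^ 9) * e := by ring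
    nlinarith
  have h11 : 6 * s ^ 11 * e < n' := by
    have : 6 * s ^ 12 * m' = 6 * s ^ 11 * (n' - e) := by rw [he]; ring
    rw [this] at hcon
    nlinarith
  have h12 : 3 * s ^ 11 + 3 * s ^ 10 + 4 * s ^ 9 + s + 1 ≤ 6 * s ^ 11 := by
    have ha : 2 * s ^ 10 ≤ s ^ 11 := by
      have : (0 : ℤ) ≤ s ^ 10 := by positivity
      nlinarith [mul_le_mul_of_nonneg_right hs2 this]
    have hb : 2 * s ^ 9 ≤ s ^ 10 := by
      have : (0 : ℤ) ≤ s ^ 9 := by positivity
      nlinarith [mul_le_mul_of_nonneg_right hs2 this]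
    have hc : s ≤ s ^ 9 := by
      calc s = s ^ 1 := (pow_one s).symm
        _ ≤ s ^ 9 := pow_le_pow_right₀ (by omega) (by norm_num)
    linarith
  have h13 := mul_le_mul_of_nonneg_right h12 he0
  linarith


/-! ### q -/

theorem q_conn {V : Type} [Fintype V] (G : SimpleGraph V) (hc : G.Connected) :
    ConnIn G univ := by
  intro T _ hT hcl
  obtain ⟨x, hx⟩ := hT
  rw [Finset.eq_univ_iff_forall]
  intro y
  obtain ⟨w⟩ := hc.preconnected x y
  induction w with
  | nil => exact hx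
  | cons h _ ih => exact ih (hcl _ hx _ (Finset.mem_univ _) h)

/-- TARGET the main bound -/
theorem main_bound {V : Type} [Fintype V] (G : SimpleGraph V) (k : ℕ) (hk : 1 ≤ k)
    (hn : 2 * (k + 1) < Fintype.card V) (hc : G.Connected) :
    ∃ S : Finset V, IsoIn G k univ S ∧
      6 * (k + 1) ^ 12 * S.card ≤ (6 * (k + 1) ^ 11 - 1) * Fintype.card V := by
  obtain ⟨H, hH1, hH2⟩ := heavy G k
  set V' : Finset V := univ.filter (fun v => ¬ Dom G H v) with hV'
  have hmem : ∀ v, v ∈ V' ↔ ¬ Dom G H v := fun v => by rw [hV', Finset.mem_filter]; simp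
  have hd : ∀ v ∈ V', (V'.filter (fun w => G.Adj v w)).card ≤ k := by
    intro v hv
    refine le_trans (Finset.card_le_card ?_) (hH2 v ((hmem v).1 hv))
    intro w hw
    rw [Finset.mem_filter] at hw ⊢
    exact ⟨Finset.mem_univ _, hw.2, (hmem w).1 hw.1⟩
  obtain ⟨D, hD⟩ := pack_exists G k V' hd
  have hnd : ∀ v, v ∉ V' → Dom G H v := fun v hv => by
    by_contra h
    exact hv ((hmem v).2 h)
  have h1 := pack_iso G k V' D H hnd hD
  obtain ⟨F, hF, hb⟩ := fam_exists G k V' D hn (q_conn G hc) hd hD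
  obtain ⟨S2, hS2, hc2⟩ := modify G k V' D (univ \ V') F (fun v hv =>
    Or.inl (Finset.mem_sdiff.2 ⟨Finset.mem_univ _, hv⟩)) hD hF
  have hub : ub G V' D ⊆ V' := by
    intro y hy
    unfold ub at hy
    rw [Finset.mem_biUnion] at hy
    obtain ⟨c, -, hyc⟩ := hy
    exact (Finset.mem_filter.1 hyc).1
  have e1 : (univ \ V').card + V'.card = Fintype.card V := by
    rw [Finset.card_sdiff_add_card_eq_card (Finset.subset_univ _), Finset.card_univ]
  have e2 : (V' \ ub G V' D).card + (ub G V' D).card = V'.card :=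
    Finset.card_sdiff_add_card_eq_card hub
  have e3 := card_ub G k V' D D hD (Finset.Subset.refl _)
  have hw : (k + 2) * H.card ≤ (univ \ V').card := by
    refine hH1.trans (Finset.card_le_card ?_)
    intro v hv
    rw [Finset.mem_filter] at hv
    rw [Finset.mem_sdiff, hmem]
    exact ⟨Finset.mem_univ _, fun h => h hv.2⟩
  have hfin := arith k (Fintype.card V) H.card D.card (V' \ ub G V' D).card F.card
    (univ \ V').card (H ∪ D).card S2.card hk hw (by omega) (Finset.card_union_le _ _) hc2 hb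
  rcases le_total (H ∪ D).card S2.card with h | h
  · rw [min_eq_left h] at hfin
    exact ⟨H ∪ D, h1, hfin⟩
  · rw [min_eq_right h] at hfin
    exact ⟨S2, hS2, hfin⟩


/-! ### r -/

/-- the set `S` of vertices isolates: after deleting the closed neighbourhood of `S` no `k`-star is left -/
def Isolating {n : ℕ} (G : SimpleGraph (Fin n)) (k : ℕ) (S : Finset (Fin n)) : Prop :=
  ∀ v : Fin n, (v ∉ S ∧ ∀ s ∈ S, ¬ G.Adj s v) →
    {w : Fin n | G.Adj v w ∧ w ∉ S ∧ ∀ s ∈ S, ¬ G.Adj s w}.ncard < k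

/-- the `k`-star isolation number -/
noncomputable def iota {n : ℕ} (G : SimpleGraph (Fin n)) (k : ℕ) : ℕ :=
  sInf {m : ℕ | ∃ S : Finset (Fin n), S.card = m ∧ Isolating G k S}

/-- `α` is a threshold for the `k`-star -/
def IsThreshold (k : ℕ) (α : ℝ) : Prop :=
  0 < α ∧
  {p : Σ n : ℕ, SimpleGraph (Fin n) | p.2.Connected ∧ ⌊α * (p.1 : ℝ)⌋₊ < iota p.2 k}.Finite ∧
  {p : Σ n : ℕ, SimpleGraph (Fin n) | p.2.Connected ∧ iota p.2 k = ⌊α * (p.1 : ℝ)⌋₊}.Infinite


theorem r_iso {n : ℕ} (G : SimpleGraph (Fin n)) (k : ℕ) (S : Finset (Fin n))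
    (h : IsoIn G k univ S) : Isolating G k S := by
  intro v hv
  have hD : ∀ w, ¬ Dom G S w ↔ (w ∉ S ∧ ∀ s ∈ S, ¬ G.Adj s w) := by
    intro w
    unfold Dom
    push Not
    rfl
  have h1 := h v (mem_univ v) ((hD v).2 hv)
  have h2 : {w : Fin n | G.Adj v w ∧ w ∉ S ∧ ∀ s ∈ S, ¬ G.Adj s w} =
      ((univ.filter (fun w => G.Adj v w ∧ ¬ Dom G S w) : Finset (Fin n)) : Set (Fin n)) := by
    ext w
    simp only [Set.mem_setOf_eq, coe_filter, mem_univ, true_and]
    rw [hD w]
  rw [h2, Set.ncard_coe_finset]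
  exact h1

/-- TARGET bound for the isolation number -/
theorem iota_bound (k n : ℕ) (hk : 1 ≤ k) (hn : 2 * k + 3 ≤ n) (G : SimpleGraph (Fin n))
    (hG : G.Connected) :
    (iota G k : ℝ) ≤ (1 - 1 / (6 * ((k : ℝ) + 1) ^ 11)) * ((n : ℝ) / ((k : ℝ) + 1)) := by
  obtain ⟨S, hS, hb⟩ := main_bound G k hk (by rw [Fintype.card_fin]; omega) hG
  rw [Fintype.card_fin] at hb
  have hi : iota G k ≤ S.card := Nat.sInf_le ⟨S, rfl, r_iso G k S hS⟩
  have hb2 : (6 * ((k : ℝ) + 1) ^ 12) * (S.card : ℝ) ≤ (6 * ((k : ℝ) + 1) ^ 11 - 1) * (n : ℝ) := by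
    have h1 : 1 ≤ 6 * (k + 1) ^ 11 := by
      have := Nat.one_le_pow 11 (k + 1) (by omega)
      omega
    have h2 : ((6 * (k + 1) ^ 12 * S.card : ℕ) : ℝ) ≤ (((6 * (k + 1) ^ 11 - 1) * n : ℕ) : ℝ) := by
      exact_mod_cast hb
    rw [Nat.cast_mul, Nat.cast_mul (6 * (k + 1) ^ 11 - 1), Nat.cast_sub h1] at h2
    push_cast at h2
    exact h2
  have hk1 : (0 : ℝ) < (k : ℝ) + 1 := by positivity
  have h3 : (iota G k : ℝ) ≤ (S.card : ℝ) := by exact_mod_cast hi
  refine h3.trans ?_
  have h4 : (1 - 1 / (6 * ((k : ℝ) + 1) ^ 11)) * ((n : ℝ) / ((k : ℝ) + 1)) =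
      ((6 * ((k : ℝ) + 1) ^ 11 - 1) * (n : ℝ)) / (6 * ((k : ℝ) + 1) ^ 12) := by
    field_simp
  rw [h4, le_div_iff₀ (by positivity)]
  linarith


/-! ### s -/




/-- TARGET consequence for thresholds -/
theorem threshold_bound (k : ℕ) (hk : 1 ≤ k) (α : ℝ) (h : IsThreshold k α) :
    α ≤ (1 - 1 / (6 * ((k : ℝ) + 1) ^ 11)) / ((k : ℝ) + 1) := by
  classical
  obtain ⟨hα, _, hinf⟩ := h
  by_contra hcon
  push Not at hcon
  set β : ℝ := (1 - 1 / (6 * ((k : ℝ) + 1) ^ 11)) / ((k : ℝ) + 1) with hβ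
  obtain ⟨M, hM⟩ := exists_nat_gt (1 / (α - β))
  have hd : 0 < α - β := by linarith
  set N : ℕ := max M (2 * k + 3) with hN
  apply hinf
  have hfin : (⋃ n ∈ {n : ℕ | n < N}, Set.range (fun G : SimpleGraph (Fin n) =>
      (⟨n, G⟩ : Σ n : ℕ, SimpleGraph (Fin n)))).Finite := by
    apply Set.Finite.biUnion (Set.finite_lt_nat N)
    intro n _
    exact Set.finite_range _
  apply hfin.subset
  rintro ⟨n, G⟩ ⟨hc, hi⟩
  simp only at hc hi
  by_cases hn : n < N
  · rw [Set.mem_iUnion₂]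
    exact ⟨n, hn, ⟨G, rfl⟩⟩
  · exfalso
    push Not at hn
    have h1 : 2 * k + 3 ≤ n := le_trans (le_max_right _ _) hn
    have h2 : M ≤ n := le_trans (le_max_left _ _) hn
    have hb := iota_bound k n hk h1 G hc
    have hb' : (iota G k : ℝ) ≤ β * n := by
      calc (iota G k : ℝ) ≤ (1 - 1 / (6 * ((k : ℝ) + 1) ^ 11)) * ((n : ℝ) / ((k : ℝ) + 1)) := hb
        _ = β * n := by rw [hβ]; ring
    have h3 : (1 : ℝ) < (α - β) * n := by
      have hMn : (M : ℝ) ≤ n := by exact_mod_cast h2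
      have h4 : 1 / (α - β) < n := lt_of_lt_of_le hM hMn
      rw [div_lt_iff₀ hd] at h4
      linarith [mul_comm (α - β) (n : ℝ)]
    have h5 := Nat.lt_floor_add_one (α * (n : ℝ))
    rw [hi] at hb'
    nlinarith

end Pool.Agent.Helper597.KStar
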