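import Mathlib

set_option autoImplicit false

open ZeroAtInfty

namespace Pool.Agent.Helper597.PNI

/-- `sup_{‖x‖ ≤ 1} ‖P x‖` for the homogeneous polynomial `P x = A (x, …, x)`. -/
noncomputable def polyNorm {X Y : Type*} [NormedAddCommGroup X] [NormedSpace ℂ X]
    [NormedAddCommGroup Y] [NormedSpace ℂ Y] {k : ℕ}
    (A : ContinuousMultilinearMap ℂ (fun _ : Fin k => X) Y) : ℝ :=
  sSup {r : ℝ | ∃ x : X, ‖x‖ ≤ 1 ∧ r = ‖A fun _ => x‖}

/-- The numerical radius of the homogeneous polynomial `P x = A (x, …, x)`: the supremum of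
`|f (P x)|` over all pairs `(x, f)` of norm one vectors and functionals with `f x = 1`. -/
noncomputable def numRadius {X : Type*} [NormedAddCommGroup X] [NormedSpace ℂ X] {k : ℕ}
    (A : ContinuousMultilinearMap ℂ (fun _ : Fin k => X) X) : ℝ :=
  sSup {r : ℝ | ∃ (x : X) (f : X →L[ℂ] ℂ), ‖x‖ = 1 ∧ ‖f‖ = 1 ∧ f x = 1 ∧ r = ‖f (A fun _ => x)‖}

/-- The `k`-th polynomial numerical index of `X`. -/
noncomputable def polyIndex (X : Type*) [NormedAddCommGroup X] [NormedSpace ℂ X] (k : ℕ) : ℝ :=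
  sInf {r : ℝ | ∃ A : ContinuousMultilinearMap ℂ (fun _ : Fin k => X) X,
    polyNorm A = 1 ∧ r = numRadius A}

/-- The line spanned by the functional `a` is an `L`-summand of the dual space (equivalently the
kernel of `a` is an `M`-ideal of `X`). -/
def IsLSummand {X : Type*} [NormedAddCommGroup X] [NormedSpace ℂ X] (a : X →L[ℂ] ℂ) : Prop :=
  ∃ τ : (X →L[ℂ] ℂ) →ₗ[ℂ] ℂ, τ a = 1 ∧ ∀ f : X →L[ℂ] ℂ, ‖f‖ = ‖f - τ f • a‖ + ‖τ f‖

/-- `X` contains an isomorphic copy of `c_0`. -/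
def ContainsC0 (X : Type*) [NormedAddCommGroup X] [NormedSpace ℂ X] : Prop :=
  ∃ (T : C₀(ℕ, ℂ) →L[ℂ] X) (c : ℝ), 0 < c ∧ ∀ u, c * ‖u‖ ≤ ‖T u‖

end Pool.Agent.Helper597.PNI
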