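import Mathlib
import Pool.Agent.Helper597.PNIDefs

set_option autoImplicit false

open Filter Topology ZeroAtInfty

namespace Pool.Agent.Helper597.PNI

/-- `a` is good: every homogeneous polynomial of degree at least two almost attains its norm near
the set where `|a| = 1`. -/
def Good {X : Type*} [NormedAddCommGroup X] [NormedSpace ℂ X] (a : X →L[ℂ] ℂ) : Prop :=
  ∀ k : ℕ, 2 ≤ k → ∀ A : ContinuousMultilinearMap ℂ (fun _ : Fin k => X) ℂ, ∀ x : X, ‖x‖ ≤ 1 →
    ∀ ε : ℝ, 0 < ε → ∃ y : X, ‖y‖ ≤ 1 ∧ 1 - ε < ‖a y‖ ∧ ‖A fun _ => x‖ - ε < ‖A fun _ => y‖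

/-- `q` is a continuous `k`-homogeneous scalar polynomial. -/
def Hom {X : Type*} [NormedAddCommGroup X] [NormedSpace ℂ X] (k : ℕ) (q : X → ℂ) : Prop :=
  ∃ A : ContinuousMultilinearMap ℂ (fun _ : Fin k => X) ℂ, ∀ x, q x = A fun _ => x

/-- `φ` is an almost affine disc direction for `a` on `E`. -/
def Disc {X : Type*} [NormedAddCommGroup X] [NormedSpace ℂ X] (a : X →L[ℂ] ℂ)
    (E : Submodule ℂ X) (ε : ℝ) (φ : X) : Prop :=
  a φ = 1 ∧ ∀ x ∈ E, ‖x‖ ≤ 1 → ∀ t : ℂ, ‖t‖ ≤ 1 → ‖x + (t - a x) • φ‖ ≤ 1 + ε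



/-! ### smulyan -/
theorem smulyan_deriv {X : Type*} [NormedAddCommGroup X] [NormedSpace ℂ X] (x : X)
    (hd : DifferentiableAt ℝ (fun y : X => ‖y‖) x) (η : ℝ) (hη : 0 < η) :
    ∃ (L : X →L[ℝ] ℝ) (r : ℝ), 0 < r ∧ ∀ h : X, ‖h‖ = r → ‖x + h‖ ≤ ‖x‖ + L h + η * r := by
  have h1 := hasFDerivAt_iff_isLittleO_nhds_zero.1 hd.hasFDerivAt
  have h2 := h1.def hη
  obtain ⟨s, hs, hball⟩ := Metric.eventually_nhds_iff.1 h2
  refine ⟨fderiv ℝ (fun y : X => ‖y‖) x, s / 2, by positivity, fun h hh => ?_⟩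
  have h3 := @hball h (by rw [dist_zero_right, hh]; linarith)
  have h4 := (abs_le.1 (by simpa [Real.norm_eq_abs] using h3)).2
  rw [hh] at h4
  linarith

theorem smulyan_one {X : Type*} [NormedAddCommGroup X] [NormedSpace ℂ X] (x : X) (hx : ‖x‖ = 1)
    (L : X →L[ℝ] ℝ) (r η : ℝ)
    (hL : ∀ h : X, ‖h‖ = r → ‖x + h‖ ≤ ‖x‖ + L h + η * r) (f : X →L[ℂ] ℂ) (hf : ‖f‖ ≤ 1)
    (hfx : 1 - η * r < (f x).re) (h : X) (hh : ‖h‖ = r) : |(f h).re - L h| ≤ 2 * (η * r) := by
  have key : ∀ k : X, ‖k‖ = r → (f k).re - L k ≤ 2 * (η * r) := by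
    intro k hk
    have h1 := hL k hk
    have h2 : (f (x + k)).re ≤ ‖x + k‖ := by
      calc (f (x + k)).re ≤ ‖f (x + k)‖ := Complex.re_le_norm _
        _ ≤ ‖f‖ * ‖x + k‖ := f.le_opNorm _
        _ ≤ 1 * ‖x + k‖ := by gcongr
        _ = ‖x + k‖ := one_mul _
    rw [map_add, Complex.add_re] at h2
    rw [hx] at h1
    linarith
  have h3 := key h hh
  have h4 := key (-h) (by rw [norm_neg, hh])
  rw [map_neg, map_neg, Complex.neg_re] at h4
  rw [abs_le]
  constructor <;> linarith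

theorem smulyan_bound {X : Type*} [NormedAddCommGroup X] [NormedSpace ℂ X] (g : X →L[ℂ] ℂ)
    (r c : ℝ) (hr : 0 < r) (hc : 0 ≤ c) (hg : ∀ h : X, ‖h‖ = r → (g h).re ≤ c * r) : ‖g‖ ≤ c := by
  have key : ∀ h : X, ‖h‖ = r → ‖g h‖ ≤ c * r := by
    intro h hh
    by_cases hz : g h = 0
    · rw [hz, norm_zero]; positivity
    · have hz' : 0 < ‖g h‖ := norm_pos_iff.2 hz
      have h1 := hg (((starRingEnd ℂ) (g h) / (‖g h‖ : ℂ)) • h) (by
        rw [norm_smul, norm_div, RCLike.norm_conj, Complex.norm_real, norm_norm,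
          div_self hz'.ne', one_mul, hh])
      rw [map_smul, smul_eq_mul] at h1
      have h2 : (starRingEnd ℂ) (g h) / (‖g h‖ : ℂ) * g h = (‖g h‖ : ℂ) := by
        rw [div_mul_eq_mul_div, mul_comm, Complex.mul_conj, Complex.normSq_eq_norm_sq]
        have h3 : ((‖g h‖ : ℝ) : ℂ) ≠ 0 := by exact_mod_cast hz'.ne'
        rw [div_eq_iff h3]
        push_cast
        ring
      rw [h2, Complex.ofReal_re] at h1
      exact h1
  refine g.opNorm_le_bound hc fun h => ?_
  by_cases h0 : h = 0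
  · rw [h0, map_zero, norm_zero, norm_zero, mul_zero]
  · have hn : 0 < ‖h‖ := norm_pos_iff.2 h0
    have h1 := key (((r / ‖h‖ : ℝ) : ℂ) • h) (by
      rw [norm_smul, Complex.norm_real, Real.norm_eq_abs, abs_of_pos (by positivity)]
      field_simp)
    rw [map_smul, norm_smul, Complex.norm_real, Real.norm_eq_abs,
      abs_of_pos (by positivity : (0 : ℝ) < r / ‖h‖)] at h1
    rw [div_mul_eq_mul_div, div_le_iff₀ hn] at h1
    have h2 : r * ‖g h‖ ≤ r * (c * ‖h‖) := by linarith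
    exact le_of_mul_le_mul_left h2 hr

/-- TARGET. Šmulyan: a point of Fréchet differentiability of the norm strongly exposes its norming
functional. -/
theorem smulyan {X : Type*} [NormedAddCommGroup X] [NormedSpace ℂ X] (x : X) (hx : ‖x‖ = 1)
    (hd : DifferentiableAt ℝ (fun y : X => ‖y‖) x) (a : X →L[ℂ] ℂ) (ha : ‖a‖ ≤ 1)
    (hax : a x = 1) (ε : ℝ) (hε : 0 < ε) :
    ∃ δ : ℝ, 0 < δ ∧ ∀ f : X →L[ℂ] ℂ, ‖f‖ ≤ 1 → 1 - δ < (f x).re → ‖f - a‖ ≤ ε := by
  obtain ⟨L, r, hr, hL⟩ := smulyan_deriv x hd (ε / 4) (by positivity)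
  have hpos : 0 < ε / 4 * r := by positivity
  refine ⟨ε / 4 * r, hpos, fun f hf hfx => ?_⟩
  refine smulyan_bound (f - a) r ε hr hε.le fun h hh => ?_
  have h1 := smulyan_one x hx L r (ε / 4) hL f hf hfx h hh
  have h2 := smulyan_one x hx L r (ε / 4) hL a ha (by rw [hax, Complex.one_re]; linarith) h hh
  rw [abs_le] at h1 h2
  rw [ContinuousLinearMap.sub_apply, Complex.sub_re]
  linarith [h1.1, h1.2, h2.1, h2.2]


/-! ### good_of_frechet -/
theorem good_of_frechet_bdd {X : Type*} [NormedAddCommGroup X] [NormedSpace ℂ X] {k : ℕ}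
    (A : ContinuousMultilinearMap ℂ (fun _ : Fin k => X) ℂ) :
    BddAbove {r : ℝ | ∃ x : X, ‖x‖ ≤ 1 ∧ r = ‖A fun _ => x‖} := by
  refine ⟨‖A‖, ?_⟩
  rintro r ⟨x, hx, rfl⟩
  refine (A.le_opNorm _).trans ?_
  have h1 : (∏ _i : Fin k, ‖x‖) ≤ 1 := by
    rw [Finset.prod_const]
    exact pow_le_one₀ (norm_nonneg _) hx
  calc ‖A‖ * ∏ _i : Fin k, ‖x‖ ≤ ‖A‖ * 1 := mul_le_mul_of_nonneg_left h1 (norm_nonneg _)
    _ = ‖A‖ := mul_one _

/-- TARGET. If all polynomial numerical indices are one, the derivatives of the norm are good. -/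
theorem good_of_frechet {X : Type*} [NormedAddCommGroup X] [NormedSpace ℂ X]
    (hC : ∀ k, 2 ≤ k → polyIndex X k = 1) (x : X) (hx : ‖x‖ = 1)
    (hd : DifferentiableAt ℝ (fun y : X => ‖y‖) x) (a : X →L[ℂ] ℂ) (ha : ‖a‖ = 1)
    (hax : a x = 1) : Good a := by
  intro k hk A x₀ hx₀ ε hε
  have hbdd := good_of_frechet_bdd A
  set N : ℝ := polyNorm A with hN
  have hle : ∀ z : X, ‖z‖ ≤ 1 → ‖A fun _ => z‖ ≤ N := fun z hz =>
    le_csSup hbdd ⟨z, hz, rfl⟩
  have hN0 : 0 ≤ N := (norm_nonneg _).trans (hle x hx.le)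
  rcases hN0.eq_or_lt with h0 | hpos
  · refine ⟨x, hx.le, ?_, ?_⟩
    · rw [hax, norm_one]; linarith
    · have := hle x₀ hx₀
      have h2 := norm_nonneg (A fun _ => x)
      linarith
  · -- the vector-valued polynomial
    let L : ℂ →L[ℂ] X := (ContinuousLinearMap.toSpanSingleton ℂ (((N : ℂ)⁻¹) • x))
    let A' : ContinuousMultilinearMap ℂ (fun _ : Fin k => X) X := L.compContinuousMultilinearMap A
    have hA' : ∀ v, A' v = (A v * (N : ℂ)⁻¹) • x := by
      intro v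
      show L (A v) = _
      rw [ContinuousLinearMap.toSpanSingleton_apply, smul_smul]
    have hnorm : ∀ v, ‖A' v‖ = ‖A v‖ / N := by
      intro v
      rw [hA', norm_smul, hx, mul_one, norm_mul, norm_inv, Complex.norm_real, Real.norm_of_nonneg hN0,
        div_eq_mul_inv]
    have hp1 : polyNorm A' = 1 := by
      unfold polyNorm
      apply le_antisymm
      · refine csSup_le (Set.nonempty_of_mem (x := ‖A' fun _ => x‖) ⟨x, hx.le, rfl⟩) ?_
        rintro r ⟨z, hz, rfl⟩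
        rw [hnorm, div_le_one hpos]
        exact hle z hz
      · apply le_of_forall_lt
        intro c hc
        have hcN : c * N < N := by nlinarith
        have : c * N < sSup {r : ℝ | ∃ x : X, ‖x‖ ≤ 1 ∧ r = ‖A fun _ => x‖} := hcN
        have hne0 : {r : ℝ | ∃ x : X, ‖x‖ ≤ 1 ∧ r = ‖A fun _ => x‖}.Nonempty :=
          ⟨‖A fun _ => x‖, x, hx.le, rfl⟩
        obtain ⟨r, ⟨z, hz, rfl⟩, hr⟩ := exists_lt_of_lt_csSup hne0 this
        refine lt_of_lt_of_le ((lt_div_iff₀ hpos).mpr hr) ?_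
        refine le_csSup ?_ ⟨z, hz, (hnorm _).symm⟩
        refine ⟨1, ?_⟩
        rintro r ⟨z, hz, rfl⟩
        rw [hnorm, div_le_one hpos]
        exact hle z hz
    have hnr : 1 ≤ numRadius A' := by
      rw [← hC k hk]
      refine csInf_le ?_ ⟨A', hp1, rfl⟩
      refine ⟨0, ?_⟩
      rintro r ⟨B, -, rfl⟩
      apply Real.sSup_nonneg
      rintro r ⟨_, _, _, _, _, rfl⟩
      exact norm_nonneg _
    obtain ⟨δ, hδ, hsm⟩ := smulyan x hx hd a ha.le hax (ε / 2) (half_pos hε)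
    set d : ℝ := min δ (min (1 / 2) (ε / N)) with hdd
    have hd0 : 0 < d := lt_min hδ (lt_min (by norm_num) (div_pos hε hpos))
    have hd1 : d ≤ δ := min_le_left _ _
    have hd2 : d ≤ 1 / 2 := (min_le_right _ _).trans (min_le_left _ _)
    have hd3 : d ≤ ε / N := (min_le_right _ _).trans (min_le_right _ _)
    have hd4 : d * N ≤ ε := (le_div_iff₀ hpos).mp hd3
    have hlt : 1 - d < numRadius A' := by linarith
    have hne : {r : ℝ | ∃ (x : X) (f : X →L[ℂ] ℂ), ‖x‖ = 1 ∧ ‖f‖ = 1 ∧ f x = 1 ∧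
        r = ‖f (A' fun _ => x)‖}.Nonempty := by
      by_contra hcon
      rw [Set.not_nonempty_iff_eq_empty] at hcon
      have : numRadius A' = 0 := by
        unfold numRadius
        rw [hcon, Real.sSup_empty]
      linarith
    obtain ⟨r, ⟨y, f, hy, hf, hfy, rfl⟩, hr⟩ := exists_lt_of_lt_csSup hne hlt
    have hfx : ‖f x‖ ≤ 1 := by
      have := f.le_opNorm x
      rw [hf, hx, mul_one] at this
      exact this
    have hval : ‖f (A' fun _ => y)‖ = (‖A fun _ => y‖ / N) * ‖f x‖ := by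
      rw [hA', map_smul, smul_eq_mul, norm_mul, norm_mul, norm_inv, Complex.norm_real,
        Real.norm_of_nonneg hN0, div_eq_mul_inv]
    rw [hval] at hr
    have hq1 : ‖A fun _ => y‖ / N ≤ 1 := (div_le_one hpos).mpr (hle y hy.le)
    have hq0 : 0 ≤ ‖A fun _ => y‖ / N := div_nonneg (norm_nonneg _) hN0
    have hf0 : 0 ≤ ‖f x‖ := norm_nonneg _
    have e1 : 1 - d < ‖f x‖ := by nlinarith
    have e2 : 1 - d < ‖A fun _ => y‖ / N := by nlinarith
    have e3 : (1 - d) * N < ‖A fun _ => y‖ := (lt_div_iff₀ hpos).mp e2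
    have hfx0 : 0 < ‖f x‖ := by linarith
    have hfxne : f x ≠ 0 := norm_pos_iff.mp hfx0
    -- the phase
    set θ : ℂ := (‖f x‖ : ℂ) / f x with hθ
    have hθ1 : ‖θ‖ = 1 := by
      rw [hθ, norm_div, Complex.norm_real, norm_norm, div_self hfx0.ne']
    have hθf : (θ • f) x = (‖f x‖ : ℂ) := by
      rw [smul_apply, smul_eq_mul, hθ, div_mul_cancel₀ _ hfxne]
    have hnf : ‖θ • f‖ ≤ 1 := by rw [norm_smul, hθ1, hf, mul_one]
    have hclose : ‖θ • f - a‖ ≤ ε / 2 := by
      apply hsm _ hnf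
      rw [hθf, Complex.ofReal_re]
      linarith
    refine ⟨y, hy.le, ?_, ?_⟩
    · have h1 : ‖(θ • f - a) y‖ ≤ ε / 2 := by
        have := (θ • f - a).le_opNorm y
        rw [hy, mul_one] at this
        exact this.trans hclose
      have h2 : ‖(θ • f) y‖ = 1 := by
        rw [smul_apply, hfy, norm_smul, hθ1, norm_one, mul_one]
      have h3 : ‖(θ • f) y‖ ≤ ‖(θ • f - a) y‖ + ‖a y‖ := by
        have := norm_add_le ((θ • f - a) y) (a y)
        rwa [sub_apply, sub_add_cancel] at this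
      linarith
    · have := hle x₀ hx₀
      nlinarith


/-! ### maxp -/
/-- TARGET. The maximum principle for polynomials on the unit disc. -/
theorem maxp (n : ℕ) (c : ℕ → ℂ) (w : ℂ) (hw : ‖w‖ ≤ 1) :
    ∃ v : ℂ, ‖v‖ = 1 ∧ ‖∑ k ∈ Finset.range (n + 1), c k * w ^ k‖ ≤
      ‖∑ k ∈ Finset.range (n + 1), c k * v ^ k‖ := by
  have hd : Differentiable ℂ (fun z : ℂ => ∑ k ∈ Finset.range (n + 1), c k * z ^ k) := by
    fun_prop
  have hS : IsCompact (Metric.sphere (0 : ℂ) 1) := isCompact_sphere 0 1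
  have hne : (Metric.sphere (0 : ℂ) 1).Nonempty := ⟨1, by simp⟩
  obtain ⟨v, hv, hmax⟩ := hS.exists_isMaxOn hne
    (f := fun z : ℂ => ‖∑ k ∈ Finset.range (n + 1), c k * z ^ k‖) hd.continuous.norm.continuousOn
  refine ⟨v, by simpa using hv, ?_⟩
  have hw' : w ∈ closure (Metric.ball (0 : ℂ) 1) := by
    rw [closure_ball (0 : ℂ) one_ne_zero]
    simpa using hw
  refine Complex.norm_le_of_forall_mem_frontier_norm_le
    (f := fun z : ℂ => ∑ k ∈ Finset.range (n + 1), c k * z ^ k) Metric.isBounded_ball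
    hd.diffContOnCl (fun z hz => ?_) hw'
  rw [frontier_ball (0 : ℂ) one_ne_zero] at hz
  exact hmax hz


/-! ### hom_const -/
/-- TARGET. -/
theorem hom_const {X : Type*} [NormedAddCommGroup X] [NormedSpace ℂ X] (c : ℂ) :
    Hom 0 (fun _ : X => c) := by
  refine ⟨ContinuousMultilinearMap.constOfIsEmpty ℂ (fun _ : Fin 0 => X) c, fun x => ?_⟩
  simp


/-! ### hom_mul -/
/-- TARGET. -/
theorem hom_mul {X : Type*} [NormedAddCommGroup X] [NormedSpace ℂ X] (f : X →L[ℂ] ℂ) (k : ℕ)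
    (q : X → ℂ) (hq : Hom k q) : Hom (k + 1) (fun x => f x * q x) := by
  obtain ⟨A, hA⟩ := hq
  refine ⟨(f.smulRight A : X →L[ℂ] ContinuousMultilinearMap ℂ (fun _ : Fin k => X) ℂ).uncurryLeft
    (Ei := fun _ : Fin (k + 1) => X), fun x => ?_⟩
  simp only [ContinuousLinearMap.uncurryLeft_apply, ContinuousLinearMap.smulRight_apply,
    _root_.smul_apply, smul_eq_mul, hA x]
  rfl


/-! ### hom_add -/
/-- TARGET. -/
theorem hom_add {X : Type*} [NormedAddCommGroup X] [NormedSpace ℂ X] (k : ℕ)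
    (q r : X → ℂ) (hq : Hom k q) (hr : Hom k r) : Hom k (fun x => q x + r x) := by
  obtain ⟨A, hA⟩ := hq
  obtain ⟨B, hB⟩ := hr
  exact ⟨A + B, fun x => by show q x + r x = A (fun _ => x) + B (fun _ => x); rw [hA x, hB x]⟩


/-! ### hom_cmul -/
/-- TARGET. -/
theorem hom_cmul {X : Type*} [NormedAddCommGroup X] [NormedSpace ℂ X] (k : ℕ)
    (q : X → ℂ) (hq : Hom k q) (c : ℂ) : Hom k (fun x => c * q x) := by
  obtain ⟨A, hA⟩ := hq
  refine ⟨c • A, fun x => ?_⟩
  show c * q x = c • (A fun _ => x)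
  rw [smul_eq_mul, hA x]


/-! ### hom_scale -/
/-- TARGET. -/
theorem hom_scale {X : Type*} [NormedAddCommGroup X] [NormedSpace ℂ X] (k : ℕ)
    (q : X → ℂ) (hq : Hom k q) (c : ℂ) (x : X) : q (c • x) = c ^ k * q x := by
  obtain ⟨A, hA⟩ := hq
  rw [hA, hA]
  have h := A.map_smul_univ (fun _ => c) (fun _ => x)
  rw [Finset.prod_const, Finset.card_univ, Fintype.card_fin, smul_eq_mul] at h
  exact h


/-! ### hom_bdd -/
/-- TARGET. -/
theorem hom_bdd {X : Type*} [NormedAddCommGroup X] [NormedSpace ℂ X] (k : ℕ)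
    (q : X → ℂ) (hq : Hom k q) : ∃ C : ℝ, 0 ≤ C ∧ ∀ x, ‖x‖ ≤ 1 → ‖q x‖ ≤ C := by
  obtain ⟨A, hA⟩ := hq
  refine ⟨‖A‖, norm_nonneg _, fun x hx => ?_⟩
  rw [hA]
  refine (A.le_opNorm _).trans ?_
  have h1 : ∏ _i : Fin k, ‖x‖ ≤ 1 := Finset.prod_le_one (fun _ _ => norm_nonneg _) (fun _ _ => hx)
  calc ‖A‖ * ∏ _i : Fin k, ‖x‖ ≤ ‖A‖ * 1 := mul_le_mul_of_nonneg_left h1 (norm_nonneg _)
    _ = ‖A‖ := mul_one _


/-! ### good_poly -/
theorem good_poly_reindex {X : Type*} [NormedAddCommGroup X] [NormedSpace ℂ X] (n : ℕ)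
    (q : ℕ → X → ℂ) (y : X) (v : ℂ) :
    ∑ k ∈ Finset.range (n + 1), q k y * v ^ (n - k) =
      ∑ j ∈ Finset.range (n + 1), q (n - j) y * v ^ j := by
  rw [← Finset.sum_range_reflect (fun k => q k y * v ^ (n - k)) (n + 1)]
  refine Finset.sum_congr rfl fun j hj => ?_
  have hj' : j ≤ n := Nat.lt_succ_iff.1 (Finset.mem_range.1 hj)
  have e1 : n + 1 - 1 - j = n - j := by omega
  have e2 : n - (n - j) = j := by omega
  show q (n + 1 - 1 - j) y * v ^ (n - (n + 1 - 1 - j)) = _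
  rw [e1, e2]

theorem good_poly_unit {X : Type*} [NormedAddCommGroup X] [NormedSpace ℂ X] {z : X} (hz : z ≠ 0) :
    ∃ e : X, ‖e‖ = 1 ∧ z = (‖z‖ : ℂ) • e := by
  have hz' : (‖z‖ : ℂ) ≠ 0 := by exact_mod_cast norm_ne_zero_iff.2 hz
  refine ⟨((‖z‖ : ℂ))⁻¹ • z, ?_, ?_⟩
  · rw [norm_smul, norm_inv, Complex.norm_real, norm_norm, inv_mul_cancel₀ (norm_ne_zero_iff.2 hz)]
  · rw [smul_smul, mul_inv_cancel₀ hz', one_smul]

theorem good_poly_step1 {X : Type*} [NormedAddCommGroup X] [NormedSpace ℂ X] (a : X →L[ℂ] ℂ)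
    (ha : ‖a‖ = 1) (n : ℕ) (q : ℕ → X → ℂ) (hq : ∀ k, Hom k (q k))
    (x : X) (hx : ‖x‖ ≤ 1) :
    ∃ x1 : X, ‖x1‖ = 1 ∧ ‖∑ k ∈ Finset.range (n + 1), q k x‖ ≤
      ‖∑ k ∈ Finset.range (n + 1), q k x1‖ := by
  obtain ⟨e, he, hxe⟩ : ∃ e : X, ‖e‖ = 1 ∧ x = (‖x‖ : ℂ) • e := by
    by_cases hx0 : x = 0
    · have ha0 : a ≠ 0 := by
        rintro rfl
        simp at ha
      obtain ⟨z, hz⟩ : ∃ z, a z ≠ 0 := by
        by_contra hcon
        apply ha0
        ext z
        by_contra hz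
        exact hcon ⟨z, hz⟩
      have hz0 : z ≠ 0 := by
        rintro rfl
        simp at hz
      obtain ⟨e, he, _⟩ := good_poly_unit hz0
      exact ⟨e, he, by simp [hx0]⟩
    · exact good_poly_unit hx0
  obtain ⟨v, hv, hle⟩ := maxp n (fun k => q k e) (‖x‖ : ℂ) (by
    rw [Complex.norm_real, norm_norm]; exact hx)
  refine ⟨v • e, by rw [norm_smul, hv, he, one_mul], ?_⟩
  have h1 : ∑ k ∈ Finset.range (n + 1), q k x =
      ∑ k ∈ Finset.range (n + 1), q k e * (‖x‖ : ℂ) ^ k := by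
    refine Finset.sum_congr rfl fun k _ => ?_
    conv_lhs => rw [hxe]
    rw [hom_scale k (q k) (hq k), mul_comm]
  have h2 : ∑ k ∈ Finset.range (n + 1), q k (v • e) =
      ∑ k ∈ Finset.range (n + 1), q k e * v ^ k := by
    refine Finset.sum_congr rfl fun k _ => ?_
    rw [hom_scale k (q k) (hq k), mul_comm]
  rw [h1, h2]
  exact hle

theorem good_poly_homQ {X : Type*} [NormedAddCommGroup X] [NormedSpace ℂ X] (h : X →L[ℂ] ℂ)
    (n : ℕ) (q : ℕ → X → ℂ) (hq : ∀ k, Hom k (q k)) :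
    Hom n (fun z => ∑ k ∈ Finset.range (n + 1), q k z * h z ^ (n - k)) := by
  have h1 : ∀ k j, Hom (k + j) (fun z => q k z * h z ^ j) := by
    intro k j
    induction j with
    | zero => simpa using hq k
    | succ j ih =>
      have := hom_mul h (k + j) _ ih
      have e : (fun z => q k z * h z ^ (j + 1)) = fun x => h x * (q k x * h x ^ j) := by
        funext z
        ring
      rw [e]
      exact this
  have h2 : ∀ s : Finset ℕ, (∀ k ∈ s, k ≤ n) → Hom n (fun z => ∑ k ∈ s, q k z * h z ^ (n - k)) := by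
    intro s
    induction s using Finset.induction_on with
    | empty =>
      intro _
      have := hom_cmul n (q n) (hq n) 0
      simpa using this
    | insert k s hk ih =>
      intro hs
      have hk' : k ≤ n := hs k (Finset.mem_insert_self _ _)
      have h3 := h1 k (n - k)
      rw [Nat.add_sub_cancel' hk'] at h3
      have h4 := hom_add n _ _ h3 (ih fun k' hk'' => hs k' (Finset.mem_insert_of_mem hk''))
      have e : (fun z => ∑ k ∈ insert k s, q k z * h z ^ (n - k)) =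
          fun x => q k x * h x ^ (n - k) + ∑ k ∈ s, q k x * h x ^ (n - k) := by
        funext z
        rw [Finset.sum_insert hk]
      rw [e]
      exact h4
  exact h2 _ fun k hk => Nat.lt_succ_iff.1 (Finset.mem_range.1 hk)

/-- TARGET. Goodness for inhomogeneous polynomials. -/
theorem good_poly {X : Type*} [NormedAddCommGroup X] [NormedSpace ℂ X] (a : X →L[ℂ] ℂ)
    (ha : ‖a‖ = 1) (hg : Good a) (n : ℕ) (hn : 2 ≤ n) (q : ℕ → X → ℂ) (hq : ∀ k, Hom k (q k))
    (x : X) (hx : ‖x‖ ≤ 1) (ε : ℝ) (hε : 0 < ε) :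
    ∃ y : X, ‖y‖ ≤ 1 ∧ 1 - ε < ‖a y‖ ∧
      ‖∑ k ∈ Finset.range (n + 1), q k x‖ - ε < ‖∑ k ∈ Finset.range (n + 1), q k y‖ := by
  obtain ⟨x1, hx1, hle1⟩ := good_poly_step1 a ha n q hq x hx
  have hx10 : x1 ≠ 0 := by
    rintro rfl
    simp at hx1
  obtain ⟨h, hh1, hh2⟩ := exists_dual_vector ℂ x1 (norm_ne_zero_iff.2 hx10)
  have hh3 : h x1 = 1 := by rw [hh2, hx1]; simp
  obtain ⟨A, hA⟩ := good_poly_homQ h n q hq
  obtain ⟨y, hy1, hy2, hy3⟩ := hg n hn A x1 hx1.le ε hε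
  rw [← hA, ← hA] at hy3
  have hy3' : ‖∑ k ∈ Finset.range (n + 1), q k x1 * h x1 ^ (n - k)‖ - ε <
    ‖∑ k ∈ Finset.range (n + 1), q k y * h y ^ (n - k)‖ := hy3
  have hQ1 : ∑ k ∈ Finset.range (n + 1), q k x1 * h x1 ^ (n - k) =
      ∑ k ∈ Finset.range (n + 1), q k x1 := by
    refine Finset.sum_congr rfl fun k _ => ?_
    rw [hh3, one_pow, mul_one]
  rw [hQ1, good_poly_reindex] at hy3'
  have hv0 : ‖h y‖ ≤ 1 := by
    have := h.le_opNorm y
    rw [hh1, one_mul] at this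
    exact this.trans hy1
  obtain ⟨v, hv, hle2⟩ := maxp n (fun j => q (n - j) y) (h y) hv0
  have hv00 : v ≠ 0 := by
    rintro rfl
    simp at hv
  refine ⟨v⁻¹ • y, ?_, ?_, ?_⟩
  · rw [norm_smul, norm_inv, hv, inv_one, one_mul]
    exact hy1
  · rw [map_smul, norm_smul, norm_inv, hv, inv_one, one_mul]
    exact hy2
  · have e1 : ∑ j ∈ Finset.range (n + 1), q (n - j) y * v ^ j =
        v ^ n * ∑ k ∈ Finset.range (n + 1), q k (v⁻¹ • y) := by
      rw [← good_poly_reindex, Finset.mul_sum]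
      refine Finset.sum_congr rfl fun k hk => ?_
      have hk' : k ≤ n := Nat.lt_succ_iff.1 (Finset.mem_range.1 hk)
      rw [hom_scale k (q k) (hq k)]
      have e2 : v ^ n = v ^ (n - k) * v ^ k := by
        rw [← pow_add, Nat.sub_add_cancel hk']
      rw [e2, inv_pow]
      field_simp
    have e3 : ‖∑ j ∈ Finset.range (n + 1), q (n - j) y * v ^ j‖ =
        ‖∑ k ∈ Finset.range (n + 1), q k (v⁻¹ • y)‖ := by
      rw [e1, norm_mul, norm_pow, hv, one_pow, one_mul]
    have hle2' : ‖∑ j ∈ Finset.range (n + 1), q (n - j) y * h y ^ j‖ ≤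
        ‖∑ j ∈ Finset.range (n + 1), q (n - j) y * v ^ j‖ := hle2
    rw [e3] at hle2'
    linarith


/-! ### good_re -/
/-- TARGET. Goodness for real parts of polynomials. -/
theorem good_re {X : Type*} [NormedAddCommGroup X] [NormedSpace ℂ X] (a : X →L[ℂ] ℂ)
    (ha : ‖a‖ = 1) (hg : Good a) (n : ℕ) (hn : 2 ≤ n) (q : ℕ → X → ℂ) (hq : ∀ k, Hom k (q k))
    (c δ : ℝ) (hδ : 0 < δ)
    (h : ∀ y : X, ‖y‖ ≤ 1 → 1 - δ < ‖a y‖ → (∑ k ∈ Finset.range (n + 1), q k y).re ≤ c)
    (x : X) (hx : ‖x‖ ≤ 1) : (∑ k ∈ Finset.range (n + 1), q k x).re ≤ c := by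
  by_contra hcon
  push Not at hcon
  have hb := fun k => hom_bdd k (q k) (hq k)
  choose Ck hCk0 hCk using hb
  set C : ℝ := ∑ k ∈ Finset.range (n + 1), Ck k + |c| with hCd
  have hC : ∀ y : X, ‖y‖ ≤ 1 → ‖(∑ k ∈ Finset.range (n + 1), q k y) - (c : ℂ)‖ ≤ C := by
    intro y hy
    refine (norm_sub_le _ _).trans (add_le_add (norm_sum_le_of_le _ fun k _ => hCk k y hy) ?_)
    rw [Complex.norm_real, Real.norm_eq_abs]
  set d : ℝ := (∑ k ∈ Finset.range (n + 1), q k x).re - c with hd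
  have hd0 : 0 < d := by linarith
  set R : ℝ := C ^ 2 / d + 1 with hR
  have hR0 : 0 < R := by positivity
  set q' : ℕ → X → ℂ := fun k y => if k = 0 then q 0 y + ((R - c : ℝ) : ℂ) else q k y with hq'
  have hq'h : ∀ k, Hom k (q' k) := by
    intro k
    by_cases hk : k = 0
    · subst hk
      have e : q' 0 = fun y => q 0 y + ((R - c : ℝ) : ℂ) := by
        funext y
        simp [hq']
      rw [e]
      exact hom_add 0 (q 0) (fun _ => ((R - c : ℝ) : ℂ)) (hq 0) (hom_const _)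
    · have e : q' k = q k := by
        funext y
        simp [hq', hk]
      rw [e]
      exact hq k
  have hsum : ∀ y, ∑ k ∈ Finset.range (n + 1), q' k y = (∑ k ∈ Finset.range (n + 1), q k y) + ((R - c : ℝ) : ℂ) := by
    intro y
    rw [Finset.sum_range_succ', Finset.sum_range_succ']
    simp [hq', add_assoc]
  set ε : ℝ := min δ d / 2 with hε
  have hm0 : 0 < min δ d := lt_min hδ hd0
  have hε0 : 0 < ε := by positivity
  have hεδ : ε < δ := by
    have := min_le_left δ d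
    linarith
  have hεd : ε ≤ d / 2 := by
    have := min_le_right δ d
    linarith
  obtain ⟨y, hy, hay, hlt⟩ := good_poly a ha hg n hn q' hq'h x hx ε hε0
  rw [hsum x, hsum y] at hlt
  have hre := h y hy (by linarith)
  have hCy := hC y hy
  set Qx : ℂ := ∑ k ∈ Finset.range (n + 1), q k x with hQx
  set Qy : ℂ := ∑ k ∈ Finset.range (n + 1), q k y with hQy
  have h1 : R + d ≤ ‖Qx + ((R - c : ℝ) : ℂ)‖ := by
    have e : (Qx + ((R - c : ℝ) : ℂ)).re = R + d := by
      rw [Complex.add_re, Complex.ofReal_re, hd]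
      ring
    rw [← e]
    exact Complex.re_le_norm _
  have h2 : ‖Qy + ((R - c : ℝ) : ℂ)‖ ^ 2 ≤ R ^ 2 + C ^ 2 := by
    have e1 : ‖Qy + ((R - c : ℝ) : ℂ)‖ ^ 2 = (Qy.re + (R - c)) ^ 2 + Qy.im ^ 2 := by
      rw [← Complex.normSq_eq_norm_sq, Complex.normSq_apply]
      simp
      ring
    have e2 : ‖Qy - (c : ℂ)‖ ^ 2 = (Qy.re - c) ^ 2 + Qy.im ^ 2 := by
      rw [← Complex.normSq_eq_norm_sq, Complex.normSq_apply]
      simp
      ring
    have e3 : ‖Qy - (c : ℂ)‖ ^ 2 ≤ C ^ 2 := pow_le_pow_left₀ (norm_nonneg _) hCy 2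
    rw [e1]
    rw [e2] at e3
    nlinarith [mul_nonneg hR0.le (show (0 : ℝ) ≤ c - Qy.re by linarith)]
  have h3 : R + d / 2 ≤ ‖Qy + ((R - c : ℝ) : ℂ)‖ := by linarith
  have h4 : (R + d / 2) ^ 2 ≤ R ^ 2 + C ^ 2 := (pow_le_pow_left₀ (by positivity) h3 2).trans h2
  have h5 : R * d = C ^ 2 + d := by
    rw [hR]
    field_simp
  nlinarith


/-! ### trig_approx -/
/-- real parts of trigonometric polynomials are real parts of analytic polynomials -/
theorem trig_approx_span (hT : Fact (0 < 2 * Real.pi)) (p : C(AddCircle (2 * Real.pi), ℂ))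
    (hp : p ∈ Submodule.span ℂ (Set.range (@fourier (2 * Real.pi)))) :
    ∀ a : ℂ, ∃ q : Polynomial ℂ, ∀ θ : ℝ, (a * p (θ : AddCircle (2 * Real.pi))).re =
      (q.eval (Complex.exp (θ * Complex.I))).re := by
  refine Submodule.span_induction (p := fun p _ => ∀ a : ℂ, ∃ q : Polynomial ℂ, ∀ θ : ℝ,
    (a * p (θ : AddCircle (2 * Real.pi))).re = (q.eval (Complex.exp (θ * Complex.I))).re)
    ?_ ?_ ?_ ?_ hp
  · rintro _ ⟨k, rfl⟩ a
    have hpi : (Real.pi : ℂ) ≠ 0 := by exact_mod_cast Real.pi_ne_zero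
    have hf : ∀ θ : ℝ, fourier k (θ : AddCircle (2 * Real.pi)) =
        Complex.exp ((k : ℂ) * (θ * Complex.I)) := by
      intro θ
      rw [fourier_coe_apply]
      congr 1
      push_cast
      field_simp
    rcases le_or_gt 0 k with hk | hk
    · obtain ⟨m, rfl⟩ := Int.eq_ofNat_of_zero_le hk
      refine ⟨Polynomial.C a * Polynomial.X ^ m, fun θ => ?_⟩
      rw [hf, Polynomial.eval_mul, Polynomial.eval_C, Polynomial.eval_pow, Polynomial.eval_X,
        ← Complex.exp_nat_mul]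
      simp
    · obtain ⟨m, hm⟩ := Int.eq_ofNat_of_zero_le (neg_nonneg.2 hk.le)
      have hkm : k = -(m : ℤ) := by omega
      subst hkm
      refine ⟨Polynomial.C ((starRingEnd ℂ) a) * Polynomial.X ^ m, fun θ => ?_⟩
      rw [hf, Polynomial.eval_mul, Polynomial.eval_C, Polynomial.eval_pow, Polynomial.eval_X,
        ← Complex.exp_nat_mul]
      have h1 : (starRingEnd ℂ) (a * Complex.exp (((-(m : ℤ) : ℤ) : ℂ) * (θ * Complex.I))) =
          (starRingEnd ℂ) a * Complex.exp ((m : ℂ) * (θ * Complex.I)) := by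
        rw [map_mul, ← Complex.exp_conj]
        congr 2
        simp
      rw [← h1, Complex.conj_re]
  · intro a
    exact ⟨0, fun θ => by simp⟩
  · intro x y _ _ hx hy a
    obtain ⟨q1, h1⟩ := hx a
    obtain ⟨q2, h2⟩ := hy a
    refine ⟨q1 + q2, fun θ => ?_⟩
    rw [Polynomial.eval_add, Complex.add_re, ← h1, ← h2, ContinuousMap.add_apply, mul_add,
      Complex.add_re]
  · intro b x _ hx a
    obtain ⟨q, h⟩ := hx (a * b)
    refine ⟨q, fun θ => ?_⟩
    rw [← h, ContinuousMap.smul_apply, smul_eq_mul, mul_assoc]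

theorem trig_approx_int (j : ℕ) : ∫ θ in (0 : ℝ)..(2 * Real.pi), Complex.exp (θ * Complex.I) ^ j =
    if j = 0 then ((2 * Real.pi : ℝ) : ℂ) else 0 := by
  by_cases hj : j = 0
  · subst hj
    simp
  · rw [if_neg hj]
    have hc : (j : ℂ) * Complex.I ≠ 0 := mul_ne_zero (by exact_mod_cast hj) Complex.I_ne_zero
    have h1 : ∀ θ : ℝ, Complex.exp (θ * Complex.I) ^ j = Complex.exp (((j : ℂ) * Complex.I) * θ) := by
      intro θ
      rw [← Complex.exp_nat_mul]
      congr 1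
      ring
    simp only [h1]
    rw [integral_exp_mul_complex hc]
    have h2 : Complex.exp (((j : ℂ) * Complex.I) * ((2 * Real.pi : ℝ) : ℂ)) = 1 := by
      have := Complex.exp_nat_mul_two_pi_mul_I j
      rw [← this]
      congr 1
      push_cast
      ring
    rw [h2]
    simp

theorem trig_approx_poly (q : Polynomial ℂ) :
    ∫ θ in (0 : ℝ)..(2 * Real.pi), (q.eval (Complex.exp (θ * Complex.I))).re =
      2 * Real.pi * (q.coeff 0).re := by
  have hcont : Continuous (fun θ : ℝ => q.eval (Complex.exp (θ * Complex.I))) :=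
    q.continuous.comp (by fun_prop)
  have h1 := Complex.reCLM.intervalIntegral_comp_comm (hcont.intervalIntegrable 0 (2 * Real.pi))
    (μ := MeasureTheory.volume)
  have h2 : ∫ θ in (0 : ℝ)..(2 * Real.pi), q.eval (Complex.exp (θ * Complex.I)) =
      ((2 * Real.pi : ℝ) : ℂ) * q.coeff 0 := by
    have h3 : ∀ θ : ℝ, q.eval (Complex.exp (θ * Complex.I)) =
        ∑ j ∈ Finset.range (q.natDegree + 1), q.coeff j * Complex.exp (θ * Complex.I) ^ j :=
      fun θ => Polynomial.eval_eq_sum_range _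
    simp only [h3]
    rw [intervalIntegral.integral_finsetSum]
    · have h4 : ∀ j ∈ Finset.range (q.natDegree + 1),
          ∫ θ in (0 : ℝ)..(2 * Real.pi), q.coeff j * Complex.exp (θ * Complex.I) ^ j =
          if j = 0 then ((2 * Real.pi : ℝ) : ℂ) * q.coeff 0 else 0 := by
        intro j _
        rw [intervalIntegral.integral_const_mul, trig_approx_int]
        by_cases hj : j = 0
        · subst hj
          simp [mul_comm]
        · rw [if_neg hj, if_neg hj, mul_zero]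
      rw [Finset.sum_congr rfl h4, Finset.sum_ite_eq', if_pos (Finset.mem_range.2 (by omega))]
    · intro j _
      exact (by fun_prop : Continuous fun θ : ℝ =>
        q.coeff j * Complex.exp (θ * Complex.I) ^ j).intervalIntegrable _ _
  have h5 : ∫ θ in (0 : ℝ)..(2 * Real.pi), (q.eval (Complex.exp (θ * Complex.I))).re =
      (∫ θ in (0 : ℝ)..(2 * Real.pi), q.eval (Complex.exp (θ * Complex.I))).re := h1
  rw [h5, h2, Complex.re_ofReal_mul]

/-- TARGET. A continuous function on the circle is approximated from above by real parts of analytic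
polynomials. -/
theorem trig_approx (U : ℝ → ℝ) (hU : Continuous U) (hper : Function.Periodic U (2 * Real.pi))
    (ε : ℝ) (hε : 0 < ε) :
    ∃ (n : ℕ) (c : ℕ → ℂ), 2 ≤ n ∧
      (∀ θ : ℝ, U θ ≤ (∑ j ∈ Finset.range (n + 1), c j * Complex.exp (θ * Complex.I) ^ j).re) ∧
      2 * Real.pi * (c 0).re ≤ (∫ θ in (0 : ℝ)..(2 * Real.pi), U θ) + ε := by
  have hpi := Real.pi_pos
  have hT : Fact (0 < 2 * Real.pi) := ⟨by positivity⟩
  obtain ⟨e, he⟩ : ∃ e : ℝ, e = ε / (4 * Real.pi) := ⟨_, rfl⟩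
  have he0 : 0 < e := by rw [he]; positivity
  have hcont : Continuous (hper.lift) := hU.quotient_liftOn' _
  let V : C(AddCircle (2 * Real.pi), ℂ) :=
    ⟨fun x => ((hper.lift x + e : ℝ) : ℂ), Complex.continuous_ofReal.comp (hcont.add continuous_const)⟩
  have hV : ∀ θ : ℝ, V (θ : AddCircle (2 * Real.pi)) = ((U θ + e : ℝ) : ℂ) := fun θ => rfl
  have hmem : V ∈ (Submodule.span ℂ (Set.range (@fourier (2 * Real.pi)))).topologicalClosure := by
    rw [span_fourier_closure_eq_top]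
    exact Submodule.mem_top
  rw [← SetLike.mem_coe, Submodule.topologicalClosure_coe, Metric.mem_closure_iff] at hmem
  obtain ⟨p, hp, hpV⟩ := hmem e he0
  obtain ⟨q, hq⟩ := trig_approx_span hT p hp 1
  have hbd : ∀ θ : ℝ, U θ ≤ (q.eval (Complex.exp (θ * Complex.I))).re ∧
      (q.eval (Complex.exp (θ * Complex.I))).re ≤ U θ + 2 * e := by
    intro θ
    have h1 := (ContinuousMap.dist_apply_le_dist (f := V) (g := p)
      (θ : AddCircle (2 * Real.pi))).trans hpV.le
    rw [hV, dist_eq_norm] at h1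
    have h2 := (Complex.abs_re_le_norm _).trans h1
    rw [Complex.sub_re, Complex.ofReal_re] at h2
    have h3 := hq θ
    rw [one_mul] at h3
    rw [h3] at h2
    have h4 := abs_le.1 h2
    constructor <;> linarith [h4.1, h4.2]
  refine ⟨max q.natDegree 2, q.coeff, le_max_right _ _, ?_, ?_⟩
  · intro θ
    have h1 : q.eval (Complex.exp (θ * Complex.I)) =
        ∑ j ∈ Finset.range (max q.natDegree 2 + 1), q.coeff j * Complex.exp (θ * Complex.I) ^ j :=
      Polynomial.eval_eq_sum_range' (by have := le_max_left q.natDegree 2; omega) _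
    rw [← h1]
    exact (hbd θ).1
  · rw [← trig_approx_poly q]
    have hc1 : Continuous (fun θ : ℝ => (q.eval (Complex.exp (θ * Complex.I))).re) :=
      Complex.continuous_re.comp (q.continuous.comp (by fun_prop))
    have h1 : ∫ θ in (0 : ℝ)..(2 * Real.pi), (q.eval (Complex.exp (θ * Complex.I))).re ≤
        ∫ θ in (0 : ℝ)..(2 * Real.pi), (U θ + 2 * e) :=
      intervalIntegral.integral_mono (by positivity) (hc1.intervalIntegrable _ _)
        ((hU.add continuous_const).intervalIntegrable _ _) (fun θ => (hbd θ).2)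
    rw [intervalIntegral.integral_add (hU.intervalIntegrable _ _)
      (continuous_const.intervalIntegrable _ _), intervalIntegral.integral_const, smul_eq_mul] at h1
    have h2 : (2 * Real.pi - 0) * (2 * e) = ε := by
      rw [he]
      field_simp
      ring
    rw [h2] at h1
    exact h1


/-! ### key -/
theorem key_pow {X : Type*} [NormedAddCommGroup X] [NormedSpace ℂ X] (a : X →L[ℂ] ℂ) (k : ℕ) :
    Hom k (fun x => (a x) ^ k) := by
  induction k with
  | zero =>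
    have h := hom_const (X := X) 1
    convert h using 1
    funext x
    rw [pow_zero]
  | succ k ih =>
    have h := hom_mul a k _ ih
    convert h using 1
    funext x
    rw [pow_succ']

theorem key_hom {X : Type*} [NormedAddCommGroup X] [NormedSpace ℂ X] (a h₀ h₁ : X →L[ℂ] ℂ)
    (c : ℕ → ℂ) (k : ℕ) :
    Hom k (fun y : X => (if k = 1 then h₀ y else 0) + (if k = 2 then a y * h₁ y else 0) +
      -c k * (a y) ^ k) := by
  have h1 : Hom k (fun y : X => -c k * (a y) ^ k) := hom_cmul k _ (key_pow a k) (-c k)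
  have hlin : ∀ f : X →L[ℂ] ℂ, Hom 1 (fun y : X => f y) := by
    intro f
    have h := hom_mul f 0 _ (hom_const (X := X) 1)
    convert h using 1
    funext y
    rw [mul_one]
  rcases k with _ | _ | _ | k
  · convert h1 using 1
    funext y
    simp
  · have h3 := hom_add 1 _ _ (hlin h₀) h1
    convert h3 using 1
    funext y
    simp
  · have h3 := hom_add 2 _ _ (hom_mul a 1 _ (hlin h₁)) h1
    convert h3 using 1
    funext y
    simp
  · convert h1 using 1
    funext y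
    simp

theorem key_sum {X : Type*} [NormedAddCommGroup X] [NormedSpace ℂ X] (a h₀ h₁ : X →L[ℂ] ℂ)
    (c : ℕ → ℂ) (n : ℕ) (hn : 2 ≤ n) (y : X) :
    ∑ k ∈ Finset.range (n + 1), ((if k = 1 then h₀ y else 0) +
      (if k = 2 then a y * h₁ y else 0) + -c k * (a y) ^ k) =
    h₀ y + a y * h₁ y - ∑ k ∈ Finset.range (n + 1), c k * (a y) ^ k := by
  rw [Finset.sum_add_distrib, Finset.sum_add_distrib, Finset.sum_ite_eq', Finset.sum_ite_eq',
    if_pos (Finset.mem_range.mpr (by omega)), if_pos (Finset.mem_range.mpr (by omega)),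
    sub_eq_add_neg, ← Finset.sum_neg_distrib]
  congr 1
  refine Finset.sum_congr rfl fun k _ => ?_
  ring

theorem key_bound {X : Type*} [NormedAddCommGroup X] [NormedSpace ℂ X] (a : X →L[ℂ] ℂ)
    (ha : ‖a‖ = 1) (h₀ h₁ : X →L[ℂ] ℂ) (R : ℝ) (hR : 0 ≤ R) (n : ℕ) (c : ℕ → ℂ)
    (hU : ∀ θ : ℝ, ‖h₀ + Complex.exp (θ * Complex.I) • h₁ +
        (((R : ℂ) * Complex.exp (-(θ * Complex.I))) • a)‖ - R ≤
        (∑ j ∈ Finset.range (n + 1), c j * Complex.exp (θ * Complex.I) ^ j).re)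
    (y : X) (hy : ‖y‖ ≤ 1) (δ : ℝ) (hδ : 1 - δ < ‖a y‖) :
    (h₀ y + a y * h₁ y - ∑ k ∈ Finset.range (n + 1), c k * (a y) ^ k).re ≤
      δ * (R + ‖h₁‖ + ∑ j ∈ Finset.range (n + 1), (j : ℝ) * ‖c j‖) := by
  obtain ⟨r, hr⟩ : ∃ r : ℝ, r = ‖a y‖ := ⟨_, rfl⟩
  obtain ⟨θ, hθ⟩ : ∃ θ : ℝ, θ = Complex.arg (a y) := ⟨_, rfl⟩
  have hr0 : 0 ≤ r := by
    rw [hr]
    exact norm_nonneg _
  have hr1 : r ≤ 1 := by
    rw [hr]
    calc ‖a y‖ ≤ ‖a‖ * ‖y‖ := a.le_opNorm y
      _ ≤ 1 * 1 := by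
        rw [ha]
        exact mul_le_mul_of_nonneg_left hy (by norm_num)
      _ = 1 := by norm_num
  obtain ⟨E, hE⟩ : ∃ E : ℂ, E = Complex.exp (θ * Complex.I) := ⟨_, rfl⟩
  obtain ⟨E', hE'⟩ : ∃ E' : ℂ, E' = Complex.exp (-(θ * Complex.I)) := ⟨_, rfl⟩
  have hEn : ‖E‖ = 1 := by
    rw [hE]
    exact Complex.norm_exp_ofReal_mul_I θ
  have hEE : E' * E = 1 := by
    rw [hE, hE', ← Complex.exp_add, neg_add_cancel, Complex.exp_zero]
  have hay : a y = (r : ℂ) * E := by
    rw [hr, hE, hθ]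
    exact (Complex.norm_mul_exp_arg_mul_I (a y)).symm
  have hUθ := hU θ
  rw [← hE, ← hE'] at hUθ
  have hval : (h₀ + E • h₁ + ((R : ℂ) * E') • a) y = h₀ y + E * h₁ y + ((R * r : ℝ) : ℂ) := by
    rw [add_apply, add_apply,
      smul_apply, smul_apply, smul_eq_mul, smul_eq_mul,
      hay]
    push_cast
    have : (R : ℂ) * E' * (r * E) = R * r * (E' * E) := by ring
    rw [this, hEE]
    ring
  have h1 : (h₀ y + E * h₁ y).re + R * r ≤ ‖h₀ + E • h₁ + ((R : ℂ) * E') • a‖ := by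
    calc (h₀ y + E * h₁ y).re + R * r = ((h₀ + E • h₁ + ((R : ℂ) * E') • a) y).re := by
          rw [hval, Complex.add_re (h₀ y + E * h₁ y), Complex.ofReal_re]
      _ ≤ ‖(h₀ + E • h₁ + ((R : ℂ) * E') • a) y‖ := Complex.re_le_norm _
      _ ≤ ‖h₀ + E • h₁ + ((R : ℂ) * E') • a‖ * ‖y‖ := ContinuousLinearMap.le_opNorm _ _
      _ ≤ ‖h₀ + E • h₁ + ((R : ℂ) * E') • a‖ * 1 :=
          mul_le_mul_of_nonneg_left hy (norm_nonneg _)
      _ = _ := mul_one _
  have h2 : (h₀ y + a y * h₁ y).re ≤ (h₀ y + E * h₁ y).re + (1 - r) * ‖h₁‖ := by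
    have h3 : h₀ y + a y * h₁ y = h₀ y + E * h₁ y - ((1 - r : ℝ) : ℂ) * (E * h₁ y) := by
      rw [hay]
      push_cast
      ring
    rw [h3, Complex.sub_re, Complex.re_ofReal_mul]
    have h4 : -(E * h₁ y).re ≤ ‖h₁‖ := by
      calc -(E * h₁ y).re ≤ |(E * h₁ y).re| := neg_le_abs _
        _ ≤ ‖E * h₁ y‖ := Complex.abs_re_le_norm _
        _ = ‖h₁ y‖ := by rw [norm_mul, hEn, one_mul]
        _ ≤ ‖h₁‖ * ‖y‖ := h₁.le_opNorm y
        _ ≤ ‖h₁‖ * 1 := mul_le_mul_of_nonneg_left hy (norm_nonneg _)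
        _ = ‖h₁‖ := mul_one _
    have h5 := mul_le_mul_of_nonneg_left h4 (sub_nonneg.mpr hr1)
    linarith
  have h3 : (∑ j ∈ Finset.range (n + 1), c j * E ^ j).re -
      (∑ k ∈ Finset.range (n + 1), c k * (a y) ^ k).re ≤
      (1 - r) * ∑ j ∈ Finset.range (n + 1), (j : ℝ) * ‖c j‖ := by
    rw [← Complex.sub_re, ← Finset.sum_sub_distrib]
    calc _ ≤ ‖∑ j ∈ Finset.range (n + 1), (c j * E ^ j - c j * (a y) ^ j)‖ :=
          Complex.re_le_norm _
      _ ≤ ∑ j ∈ Finset.range (n + 1), ‖c j * E ^ j - c j * (a y) ^ j‖ := norm_sum_le _ _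
      _ ≤ ∑ j ∈ Finset.range (n + 1), (1 - r) * ((j : ℝ) * ‖c j‖) := by
          refine Finset.sum_le_sum fun j _ => ?_
          have h4 : c j * E ^ j - c j * (a y) ^ j = ((1 - r ^ j : ℝ) : ℂ) * (c j * E ^ j) := by
            rw [hay, mul_pow]
            push_cast
            ring
          rw [h4, norm_mul, norm_mul, norm_pow, hEn, one_pow, mul_one, Complex.norm_real,
            Real.norm_eq_abs, abs_of_nonneg (sub_nonneg.mpr (pow_le_one₀ hr0 hr1))]
          have h5 : 1 - r ^ j ≤ (1 - r) * j := by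
            have h6 := one_add_mul_le_pow (a := r - 1) (by linarith) j
            have h7 : 1 + (r - 1) = r := by ring
            rw [h7] at h6
            linarith
          calc (1 - r ^ j) * ‖c j‖ ≤ ((1 - r) * j) * ‖c j‖ :=
                mul_le_mul_of_nonneg_right h5 (norm_nonneg _)
            _ = _ := by ring
      _ = _ := by rw [Finset.mul_sum]
  have hM : 0 ≤ R + ‖h₁‖ + ∑ j ∈ Finset.range (n + 1), (j : ℝ) * ‖c j‖ := by
    have : 0 ≤ ∑ j ∈ Finset.range (n + 1), (j : ℝ) * ‖c j‖ :=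
      Finset.sum_nonneg fun j _ => by positivity
    have := norm_nonneg h₁
    linarith
  have hrδ : 1 - r ≤ δ := by
    rw [hr]
    linarith
  have h4 := mul_le_mul_of_nonneg_right hrδ hM
  rw [Complex.sub_re]
  generalize (∑ j ∈ Finset.range (n + 1), (j : ℝ) * ‖c j‖) = S at *
  nlinarith

/-- TARGET. The key inequality. -/
theorem key {X : Type*} [NormedAddCommGroup X] [NormedSpace ℂ X] (a : X →L[ℂ] ℂ)
    (ha : ‖a‖ = 1) (hg : Good a) (h₀ h₁ : X →L[ℂ] ℂ) (R : ℝ) (hR : 0 ≤ R) (x : X)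
    (hx : ‖x‖ ≤ 1) (hax : a x = 0) :
    2 * Real.pi * (h₀ x).re ≤ ∫ θ in (0 : ℝ)..(2 * Real.pi),
      (‖h₀ + Complex.exp (θ * Complex.I) • h₁ +
        (((R : ℂ) * Complex.exp (-(θ * Complex.I))) • a)‖ - R) := by
  apply le_of_forall_pos_le_add
  intro ε hε
  have hUc : Continuous (fun θ : ℝ => ‖h₀ + Complex.exp (θ * Complex.I) • h₁ +
        (((R : ℂ) * Complex.exp (-(θ * Complex.I))) • a)‖ - R) := by
    fun_prop
  have hUp : Function.Periodic (fun θ : ℝ => ‖h₀ + Complex.exp (θ * Complex.I) • h₁ +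
        (((R : ℂ) * Complex.exp (-(θ * Complex.I))) • a)‖ - R) (2 * Real.pi) := by
    intro θ
    have e1 : Complex.exp (((θ + 2 * Real.pi : ℝ) : ℂ) * Complex.I) =
        Complex.exp (θ * Complex.I) := by
      rw [Complex.exp_eq_exp_iff_exists_int]
      exact ⟨1, by push_cast; ring⟩
    have e2 : Complex.exp (-(((θ + 2 * Real.pi : ℝ) : ℂ) * Complex.I)) =
        Complex.exp (-(θ * Complex.I)) := by
      rw [Complex.exp_eq_exp_iff_exists_int]
      exact ⟨-1, by push_cast; ring⟩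
    simp only [e1, e2]
  obtain ⟨n, c, hn, hcU, hint⟩ := trig_approx _ hUc hUp ε hε
  suffices hmain : (h₀ x).re ≤ (c 0).re by
    have hpi := Real.pi_pos
    have : 2 * Real.pi * (h₀ x).re ≤ 2 * Real.pi * (c 0).re :=
      mul_le_mul_of_nonneg_left hmain (by positivity)
    linarith
  set M := R + ‖h₁‖ + ∑ j ∈ Finset.range (n + 1), (j : ℝ) * ‖c j‖ with hMdef
  have hM : 0 ≤ M := by
    have : 0 ≤ ∑ j ∈ Finset.range (n + 1), (j : ℝ) * ‖c j‖ :=
      Finset.sum_nonneg fun j _ => by positivity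
    have := norm_nonneg h₁
    linarith
  have hgood : ∀ δ : ℝ, 0 < δ → (h₀ x).re - (c 0).re ≤ δ * M := by
    intro δ hδ
    have h1 := good_re a ha hg n hn _ (key_hom a h₀ h₁ c) (δ * M) δ hδ (by
      intro y hy hay
      rw [key_sum a h₀ h₁ c n hn y]
      exact key_bound a ha h₀ h₁ R hR n c hcU y hy δ hay) x hx
    rw [key_sum a h₀ h₁ c n hn x, hax] at h1
    have h2 : ∑ k ∈ Finset.range (n + 1), c k * (0 : ℂ) ^ k = c 0 := by
      rw [Finset.sum_range_succ']
      simp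
    rw [h2, zero_mul, add_zero, Complex.sub_re] at h1
    exact h1
  by_contra hcon
  push Not at hcon
  have h1 := hgood (((h₀ x).re - (c 0).re) / (2 * (M + 1))) (by
    apply div_pos (by linarith) (by linarith))
  have h2 : ((h₀ x).re - (c 0).re) / (2 * (M + 1)) * M ≤ ((h₀ x).re - (c 0).re) / 2 := by
    rw [div_mul_eq_mul_div, div_le_div_iff₀ (by linarith) (by norm_num)]
    nlinarith
  linarith


/-! ### minimizer -/
/-- TARGET. The distance of a functional to the line `ℂ a` is the norm of its restriction to the kernel of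
`a`. -/
theorem minimizer {X : Type*} [NormedAddCommGroup X] [NormedSpace ℂ X] (a : X →L[ℂ] ℂ)
    (ha : ‖a‖ = 1) (h : X →L[ℂ] ℂ) :
    ∃ τ : ℂ, ∀ ε : ℝ, 0 < ε → ∃ x : X, ‖x‖ ≤ 1 ∧ a x = 0 ∧ ‖h - τ • a‖ - ε < (h x).re := by
  obtain ⟨g, hg, hgn⟩ := exists_extension_norm_eq (LinearMap.ker (a : X →ₗ[ℂ] ℂ))
    (h.comp (LinearMap.ker (a : X →ₗ[ℂ] ℂ)).subtypeL)
  have hz : ∃ z, a z = 1 := by
    have h1 : ∃ z, a z ≠ 0 := by
      by_contra hcon
      push Not at hcon
      have h2 : a = 0 := by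
        ext x
        simpa using hcon x
      rw [h2, norm_zero] at ha
      exact zero_ne_one ha
    obtain ⟨z, hz⟩ := h1
    refine ⟨(a z)⁻¹ • z, ?_⟩
    rw [map_smul, smul_eq_mul, inv_mul_cancel₀ hz]
  obtain ⟨z, hz⟩ := hz
  refine ⟨h z - g z, ?_⟩
  have hext : h - (h z - g z) • a = g := by
    ext y
    have hy : y - a y • z ∈ LinearMap.ker (a : X →ₗ[ℂ] ℂ) := by
      rw [LinearMap.mem_ker]
      show a (y - a y • z) = 0
      rw [map_sub, map_smul, hz, smul_eq_mul, mul_one, sub_self]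
    have h1 : g (y - a y • z) = h (y - a y • z) := hg ⟨y - a y • z, hy⟩
    rw [map_sub, map_sub, map_smul, map_smul, smul_eq_mul, smul_eq_mul] at h1
    show h y - (h z - g z) * a y = g y
    linear_combination -h1
  intro ε hε
  rw [hext, hgn]
  obtain ⟨x, hx1, hx2⟩ := ContinuousLinearMap.exists_lt_apply_of_lt_opNorm
    (h.comp (LinearMap.ker (a : X →ₗ[ℂ] ℂ)).subtypeL) (r :=
      ‖h.comp (LinearMap.ker (a : X →ₗ[ℂ] ℂ)).subtypeL‖ - ε) (by linarith)
  obtain ⟨c, hc1, hc2⟩ := RCLike.exists_norm_eq_mul_self (h (x : X))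
  refine ⟨c • (x : X), ?_, ?_, ?_⟩
  · rw [norm_smul, hc1, one_mul]
    exact hx1.le
  · rw [map_smul]
    have : a (x : X) = 0 := x.2
    rw [this, smul_zero]
  · rw [map_smul, smul_eq_mul, ← hc2]
    exact hx2


/-! ### semiL -/
theorem semiL_arg (s : ℂ) : ∃ θ : ℝ, 0 ≤ θ ∧ θ ≤ 2 * Real.pi ∧
    s = (‖s‖ : ℂ) * Complex.exp (-(θ * Complex.I)) := by
  have h1 := Complex.norm_mul_exp_arg_mul_I s
  have h2 := Complex.neg_pi_lt_arg s
  have h3 := Complex.arg_le_pi s
  have hpi := Real.pi_pos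
  by_cases h : Complex.arg s ≤ 0
  · refine ⟨-Complex.arg s, by linarith, by linarith, ?_⟩
    conv_lhs => rw [← h1]
    congr 2
    push_cast
    ring
  · refine ⟨2 * Real.pi - Complex.arg s, by linarith, by linarith, ?_⟩
    conv_lhs => rw [← h1]
    congr 1
    have h4 : -(((2 * Real.pi - Complex.arg s : ℝ) : ℂ) * Complex.I) =
        (Complex.arg s : ℂ) * Complex.I - 2 * Real.pi * Complex.I := by
      push_cast
      ring
    rw [h4, Complex.exp_sub, Complex.exp_two_pi_mul_I, div_one]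

theorem semiL_main {X : Type*} [NormedAddCommGroup X] [NormedSpace ℂ X] (a : X →L[ℂ] ℂ)
    (ha : ‖a‖ = 1) (hg : Good a) (h₀ : X →L[ℂ] ℂ)
    (hx : ∀ ε : ℝ, 0 < ε → ∃ x : X, ‖x‖ ≤ 1 ∧ a x = 0 ∧ ‖h₀‖ - ε < (h₀ x).re)
    (R : ℝ) (hR : 0 ≤ R) (θ₀ : ℝ) (h0 : 0 ≤ θ₀) (h1 : θ₀ ≤ 2 * Real.pi) :
    ‖h₀ + ((R : ℂ) * Complex.exp (-(θ₀ * Complex.I))) • a‖ = ‖h₀‖ + R := by
  have hpi := Real.pi_pos
  set F : ℝ → ℝ := fun θ =>
    ‖h₀ + ((R : ℂ) * Complex.exp (-(θ * Complex.I))) • a‖ - R with hF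
  have hFc : Continuous F := by
    have h2 : Continuous (fun θ : ℝ => (R : ℂ) * Complex.exp (-(θ * Complex.I))) := by
      fun_prop
    exact ((continuous_const.add (h2.smul continuous_const)).norm).sub continuous_const
  have hnorm : ∀ θ : ℝ, ‖((R : ℂ) * Complex.exp (-(θ * Complex.I))) • a‖ = R := by
    intro θ
    have h3 : -((θ : ℂ) * Complex.I) = ((-θ : ℝ) : ℂ) * Complex.I := by
      push_cast
      ring
    rw [norm_smul, norm_mul, h3, Complex.norm_exp_ofReal_mul_I, ha, Complex.norm_real,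
      Real.norm_eq_abs, abs_of_nonneg hR]
    ring
  have hle : ∀ θ, F θ ≤ ‖h₀‖ := by
    intro θ
    have := norm_add_le h₀ (((R : ℂ) * Complex.exp (-(θ * Complex.I))) • a)
    rw [hnorm] at this
    simp only [hF]
    linarith
  have hkey : 2 * Real.pi * ‖h₀‖ ≤ ∫ θ in (0 : ℝ)..(2 * Real.pi), F θ := by
    refine le_of_forall_pos_le_add (fun ε hε => ?_)
    obtain ⟨x, hx1, hx2, hx3⟩ := hx (ε / (2 * Real.pi)) (by positivity)
    have h4 := key a ha hg h₀ 0 R hR x hx1 hx2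
    have h40 : ∀ θ : ℝ, h₀ + Complex.exp (θ * Complex.I) • (0 : X →L[ℂ] ℂ) = h₀ := by
      intro θ
      ext y
      simp
    simp_rw [h40] at h4
    have h5 : 2 * Real.pi * (‖h₀‖ - ε / (2 * Real.pi)) ≤ 2 * Real.pi * (h₀ x).re :=
      mul_le_mul_of_nonneg_left hx3.le (by positivity)
    have h6 : 2 * Real.pi * (‖h₀‖ - ε / (2 * Real.pi)) = 2 * Real.pi * ‖h₀‖ - ε := by
      field_simp
    rw [h6] at h5
    linarith
  have hFF : F θ₀ = ‖h₀‖ := by
    by_contra hne
    have hlt : 0 < ‖h₀‖ - F θ₀ := sub_pos.mpr (lt_of_le_of_ne (hle θ₀) hne)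
    have h7 : 0 < ∫ θ in (0 : ℝ)..(2 * Real.pi), (‖h₀‖ - F θ) := by
      refine intervalIntegral.integral_pos (by positivity)
        (continuous_const.sub hFc).continuousOn ?_ ⟨θ₀, ⟨h0, h1⟩, hlt⟩
      intro θ _
      linarith [hle θ]
    rw [intervalIntegral.integral_sub (by simp) (hFc.intervalIntegrable _ _)] at h7
    rw [intervalIntegral.integral_const] at h7
    simp only [smul_eq_mul, sub_zero] at h7
    linarith
  simp only [hF] at hFF
  linarith

/-- TARGET. The line spanned by a good functional is a semi-L-summand. -/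
theorem semiL {X : Type*} [NormedAddCommGroup X] [NormedSpace ℂ X] (a : X →L[ℂ] ℂ)
    (ha : ‖a‖ = 1) (hg : Good a) (h : X →L[ℂ] ℂ) :
    ∃ τ : ℂ, (∀ s : ℂ, ‖h - τ • a + s • a‖ = ‖h - τ • a‖ + ‖s‖) ∧
      ∀ ε : ℝ, 0 < ε → ∃ x : X, ‖x‖ ≤ 1 ∧ a x = 0 ∧ ‖h - τ • a‖ - ε < (h x).re := by
  obtain ⟨τ, hτ⟩ := minimizer a ha h
  refine ⟨τ, ?_, hτ⟩
  have hx : ∀ ε : ℝ, 0 < ε → ∃ x : X, ‖x‖ ≤ 1 ∧ a x = 0 ∧
      ‖h - τ • a‖ - ε < ((h - τ • a) x).re := by
    intro ε hε
    obtain ⟨x, h1, h2, h3⟩ := hτ ε hε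
    refine ⟨x, h1, h2, ?_⟩
    have h4 : (h - τ • a) x = h x := by
      change h x - τ • a x = h x
      rw [h2, smul_zero, sub_zero]
    rw [h4]
    exact h3
  intro s
  obtain ⟨θ, h1, h2, h3⟩ := semiL_arg s
  have h4 := semiL_main a ha hg (h - τ • a) hx ‖s‖ (norm_nonneg s) θ h1 h2
  rw [← h3] at h4
  exact h4


/-! ### tau_exists -/
theorem tau_exists_gen {E : Type*} [NormedAddCommGroup E] [NormedSpace ℂ E] (a : E) (τ : E → ℂ)
    (h1 : ∀ h (s : ℂ), ‖h - τ h • a + s • a‖ = ‖h - τ h • a‖ + ‖s‖) :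
    (∀ h (s : ℂ), ‖h + s • a‖ = ‖h - τ h • a‖ + ‖τ h + s‖) ∧
      (∀ h (c : ℂ), τ (c • h) = c * τ h) ∧ (∀ f g, ‖τ f - τ g‖ ≤ 3 * ‖f - g‖) ∧
      (∀ f g, |‖f - τ f • a‖ - ‖g - τ g • a‖| ≤ ‖f - g‖) ∧ (∀ h, ‖τ h‖ ≤ ‖h‖) := by
  have K : ∀ h (s : ℂ), ‖h + s • a‖ = ‖h - τ h • a‖ + ‖τ h + s‖ := by
    intro h s
    rw [← h1 h (τ h + s)]
    congr 1
    rw [add_smul]
    abel
  have Kn : ∀ h (s : ℂ), ‖h - s • a‖ = ‖h - τ h • a‖ + ‖τ h - s‖ := by
    intro h s
    have := K h (-s)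
    rwa [neg_smul, ← sub_eq_add_neg, ← sub_eq_add_neg] at this
  have key : ∀ f g, ‖f - τ f • a‖ + ‖τ f - τ g‖ ≤ ‖g - τ g • a‖ + ‖f - g‖ := by
    intro f g
    rw [← Kn f (τ g)]
    calc ‖f - τ g • a‖ = ‖(g - τ g • a) + (f - g)‖ := by congr 1; abel
      _ ≤ _ := norm_add_le _ _
  have key2 : ∀ f g, ‖f - τ f • a‖ - ‖g - τ g • a‖ ≤ ‖f - g‖ := by
    intro f g
    have := key f g
    have := norm_nonneg (τ f - τ g)
    linarith
  refine ⟨K, ?_, ?_, ?_, ?_⟩
  · intro h c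
    rcases eq_or_ne c 0 with rfl | hc
    · rw [zero_smul, zero_mul]
      have e1 := K 0 0
      rw [zero_smul, add_zero, norm_zero, add_zero] at e1
      have e2 := norm_nonneg ((0 : E) - τ 0 • a)
      have e3 := norm_nonneg (τ (0 : E))
      have e4 : ‖τ (0 : E)‖ = 0 := by linarith
      exact norm_eq_zero.1 e4
    · have hc' : 0 < ‖c‖ := norm_pos_iff.2 hc
      have e0 : ∀ s : ℂ, ‖c • h - s • a‖ = ‖c‖ * (‖h - τ h • a‖ + ‖τ h - s / c‖) := by
        intro s
        rw [← Kn h (s / c), ← norm_smul, smul_sub, smul_smul]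
        congr 3
        field_simp
      have e1 : ‖c‖ * ‖h - τ h • a‖ = ‖c • h - τ (c • h) • a‖ + ‖τ (c • h) - c * τ h‖ := by
        rw [← Kn (c • h) (c * τ h), e0, mul_div_cancel_left₀ _ hc, sub_self, norm_zero, add_zero]
      have e2 : ‖c • h - τ (c • h) • a‖ = ‖c‖ * (‖h - τ h • a‖ + ‖τ h - τ (c • h) / c‖) := e0 _
      have e3 : 0 ≤ ‖c‖ * ‖τ h - τ (c • h) / c‖ := by positivity
      have e4 := norm_nonneg (τ (c • h) - c * τ h)
      have e5 : ‖τ (c • h) - c * τ h‖ = 0 := by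
        rw [mul_add] at e2
        linarith
      exact sub_eq_zero.1 (norm_eq_zero.1 e5)
  · intro f g
    have e1 := key f g
    have e2 := key2 g f
    rw [norm_sub_rev g f] at e2
    have e3 := norm_nonneg (f - g)
    linarith
  · intro f g
    rw [abs_le]
    have e1 := key2 f g
    have e2 := key2 g f
    rw [norm_sub_rev g f] at e2
    constructor
    · linarith
    · exact e1
  · intro h
    have e1 := K h 0
    rw [zero_smul, add_zero, add_zero] at e1
    have e2 := norm_nonneg (h - τ h • a)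
    linarith

/-- TARGET. The functions `τ` and `M`. -/
theorem tau_exists {X : Type*} [NormedAddCommGroup X] [NormedSpace ℂ X] (a : X →L[ℂ] ℂ)
    (ha : ‖a‖ = 1) (hg : Good a) :
    ∃ (τ : (X →L[ℂ] ℂ) → ℂ) (M : (X →L[ℂ] ℂ) → ℝ),
      (∀ h, M h = ‖h - τ h • a‖) ∧ (∀ h (s : ℂ), ‖h + s • a‖ = M h + ‖τ h + s‖) ∧
      (∀ h (c : ℂ), τ (c • h) = c * τ h) ∧ (∀ f g, ‖τ f - τ g‖ ≤ 3 * ‖f - g‖) ∧
      (∀ f g, |M f - M g| ≤ ‖f - g‖) ∧ (∀ h, ‖τ h‖ ≤ ‖h‖) ∧
      ∀ h, ∀ ε : ℝ, 0 < ε → ∃ x : X, ‖x‖ ≤ 1 ∧ a x = 0 ∧ M h - ε < (h x).re := by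
  choose τ h1 h2 using semiL a ha hg
  obtain ⟨K, k1, k2, k3, k4⟩ := tau_exists_gen a τ h1
  exact ⟨τ, fun h => ‖h - τ h • a‖, fun h => rfl, K, k1, k2, k3, k4, h2⟩


/-! ### K_ineq -/
theorem K_ineq_abs (R : ℝ) (hR : 0 < R) (z : ℂ) :
    ‖(R : ℂ) + z‖ ≤ R + z.re + ‖z‖ ^ 2 / (2 * R) := by
  have h0 : -‖z‖ ≤ z.re := (abs_le.mp (Complex.abs_re_le_norm z)).1
  have h1 : 0 ≤ R + z.re + ‖z‖ ^ 2 / (2 * R) := by
    have h2 : R - ‖z‖ + ‖z‖ ^ 2 / (2 * R) = ((R - ‖z‖) ^ 2 + R ^ 2) / (2 * R) := by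
      field_simp
      ring
    have h3 : 0 ≤ ((R - ‖z‖) ^ 2 + R ^ 2) / (2 * R) := by positivity
    linarith
  refine le_of_sq_le_sq ?_ h1
  have e1 : ‖(R : ℂ) + z‖ ^ 2 = R ^ 2 + 2 * R * z.re + ‖z‖ ^ 2 := by
    rw [Complex.sq_norm, Complex.sq_norm, Complex.normSq_apply, Complex.normSq_apply]
    simp only [Complex.add_re, Complex.ofReal_re, Complex.add_im, Complex.ofReal_im]
    ring
  have e2 : (R + z.re + ‖z‖ ^ 2 / (2 * R)) ^ 2 = R ^ 2 + 2 * R * z.re + ‖z‖ ^ 2 +
      (z.re + ‖z‖ ^ 2 / (2 * R)) ^ 2 := by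
    field_simp
    ring
  rw [e1, e2]
  have := sq_nonneg (z.re + ‖z‖ ^ 2 / (2 * R))
  linarith

/-- TARGET. The mean value inequality for `M` and `τ`. -/
theorem K_ineq {X : Type*} [NormedAddCommGroup X] [NormedSpace ℂ X] (a : X →L[ℂ] ℂ)
    (ha : ‖a‖ = 1) (hg : Good a) (τ : (X →L[ℂ] ℂ) → ℂ) (M : (X →L[ℂ] ℂ) → ℝ)
    (h1 : ∀ h (s : ℂ), ‖h + s • a‖ = M h + ‖τ h + s‖)
    (h2 : ∀ f g, ‖τ f - τ g‖ ≤ 3 * ‖f - g‖) (h3 : ∀ f g, |M f - M g| ≤ ‖f - g‖)
    (h4 : ∀ h, ‖τ h‖ ≤ ‖h‖)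
    (h5 : ∀ h, ∀ ε : ℝ, 0 < ε → ∃ x : X, ‖x‖ ≤ 1 ∧ a x = 0 ∧ M h - ε < (h x).re)
    (h₀ h₁ : X →L[ℂ] ℂ) :
    2 * Real.pi * M h₀ ≤ ∫ θ in (0 : ℝ)..(2 * Real.pi),
      (M (h₀ + Complex.exp (θ * Complex.I) • h₁) +
        (τ (h₀ + Complex.exp (θ * Complex.I) • h₁) * Complex.exp (θ * Complex.I)).re) := by
  have hMc : Continuous M := by
    have : LipschitzWith 1 M := LipschitzWith.of_dist_le_mul fun f g => by
      rw [Real.dist_eq, dist_eq_norm, NNReal.coe_one, one_mul]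
      exact h3 f g
    exact this.continuous
  have hτc : Continuous τ := by
    have : LipschitzWith 3 τ := LipschitzWith.of_dist_le_mul fun f g => by
      rw [dist_eq_norm, dist_eq_norm]
      exact_mod_cast h2 f g
    exact this.continuous
  have hHc : Continuous fun θ : ℝ => h₀ + Complex.exp (θ * Complex.I) • h₁ := by fun_prop
  set F : ℝ → ℝ := fun θ => M (h₀ + Complex.exp (θ * Complex.I) • h₁) +
        (τ (h₀ + Complex.exp (θ * Complex.I) • h₁) * Complex.exp (θ * Complex.I)).re with hF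
  have hFc : Continuous F := by
    have c1 : Continuous fun θ : ℝ => M (h₀ + Complex.exp (θ * Complex.I) • h₁) := hMc.comp hHc
    have c2 : Continuous fun θ : ℝ => τ (h₀ + Complex.exp (θ * Complex.I) • h₁) := hτc.comp hHc
    have c3 : Continuous fun θ : ℝ => Complex.exp (θ * Complex.I) := by fun_prop
    exact c1.add (Complex.continuous_re.comp (c2.mul c3))
  set C : ℝ := ‖h₀‖ + ‖h₁‖ with hC
  have hC0 : 0 ≤ C := by positivity
  have hexp : ∀ θ : ℝ, ‖Complex.exp (θ * Complex.I)‖ = 1 := Complex.norm_exp_ofReal_mul_I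
  have hHn : ∀ θ : ℝ, ‖h₀ + Complex.exp (θ * Complex.I) • h₁‖ ≤ C := by
    intro θ
    refine (norm_add_le _ _).trans ?_
    rw [norm_smul, hexp, one_mul]
  have hpi := Real.pi_pos
  have main : ∀ R : ℝ, 0 < R → ∀ x : X, ‖x‖ ≤ 1 → a x = 0 →
      2 * Real.pi * (h₀ x).re ≤ (∫ θ in (0 : ℝ)..(2 * Real.pi), F θ) +
        2 * Real.pi * (C ^ 2 / (2 * R)) := by
    intro R hR x hx hax
    refine (key a ha hg h₀ h₁ R hR.le x hx hax).trans ?_
    have hpt : ∀ θ : ℝ, (‖h₀ + Complex.exp (θ * Complex.I) • h₁ +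
        (((R : ℂ) * Complex.exp (-(θ * Complex.I))) • a)‖ - R) ≤ F θ + C ^ 2 / (2 * R) := by
      intro θ
      rw [h1]
      have hinv : Complex.exp (θ * Complex.I) * Complex.exp (-(θ * Complex.I)) = 1 := by
        rw [← Complex.exp_add, add_neg_cancel, Complex.exp_zero]
      have hneg : ‖Complex.exp (-(θ * Complex.I))‖ = 1 := by
        have := congrArg norm hinv
        rw [norm_mul, hexp, one_mul, norm_one] at this
        exact this
      set z : ℂ := τ (h₀ + Complex.exp (θ * Complex.I) • h₁) * Complex.exp (θ * Complex.I) with hz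
      have e1 : τ (h₀ + Complex.exp (θ * Complex.I) • h₁) +
          (R : ℂ) * Complex.exp (-(θ * Complex.I)) =
          ((R : ℂ) + z) * Complex.exp (-(θ * Complex.I)) := by
        rw [hz, add_mul, mul_assoc, hinv]
        ring
      have hzn : ‖z‖ ≤ C := by
        rw [hz, norm_mul, hexp, mul_one]
        exact (h4 _).trans (hHn θ)
      have h6 := K_ineq_abs R hR z
      rw [e1, norm_mul, hneg, mul_one]
      have h7 : ‖z‖ ^ 2 / (2 * R) ≤ C ^ 2 / (2 * R) := by gcongr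
      simp only [hF]
      rw [← hz]
      linarith
    have hint := intervalIntegral.integral_mono (μ := MeasureTheory.volume)
      (a := 0) (b := 2 * Real.pi) (by positivity)
      (f := fun θ : ℝ => (‖h₀ + Complex.exp (θ * Complex.I) • h₁ +
        (((R : ℂ) * Complex.exp (-(θ * Complex.I))) • a)‖ - R))
      (g := fun θ => F θ + C ^ 2 / (2 * R))
      (Continuous.intervalIntegrable (by fun_prop) _ _)
      (Continuous.intervalIntegrable (hFc.add continuous_const) _ _) hpt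
    refine hint.trans (le_of_eq ?_)
    rw [intervalIntegral.integral_add (hFc.intervalIntegrable _ _)
      (continuous_const.intervalIntegrable _ _), intervalIntegral.integral_const, sub_zero,
      smul_eq_mul]
  refine le_of_forall_pos_le_add fun δ hδ => ?_
  obtain ⟨x, hx, hax, hMx⟩ := h5 h₀ (δ / (4 * Real.pi)) (by positivity)
  have hR0 : 0 < 2 * Real.pi * (C ^ 2 + 1) / δ := by positivity
  have h8 := main (2 * Real.pi * (C ^ 2 + 1) / δ) hR0 x hx hax
  have h9 : 2 * Real.pi * (C ^ 2 / (2 * (2 * Real.pi * (C ^ 2 + 1) / δ))) ≤ δ / 2 := by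
    have e : 2 * Real.pi * (C ^ 2 / (2 * (2 * Real.pi * (C ^ 2 + 1) / δ))) =
        (δ / 2) * (C ^ 2 / (C ^ 2 + 1)) := by
      field_simp
    rw [e]
    have : C ^ 2 / (C ^ 2 + 1) ≤ 1 := by
      rw [div_le_one (by positivity)]
      linarith
    exact mul_le_of_le_one_right (by positivity) this
  have h10 : 2 * Real.pi * M h₀ ≤ 2 * Real.pi * (h₀ x).re + δ / 2 := by
    have e : 2 * Real.pi * (δ / (4 * Real.pi)) = δ / 2 := by
      field_simp
      ring
    have := mul_le_mul_of_nonneg_left hMx.le (by positivity : (0:ℝ) ≤ 2 * Real.pi)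
    linarith [this, e, mul_sub (2 * Real.pi) (M h₀) (δ / (4 * Real.pi))]
  linarith


/-! ### K_avg -/
/-- TARGET. The mean value inequality on complex lines. -/
theorem K_avg {X : Type*} [NormedAddCommGroup X] [NormedSpace ℂ X]
    (τ : (X →L[ℂ] ℂ) → ℂ) (M : (X →L[ℂ] ℂ) → ℝ)
    (h2 : ∀ f g, ‖τ f - τ g‖ ≤ 3 * ‖f - g‖) (h3 : ∀ f g, |M f - M g| ≤ ‖f - g‖)
    (hK : ∀ h₀ h₁ : X →L[ℂ] ℂ, 2 * Real.pi * M h₀ ≤ ∫ θ in (0 : ℝ)..(2 * Real.pi),
      (M (h₀ + Complex.exp (θ * Complex.I) • h₁) +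
        (τ (h₀ + Complex.exp (θ * Complex.I) • h₁) * Complex.exp (θ * Complex.I)).re))
    (h₀ h₁ : X →L[ℂ] ℂ) (z : ℂ) (ρ : ℝ) (hρ : 0 < ρ) :
    ‖∫ θ in (0 : ℝ)..(2 * Real.pi),
        τ (h₀ + (z + ρ * Complex.exp (θ * Complex.I)) • h₁) * Complex.exp (θ * Complex.I)‖ ≤
      ∫ θ in (0 : ℝ)..(2 * Real.pi),
        (M (h₀ + (z + ρ * Complex.exp (θ * Complex.I)) • h₁) - M (h₀ + z • h₁)) := by
  have Mc : Continuous M := (LipschitzWith.of_dist_le_mul (K := 1) (fun f g => by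
    rw [Real.dist_eq, dist_eq_norm]; simpa using h3 f g)).continuous
  have τc : Continuous τ := (LipschitzWith.of_dist_le_mul (K := 3) (fun f g => by
    rw [dist_eq_norm, dist_eq_norm]; simpa using h2 f g)).continuous
  set P : ℝ → (X →L[ℂ] ℂ) := fun φ => h₀ + (z + ρ * Complex.exp (φ * Complex.I)) • h₁ with hP
  have Pc : Continuous P := by
    have h1 : Continuous fun φ : ℝ => (z + ρ * Complex.exp (φ * Complex.I) : ℂ) := by fun_prop
    exact continuous_const.add (h1.smul continuous_const)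
  have ec : Continuous fun φ : ℝ => Complex.exp (φ * Complex.I) := by fun_prop
  have MPc : Continuous fun φ => M (P φ) := Mc.comp Pc
  have TPc : Continuous fun φ : ℝ => τ (P φ) * Complex.exp (φ * Complex.I) := (τc.comp Pc).mul ec
  have ePer : ∀ φ : ℝ, Complex.exp (((φ + 2 * Real.pi : ℝ) : ℂ) * Complex.I) =
      Complex.exp (φ * Complex.I) := by
    intro φ
    have h1 : (((φ + 2 * Real.pi : ℝ) : ℂ) * Complex.I) = φ * Complex.I + 2 * Real.pi * Complex.I := by
      push_cast; ring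
    rw [h1, Complex.exp_add, Complex.exp_two_pi_mul_I, mul_one]
  set J : ℂ := ∫ θ in (0 : ℝ)..(2 * Real.pi), τ (P θ) * Complex.exp (θ * Complex.I) with hJ
  set α : ℝ := J.arg + Real.pi with hα
  set G : ℝ → ℝ := fun φ => M (P φ) +
    (Complex.exp (-(α * Complex.I)) * (τ (P φ) * Complex.exp (φ * Complex.I))).re with hG
  have GPer : Function.Periodic G (2 * Real.pi) := by
    intro φ
    have h1 : P (φ + 2 * Real.pi) = P φ := by
      simp only [hP]
      rw [ePer φ]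
    simp only [hG]
    rw [h1, ePer φ]
  have key := hK (h₀ + z • h₁) ((ρ * Complex.exp (α * Complex.I)) • h₁)
  have hint : ∀ θ : ℝ, (M (h₀ + z • h₁ + Complex.exp (θ * Complex.I) •
        ((ρ * Complex.exp (α * Complex.I)) • h₁)) +
      (τ (h₀ + z • h₁ + Complex.exp (θ * Complex.I) •
        ((ρ * Complex.exp (α * Complex.I)) • h₁)) * Complex.exp (θ * Complex.I)).re) = G (θ + α) := by
    intro θ
    have e0 : Complex.exp (((θ + α : ℝ) : ℂ) * Complex.I) =
        Complex.exp (θ * Complex.I) * Complex.exp (α * Complex.I) := by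
      rw [← Complex.exp_add]; push_cast; ring_nf
    have e1 : h₀ + z • h₁ + Complex.exp (θ * Complex.I) • ((ρ * Complex.exp (α * Complex.I)) • h₁) =
        P (θ + α) := by
      simp only [hP]
      rw [e0]
      module
    have e2 : Complex.exp (-(α * Complex.I)) * Complex.exp (((θ + α : ℝ) : ℂ) * Complex.I) =
        Complex.exp (θ * Complex.I) := by
      rw [e0, mul_comm, mul_assoc, ← Complex.exp_add, add_neg_cancel, Complex.exp_zero, mul_one]
    rw [e1]
    simp only [hG]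
    congr 2
    rw [mul_left_comm, e2]
  have key2 : 2 * Real.pi * M (h₀ + z • h₁) ≤ ∫ θ in (0 : ℝ)..(2 * Real.pi), G (θ + α) := by
    refine key.trans (le_of_eq ?_)
    exact intervalIntegral.integral_congr (fun θ _ => hint θ)
  rw [intervalIntegral.integral_comp_add_right] at key2
  have hshift : ∫ x in (0 + α)..(2 * Real.pi + α), G x = ∫ x in (0 : ℝ)..(2 * Real.pi), G x := by
    have h1 := GPer.intervalIntegral_add_eq α 0
    rw [zero_add] at h1
    rw [zero_add, add_comm (2 * Real.pi) α]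
    exact h1
  rw [hshift] at key2
  have hsum : ∫ x in (0 : ℝ)..(2 * Real.pi), G x = (∫ x in (0 : ℝ)..(2 * Real.pi), M (P x)) +
      (Complex.exp (-(α * Complex.I)) * J).re := by
    have i1 : IntervalIntegrable (fun x => M (P x)) MeasureTheory.volume 0 (2 * Real.pi) :=
      MPc.intervalIntegrable _ _
    have c2 : Continuous fun φ : ℝ =>
        Complex.exp (-(α * Complex.I)) * (τ (P φ) * Complex.exp (φ * Complex.I)) :=
      continuous_const.mul TPc
    have i2 : IntervalIntegrable (fun φ : ℝ =>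
        Complex.exp (-(α * Complex.I)) * (τ (P φ) * Complex.exp (φ * Complex.I)))
        MeasureTheory.volume 0 (2 * Real.pi) := c2.intervalIntegrable _ _
    have i3 : IntervalIntegrable (fun φ : ℝ =>
        (Complex.exp (-(α * Complex.I)) * (τ (P φ) * Complex.exp (φ * Complex.I))).re)
        MeasureTheory.volume 0 (2 * Real.pi) :=
      (Complex.continuous_re.comp c2).intervalIntegrable _ _
    simp only [hG]
    rw [intervalIntegral.integral_add i1 i3]
    congr 1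
    have h1 := Complex.reCLM.intervalIntegral_comp_comm i2
    simp only [Complex.reCLM_apply] at h1
    rw [h1, intervalIntegral.integral_const_mul]
  have hJarg : Complex.exp (-(α * Complex.I)) * J = -(‖J‖ : ℂ) := by
    have h1 : (‖J‖ : ℂ) * Complex.exp (J.arg * Complex.I) = J := Complex.norm_mul_exp_arg_mul_I J
    have h2 : Complex.exp (-(α * Complex.I)) = -Complex.exp (-(J.arg * Complex.I)) := by
      rw [hα]
      have h3 : -(((J.arg + Real.pi : ℝ) : ℂ) * Complex.I) =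
          -(J.arg * Complex.I) - Real.pi * Complex.I := by push_cast; ring
      rw [h3, Complex.exp_sub, Complex.exp_pi_mul_I]
      ring
    rw [h2]
    calc -Complex.exp (-(J.arg * Complex.I)) * J
        = -Complex.exp (-(J.arg * Complex.I)) * ((‖J‖ : ℂ) * Complex.exp (J.arg * Complex.I)) := by
          rw [h1]
      _ = -(‖J‖ : ℂ) * (Complex.exp (-(J.arg * Complex.I)) * Complex.exp (J.arg * Complex.I)) := by
          ring
      _ = -(‖J‖ : ℂ) := by
          rw [← Complex.exp_add, neg_add_cancel, Complex.exp_zero, mul_one]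
  rw [hsum, hJarg] at key2
  have hre : (-(‖J‖ : ℂ)).re = -‖J‖ := by simp
  rw [hre] at key2
  have hfin : ∫ θ in (0 : ℝ)..(2 * Real.pi), (M (P θ) - M (h₀ + z • h₁)) =
      (∫ x in (0 : ℝ)..(2 * Real.pi), M (P x)) - 2 * Real.pi * M (h₀ + z • h₁) := by
    rw [intervalIntegral.integral_sub (MPc.intervalIntegrable _ _) intervalIntegrable_const,
      intervalIntegral.integral_const, smul_eq_mul, sub_zero]
  show ‖J‖ ≤ ∫ θ in (0 : ℝ)..(2 * Real.pi), (M (P θ) - M (h₀ + z • h₁))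
  rw [hfin]
  linarith


/-! ### cr_of_avg -/
theorem cr_of_avg_exp (θ : ℝ) :
    Complex.exp (θ * Complex.I) = ((Real.cos θ : ℝ) : ℂ) + ((Real.sin θ : ℝ) : ℂ) * Complex.I := by
  rw [Complex.exp_mul_I, Complex.ofReal_cos, Complex.ofReal_sin]

theorem cr_of_avg_norm (θ : ℝ) : ‖Complex.exp (θ * Complex.I)‖ = 1 :=
  Complex.norm_exp_ofReal_mul_I θ

theorem cr_of_avg_lin {F : Type*} [NormedAddCommGroup F] [NormedSpace ℝ F] (D : ℂ →L[ℝ] F) (θ : ℝ) :
    D (Complex.exp (θ * Complex.I)) = Real.cos θ • D 1 + Real.sin θ • D Complex.I := by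
  rw [cr_of_avg_exp, map_add, ← map_smul, ← map_smul]
  congr 2
  · simp
  
theorem cr_of_avg_J (D : ℂ →L[ℝ] ℂ) :
    ∫ θ in (0 : ℝ)..(2 * Real.pi), D (Complex.exp (θ * Complex.I)) * Complex.exp (θ * Complex.I) =
      Real.pi * (D 1 + Complex.I * D Complex.I) := by
  have h : ∀ θ : ℝ, D (Complex.exp (θ * Complex.I)) * Complex.exp (θ * Complex.I) =
      ((Real.cos θ ^ 2 : ℝ) : ℂ) * D 1 + ((Real.sin θ * Real.cos θ : ℝ) : ℂ) *
        (D 1 * Complex.I + D Complex.I) + ((Real.sin θ ^ 2 : ℝ) : ℂ) * (D Complex.I * Complex.I) := by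
    intro θ
    rw [cr_of_avg_lin, cr_of_avg_exp]
    simp only [Complex.real_smul]
    push_cast
    ring
  simp_rw [h]
  have c1 : Continuous fun θ : ℝ => ((Real.cos θ ^ 2 : ℝ) : ℂ) * D 1 := by fun_prop
  have c2 : Continuous fun θ : ℝ => ((Real.sin θ * Real.cos θ : ℝ) : ℂ) *
        (D 1 * Complex.I + D Complex.I) := by fun_prop
  have c3 : Continuous fun θ : ℝ => ((Real.sin θ ^ 2 : ℝ) : ℂ) * (D Complex.I * Complex.I) := by fun_prop
  have c12 : Continuous fun θ : ℝ => ((Real.cos θ ^ 2 : ℝ) : ℂ) * D 1 +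
      ((Real.sin θ * Real.cos θ : ℝ) : ℂ) * (D 1 * Complex.I + D Complex.I) := by fun_prop
  rw [intervalIntegral.integral_add (c12.intervalIntegrable _ _) (c3.intervalIntegrable _ _),
    intervalIntegral.integral_add (c1.intervalIntegrable _ _) (c2.intervalIntegrable _ _),
    intervalIntegral.integral_mul_const, intervalIntegral.integral_mul_const,
    intervalIntegral.integral_mul_const, intervalIntegral.integral_ofReal,
    intervalIntegral.integral_ofReal, intervalIntegral.integral_ofReal, integral_cos_sq,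
    integral_sin_sq, integral_sin_mul_cos₁]
  simp
  ring

theorem cr_of_avg_E {F : Type*} [NormedAddCommGroup F] [NormedSpace ℝ F] [CompleteSpace F]
    (E : ℂ →L[ℝ] F) :
    ∫ θ in (0 : ℝ)..(2 * Real.pi), E (Complex.exp (θ * Complex.I)) = 0 := by
  simp_rw [cr_of_avg_lin]
  have c1 : Continuous fun θ : ℝ => Real.cos θ • E 1 := by fun_prop
  have c2 : Continuous fun θ : ℝ => Real.sin θ • E Complex.I := by fun_prop
  rw [intervalIntegral.integral_add (c1.intervalIntegrable _ _) (c2.intervalIntegrable _ _),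
    intervalIntegral.integral_smul_const, intervalIntegral.integral_smul_const]
  simp

/-- TARGET. A real differentiable function whose weighted circle means are controlled by the excess of a
real differentiable function satisfies the Cauchy-Riemann equations. -/
theorem cr_of_avg (t : ℂ → ℂ) (m : ℂ → ℝ) (ht : Differentiable ℝ t) (hm : Differentiable ℝ m)
    (h : ∀ z : ℂ, ∀ ρ : ℝ, 0 < ρ →
      ‖∫ θ in (0 : ℝ)..(2 * Real.pi),
        t (z + ρ * Complex.exp (θ * Complex.I)) * Complex.exp (θ * Complex.I)‖ ≤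
      ∫ θ in (0 : ℝ)..(2 * Real.pi), (m (z + ρ * Complex.exp (θ * Complex.I)) - m z)) :
    Differentiable ℂ t := by
  intro z
  rw [differentiableAt_complex_iff_differentiableAt_real]
  refine ⟨ht z, ?_⟩
  set D := fderiv ℝ t z with hD
  set E := fderiv ℝ m z with hE
  have hDt := (hasFDerivAt_iff_isLittleO_nhds_zero.mp (ht z).hasFDerivAt)
  have hEm := (hasFDerivAt_iff_isLittleO_nhds_zero.mp (hm z).hasFDerivAt)
  set J := ∫ θ in (0 : ℝ)..(2 * Real.pi),
    D (Complex.exp (θ * Complex.I)) * Complex.exp (θ * Complex.I) with hJ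
  have hpi : (0 : ℝ) < 2 * Real.pi := by positivity
  have key : ∀ ε : ℝ, 0 < ε → ‖J‖ ≤ 4 * Real.pi * ε := by
    intro ε hε
    have h1 := (hDt.def hε).and (hEm.def hε)
    rw [Metric.eventually_nhds_iff] at h1
    obtain ⟨δ, hδ, h1⟩ := h1
    set ρ := δ / 2 with hρdef
    have hρ : 0 < ρ := by positivity
    have hnorm : ∀ θ : ℝ, ‖(ρ : ℂ) * Complex.exp (θ * Complex.I)‖ = ρ := by
      intro θ
      rw [norm_mul, cr_of_avg_norm, mul_one, Complex.norm_real, Real.norm_eq_abs, abs_of_pos hρ]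
    have h2 : ∀ θ : ℝ, ‖t (z + ρ * Complex.exp (θ * Complex.I)) - t z -
        D (ρ * Complex.exp (θ * Complex.I))‖ ≤ ε * ρ ∧
        ‖m (z + ρ * Complex.exp (θ * Complex.I)) - m z -
        E (ρ * Complex.exp (θ * Complex.I))‖ ≤ ε * ρ := by
      intro θ
      have := h1 (y := (ρ : ℂ) * Complex.exp (θ * Complex.I))
        (by rw [dist_zero_right, hnorm, hρdef]; linarith)
      rw [hnorm] at this
      exact this
    have ce : Continuous fun θ : ℝ => Complex.exp (θ * Complex.I) := by fun_prop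
    have ct : Continuous fun θ : ℝ => t (z + ρ * Complex.exp (θ * Complex.I)) :=
      ht.continuous.comp (by fun_prop)
    have cm : Continuous fun θ : ℝ => m (z + ρ * Complex.exp (θ * Complex.I)) :=
      hm.continuous.comp (by fun_prop)
    have cD : Continuous fun θ : ℝ => D (ρ * Complex.exp (θ * Complex.I)) :=
      D.continuous.comp (by fun_prop)
    have cE : Continuous fun θ : ℝ => E (ρ * Complex.exp (θ * Complex.I)) :=
      E.continuous.comp (by fun_prop)
    have hDρ : ∀ θ : ℝ, D (ρ * Complex.exp (θ * Complex.I)) = ρ * D (Complex.exp (θ * Complex.I)) := by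
      intro θ
      have := D.map_smul ρ (Complex.exp (θ * Complex.I))
      rwa [Complex.real_smul, Complex.real_smul] at this
    have hEρ : ∀ θ : ℝ, E (ρ * Complex.exp (θ * Complex.I)) = ρ * E (Complex.exp (θ * Complex.I)) := by
      intro θ
      have := E.map_smul ρ (Complex.exp (θ * Complex.I))
      rwa [Complex.real_smul, smul_eq_mul] at this
    -- the D part
    have hA : ∫ θ in (0 : ℝ)..(2 * Real.pi),
        D (ρ * Complex.exp (θ * Complex.I)) * Complex.exp (θ * Complex.I) = ρ * J := by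
      rw [hJ, ← intervalIntegral.integral_const_mul]
      congr 1
      ext θ
      rw [hDρ, mul_assoc]
    have hB : ∫ θ in (0 : ℝ)..(2 * Real.pi), t z * Complex.exp (θ * Complex.I) = 0 := by
      rw [intervalIntegral.integral_const_mul]
      have := cr_of_avg_E (ContinuousLinearMap.id ℝ ℂ)
      simp only [ContinuousLinearMap.id_apply] at this
      rw [this, mul_zero]
    have hsplit : ρ * J = (∫ θ in (0 : ℝ)..(2 * Real.pi),
        t (z + ρ * Complex.exp (θ * Complex.I)) * Complex.exp (θ * Complex.I)) -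
        ∫ θ in (0 : ℝ)..(2 * Real.pi), (t (z + ρ * Complex.exp (θ * Complex.I)) - t z -
        D (ρ * Complex.exp (θ * Complex.I))) * Complex.exp (θ * Complex.I) := by
      have d1 : Continuous fun θ : ℝ =>
        t (z + ρ * Complex.exp (θ * Complex.I)) * Complex.exp (θ * Complex.I) := ct.mul ce
      have d2 : Continuous fun θ : ℝ => (t (z + ρ * Complex.exp (θ * Complex.I)) - t z -
        D (ρ * Complex.exp (θ * Complex.I))) * Complex.exp (θ * Complex.I) :=
        ((ct.sub continuous_const).sub cD).mul ce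
      rw [← intervalIntegral.integral_sub (d1.intervalIntegrable _ _)
        (d2.intervalIntegrable _ _), ← hA]
      have : ∀ θ : ℝ, t (z + ρ * Complex.exp (θ * Complex.I)) * Complex.exp (θ * Complex.I) -
          (t (z + ρ * Complex.exp (θ * Complex.I)) - t z -
          D (ρ * Complex.exp (θ * Complex.I))) * Complex.exp (θ * Complex.I) =
          t z * Complex.exp (θ * Complex.I) +
          D (ρ * Complex.exp (θ * Complex.I)) * Complex.exp (θ * Complex.I) := by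
        intro θ; ring
      simp_rw [this]
      have d3 : Continuous fun θ : ℝ => t z * Complex.exp (θ * Complex.I) :=
        continuous_const.mul ce
      have d4 : Continuous fun θ : ℝ =>
        D (ρ * Complex.exp (θ * Complex.I)) * Complex.exp (θ * Complex.I) := cD.mul ce
      rw [intervalIntegral.integral_add (d3.intervalIntegrable _ _)
        (d4.intervalIntegrable _ _), hB, zero_add]
    have herr : ‖∫ θ in (0 : ℝ)..(2 * Real.pi), (t (z + ρ * Complex.exp (θ * Complex.I)) - t z -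
        D (ρ * Complex.exp (θ * Complex.I))) * Complex.exp (θ * Complex.I)‖ ≤ ε * ρ * |2 * Real.pi - 0| := by
      apply intervalIntegral.norm_integral_le_of_norm_le_const
      intro θ _
      rw [norm_mul, cr_of_avg_norm, mul_one]
      exact (h2 θ).1
    have hm0 : ∫ θ in (0 : ℝ)..(2 * Real.pi), (m (z + ρ * Complex.exp (θ * Complex.I)) - m z) =
        ∫ θ in (0 : ℝ)..(2 * Real.pi), (m (z + ρ * Complex.exp (θ * Complex.I)) - m z -
          E (ρ * Complex.exp (θ * Complex.I))) := by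
      have d5 : Continuous fun θ : ℝ => m (z + ρ * Complex.exp (θ * Complex.I)) - m z :=
        cm.sub continuous_const
      rw [intervalIntegral.integral_sub (d5.intervalIntegrable _ _)
        (cE.intervalIntegrable _ _)]
      have : ∫ θ in (0 : ℝ)..(2 * Real.pi), E (ρ * Complex.exp (θ * Complex.I)) = 0 := by
        simp_rw [hEρ]
        rw [intervalIntegral.integral_const_mul, cr_of_avg_E, mul_zero]
      rw [this, sub_zero]
    have herrm : ‖∫ θ in (0 : ℝ)..(2 * Real.pi), (m (z + ρ * Complex.exp (θ * Complex.I)) - m z -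
          E (ρ * Complex.exp (θ * Complex.I)))‖ ≤ ε * ρ * |2 * Real.pi - 0| := by
      apply intervalIntegral.norm_integral_le_of_norm_le_const
      intro θ _
      exact (h2 θ).2
    have hh := h z ρ hρ
    rw [hm0] at hh
    have hle := le_trans hh (le_trans (Real.le_norm_self _) herrm)
    have hfin : ‖(ρ : ℂ) * J‖ ≤ ε * ρ * |2 * Real.pi - 0| + ε * ρ * |2 * Real.pi - 0| := by
      rw [hsplit]
      exact le_trans (norm_sub_le _ _) (add_le_add hle herr)
    rw [norm_mul, Complex.norm_real, Real.norm_eq_abs, abs_of_pos hρ, sub_zero, abs_of_pos hpi] at hfin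
    have : ρ * ‖J‖ ≤ ρ * (4 * Real.pi * ε) := by linarith
    exact le_of_mul_le_mul_left this hρ
  have hJ0 : J = 0 := by
    rw [← norm_le_zero_iff]
    apply le_of_forall_pos_le_add
    intro ε hε
    have := key (ε / (4 * Real.pi)) (by positivity)
    rw [zero_add]
    refine le_trans this (le_of_eq ?_)
    field_simp
  rw [hJ, cr_of_avg_J] at hJ0
  have hpc : (Real.pi : ℂ) ≠ 0 := by exact_mod_cast Real.pi_ne_zero
  have h3 : D 1 + Complex.I * D Complex.I = 0 := (mul_eq_zero.mp hJ0).resolve_left hpc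
  have h4 : D 1 = - (Complex.I * D Complex.I) := eq_neg_of_add_eq_zero_left h3
  rw [h4, smul_eq_mul]
  have : Complex.I * -(Complex.I * D Complex.I) = - (Complex.I * Complex.I) * D Complex.I := by ring
  rw [this, Complex.I_mul_I]
  ring


/-! ### liouville_lip -/
/-- TARGET. An entire Lipschitz function is affine. -/
theorem liouville_lip (t : ℂ → ℂ) (ht : Differentiable ℂ t) (K : ℝ)
    (hK : ∀ z w, ‖t z - t w‖ ≤ K * ‖z - w‖) (z : ℂ) : t z = t 0 + z * (t 1 - t 0) := by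
  have hK0 : 0 ≤ K := by
    have h1 := hK 1 0
    have h2 : 0 ≤ ‖t 1 - t 0‖ := norm_nonneg _
    rw [sub_zero, norm_one, mul_one] at h1
    linarith
  have hd : Differentiable ℂ (deriv t) := by
    have := (ht.differentiableOn (s := Set.univ)).deriv isOpen_univ
    exact differentiableOn_univ.1 this
  have hb : ∀ w, ‖deriv t w‖ ≤ K := fun w =>
    norm_deriv_le_of_lip' hK0 (Filter.Eventually.of_forall fun x => hK x w)
  have hbd : Bornology.IsBounded (Set.range (deriv t)) := by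
    rw [isBounded_iff_forall_norm_le]
    refine ⟨K, ?_⟩
    rintro _ ⟨w, rfl⟩
    exact hb w
  have hc : ∀ w, deriv t w = deriv t 0 := fun w => hd.apply_eq_apply_of_bounded hbd w 0
  set c := deriv t 0 with hcdef
  have hg : Differentiable ℂ (fun w => t w - c * w) :=
    ht.sub ((differentiable_const c).mul differentiable_id)
  have hg' : ∀ w, deriv (fun w => t w - c * w) w = 0 := by
    intro w
    have h1 : HasDerivAt (fun w => t w - c * w) (deriv t w - c * 1) w :=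
      (ht w).hasDerivAt.sub ((hasDerivAt_id w).const_mul c)
    rw [h1.deriv, hc w]
    ring
  have h1 := is_const_of_deriv_eq_zero hg hg' z 0
  have h2 := is_const_of_deriv_eq_zero hg hg' 1 0
  simp only [mul_zero, sub_zero, mul_one] at h1 h2
  have h3 : c = t 1 - t 0 := by linear_combination -h2
  rw [← h3]
  linear_combination h1


/-! ### mollify -/
/-- swapping the integrals, for a continuous function with bounded support in the second variable. -/
theorem mollify_swap {E : Type*} [NormedAddCommGroup E] [NormedSpace ℝ E] [CompleteSpace E]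
    (H : ℝ → ℂ → E) (hH : Continuous (Function.uncurry H)) (R : ℝ)
    (h0 : ∀ θ w, R < ‖w‖ → H θ w = 0) :
    (∫ θ in (0 : ℝ)..(2 * Real.pi), ∫ w, H θ w) = ∫ w, ∫ θ in (0 : ℝ)..(2 * Real.pi), H θ w := by
  have hpi : (0 : ℝ) ≤ 2 * Real.pi := by positivity
  simp only [intervalIntegral.integral_of_le hpi]
  apply MeasureTheory.integral_integral_swap
  have e : ((MeasureTheory.volume : MeasureTheory.Measure ℝ).restrict
      (Set.Ioc 0 (2 * Real.pi))).prod (MeasureTheory.volume : MeasureTheory.Measure ℂ) =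
      ((MeasureTheory.volume : MeasureTheory.Measure ℝ).prod
        (MeasureTheory.volume : MeasureTheory.Measure ℂ)).restrict
        ((Set.Ioc 0 (2 * Real.pi)) ×ˢ Set.univ) := by
    rw [← MeasureTheory.Measure.prod_restrict, MeasureTheory.Measure.restrict_univ]
  rw [e]
  have hK : IsCompact ((Set.Icc (0 : ℝ) (2 * Real.pi)) ×ˢ (Metric.closedBall (0 : ℂ) R)) :=
    isCompact_Icc.prod (isCompact_closedBall _ _)
  have h1 : MeasureTheory.IntegrableOn (Function.uncurry H)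
      ((Set.Icc (0 : ℝ) (2 * Real.pi)) ×ˢ (Metric.closedBall (0 : ℂ) R))
      ((MeasureTheory.volume : MeasureTheory.Measure ℝ).prod
        (MeasureTheory.volume : MeasureTheory.Measure ℂ)) :=
    hH.continuousOn.integrableOn_compact hK
  refine MeasureTheory.IntegrableOn.of_forall_sdiff_eq_zero h1
    (measurableSet_Ioc.prod MeasurableSet.univ) ?_
  rintro ⟨θ, w⟩ ⟨hx, hx'⟩
  simp only [Function.uncurry]
  apply h0
  by_contra hcon
  apply hx'
  simp only [Set.mem_prod, Set.mem_univ, and_true, Set.mem_Ioc] at hx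
  simp only [Set.mem_prod, Set.mem_Icc, Metric.mem_closedBall, dist_zero_right]
  exact ⟨⟨hx.1.le, hx.2⟩, not_lt.mp hcon⟩

/-- a Lipschitz type bound gives continuity. -/
theorem mollify_cont {E : Type*} [NormedAddCommGroup E] (t : ℂ → E) (K : ℝ) (hK0 : 0 ≤ K)
    (hK : ∀ z w, ‖t z - t w‖ ≤ K * ‖z - w‖) : Continuous t := by
  have : LipschitzWith (Real.toNNReal K) t := by
    apply LipschitzWith.of_dist_le_mul
    intro x y
    rw [dist_eq_norm, dist_eq_norm, Real.coe_toNNReal _ hK0]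
    exact hK x y
  exact this.continuous

/-- the convolution integrand is integrable. -/
theorem mollify_int {E : Type*} [NormedAddCommGroup E] [NormedSpace ℝ E]
    (φ : ContDiffBump (0 : ℂ)) (t : ℂ → E) (ht : Continuous t) (z : ℂ) :
    MeasureTheory.Integrable (fun w => φ.normed MeasureTheory.volume w • t (z - w)) := by
  apply Continuous.integrable_of_hasCompactSupport
  · exact φ.continuous_normed.smul (ht.comp (continuous_const.sub continuous_id))
  · exact φ.hasCompactSupport_normed.smul_right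

/-- The mollification. -/
noncomputable def mollify_T {E : Type*} [NormedAddCommGroup E] [NormedSpace ℝ E]
    (φ : ContDiffBump (0 : ℂ)) (t : ℂ → E) (z : ℂ) : E :=
  ∫ w, φ.normed MeasureTheory.volume w • t (z - w)

theorem mollify_diff {E : Type*} [NormedAddCommGroup E] [NormedSpace ℝ E] [CompleteSpace E]
    (φ : ContDiffBump (0 : ℂ)) (t : ℂ → E) (ht : Continuous t) :
    Differentiable ℝ (mollify_T φ t) := by
  have h := (φ.hasCompactSupport_normed (μ := MeasureTheory.volume)).contDiff_convolution_left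
    (ContinuousLinearMap.lsmul ℝ ℝ : ℝ →L[ℝ] E →L[ℝ] E) (n := 1)
    (φ.contDiff_normed (n := 1)) (ht.locallyIntegrable (μ := MeasureTheory.volume))
  have h2 := h.differentiable (by norm_num)
  have e : mollify_T φ t = MeasureTheory.convolution (φ.normed MeasureTheory.volume) t
    (ContinuousLinearMap.lsmul ℝ ℝ : ℝ →L[ℝ] E →L[ℝ] E) MeasureTheory.volume := by
    funext z
    simp [mollify_T, MeasureTheory.convolution_def]
  rw [e]
  exact h2

theorem mollify_lip {E : Type*} [NormedAddCommGroup E] [NormedSpace ℝ E] [CompleteSpace E]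
    (φ : ContDiffBump (0 : ℂ)) (t : ℂ → E) (K : ℝ) (hK0 : 0 ≤ K)
    (hK : ∀ z w, ‖t z - t w‖ ≤ K * ‖z - w‖) (z w : ℂ) :
    ‖mollify_T φ t z - mollify_T φ t w‖ ≤ K * ‖z - w‖ := by
  have ht := mollify_cont t K hK0 hK
  unfold mollify_T
  rw [← MeasureTheory.integral_sub (mollify_int φ t ht z) (mollify_int φ t ht w)]
  have hb : MeasureTheory.Integrable
      (fun v : ℂ => φ.normed MeasureTheory.volume v * (K * ‖z - w‖)) :=
    (φ.integrable_normed (μ := MeasureTheory.volume)).mul_const _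
  have h1 := MeasureTheory.norm_integral_le_of_norm_le (f := fun v =>
      φ.normed MeasureTheory.volume v • t (z - v) - φ.normed MeasureTheory.volume v • t (w - v))
      hb (Filter.Eventually.of_forall (fun v => by
    show ‖φ.normed MeasureTheory.volume v • t (z - v) -
      φ.normed MeasureTheory.volume v • t (w - v)‖ ≤ _
    rw [← smul_sub, norm_smul, Real.norm_of_nonneg (φ.nonneg_normed v)]
    apply mul_le_mul_of_nonneg_left _ (φ.nonneg_normed v)
    have := hK (z - v) (w - v)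
    rwa [sub_sub_sub_cancel_right] at this))
  rw [MeasureTheory.integral_mul_const, φ.integral_normed, one_mul] at h1
  exact h1

theorem mollify_supp (φ : ContDiffBump (0 : ℂ)) (w : ℂ) (hw : φ.rOut < ‖w‖) :
    φ.normed MeasureTheory.volume w = 0 := by
  have h := φ.support_normed_eq (μ := MeasureTheory.volume)
  by_contra hne
  have : w ∈ Function.support (φ.normed MeasureTheory.volume) := hne
  rw [h] at this
  simp only [Metric.mem_ball, dist_zero_right] at this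
  linarith

theorem mollify_close {E : Type*} [NormedAddCommGroup E] [NormedSpace ℝ E] [CompleteSpace E]
    (φ : ContDiffBump (0 : ℂ)) (t : ℂ → E) (K : ℝ) (hK0 : 0 ≤ K)
    (hK : ∀ z w, ‖t z - t w‖ ≤ K * ‖z - w‖) (z : ℂ) :
    ‖mollify_T φ t z - t z‖ ≤ K * φ.rOut := by
  have ht := mollify_cont t K hK0 hK
  unfold mollify_T
  have e : t z = ∫ w, φ.normed MeasureTheory.volume w • t z := by
    rw [φ.integral_normed_smul]
  have hi : MeasureTheory.Integrable (fun w => φ.normed MeasureTheory.volume w • t z) :=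
    (φ.integrable_normed (μ := MeasureTheory.volume)).smul_const _
  have hb : MeasureTheory.Integrable
      (fun v : ℂ => φ.normed MeasureTheory.volume v * (K * φ.rOut)) :=
    (φ.integrable_normed (μ := MeasureTheory.volume)).mul_const _
  have h1 := MeasureTheory.norm_integral_le_of_norm_le (f := fun v =>
      φ.normed MeasureTheory.volume v • t (z - v) - φ.normed MeasureTheory.volume v • t z)
      hb (Filter.Eventually.of_forall (fun v => by
    show ‖φ.normed MeasureTheory.volume v • t (z - v) -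
      φ.normed MeasureTheory.volume v • t z‖ ≤ _
    by_cases hv : φ.rOut < ‖v‖
    · rw [mollify_supp φ v hv]; simp
    rw [← smul_sub, norm_smul, Real.norm_of_nonneg (φ.nonneg_normed v)]
    apply mul_le_mul_of_nonneg_left _ (φ.nonneg_normed v)
    have := hK (z - v) z
    refine this.trans (mul_le_mul_of_nonneg_left ?_ hK0)
    rw [sub_sub_cancel_left, norm_neg]
    exact not_lt.mp hv))
  rw [MeasureTheory.integral_mul_const, φ.integral_normed, one_mul] at h1
  rw [MeasureTheory.integral_sub (mollify_int φ t ht z) hi, φ.integral_normed_smul] at h1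
  exact h1

theorem mollify_left (φ : ContDiffBump (0 : ℂ)) (t : ℂ → ℂ) (ht : Continuous t) (z : ℂ) (ρ : ℝ) :
    (∫ θ in (0 : ℝ)..(2 * Real.pi),
      mollify_T φ t (z + ρ * Complex.exp (θ * Complex.I)) * Complex.exp (θ * Complex.I)) =
    ∫ w, φ.normed MeasureTheory.volume w • ∫ θ in (0 : ℝ)..(2 * Real.pi),
      t ((z - w) + ρ * Complex.exp (θ * Complex.I)) * Complex.exp (θ * Complex.I) := by
  have h := mollify_swap (fun θ w => φ.normed MeasureTheory.volume w •
    (t ((z - w) + ρ * Complex.exp (θ * Complex.I)) * Complex.exp (θ * Complex.I))) (by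
      have c1 : Continuous (fun p : ℝ × ℂ => φ.normed MeasureTheory.volume p.2) :=
        φ.continuous_normed.comp continuous_snd
      have c2 : Continuous (fun p : ℝ × ℂ =>
          t ((z - p.2) + ρ * Complex.exp (p.1 * Complex.I)) * Complex.exp (p.1 * Complex.I)) := by
        apply Continuous.mul
        · apply ht.comp
          fun_prop
        · fun_prop
      exact c1.smul c2) φ.rOut (fun θ w hw => by rw [mollify_supp φ w hw]; simp)
  simp only [intervalIntegral.integral_smul] at h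
  rw [← h]
  congr 1
  funext θ
  unfold mollify_T
  rw [← MeasureTheory.integral_mul_const]
  congr 1
  funext w
  rw [smul_mul_assoc]
  congr 3
  ring

theorem mollify_right (φ : ContDiffBump (0 : ℂ)) (m : ℂ → ℝ) (hm : Continuous m) (z : ℂ) (ρ : ℝ) :
    (∫ θ in (0 : ℝ)..(2 * Real.pi),
      (mollify_T φ m (z + ρ * Complex.exp (θ * Complex.I)) - mollify_T φ m z)) =
    ∫ w, φ.normed MeasureTheory.volume w • ∫ θ in (0 : ℝ)..(2 * Real.pi),
      (m ((z - w) + ρ * Complex.exp (θ * Complex.I)) - m (z - w)) := by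
  have h := mollify_swap (fun θ w => φ.normed MeasureTheory.volume w •
    (m ((z - w) + ρ * Complex.exp (θ * Complex.I)) - m (z - w))) (by
      have c1 : Continuous (fun p : ℝ × ℂ => φ.normed MeasureTheory.volume p.2) :=
        φ.continuous_normed.comp continuous_snd
      have c2 : Continuous (fun p : ℝ × ℂ =>
          m ((z - p.2) + ρ * Complex.exp (p.1 * Complex.I)) - m (z - p.2)) := by
        apply Continuous.sub
        · apply hm.comp
          fun_prop
        · apply hm.comp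
          fun_prop
      exact c1.smul c2) φ.rOut (fun θ w hw => by rw [mollify_supp φ w hw]; simp)
  simp only [intervalIntegral.integral_smul] at h
  rw [← h]
  congr 1
  funext θ
  unfold mollify_T
  rw [← MeasureTheory.integral_sub (mollify_int φ m hm _) (mollify_int φ m hm _)]
  congr 1
  funext w
  rw [← smul_sub]
  congr 3
  ring

/-- TARGET. Mollification. -/
theorem mollify (t : ℂ → ℂ) (m : ℂ → ℝ) (K : ℝ) (hK0 : 0 ≤ K)
    (hK : ∀ z w, ‖t z - t w‖ ≤ K * ‖z - w‖) (hm : ∀ z w, |m z - m w| ≤ K * ‖z - w‖)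
    (h : ∀ z : ℂ, ∀ ρ : ℝ, 0 < ρ →
      ‖∫ θ in (0 : ℝ)..(2 * Real.pi),
        t (z + ρ * Complex.exp (θ * Complex.I)) * Complex.exp (θ * Complex.I)‖ ≤
      ∫ θ in (0 : ℝ)..(2 * Real.pi), (m (z + ρ * Complex.exp (θ * Complex.I)) - m z))
    (ε : ℝ) (hε : 0 < ε) :
    ∃ (T : ℂ → ℂ) (N : ℂ → ℝ), Differentiable ℝ T ∧ Differentiable ℝ N ∧
      (∀ z w, ‖T z - T w‖ ≤ K * ‖z - w‖) ∧ (∀ z, ‖T z - t z‖ ≤ ε) ∧
      ∀ z : ℂ, ∀ ρ : ℝ, 0 < ρ →
      ‖∫ θ in (0 : ℝ)..(2 * Real.pi),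
        T (z + ρ * Complex.exp (θ * Complex.I)) * Complex.exp (θ * Complex.I)‖ ≤
      ∫ θ in (0 : ℝ)..(2 * Real.pi), (N (z + ρ * Complex.exp (θ * Complex.I)) - N z) := by
  set r : ℝ := ε / (K + 1) with hr
  have hrpos : 0 < r := by positivity
  let φ : ContDiffBump (0 : ℂ) := ⟨r / 2, r, by positivity, by linarith⟩
  have ht := mollify_cont t K hK0 hK
  have hmc : Continuous m := mollify_cont m K hK0 (fun z w => by
    rw [Real.norm_eq_abs]; exact hm z w)
  refine ⟨mollify_T φ t, mollify_T φ m, mollify_diff φ t ht, mollify_diff φ m hmc,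
    mollify_lip φ t K hK0 hK, ?_, ?_⟩
  · intro z
    refine (mollify_close φ t K hK0 hK z).trans ?_
    show K * r ≤ ε
    rw [hr, mul_div_assoc', div_le_iff₀ (by linarith)]
    nlinarith
  · intro z ρ hρ
    rw [mollify_left φ t ht, mollify_right φ m hmc]
    apply MeasureTheory.norm_integral_le_of_norm_le
    · apply Continuous.integrable_of_hasCompactSupport
      · apply Continuous.smul φ.continuous_normed
        apply intervalIntegral.continuous_parametric_intervalIntegral_of_continuous'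
        apply Continuous.sub
        · apply hmc.comp
          fun_prop
        · apply hmc.comp
          fun_prop
      · exact φ.hasCompactSupport_normed.smul_right
    · refine Filter.Eventually.of_forall (fun w => ?_)
      rw [norm_smul, Real.norm_of_nonneg (φ.nonneg_normed w), smul_eq_mul]
      exact mul_le_mul_of_nonneg_left (h (z - w) ρ hρ) (φ.nonneg_normed w)


/-! ### affine_of_avg -/
/-- TARGET. A Lipschitz function whose weighted circle means are controlled by the excess of a Lipschitz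
function is complex affine. -/
theorem affine_of_avg (t : ℂ → ℂ) (m : ℂ → ℝ) (K : ℝ) (hK0 : 0 ≤ K)
    (hK : ∀ z w, ‖t z - t w‖ ≤ K * ‖z - w‖) (hm : ∀ z w, |m z - m w| ≤ K * ‖z - w‖)
    (h : ∀ z : ℂ, ∀ ρ : ℝ, 0 < ρ →
      ‖∫ θ in (0 : ℝ)..(2 * Real.pi),
        t (z + ρ * Complex.exp (θ * Complex.I)) * Complex.exp (θ * Complex.I)‖ ≤
      ∫ θ in (0 : ℝ)..(2 * Real.pi), (m (z + ρ * Complex.exp (θ * Complex.I)) - m z)) (z : ℂ) :
    t z = t 0 + z * (t 1 - t 0) := by
  have key : ∀ ε : ℝ, 0 < ε → ‖t z - (t 0 + z * (t 1 - t 0))‖ ≤ ε * (2 + 2 * ‖z‖) := by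
    intro ε hε
    obtain ⟨T, N, hT, hN, hTK, hTt, hTN⟩ := mollify t m K hK0 hK hm h ε hε
    have hTc : Differentiable ℂ T := cr_of_avg T N hT hN hTN
    have hTa := liouville_lip T hTc K hTK z
    have e1 : t z - (t 0 + z * (t 1 - t 0)) =
        -(T z - t z) + (T 0 - t 0) + z * ((T 1 - t 1) - (T 0 - t 0)) := by
      rw [hTa]
      ring
    rw [e1]
    have h1 := hTt z
    have h2 := hTt 0
    have h3 := hTt 1
    have h4 : ‖(T 1 - t 1) - (T 0 - t 0)‖ ≤ 2 * ε := by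
      refine (norm_sub_le _ _).trans ?_
      linarith
    calc ‖-(T z - t z) + (T 0 - t 0) + z * ((T 1 - t 1) - (T 0 - t 0))‖ ≤
        ‖-(T z - t z) + (T 0 - t 0)‖ + ‖z * ((T 1 - t 1) - (T 0 - t 0))‖ := norm_add_le _ _
      _ ≤ (‖-(T z - t z)‖ + ‖T 0 - t 0‖) + ‖z‖ * ‖(T 1 - t 1) - (T 0 - t 0)‖ := by
          rw [norm_mul]
          linarith [norm_add_le (-(T z - t z)) (T 0 - t 0)]
      _ ≤ (ε + ε) + ‖z‖ * (2 * ε) := by
          rw [norm_neg]
          have := mul_le_mul_of_nonneg_left h4 (norm_nonneg z)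
          linarith
      _ = ε * (2 + 2 * ‖z‖) := by ring
  have h0 : ‖t z - (t 0 + z * (t 1 - t 0))‖ ≤ 0 := by
    by_contra hcon
    push Not at hcon
    have hz : 0 < 2 + 2 * ‖z‖ := by positivity
    have h1 := key (‖t z - (t 0 + z * (t 1 - t 0))‖ / (2 * (2 + 2 * ‖z‖))) (by positivity)
    have h2 : ‖t z - (t 0 + z * (t 1 - t 0))‖ / (2 * (2 + 2 * ‖z‖)) * (2 + 2 * ‖z‖) =
        ‖t z - (t 0 + z * (t 1 - t 0))‖ / 2 := by
      field_simp
    rw [h2] at h1
    linarith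
  exact sub_eq_zero.1 (norm_le_zero_iff.1 h0)


/-! ### lsummand_of_good -/
/-- TARGET. The line spanned by a good functional is an L-summand. -/
theorem lsummand_of_good {X : Type*} [NormedAddCommGroup X] [NormedSpace ℂ X] (a : X →L[ℂ] ℂ)
    (ha : ‖a‖ = 1) (hg : Good a) : IsLSummand a := by
  obtain ⟨τ, M, m1, m2, m3, m4, m5, m6, m7⟩ := tau_exists a ha hg
  have hK := K_ineq a ha hg τ M m2 m4 m5 m6 m7
  have havg := K_avg τ M m4 m5 hK
  have haff : ∀ (h₀ h₁ : X →L[ℂ] ℂ) (z : ℂ),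
      τ (h₀ + z • h₁) = τ h₀ + z * (τ (h₀ + h₁) - τ h₀) := by
    intro h₀ h₁ z
    have hn : 0 ≤ ‖h₁‖ := norm_nonneg _
    have e : ∀ z w : ℂ, ‖(h₀ + z • h₁) - (h₀ + w • h₁)‖ = ‖h₁‖ * ‖z - w‖ := by
      intro z w
      have e1 : (h₀ + z • h₁) - (h₀ + w • h₁) = (z - w) • h₁ := by
        rw [add_sub_add_left_eq_sub]
        exact (sub_smul z w h₁).symm
      rw [e1, norm_smul, mul_comm]
    have h := affine_of_avg (fun z => τ (h₀ + z • h₁)) (fun z => M (h₀ + z • h₁)) (3 * ‖h₁‖)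
      (by positivity) (fun z w => by
        have := m4 (h₀ + z • h₁) (h₀ + w • h₁)
        rw [e] at this
        linarith) (fun z w => by
        have := m5 (h₀ + z • h₁) (h₀ + w • h₁)
        rw [e] at this
        have h3 : 0 ≤ ‖h₁‖ * ‖z - w‖ := by positivity
        show |M (h₀ + z • h₁) - M (h₀ + w • h₁)| ≤ 3 * ‖h₁‖ * ‖z - w‖
        linarith) (fun z ρ hρ => havg h₀ h₁ z ρ hρ) z
    have z0 : h₀ + (0 : ℂ) • h₁ = h₀ := by
      have : (0 : ℂ) • h₁ = 0 := zero_smul ℂ h₁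
      rw [this, add_zero]
    have z1 : h₀ + (1 : ℂ) • h₁ = h₀ + h₁ := by
      have : (1 : ℂ) • h₁ = h₁ := one_smul ℂ h₁
      rw [this]
    have h' : τ (h₀ + z • h₁) = τ (h₀ + (0 : ℂ) • h₁) + z * (τ (h₀ + (1 : ℂ) • h₁) -
      τ (h₀ + (0 : ℂ) • h₁)) := h
    rw [z0, z1] at h'
    exact h'
  have hadd : ∀ h₀ h₁ : X →L[ℂ] ℂ, τ (h₀ + h₁) = τ h₀ + τ h₁ := by
    intro h₀ h₁
    have hlim : ∀ r : ℝ, 0 < r → ‖τ h₁ - (τ (h₀ + h₁) - τ h₀)‖ ≤ r * (4 * ‖h₀‖) := by
      intro r hr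
      have hrc : (r : ℂ) ≠ 0 := by exact_mod_cast hr.ne'
      have h1 := haff h₀ h₁ ((r : ℂ)⁻¹)
      have h2 : τ ((r : ℂ) • h₀ + h₁) = (r : ℂ) * τ h₀ + (τ (h₀ + h₁) - τ h₀) := by
        have e : (r : ℂ) • h₀ + h₁ = (r : ℂ) • (h₀ + (r : ℂ)⁻¹ • h₁) := by
          rw [smul_add, smul_smul, mul_inv_cancel₀ hrc, one_smul]
        rw [e, m3, h1, mul_add, ← mul_assoc, mul_inv_cancel₀ hrc, one_mul]
      have h3 := m4 h₁ ((r : ℂ) • h₀ + h₁)
      have e3 : ‖h₁ - ((r : ℂ) • h₀ + h₁)‖ = r * ‖h₀‖ := by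
        rw [sub_add_cancel_right, norm_neg, norm_smul, Complex.norm_real, Real.norm_eq_abs,
          abs_of_pos hr]
      rw [e3] at h3
      have h4 : ‖(r : ℂ) * τ h₀‖ ≤ r * ‖h₀‖ := by
        rw [norm_mul, Complex.norm_real, Real.norm_eq_abs, abs_of_pos hr]
        exact mul_le_mul_of_nonneg_left (m6 h₀) hr.le
      have e5 : τ h₁ - (τ (h₀ + h₁) - τ h₀) =
          (τ h₁ - τ ((r : ℂ) • h₀ + h₁)) + (r : ℂ) * τ h₀ := by
        rw [h2]
        ring
      rw [e5]
      have h6 := norm_add_le (τ h₁ - τ ((r : ℂ) • h₀ + h₁)) ((r : ℂ) * τ h₀)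
      linarith
    have h0 : ‖τ h₁ - (τ (h₀ + h₁) - τ h₀)‖ ≤ 0 := by
      by_contra hcon
      push Not at hcon
      set d := ‖τ h₁ - (τ (h₀ + h₁) - τ h₀)‖ with hd
      have hn : 0 ≤ ‖h₀‖ := norm_nonneg _
      have h1 := hlim (d / (4 * ‖h₀‖ + 1)) (by positivity)
      rw [div_mul_eq_mul_div, le_div_iff₀ (by positivity)] at h1
      linarith
    have h1 := norm_le_zero_iff.1 h0
    linear_combination -h1
  refine ⟨{ toFun := τ, map_add' := hadd, map_smul' := fun c h => m3 h c }, ?_, ?_⟩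
  · show τ a = 1
    have h1 := m2 a (-1)
    have e1 : (-1 : ℂ) • a = -a := neg_one_smul ℂ a
    rw [e1, add_neg_cancel, norm_zero] at h1
    have h2 : 0 ≤ M a := by
      rw [m1]
      exact norm_nonneg _
    have h3 := norm_nonneg (τ a + -1)
    have h4 : ‖τ a + -1‖ = 0 := by linarith
    have h5 := norm_eq_zero.1 h4
    linear_combination h5
  · intro f
    show ‖f‖ = ‖f - τ f • a‖ + ‖τ f‖
    have h1 := m2 f 0
    have e1 : (0 : ℂ) • a = 0 := zero_smul ℂ a
    rw [e1, add_zero, add_zero, m1] at h1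
    exact h1


/-! ### disc_finite -/
theorem disc_finite_opnorm {X : Type*} [NormedAddCommGroup X] [NormedSpace ℂ X] {n : ℕ}
    (F : Fin n → (X →L[ℂ] ℂ)) (ε u : ℝ) (hε : 0 < ε)
    (h : ∀ y : Fin n → X, (∀ i, ‖y i‖ < 1 + ε) → (∑ i, F i (y i)).re < u) :
    (1 + ε) * ∑ i, ‖F i‖ ≤ u := by
  have h1 : ∀ δ : ℝ, 0 < δ → (1 + ε) * (∑ i, ‖F i‖ - n * δ) ≤ u := by
    intro δ hδ
    have hex : ∀ i, ∃ z : X, ‖z‖ < 1 ∧ ‖F i‖ - δ < ‖F i z‖ := fun i =>
      ContinuousLinearMap.exists_lt_apply_of_lt_opNorm (F i) (by linarith)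
    choose z hz1 hz2 using hex
    have hc : ∀ i, ∃ c : ℂ, ‖c‖ = 1 ∧ c * F i (z i) = (‖F i (z i)‖ : ℂ) := by
      intro i
      by_cases h0 : F i (z i) = 0
      · exact ⟨1, by simp, by simp [h0]⟩
      · refine ⟨(‖F i (z i)‖ : ℂ) / F i (z i), ?_, ?_⟩
        · rw [norm_div]
          have : ‖F i (z i)‖ ≠ 0 := by simpa using h0
          simp [this]
        · field_simp
    choose c hc1 hc2 using hc
    have hy := h (fun i => (((1 + ε : ℝ) : ℂ) * c i) • z i) (by
      intro i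
      rw [norm_smul, norm_mul, hc1 i, mul_one, Complex.norm_real, Real.norm_eq_abs,
        abs_of_pos (by linarith)]
      have := hz1 i
      nlinarith)
    have e1 : (∑ i, F i ((((1 + ε : ℝ) : ℂ) * c i) • z i)).re = (1 + ε) * ∑ i, ‖F i (z i)‖ := by
      have : ∀ i, F i ((((1 + ε : ℝ) : ℂ) * c i) • z i) = (((1 + ε) * ‖F i (z i)‖ : ℝ) : ℂ) := by
        intro i
        rw [map_smul, smul_eq_mul, mul_assoc, hc2 i]
        push_cast
        ring
      simp only [this]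
      rw [← Complex.ofReal_sum, Complex.ofReal_re, Finset.mul_sum]
    rw [e1] at hy
    have h2 : ∑ i, ‖F i‖ - n * δ ≤ ∑ i, ‖F i (z i)‖ := by
      have : ∑ i : Fin n, (‖F i‖ - δ) ≤ ∑ i, ‖F i (z i)‖ :=
        Finset.sum_le_sum (fun i _ => (hz2 i).le)
      rw [Finset.sum_sub_distrib] at this
      simpa using this
    have h3 : (1 + ε) * (∑ i, ‖F i‖ - n * δ) ≤ (1 + ε) * ∑ i, ‖F i (z i)‖ :=
      mul_le_mul_of_nonneg_left h2 (by linarith)
    linarith
  by_contra hcon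
  push Not at hcon
  set S := ∑ i, ‖F i‖ with hS
  have hpos : 0 < ((1 + ε) * S - u) / ((1 + ε) * (n + 1)) := by
    apply div_pos (by linarith)
    positivity
  have := h1 _ hpos
  have hn : (0 : ℝ) < n + 1 := by positivity
  have he : (0 : ℝ) < 1 + ε := by linarith
  have e2 : (1 + ε) * (S - n * (((1 + ε) * S - u) / ((1 + ε) * (n + 1))))
      = (1 + ε) * S - n / (n + 1) * ((1 + ε) * S - u) := by
    field_simp
  rw [e2] at this
  have h4 : (n : ℝ) / (n + 1) < 1 := by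
    rw [div_lt_one hn]; linarith
  nlinarith

/-- TARGET. Hahn-Banach: almost affine discs for finitely many points. -/
theorem disc_finite {X : Type*} [NormedAddCommGroup X] [NormedSpace ℂ X] (a : X →L[ℂ] ℂ)
    (ha : ‖a‖ = 1) (hL : IsLSummand a) (n : ℕ) (x : Fin n → X) (t : Fin n → ℂ)
    (hx : ∀ i, ‖x i‖ ≤ 1) (ht : ∀ i, ‖t i‖ ≤ 1) (ε : ℝ) (hε : 0 < ε) :
    ∃ φ : X, a φ = 1 ∧ ∀ i, ‖x i + (t i - a (x i)) • φ‖ < 1 + ε := by
  classical
  obtain ⟨τ, hτ1, hτ2⟩ := hL
  -- a point with a z0 = 1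
  obtain ⟨z0, hz0⟩ : ∃ z0 : X, a z0 = 1 := by
    have hne : a ≠ 0 := by
      intro h
      rw [h, norm_zero] at ha
      exact zero_ne_one ha
    obtain ⟨v, hv⟩ : ∃ v, a v ≠ 0 := by
      by_contra hcon
      push Not at hcon
      exact hne (ContinuousLinearMap.ext (by simpa using hcon))
    exact ⟨(a v)⁻¹ • v, by rw [map_smul, smul_eq_mul, inv_mul_cancel₀ hv]⟩
  by_contra hcon
  push Not at hcon
  let K : Set (Fin n → X) := {k | ∃ φ : X, a φ = 1 ∧ ∀ i, k i = x i + (t i - a (x i)) • φ}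
  have hKconv : Convex ℝ K := by
    rintro k ⟨φ, hφ, hk⟩ l ⟨ψ, hψ, hl⟩ p q hp hq hpq
    have hpq' : ((p : ℝ) : ℂ) + ((q : ℝ) : ℂ) = 1 := by
      rw [← Complex.ofReal_add, hpq, Complex.ofReal_one]
    refine ⟨(p : ℂ) • φ + (q : ℂ) • ψ, ?_, ?_⟩
    · rw [map_add, map_smul, map_smul, hφ, hψ]
      simpa using hpq'
    · intro i
      have e1 : (p • k + q • l) i = (p : ℂ) • k i + (q : ℂ) • l i := by
        simp [Pi.add_apply, Pi.smul_apply]
      rw [e1, hk i, hl i]
      have e2 : x i = (p : ℂ) • x i + (q : ℂ) • x i := by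
        rw [← add_smul, hpq', one_smul]
      conv_rhs => rw [e2]
      have e3 : a ((p : ℂ) • x i + (q : ℂ) • x i) = a (x i) := by rw [← e2]
      rw [e3]
      simp only [smul_add, smul_smul]
      have : ∀ c d : ℂ, (c * d) = d * c := fun c d => mul_comm c d
      rw [this (p : ℂ) (t i - a (x i)), this (q : ℂ) (t i - a (x i))]
      abel
  have hdisj : Disjoint (Metric.ball (0 : Fin n → X) (1 + ε)) K := by
    rw [Set.disjoint_left]
    rintro k hk ⟨φ, hφ, hk'⟩
    obtain ⟨i, hi⟩ := hcon φ hφ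
    rw [mem_ball_zero_iff] at hk
    have := norm_le_pi_norm k i
    rw [hk' i] at this
    linarith
  obtain ⟨F, u, hF1, hF2⟩ := RCLike.geometric_hahn_banach_open (𝕜 := ℂ)
    (convex_ball (0 : Fin n → X) (1 + ε)) Metric.isOpen_ball hKconv hdisj
  let f : Fin n → (X →L[ℂ] ℂ) := fun i =>
    F.comp (ContinuousLinearMap.single ℂ (fun _ : Fin n => X) i)
  have hFsum : ∀ y : Fin n → X, F y = ∑ i, f i (y i) := by
    intro y
    have : y = ∑ i, Pi.single i (y i) := (Finset.univ_sum_single y).symm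
    conv_lhs => rw [this]
    rw [map_sum]
    rfl
  have hu0 : 0 < u := by
    have := hF1 0 (by simp; linarith)
    simpa using this
  have hup : (1 + ε) * ∑ i, ‖f i‖ ≤ u := by
    apply disc_finite_opnorm f ε u hε
    intro y hy
    have := hF1 y (by
      rw [mem_ball_zero_iff]
      rw [pi_norm_lt_iff (by linarith)]
      exact hy)
    rw [hFsum y] at this
    simpa using this
  let G : X →L[ℂ] ℂ := ∑ i, (t i - a (x i)) • f i
  have hK : ∀ φ : X, a φ = 1 → u ≤ (∑ i, f i (x i)).re + (G φ).re := by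
    intro φ hφ
    have := hF2 (fun i => x i + (t i - a (x i)) • φ) ⟨φ, hφ, fun i => rfl⟩
    rw [hFsum] at this
    have e : ∑ i, f i (x i + (t i - a (x i)) • φ) = ∑ i, f i (x i) + G φ := by
      simp only [map_add, map_smul, G, ContinuousLinearMap.sum_apply,
        ContinuousLinearMap.smul_apply]
      rw [Finset.sum_add_distrib]
    rw [e] at this
    simpa using this
  have hker : ∀ v : X, a v = 0 → G v = 0 := by
    intro v hv
    by_contra hne
    have hpos : 0 < ‖G v‖ ^ 2 := by positivity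
    set C : ℝ := (∑ i, f i (x i)).re + (G z0).re - u with hC
    -- take φ = z0 - R conj(G v) v
    have key : ∀ R : ℝ, R * ‖G v‖ ^ 2 ≤ C := by
      intro R
      have h1 := hK (z0 + (-(R : ℂ) * (starRingEnd ℂ) (G v)) • v) (by
        rw [map_add, map_smul, hv, hz0]; simp)
      rw [map_add, map_smul, smul_eq_mul] at h1
      have e : (G z0 + -(R : ℂ) * (starRingEnd ℂ) (G v) * G v).re = (G z0).re - R * ‖G v‖ ^ 2 := by
        have : (starRingEnd ℂ) (G v) * G v = ((‖G v‖ ^ 2 : ℝ) : ℂ) := by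
          rw [mul_comm, Complex.mul_conj, Complex.normSq_eq_norm_sq]
        rw [mul_assoc, this, Complex.add_re]
        have : (-(R : ℂ) * ((‖G v‖ ^ 2 : ℝ) : ℂ)) = ((-(R * ‖G v‖ ^ 2) : ℝ) : ℂ) := by
          push_cast; ring
        rw [this, Complex.ofReal_re]
        ring
      rw [e] at h1
      linarith
    have := key ((|C| + 1) / ‖G v‖ ^ 2)
    rw [div_mul_cancel₀ _ hpos.ne'] at this
    have := le_abs_self C
    linarith
  have hGa : G = (G z0) • a := by
    ext y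
    have h1 := hker (y - (a y) • z0) (by rw [map_sub, map_smul, hz0]; simp)
    rw [map_sub, map_smul, smul_eq_mul, sub_eq_zero] at h1
    rw [ContinuousLinearMap.smul_apply, smul_eq_mul, h1, mul_comm]
  have hτG : G z0 = ∑ i, (t i - a (x i)) * τ (f i) := by
    have h1 : τ G = G z0 := by
      conv_lhs => rw [hGa]
      rw [map_smul, hτ1, smul_eq_mul, mul_one]
    rw [← h1]
    simp only [G, map_sum, map_smul, smul_eq_mul]
  have hlow : u ≤ ∑ i, ‖f i‖ := by
    have h1 := hK z0 hz0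
    rw [hτG, ← Complex.add_re, ← Finset.sum_add_distrib] at h1
    refine h1.trans ?_
    rw [Complex.re_sum]
    apply Finset.sum_le_sum
    intro i _
    have e : f i (x i) + (t i - a (x i)) * τ (f i)
        = (f i - τ (f i) • a) (x i) + t i * τ (f i) := by
      simp only [ContinuousLinearMap.sub_apply, ContinuousLinearMap.smul_apply, smul_eq_mul]
      ring
    rw [e]
    calc ((f i - τ (f i) • a) (x i) + t i * τ (f i)).re
        ≤ ‖(f i - τ (f i) • a) (x i) + t i * τ (f i)‖ := Complex.re_le_norm _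
      _ ≤ ‖(f i - τ (f i) • a) (x i)‖ + ‖t i * τ (f i)‖ := norm_add_le _ _
      _ ≤ ‖f i - τ (f i) • a‖ + ‖τ (f i)‖ := by
          apply add_le_add
          · calc ‖(f i - τ (f i) • a) (x i)‖ ≤ ‖f i - τ (f i) • a‖ * ‖x i‖ :=
                ContinuousLinearMap.le_opNorm _ _
              _ ≤ ‖f i - τ (f i) • a‖ * 1 :=
                mul_le_mul_of_nonneg_left (hx i) (norm_nonneg _)
              _ = _ := mul_one _
          · rw [norm_mul]
            calc ‖t i‖ * ‖τ (f i)‖ ≤ 1 * ‖τ (f i)‖ :=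
                mul_le_mul_of_nonneg_right (ht i) (norm_nonneg _)
              _ = _ := one_mul _
      _ = ‖f i‖ := (hτ2 (f i)).symm
  have hSpos : 0 < ∑ i, ‖f i‖ := lt_of_lt_of_le hu0 hlow
  nlinarith


/-! ### disc_exists -/
/-- TARGET. Almost affine discs for finite dimensional subspaces. -/
theorem disc_exists {X : Type*} [NormedAddCommGroup X] [NormedSpace ℂ X] (a : X →L[ℂ] ℂ)
    (ha : ‖a‖ = 1) (hL : IsLSummand a) (E : Submodule ℂ X) (hE : FiniteDimensional ℂ E)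
    (ε : ℝ) (hε : 0 < ε) : ∃ φ : X, Disc a E ε φ := by
  classical
  have : ProperSpace E := FiniteDimensional.proper ℂ E
  set η : ℝ := min 1 ε / 8 with hη
  have hη0 : 0 < η := by positivity
  have hη1 : η ≤ 1 := by
    have := min_le_left 1 ε
    linarith
  have hηε : 8 * η ≤ ε := by
    have := min_le_right 1 ε
    linarith
  obtain ⟨T, hTs, hTf, hTc⟩ := (isCompact_closedBall (0 : E × ℂ) 1).finite_cover_balls hη0
  set T' : Finset (E × ℂ) := insert ((0 : E), (1 : ℂ)) hTf.toFinset with hT'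
  have hT'1 : ∀ p ∈ T', ‖p.1‖ ≤ 1 ∧ ‖p.2‖ ≤ 1 := by
    intro p hp
    rw [hT', Finset.mem_insert] at hp
    rcases hp with rfl | hp
    · simp
    · have h1 := hTs (hTf.mem_toFinset.1 hp)
      rw [mem_closedBall_zero_iff] at h1
      exact ⟨(norm_fst_le p).trans h1, (norm_snd_le p).trans h1⟩
  let e := T'.equivFin
  obtain ⟨φ, hφ1, hφ2⟩ := disc_finite a ha hL T'.card (fun i => ((e.symm i).1.1 : X))
    (fun i => (e.symm i).1.2) (fun i => (hT'1 _ (e.symm i).2).1) (fun i => (hT'1 _ (e.symm i).2).2)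
    η hη0
  have hφ3 : ∀ p ∈ T', ‖(p.1 : X) + (p.2 - a p.1) • φ‖ < 1 + η := by
    intro p hp
    have := hφ2 (e ⟨p, hp⟩)
    simpa using this
  have hφn : ‖φ‖ ≤ 2 := by
    have := hφ3 ((0 : E), (1 : ℂ)) (Finset.mem_insert_self _ _)
    simp at this
    linarith
  refine ⟨φ, hφ1, fun x hx hx1 t ht => ?_⟩
  have hmem : ((⟨x, hx⟩ : E), t) ∈ Metric.closedBall (0 : E × ℂ) 1 := by
    rw [mem_closedBall_zero_iff, Prod.norm_def]
    exact max_le hx1 ht
  have hcov := hTc hmem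
  simp only [Set.mem_iUnion] at hcov
  obtain ⟨p, hp, hpb⟩ := hcov
  have hpT : p ∈ T' := Finset.mem_insert_of_mem (hTf.mem_toFinset.2 hp)
  rw [mem_ball_iff_norm] at hpb
  have h1 : ‖x - (p.1 : X)‖ ≤ η := by
    have := (norm_fst_le (((⟨x, hx⟩ : E), t) - p)).trans hpb.le
    simpa using this
  have h2 : ‖t - p.2‖ ≤ η := by
    have := (norm_snd_le (((⟨x, hx⟩ : E), t) - p)).trans hpb.le
    simpa using this
  have h3 : ‖a (x - p.1)‖ ≤ η := by
    refine (a.le_opNorm _).trans ?_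
    rw [ha, one_mul]; exact h1
  have e1 : x + (t - a x) • φ = ((p.1 : X) + (p.2 - a p.1) • φ) + (x - p.1) +
      ((t - p.2) - a (x - p.1)) • φ := by
    rw [map_sub]
    module
  rw [e1]
  calc ‖((p.1 : X) + (p.2 - a p.1) • φ) + (x - p.1) + ((t - p.2) - a (x - p.1)) • φ‖
      ≤ ‖(p.1 : X) + (p.2 - a p.1) • φ‖ + ‖x - p.1‖ + ‖((t - p.2) - a (x - p.1)) • φ‖ :=
        norm_add₃_le
    _ ≤ (1 + η) + η + (η + η) * 2 := by
        rw [norm_smul]
        have h4 : ‖(t - p.2) - a (x - p.1)‖ ≤ η + η := (norm_sub_le _ _).trans (add_le_add h2 h3)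
        have h5 := (hφ3 p hpT).le
        gcongr
    _ ≤ 1 + ε := by linarith


/-! ### c0_embed -/
theorem c0_embed_scaled {X : Type*} [NormedAddCommGroup X] [NormedSpace ℂ X]
    (x : ℕ → X) (C : ℝ)
    (hup : ∀ (n : ℕ) (t : ℕ → ℂ), (∀ j, ‖t j‖ ≤ 1) → ‖∑ j ∈ Finset.range n, t j • x j‖ ≤ C)
    (n : ℕ) (t : ℕ → ℂ) (δ : ℝ) (ht : ∀ j, ‖t j‖ ≤ δ) :
    ‖∑ j ∈ Finset.range n, t j • x j‖ ≤ C * δ := by
  have hδ : 0 ≤ δ := (norm_nonneg _).trans (ht 0)
  rcases eq_or_lt_of_le hδ with h | h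
  · have h0 : ∀ j, t j = 0 := fun j => by
      have := ht j
      rw [← h] at this
      exact norm_le_zero_iff.1 this
    rw [← h]
    simp [h0]
  · have hne : (δ : ℂ) ≠ 0 := by exact_mod_cast h.ne'
    have h1 := hup n (fun j => t j / δ) (fun j => by
      rw [norm_div, Complex.norm_real, Real.norm_of_nonneg hδ]
      exact (div_le_one h).2 (ht j))
    have h2 : ∑ j ∈ Finset.range n, t j • x j =
        (δ : ℂ) • ∑ j ∈ Finset.range n, (t j / δ) • x j := by
      rw [Finset.smul_sum]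
      refine Finset.sum_congr rfl fun j _ => ?_
      rw [smul_smul, mul_div_cancel₀ _ hne]
    rw [h2, norm_smul, Complex.norm_real, Real.norm_of_nonneg hδ, mul_comm]
    exact mul_le_mul_of_nonneg_right h1 hδ

theorem c0_embed_small (u : C₀(ℕ, ℂ)) {ε : ℝ} (hε : 0 < ε) : ∃ N : ℕ, ∀ j, N ≤ j → ‖u j‖ ≤ ε := by
  have h := u.zero_at_infty'
  rw [cocompact_eq_cofinite, Nat.cofinite_eq_atTop, Metric.tendsto_atTop] at h
  obtain ⟨N, hN⟩ := h ε hε
  refine ⟨N, fun j hj => ?_⟩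
  have := hN j hj
  rw [dist_zero_right] at this
  exact this.le

theorem c0_embed_norm (u : C₀(ℕ, ℂ)) (j : ℕ) : ‖u j‖ ≤ ‖u‖ := by
  rw [← ZeroAtInftyContinuousMap.norm_toBCF_eq_norm]
  exact u.toBCF.norm_coe_le_norm j

theorem c0_embed_lim {X : Type*} [NormedAddCommGroup X] [NormedSpace ℂ X] [CompleteSpace X]
    (x : ℕ → X) (C : ℝ)
    (hup : ∀ (n : ℕ) (t : ℕ → ℂ), (∀ j, ‖t j‖ ≤ 1) → ‖∑ j ∈ Finset.range n, t j • x j‖ ≤ C)
    (u : C₀(ℕ, ℂ)) :
    ∃ L : X, Tendsto (fun n => ∑ j ∈ Finset.range n, u j • x j) atTop (𝓝 L) := by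
  apply cauchySeq_tendsto_of_complete
  rw [Metric.cauchySeq_iff']
  intro ε hε
  have hC : 0 ≤ C := (norm_nonneg _).trans (hup 0 (fun _ => 0) (by simp))
  obtain ⟨N, hN⟩ := c0_embed_small u (ε := ε / (2 * (C + 1))) (by positivity)
  refine ⟨N, fun n hn => ?_⟩
  rw [dist_eq_norm, ← Finset.sum_Ico_eq_sub _ hn]
  have h1 : ∑ j ∈ Finset.Ico N n, u j • x j =
      ∑ j ∈ Finset.range n, (if N ≤ j then u j else 0) • x j := by
    rw [Finset.sum_congr rfl (g := fun j => (if N ≤ j then u j else 0) • x j)]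
    · apply Finset.sum_subset
      · intro j hj
        rw [Finset.mem_Ico] at hj
        exact Finset.mem_range.2 hj.2
      · intro j hj hj'
        rw [Finset.mem_range] at hj
        rw [Finset.mem_Ico, not_and_or] at hj'
        rcases hj' with h | h
        · rw [if_neg h, zero_smul]
        · exact absurd hj h
    · intro j hj
      rw [Finset.mem_Ico] at hj
      rw [if_pos hj.1]
  rw [h1]
  have h2 := c0_embed_scaled x C hup n (fun j => if N ≤ j then u j else 0)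
    (ε / (2 * (C + 1))) (fun j => by
      by_cases h : N ≤ j
      · simp only [if_pos h]
        exact hN j h
      · simp only [if_neg h, norm_zero]
        positivity)
  refine lt_of_le_of_lt h2 ?_
  have h3 : C * (ε / (2 * (C + 1))) ≤ (C + 1) * (ε / (2 * (C + 1))) := by
    apply mul_le_mul_of_nonneg_right (by linarith) (by positivity)
  have h4 : (C + 1) * (ε / (2 * (C + 1))) = ε / 2 := by field_simp
  linarith

/-- TARGET. A sequence equivalent to the unit vector basis of `c_0` gives a copy of `c_0`. -/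
theorem c0_embed {X : Type*} [NormedAddCommGroup X] [NormedSpace ℂ X] [CompleteSpace X]
    (x : ℕ → X) (c C : ℝ) (hc : 0 < c)
    (hup : ∀ (n : ℕ) (t : ℕ → ℂ), (∀ j, ‖t j‖ ≤ 1) → ‖∑ j ∈ Finset.range n, t j • x j‖ ≤ C)
    (hlow : ∀ (n : ℕ) (t : ℕ → ℂ) (k : ℕ), k < n →
      c * ‖t k‖ ≤ ‖∑ j ∈ Finset.range n, t j • x j‖) : ContainsC0 X := by
  choose L hL using c0_embed_lim x C hup
  let T0 : C₀(ℕ, ℂ) →ₗ[ℂ] X :=
    { toFun := L
      map_add' := by
        intro u v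
        apply tendsto_nhds_unique (hL (u + v))
        have h := (hL u).add (hL v)
        refine h.congr fun n => ?_
        rw [← Finset.sum_add_distrib]
        refine Finset.sum_congr rfl fun j _ => ?_
        rw [← add_smul]
        rfl
      map_smul' := by
        intro z u
        apply tendsto_nhds_unique (hL (z • u))
        have h := (hL u).const_smul z
        refine h.congr fun n => ?_
        rw [Finset.smul_sum]
        refine Finset.sum_congr rfl fun j _ => ?_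
        rw [smul_smul]
        rfl }
  have hT0 : ∀ u, T0 u = L u := fun u => rfl
  have hbound : ∀ u, ‖T0 u‖ ≤ C * ‖u‖ := by
    intro u
    rw [hT0]
    exact le_of_tendsto (hL u).norm (Eventually.of_forall fun n =>
      c0_embed_scaled x C hup n (fun j => u j) ‖u‖ (c0_embed_norm u))
  refine ⟨T0.mkContinuous C hbound, c, hc, fun u => ?_⟩
  rw [LinearMap.mkContinuous_apply, hT0]
  have hk : ∀ k, c * ‖u k‖ ≤ ‖L u‖ := by
    intro k
    refine ge_of_tendsto (hL u).norm ?_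
    filter_upwards [eventually_gt_atTop k] with n hn
    exact hlow n (fun j => u j) k hn
  have h1 : ‖u‖ ≤ ‖L u‖ / c := by
    rw [← ZeroAtInftyContinuousMap.norm_toBCF_eq_norm]
    refine (BoundedContinuousFunction.norm_le (by positivity)).2 fun k => ?_
    rw [le_div_iff₀ hc, mul_comm]
    exact hk k
  rw [le_div_iff₀ hc] at h1
  linarith


/-! ### mazur -/
/-- TARGET. Mazur: far members of a weakly null sequence are almost orthogonal to a finite dimensional
space. -/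
theorem mazur {X : Type*} [NormedAddCommGroup X] [NormedSpace ℂ X]
    (z : ℕ → X) (δ : ℝ) (hδ : 0 < δ) (hz : ∀ k, δ ≤ ‖z k‖)
    (hw : ∀ f : X →L[ℂ] ℂ, Tendsto (fun k => f (z k)) atTop (𝓝 0))
    (E : Submodule ℂ X) (hE : FiniteDimensional ℂ E) (N : ℕ) (ε : ℝ) (hε : 0 < ε) :
    ∃ k, N ≤ k ∧ ∀ e ∈ E, ∀ t : ℂ, (1 - ε) * ‖e‖ ≤ ‖e + t • z k‖ := by
  have : ProperSpace E := FiniteDimensional.proper ℂ E
  have hcomp : IsCompact (Metric.sphere (0 : E) 1) := isCompact_sphere 0 1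
  obtain ⟨T, hTs, hTf, hTc⟩ := hcomp.finite_cover_balls (e := ε / 4) (by positivity)
  have hdual : ∀ e : E, ∃ f : X →L[ℂ] ℂ, ‖e‖ = 1 → ‖f‖ = 1 ∧ f (e : X) = 1 := by
    intro e
    by_cases he : ‖e‖ = 1
    · have hne : (e : X) ≠ 0 := by
        intro h0
        rw [Submodule.coe_norm, h0, norm_zero] at he
        exact zero_ne_one he
      obtain ⟨g, hg1, hg2⟩ := exists_dual_vector ℂ (e : X) (by simpa using hne)
      refine ⟨g, fun _ => ⟨hg1, ?_⟩⟩
      rw [hg2, ← Submodule.coe_norm, he]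
      norm_num
    · exact ⟨0, fun h => absurd h he⟩
  choose f hf using hdual
  have hη : 0 < ε * δ / 8 := by positivity
  have hev : ∀ᶠ k in atTop, ∀ e ∈ T, ‖f e (z k)‖ ≤ ε * δ / 8 := by
    rw [hTf.eventually_all] 
    intro e _
    have h1 := (hw (f e)).norm
    rw [norm_zero] at h1
    exact (h1.eventually (gt_mem_nhds hη)).mono fun k hk => hk.le
  obtain ⟨k, hkN, hk⟩ := ((eventually_ge_atTop N).and hev).exists
  refine ⟨k, hkN, fun e he t => ?_⟩
  by_cases he0 : e = 0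
  · subst he0
    rw [norm_zero, mul_zero]
    exact norm_nonneg _
  have hpos : 0 < ‖e‖ := norm_pos_iff.2 he0
  rcases le_or_gt (2 * ‖e‖) (‖t‖ * ‖z k‖) with hc | hc
  · have h1 : ‖t • z k‖ ≤ ‖e + t • z k‖ + ‖e‖ := by
      calc ‖t • z k‖ = ‖(e + t • z k) - e‖ := by congr 1; abel
        _ ≤ ‖e + t • z k‖ + ‖e‖ := norm_sub_le _ _
    rw [norm_smul] at h1
    nlinarith
  · set u : E := ((‖e‖ : ℂ)⁻¹) • (⟨e, he⟩ : E) with hu
    have hun : ‖u‖ = 1 := by
      rw [hu, norm_smul, norm_inv, Complex.norm_real, norm_norm, Submodule.coe_norm]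
      exact inv_mul_cancel₀ hpos.ne'
    have hus : u ∈ Metric.sphere (0 : E) 1 := by
      rw [mem_sphere_zero_iff_norm]; exact hun
    obtain ⟨v, hv⟩ := Set.mem_iUnion.1 (hTc hus)
    obtain ⟨hvT, hvb⟩ := Set.mem_iUnion.1 hv
    rw [Metric.mem_ball, dist_eq_norm] at hvb
    have hvn : ‖v‖ = 1 := mem_sphere_zero_iff_norm.1 (hTs hvT)
    obtain ⟨hf1, hf2⟩ := hf v hvn
    have h2 : ‖f v ((u : X) - v)‖ ≤ ε / 4 := by
      refine ((f v).le_opNorm _).trans ?_
      rw [hf1, one_mul]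
      have : ‖((u - v : E) : X)‖ = ‖u - v‖ := rfl
      rw [Submodule.coe_sub] at this
      rw [this]
      exact hvb.le
    have h3 : 1 - ε / 4 ≤ ‖f v (u : X)‖ := by
      have h4 : f v (v : X) = f v (u : X) - f v ((u : X) - v) := by
        rw [map_sub]; ring
      have h5 : (1 : ℝ) = ‖f v (v : X)‖ := by rw [hf2, norm_one]
      have h6 := norm_sub_le (f v (u : X)) (f v ((u : X) - v))
      rw [← h4, ← h5] at h6
      linarith
    have h7 : f v e = (‖e‖ : ℂ) * f v (u : X) := by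
      have : (u : X) = ((‖e‖ : ℂ)⁻¹) • e := rfl
      rw [this, map_smul, smul_eq_mul, ← mul_assoc, mul_inv_cancel₀ (by exact_mod_cast hpos.ne'),
        one_mul]
    have h8 : (1 - ε / 4) * ‖e‖ ≤ ‖f v e‖ := by
      rw [h7, norm_mul, Complex.norm_real, norm_norm]
      nlinarith
    have h9 : ‖t‖ * (ε * δ / 8) ≤ ε / 4 * ‖e‖ := by
      have h10 : ‖t‖ * δ ≤ 2 * ‖e‖ := (mul_le_mul_of_nonneg_left (hz k) (norm_nonneg t)).trans hc.le
      nlinarith
    have h11 : ‖f v (t • z k)‖ ≤ ε / 4 * ‖e‖ := by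
      rw [map_smul, norm_smul]
      exact (mul_le_mul_of_nonneg_left (hk v hvT) (norm_nonneg t)).trans h9
    have h12 : ‖f v (e + t • z k)‖ ≤ ‖e + t • z k‖ := by
      have := (f v).le_opNorm (e + t • z k)
      rwa [hf1, one_mul] at this
    have h13 : ‖f v e‖ ≤ ‖f v (e + t • z k)‖ + ‖f v (t • z k)‖ := by
      have : f v e = f v (e + t • z k) - f v (t • z k) := by rw [map_add]; ring
      calc ‖f v e‖ = ‖f v (e + t • z k) - f v (t • z k)‖ := by rw [← this]
        _ ≤ _ := norm_sub_le _ _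
    nlinarith


/-! ### bp -/
theorem bp_weak {X : Type*} [NormedAddCommGroup X] [NormedSpace ℂ X]
    (z : ℕ → X) (C : ℝ)
    (hup : ∀ (n : ℕ) (t : ℕ → ℂ), (∀ j, ‖t j‖ ≤ 1) → ‖∑ j ∈ Finset.range n, t j • z j‖ ≤ C)
    (f : X →L[ℂ] ℂ) : Tendsto (fun k => f (z k)) atTop (𝓝 0) := by
  have hsum : Summable (fun k => ‖f (z k)‖) := by
    refine summable_of_sum_range_le (c := ‖f‖ * C) (fun _ => norm_nonneg _) fun n => ?_
    let t : ℕ → ℂ := fun k => if f (z k) = 0 then 0 else (‖f (z k)‖ : ℂ) / f (z k)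
    have ht : ∀ j, ‖t j‖ ≤ 1 := by
      intro j
      show ‖(if f (z j) = 0 then (0:ℂ) else (‖f (z j)‖ : ℂ) / f (z j))‖ ≤ 1
      split_ifs with h
      · simp
      · rw [norm_div, Complex.norm_real, norm_norm, div_self (norm_ne_zero_iff.2 h)]
    have ht2 : ∀ j, t j * f (z j) = (‖f (z j)‖ : ℂ) := by
      intro j
      show (if f (z j) = 0 then (0:ℂ) else (‖f (z j)‖ : ℂ) / f (z j)) * f (z j) = _
      split_ifs with h
      · rw [h]; simp
      · rw [div_mul_cancel₀ _ h]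
    have h1 : f (∑ j ∈ Finset.range n, t j • z j)
        = ((∑ j ∈ Finset.range n, ‖f (z j)‖ : ℝ) : ℂ) := by
      rw [map_sum]
      push_cast
      refine Finset.sum_congr rfl fun j _ => ?_
      rw [map_smul, smul_eq_mul, ht2]
    have h2 := f.le_opNorm (∑ j ∈ Finset.range n, t j • z j)
    rw [h1, Complex.norm_real,
      Real.norm_of_nonneg (Finset.sum_nonneg fun _ _ => norm_nonneg _)] at h2
    exact h2.trans (mul_le_mul_of_nonneg_left (hup n t ht) (norm_nonneg _))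
  exact tendsto_zero_iff_norm_tendsto_zero.2 hsum.tendsto_atTop_zero

/-- the subsequence -/
theorem bp_seq {X : Type*} [NormedAddCommGroup X] [NormedSpace ℂ X]
    (z : ℕ → X) (δ : ℝ) (hδ : 0 < δ) (hz : ∀ k, δ ≤ ‖z k‖)
    (hw : ∀ f : X →L[ℂ] ℂ, Tendsto (fun k => f (z k)) atTop (𝓝 0)) :
    ∃ k : ℕ → ℕ, StrictMono k ∧ ∀ (j : ℕ) (e : X),
      e ∈ Submodule.span ℂ ((fun i => z (k i)) '' (Finset.range j : Set ℕ)) →
      ∀ t : ℂ, (1 - (1 / 2 : ℝ) ^ (j + 2)) * ‖e‖ ≤ ‖e + t • z (k j)‖ := by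
  have hE : ∀ F : Finset ℕ, FiniteDimensional ℂ (Submodule.span ℂ (z '' (F : Set ℕ))) := fun F =>
    FiniteDimensional.span_of_finite ℂ ((F.finite_toSet).image z)
  choose g hg1 hg2 using fun (F : Finset ℕ) (j : ℕ) =>
    mazur z δ hδ hz hw (Submodule.span ℂ (z '' (F : Set ℕ))) (hE F) (F.sup id + 1)
      ((1 / 2 : ℝ) ^ (j + 2)) (by positivity)
  let s : ℕ → Finset ℕ := fun n => Nat.rec ∅ (fun j F => insert (g F j) F) n
  have hs : ∀ j, s (j + 1) = insert (g (s j) j) (s j) := fun j => rfl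
  let k : ℕ → ℕ := fun j => g (s j) j
  have hmem : ∀ i j, i < j → k i ∈ s j := by
    intro i j hij
    induction j with
    | zero => omega
    | succ j ih =>
      rw [hs]
      rcases Nat.lt_succ_iff_lt_or_eq.1 hij with h | h
      · exact Finset.mem_insert_of_mem (ih h)
      · rw [h]
        exact Finset.mem_insert_self _ _
  have hk : StrictMono k := strictMono_nat_of_lt_succ fun j => by
    have h1 : k j ≤ (s (j + 1)).sup id :=
      Finset.le_sup (f := id) (hmem j (j + 1) (Nat.lt_succ_self j))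
    have h2 := hg1 (s (j + 1)) (j + 1)
    show k j < g (s (j + 1)) (j + 1)
    omega
  refine ⟨k, hk, fun j e he t => ?_⟩
  refine hg2 (s j) j e ?_ t
  refine Submodule.span_mono ?_ he
  rintro _ ⟨i, hi, rfl⟩
  have hi' : i < j := Finset.mem_range.1 (Finset.mem_coe.1 hi)
  exact ⟨k i, Finset.mem_coe.2 (hmem i j hi'), rfl⟩

/-- TARGET. Bessaga and Pelczynski: a weakly unconditionally Cauchy series with terms bounded away from
zero gives a copy of `c_0`. -/
theorem bp {X : Type*} [NormedAddCommGroup X] [NormedSpace ℂ X] [CompleteSpace X]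
    (z : ℕ → X) (C : ℝ)
    (hup : ∀ (n : ℕ) (t : ℕ → ℂ), (∀ j, ‖t j‖ ≤ 1) → ‖∑ j ∈ Finset.range n, t j • z j‖ ≤ C)
    (δ : ℝ) (hδ : 0 < δ) (hz : ∀ k, δ ≤ ‖z k‖) : ContainsC0 X := by
  obtain ⟨k, hk, hkE⟩ := bp_seq z δ hδ hz (bp_weak z C hup)
  refine c0_embed (fun j => z (k j)) (δ / 4) C (by positivity) ?_ ?_
  · intro n t ht
    have hinj := hk.injective
    let t' : ℕ → ℂ := Function.extend k t 0
    have ht' : ∀ i, ‖t' i‖ ≤ 1 := by
      intro i
      by_cases hi : ∃ j, k j = i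
      · obtain ⟨j, rfl⟩ := hi
        show ‖Function.extend k t 0 (k j)‖ ≤ 1
        rw [hinj.extend_apply]
        exact ht j
      · show ‖Function.extend k t 0 i‖ ≤ 1
        rw [Function.extend_apply' _ _ _ hi]
        simp
    have h1 := hup (k n) t' ht'
    have h2 : ∑ j ∈ Finset.range n, t j • z (k j)
        = ∑ i ∈ Finset.range (k n), t' i • z i := by
      have h3 : ∑ i ∈ (Finset.range n).image k, t' i • z i
          = ∑ i ∈ Finset.range (k n), t' i • z i := by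
        apply Finset.sum_subset
        · intro i hi
          obtain ⟨j, hj, rfl⟩ := Finset.mem_image.1 hi
          exact Finset.mem_range.2 (hk (Finset.mem_range.1 hj))
        · intro i hi hi2
          have : ¬ ∃ j, k j = i := by
            rintro ⟨j, rfl⟩
            apply hi2
            exact Finset.mem_image.2 ⟨j, Finset.mem_range.2
              (hk.lt_iff_lt.1 (Finset.mem_range.1 hi)), rfl⟩
          show Function.extend k t 0 i • z i = 0
          rw [Function.extend_apply' _ _ _ this]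
          simp
      rw [← h3, Finset.sum_image (fun a _ b _ hab => hinj hab)]
      refine Finset.sum_congr rfl fun j _ => ?_
      show _ = Function.extend k t 0 (k j) • z (k j)
      rw [hinj.extend_apply]
    show ‖∑ j ∈ Finset.range n, t j • z (k j)‖ ≤ C
    rw [h2]
    exact h1
  · intro n t m hmn
    set S : ℕ → X := fun n => ∑ j ∈ Finset.range n, t j • z (k j) with hS
    have hSs : ∀ n, S (n + 1) = S n + t n • z (k n) := fun n => Finset.sum_range_succ _ _
    have hstep : ∀ n, (1 - (1 / 2 : ℝ) ^ (n + 2)) * ‖S n‖ ≤ ‖S (n + 1)‖ := by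
      intro n
      rw [hSs]
      apply hkE
      apply Submodule.sum_mem
      intro j hj
      apply Submodule.smul_mem
      exact Submodule.subset_span ⟨j, Finset.mem_coe.2 hj, rfl⟩
    have hmono : ∀ a b, a ≤ b → (1 / 2 + (1 / 2 : ℝ) ^ (b + 1)) * ‖S a‖ ≤ ‖S b‖ := by
      intro a b hab
      induction b, hab using Nat.le_induction with
      | base =>
        have h1 : (1 / 2 : ℝ) ^ (a + 1) ≤ 1 / 2 := by
          rw [pow_succ]
          have : (1 / 2 : ℝ) ^ a ≤ 1 := pow_le_one₀ (by norm_num) (by norm_num)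
          linarith
        have h2 := norm_nonneg (S a)
        nlinarith
      | succ b _ ih =>
        refine le_trans ?_ (hstep b)
        have h1 : (1 / 2 : ℝ) ^ (b + 1) = 2 * (1 / 2 : ℝ) ^ (b + 2) := by
          rw [pow_succ (1 / 2 : ℝ) (b + 1)]
          ring
        have h0 : (1 / 2 : ℝ) ^ (b + 1) ≤ 1 / 2 := by
          rw [pow_succ]
          have : (1 / 2 : ℝ) ^ b ≤ 1 := pow_le_one₀ (by norm_num) (by norm_num)
          linarith
        have hε : 0 < (1 / 2 : ℝ) ^ (b + 2) := by positivity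
        have hSa := norm_nonneg (S a)
        have e1 : (1 / 2 : ℝ) ^ (b + 1 + 1) = (1 / 2 : ℝ) ^ (b + 2) := rfl
        rw [e1]
        generalize (1 / 2 : ℝ) ^ (b + 2) = ε at *
        rw [h1] at ih h0
        have h2 : 0 ≤ 1 - ε := by linarith
        have h3 := mul_le_mul_of_nonneg_left ih h2
        refine le_trans ?_ h3
        rw [← mul_assoc]
        apply mul_le_mul_of_nonneg_right _ hSa
        nlinarith
    have h2 : ∀ a, a ≤ n → ‖S a‖ ≤ 2 * ‖S n‖ := by
      intro a ha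
      have h3 := hmono a n ha
      have h4 : 0 < (1 / 2 : ℝ) ^ (n + 1) := by positivity
      have h5 := norm_nonneg (S a)
      nlinarith
    have h3 : t m • z (k m) = S (m + 1) - S m := by
      rw [hSs]
      abel
    have h4 : ‖t m‖ * δ ≤ ‖t m • z (k m)‖ := by
      rw [norm_smul]
      exact mul_le_mul_of_nonneg_left (hz _) (norm_nonneg _)
    have h5 : ‖t m • z (k m)‖ ≤ ‖S (m + 1)‖ + ‖S m‖ := by
      rw [h3]
      exact norm_sub_le _ _
    have h6 := h2 (m + 1) hmn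
    have h7 := h2 m hmn.le
    show δ / 4 * ‖t m‖ ≤ ‖S n‖
    nlinarith


/-! ### chain -/
theorem chain_aux {X : Type*} [NormedAddCommGroup X] [NormedSpace ℂ X] (a : X →L[ℂ] ℂ)
    (ψ : ℕ → X)
    (h : ∀ k, Disc a (Submodule.span ℂ (ψ '' {j | j < k})) ((1 / 2) ^ (k + 1)) (ψ k))
    (s : ℕ → ℂ) (hs : ∀ j, ‖s j‖ ≤ 1) (n : ℕ) :
    (∑ j ∈ Finset.range n, s j • (ψ j - ψ (j + 1)) + s n • ψ n) ∈
        Submodule.span ℂ (ψ '' {j | j < n + 1}) ∧
      a (∑ j ∈ Finset.range n, s j • (ψ j - ψ (j + 1)) + s n • ψ n) = s n ∧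
      ‖∑ j ∈ Finset.range n, s j • (ψ j - ψ (j + 1)) + s n • ψ n‖ ≤
        3 * (1 - (1 / 2 : ℝ) ^ (n + 1)) := by
  induction n with
  | zero =>
    refine ⟨?_, ?_, ?_⟩
    · simp only [Finset.range_zero, Finset.sum_empty, zero_add]
      exact Submodule.smul_mem _ _ (Submodule.subset_span ⟨0, by simp, rfl⟩)
    · simp [(h 0).1]
    · have h0 := (h 0).2 0 (Submodule.zero_mem _) (by simp) (s 0) (hs 0)
      simp only [map_zero, sub_zero, zero_add] at h0
      simp only [Finset.range_zero, Finset.sum_empty, zero_add]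
      refine h0.trans ?_
      norm_num
  | succ n ih =>
    obtain ⟨ih1, ih2, ih3⟩ := ih
    set y : X := ∑ j ∈ Finset.range n, s j • (ψ j - ψ (j + 1)) + s n • ψ n with hy
    have hstep : ∑ j ∈ Finset.range (n + 1), s j • (ψ j - ψ (j + 1)) + s (n + 1) • ψ (n + 1)
        = y + (s (n + 1) - a y) • ψ (n + 1) := by
      rw [ih2, hy, Finset.sum_range_succ]
      module
    rw [hstep]
    have ha1 : a (ψ (n + 1)) = 1 := (h (n + 1)).1
    refine ⟨?_, ?_, ?_⟩
    · refine Submodule.add_mem _ ?_ (Submodule.smul_mem _ _ (Submodule.subset_span ⟨n + 1, by simp, rfl⟩))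
      refine Submodule.span_mono (Set.image_mono ?_) ih1
      intro j hj
      simp only [Set.mem_setOf_eq] at hj ⊢
      omega
    · rw [map_add, map_smul, ha1]
      simp
    · set P : ℝ := 3 * (1 - (1 / 2 : ℝ) ^ (n + 1)) with hP
      have hu0 : 0 < (1 / 2 : ℝ) ^ (n + 1) := by positivity
      have hu1 : (1 / 2 : ℝ) ^ (n + 1) ≤ 1 / 2 := by
        rw [pow_succ]
        have : (1 / 2 : ℝ) ^ n ≤ 1 := pow_le_one₀ (by norm_num) (by norm_num)
        linarith
      have hP1 : 1 ≤ P := by rw [hP]; linarith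
      have hP0 : 0 < P := by linarith
      have hPC : (P : ℂ) ≠ 0 := by exact_mod_cast hP0.ne'
      have hnP : ‖((P : ℂ))⁻¹‖ = P⁻¹ := by
        rw [norm_inv, Complex.norm_real, Real.norm_eq_abs, abs_of_pos hP0]
      have key := (h (n + 1)).2 (((P : ℂ))⁻¹ • y) (Submodule.smul_mem _ _ ih1)
        (by
          rw [norm_smul, hnP]
          rw [inv_mul_le_iff₀ hP0, mul_one]
          exact ih3)
        (((P : ℂ))⁻¹ * s (n + 1))
        (by
          rw [norm_mul, hnP, inv_mul_le_iff₀ hP0, mul_one]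
          exact (hs _).trans hP1)
      have heq : ((P : ℂ))⁻¹ • y + (((P : ℂ))⁻¹ * s (n + 1) - a (((P : ℂ))⁻¹ • y)) • ψ (n + 1)
          = ((P : ℂ))⁻¹ • (y + (s (n + 1) - a y) • ψ (n + 1)) := by
        rw [map_smul, smul_eq_mul]
        module
      rw [heq, norm_smul, hnP, inv_mul_le_iff₀ hP0] at key
      refine key.trans ?_
      rw [hP]
      have e : (1 / 2 : ℝ) ^ (n + 1 + 1) = (1 / 2 : ℝ) ^ (n + 1) / 2 := by
        rw [pow_succ _ (n + 1)]; ring
      rw [e]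
      nlinarith

/-- TARGET. Successive almost affine disc directions have weakly unconditionally Cauchy differences. -/
theorem chain {X : Type*} [NormedAddCommGroup X] [NormedSpace ℂ X] (a : X →L[ℂ] ℂ)
    (ha : ‖a‖ = 1) (ψ : ℕ → X)
    (h : ∀ k, Disc a (Submodule.span ℂ (ψ '' {j | j < k})) ((1 / 2) ^ (k + 1)) (ψ k)) :
    ∃ C : ℝ, ∀ (n : ℕ) (t : ℕ → ℂ), (∀ j, ‖t j‖ ≤ 1) →
      ‖∑ j ∈ Finset.range n, t j • (ψ j - ψ (j + 1))‖ ≤ C := by
  refine ⟨3, fun n t ht => ?_⟩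
  let s : ℕ → ℂ := fun j => if j < n then t j else 0
  have hs : ∀ j, ‖s j‖ ≤ 1 := by
    intro j
    simp only [s]
    split_ifs
    · exact ht j
    · simp
  have h1 := (chain_aux a ψ h s hs n).2.2
  have h2 : ∑ j ∈ Finset.range n, s j • (ψ j - ψ (j + 1)) + s n • ψ n =
      ∑ j ∈ Finset.range n, t j • (ψ j - ψ (j + 1)) := by
    have h3 : s n = 0 := by simp [s]
    rw [h3, zero_smul, add_zero]
    refine Finset.sum_congr rfl fun j hj => ?_
    have h4 : s j = t j := by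
      simp only [s]
      rw [if_pos (Finset.mem_range.1 hj)]
    rw [h4]
  rw [h2] at h1
  refine h1.trans ?_
  have : 0 < (1 / 2 : ℝ) ^ (n + 1) := by positivity
  linarith


/-! ### exact_disc -/
theorem exact_disc_mono {X : Type*} [NormedAddCommGroup X] [NormedSpace ℂ X] (a : X →L[ℂ] ℂ)
    {E E' : Submodule ℂ X} {ε ε' : ℝ} (hE : E ≤ E') (hε : ε' ≤ ε) {φ : X}
    (h : Disc a E' ε' φ) : Disc a E ε φ :=
  ⟨h.1, fun x hx hx1 t ht => (h.2 x (hE hx) hx1 t ht).trans (by linarith)⟩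

theorem exact_disc_claim {X : Type*} [NormedAddCommGroup X] [NormedSpace ℂ X] [CompleteSpace X]
    (hc : ¬ ContainsC0 X) (a : X →L[ℂ] ℂ) (ha : ‖a‖ = 1) (δ : ℝ) (hδ : 0 < δ) :
    ∃ E : Submodule ℂ X, FiniteDimensional ℂ E ∧ ∃ ε : ℝ, 0 < ε ∧
      ∀ φ φ' : X, Disc a E ε φ → Disc a E ε φ' → ‖φ - φ'‖ < δ := by
  by_contra hcon
  push Not at hcon
  have step : ∀ (E : {E : Submodule ℂ X // FiniteDimensional ℂ E}) (k : ℕ) (p : X),
      ∃ ψ : X, Disc a E.1 ((1 / 2) ^ (k + 1)) ψ ∧ δ / 2 ≤ ‖p - ψ‖ := by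
    rintro ⟨E, hE⟩ k p
    obtain ⟨φ, φ', h1, h2, h3⟩ := hcon E hE ((1 / 2) ^ (k + 1)) (by positivity)
    by_cases h : δ / 2 ≤ ‖p - φ‖
    · exact ⟨φ, h1, h⟩
    · refine ⟨φ', h2, ?_⟩
      push Not at h
      by_contra h4
      push Not at h4
      have h5 : φ - φ' = (p - φ') - (p - φ) := by abel
      have h6 : ‖φ - φ'‖ ≤ ‖p - φ'‖ + ‖p - φ‖ := by
        rw [h5]; exact norm_sub_le _ _
      linarith
  choose next hn1 hn2 using step
  have hfd : ∀ (E : {E : Submodule ℂ X // FiniteDimensional ℂ E}) (v : X),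
      FiniteDimensional ℂ (E.1 ⊔ Submodule.span ℂ {v} : Submodule ℂ X) := by
    rintro ⟨E, hE⟩ v
    have := hE
    infer_instance
  let Q : ℕ → {E : Submodule ℂ X // FiniteDimensional ℂ E} × X := fun k =>
    Nat.rec (motive := fun _ => {E : Submodule ℂ X // FiniteDimensional ℂ E} × X)
      (⟨⊥, inferInstance⟩, next ⟨⊥, inferInstance⟩ 0 0)
      (fun k s => (⟨s.1.1 ⊔ Submodule.span ℂ {s.2}, hfd s.1 s.2⟩,
        next ⟨s.1.1 ⊔ Submodule.span ℂ {s.2}, hfd s.1 s.2⟩ (k + 1) s.2)) k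
  have hQ0 : Q 0 = (⟨⊥, inferInstance⟩, next ⟨⊥, inferInstance⟩ 0 0) := rfl
  have hQs : ∀ k, Q (k + 1) = (⟨(Q k).1.1 ⊔ Submodule.span ℂ {(Q k).2}, hfd (Q k).1 (Q k).2⟩,
        next ⟨(Q k).1.1 ⊔ Submodule.span ℂ {(Q k).2}, hfd (Q k).1 (Q k).2⟩ (k + 1) (Q k).2) :=
    fun k => rfl
  have hdisc : ∀ k, Disc a (Q k).1.1 ((1 / 2) ^ (k + 1)) (Q k).2 := by
    intro k
    cases k with
    | zero => exact hn1 _ 0 0
    | succ k => exact hn1 _ (k + 1) _
  have hdist : ∀ k, δ / 2 ≤ ‖(Q k).2 - (Q (k + 1)).2‖ := fun k => hn2 _ (k + 1) _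
  have hle : ∀ k, (Q k).1.1 ≤ (Q (k + 1)).1.1 := fun k => le_sup_left
  have hmono : Monotone (fun k => (Q k).1.1) := monotone_nat_of_le_succ hle
  have hmem : ∀ j k, j < k → (Q j).2 ∈ (Q k).1.1 := by
    intro j k hjk
    have h1 : (Q j).2 ∈ (Q (j + 1)).1.1 :=
      (le_sup_right : Submodule.span ℂ {(Q j).2} ≤ (Q j).1.1 ⊔ Submodule.span ℂ {(Q j).2})
        (Submodule.mem_span_singleton_self _)
    exact hmono (show j + 1 ≤ k from hjk) h1
  obtain ⟨C, hC⟩ := chain a ha (fun k => (Q k).2) (by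
    intro k
    refine exact_disc_mono a ?_ le_rfl (hdisc k)
    rw [Submodule.span_le]
    rintro _ ⟨j, hj, rfl⟩
    exact hmem j k hj)
  exact hc (bp (fun k => (Q k).2 - (Q (k + 1)).2) C hC (δ / 2) (by linarith) hdist)

/-- TARGET. Without a copy of `c_0` there is an exact affine disc direction. -/
theorem exact_disc {X : Type*} [NormedAddCommGroup X] [NormedSpace ℂ X] [CompleteSpace X]
    (hc : ¬ ContainsC0 X) (a : X →L[ℂ] ℂ) (ha : ‖a‖ = 1) (hL : IsLSummand a) :
    ∃ e : X, a e = 1 ∧ ∀ x : X, ‖x‖ ≤ 1 → ∀ t : ℂ, ‖t‖ ≤ 1 → ‖x + (t - a x) • e‖ ≤ 1 := by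
  let ι := {E : Submodule ℂ X // FiniteDimensional ℂ E} × {ε : ℝ // 0 < ε}
  let U : ι → Set X := fun i => {φ | Disc a i.1.1 i.2.1 φ}
  let F : Filter X := ⨅ i : ι, 𝓟 (U i)
  have : Nonempty ι := ⟨(⟨⊥, inferInstance⟩, ⟨1, one_pos⟩)⟩
  have hdir : Directed (· ≥ ·) (fun i : ι => 𝓟 (U i)) := by
    rintro ⟨⟨E, hE⟩, ⟨ε, hε⟩⟩ ⟨⟨E', hE'⟩, ⟨ε', hε'⟩⟩
    have := hE
    have := hE'
    refine ⟨(⟨E ⊔ E', inferInstance⟩, ⟨min ε ε', lt_min hε hε'⟩), ?_, ?_⟩
    · change 𝓟 _ ≤ 𝓟 _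
      rw [principal_mono]
      intro φ hφ
      exact exact_disc_mono a le_sup_left (min_le_left _ _) hφ
    · change 𝓟 _ ≤ 𝓟 _
      rw [principal_mono]
      intro φ hφ
      exact exact_disc_mono a le_sup_right (min_le_right _ _) hφ
  have hne : NeBot F := by
    refine iInf_neBot_of_directed' hdir ?_
    rintro ⟨⟨E, hE⟩, ⟨ε, hε⟩⟩
    rw [principal_neBot_iff]
    exact disc_exists a ha hL E hE ε hε
  have hmem : ∀ i : ι, U i ∈ F := fun i => mem_iInf_of_mem i (mem_principal_self _)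
  have hcau : Cauchy F := by
    rw [Metric.cauchy_iff]
    refine ⟨hne, fun δ hδ => ?_⟩
    obtain ⟨E, hE, ε, hε, h⟩ := exact_disc_claim hc a ha δ hδ
    refine ⟨U (⟨E, hE⟩, ⟨ε, hε⟩), hmem _, fun x hx y hy => ?_⟩
    rw [dist_eq_norm]
    exact h x y hx hy
  obtain ⟨e, he⟩ := CompleteSpace.complete hcau
  have hlim : Tendsto id F (𝓝 e) := he
  refine ⟨e, ?_, ?_⟩
  · have hcl : IsClosed {φ : X | a φ = 1} := isClosed_eq a.continuous continuous_const
    refine hcl.mem_of_tendsto hlim ?_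
    filter_upwards [hmem (⟨⊥, inferInstance⟩, ⟨1, one_pos⟩)] with φ hφ
    exact hφ.1
  · intro x hx t ht
    refine le_of_forall_pos_le_add ?_
    intro η hη
    have hcl : IsClosed {φ : X | ‖x + (t - a x) • φ‖ ≤ 1 + η} :=
      isClosed_le (continuous_const.add (continuous_const.smul continuous_id)).norm
        continuous_const
    refine hcl.mem_of_tendsto hlim ?_
    filter_upwards [hmem (⟨Submodule.span ℂ {x}, inferInstance⟩, ⟨η, hη⟩)] with φ hφ
    exact hφ.2 x (Submodule.mem_span_singleton_self x) hx t ht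


/-! ### seq_points -/
theorem seq_points_unique {X : Type*} [NormedAddCommGroup X] [NormedSpace ℂ X] (x : X)
    (hx : ‖x‖ = 1) (hd : DifferentiableAt ℝ (fun y : X => ‖y‖) x) (f g : X →L[ℂ] ℂ)
    (hf : ‖f‖ ≤ 1) (hg : ‖g‖ ≤ 1) (hfx : f x = 1) (hgx : g x = 1) : f = g := by
  have key : ∀ (f : X →L[ℂ] ℂ), ‖f‖ ≤ 1 → f x = 1 →
      ∀ h : X, fderiv ℝ (fun y : X => ‖y‖) x h = (f h).re := by
    intro f hf hfx h
    have h1 : HasFDerivAt (fun y : X => ‖y‖) (fderiv ℝ (fun y : X => ‖y‖) x) x := hd.hasFDerivAt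
    have h2 : HasFDerivAt (fun y : X => (f y).re)
        (Complex.reCLM.comp (f.restrictScalars ℝ)) x :=
      (Complex.reCLM.comp (f.restrictScalars ℝ)).hasFDerivAt
    have h3 := h1.sub h2
    have hmin : IsLocalMin ((fun y : X => ‖y‖) - fun y : X => (f y).re) x := by
      refine Filter.Eventually.of_forall ?_
      intro y
      simp only [Pi.sub_apply]
      rw [hx, hfx]
      have : (f y).re ≤ ‖y‖ := by
        calc (f y).re ≤ ‖f y‖ := Complex.re_le_norm _
          _ ≤ ‖f‖ * ‖y‖ := f.le_opNorm y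
          _ ≤ 1 * ‖y‖ := by gcongr
          _ = ‖y‖ := one_mul _
      simp
      linarith
    have h4 := hmin.hasFDerivAt_eq_zero h3
    have h5 := congrArg (fun L : X →L[ℝ] ℝ => L h) h4
    simp at h5
    linarith
  ext h
  have h1 : (f h).re = (g h).re := by rw [← key f hf hfx h, ← key g hg hgx h]
  have h2 : (f (Complex.I • h)).re = (g (Complex.I • h)).re := by
    rw [← key f hf hfx, ← key g hg hgx]
  simp at h2
  exact Complex.ext h1 h2

/-- TARGET. Infinitely many points of Fréchet differentiability with essentially different derivatives. -/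
theorem seq_points {X : Type*} [NormedAddCommGroup X] [NormedSpace ℂ X]
    (hdim : ¬ FiniteDimensional ℂ X)
    (hF : Dense {x : X | DifferentiableAt ℝ (fun y : X => ‖y‖) x}) :
    ∃ (x : ℕ → X) (a : ℕ → X →L[ℂ] ℂ), (∀ i, ‖x i‖ = 1) ∧ (∀ i, ‖a i‖ = 1) ∧
      (∀ i, a i (x i) = 1) ∧ (∀ i, DifferentiableAt ℝ (fun y : X => ‖y‖) (x i)) ∧
      ∀ i j, i ≠ j → ‖a j (x i)‖ < 1 := by
  classical
  let P : X × (X →L[ℂ] ℂ) → Prop := fun p => ‖p.1‖ = 1 ∧ ‖p.2‖ = 1 ∧ p.2 p.1 = 1 ∧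
    DifferentiableAt ℝ (fun y : X => ‖y‖) p.1
  let r : X × (X →L[ℂ] ℂ) → X × (X →L[ℂ] ℂ) → Prop := fun p q => ‖p.2 q.1‖ < 1 ∧ ‖q.2 p.1‖ < 1
  have hmain : ∀ s : Finset (X × (X →L[ℂ] ℂ)), (∀ p ∈ s, P p) → ∃ q, P q ∧ ∀ p ∈ s, r p q := by
    intro s hs
    -- a common zero
    obtain ⟨x, hx0, hxs⟩ : ∃ x : X, x ≠ 0 ∧ ∀ p ∈ s, p.2 x = 0 := by
      by_contra hcon
      push Not at hcon
      apply hdim
      let T : X →ₗ[ℂ] (s → ℂ) := LinearMap.pi (fun p => (p.1.2 : X →ₗ[ℂ] ℂ))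
      have hT : Function.Injective T := by
        rw [injective_iff_map_eq_zero]
        intro y hy
        by_contra hy0
        obtain ⟨p, hp, hpy⟩ := hcon y hy0
        apply hpy
        have := congrFun hy ⟨p, hp⟩
        simpa [T] using this
      exact Module.Finite.of_injective T hT
    have hxpos : 0 < ‖x‖ := norm_pos_iff.mpr hx0
    obtain ⟨x', hx'd, hx'⟩ := hF.exists_dist_lt x (by positivity : 0 < ‖x‖ / 4)
    have hdist : ‖x' - x‖ < ‖x‖ / 4 := by
      rw [dist_comm, dist_eq_norm] at hx'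
      exact hx'
    have hx'n : 3 * ‖x‖ / 4 < ‖x'‖ := by
      have : ‖x‖ ≤ ‖x'‖ + ‖x' - x‖ := by
        have h := norm_sub_le x' (x' - x)
        simpa using h
      linarith
    have hx'pos : 0 < ‖x'‖ := by linarith
    obtain ⟨u, hu⟩ : ∃ u : X, u = (‖x'‖⁻¹ : ℝ) • x' := ⟨_, rfl⟩
    have hu1 : ‖u‖ = 1 := by
      rw [hu, norm_smul, norm_inv, norm_norm]
      field_simp
    have hu0 : u ≠ 0 := by
      intro h
      rw [h] at hu1
      simp at hu1
    have hx'u : x' = ‖x'‖ • u := by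
      rw [hu, smul_smul, mul_inv_cancel₀ hx'pos.ne', one_smul]
    have hud : DifferentiableAt ℝ (fun y : X => ‖y‖) u := by
      have heq : (fun y : X => ‖y‖) = fun y : X => ‖x'‖⁻¹ * ‖‖x'‖ • y‖ := by
        funext y
        rw [norm_smul, norm_norm]
        field_simp
      rw [heq]
      have h1 : DifferentiableAt ℝ (fun y : X => ‖y‖) (‖x'‖ • u) := by
        rw [← hx'u]
        exact hx'd
      have h2 : DifferentiableAt ℝ (fun y : X => ‖x'‖ • y) u := by
        exact (differentiableAt_id).const_smul ‖x'‖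
      exact (h1.comp u h2).const_mul _
    obtain ⟨a, ha1, hau⟩ := exists_dual_vector ℂ u (by rw [hu1]; exact one_ne_zero)
    have hau1 : a u = 1 := by
      rw [hau, hu1]
      simp
    refine ⟨(u, a), ⟨hu1, ha1, hau1, hud⟩, ?_⟩
    intro p hp
    obtain ⟨hp1, hp2, hp3, hp4⟩ := hs p hp
    have hpu : ‖p.2 u‖ < 1 := by
      have e1 : p.2 x' = p.2 (x' - x) := by
        rw [map_sub, hxs p hp, sub_zero]
      have e2 : ‖p.2 x'‖ ≤ ‖x' - x‖ := by
        rw [e1]
        calc ‖p.2 (x' - x)‖ ≤ ‖p.2‖ * ‖x' - x‖ := p.2.le_opNorm _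
          _ = ‖x' - x‖ := by rw [hp2, one_mul]
      have e3 : ‖p.2 x'‖ = ‖x'‖ * ‖p.2 u‖ := by
        conv_lhs => rw [hx'u]
        have : p.2 (‖x'‖ • u) = ((‖x'‖ : ℝ) : ℂ) * p.2 u := by
          have := (p.2.restrictScalars ℝ).map_smul ‖x'‖ u
          simpa using this
        rw [this, norm_mul, Complex.norm_real, norm_norm]
      have e4 : ‖x'‖ * ‖p.2 u‖ < ‖x'‖ * 1 := by
        rw [← e3]
        linarith
      exact lt_of_mul_lt_mul_left e4 hx'pos.le
    refine ⟨hpu, ?_⟩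
    show ‖a p.1‖ < 1
    have hle : ‖a p.1‖ ≤ 1 := by
      calc ‖a p.1‖ ≤ ‖a‖ * ‖p.1‖ := a.le_opNorm _
        _ = 1 := by rw [ha1, hp1, one_mul]
    rcases lt_or_eq_of_le hle with hlt | heq
    · exact hlt
    · exfalso
      have huniq := seq_points_unique p.1 hp1 hp4 ((starRingEnd ℂ (a p.1)) • a) p.2
        (by rw [norm_smul, RCLike.norm_conj, heq, ha1, one_mul]) (le_of_eq hp2)
        (by
          have : ((starRingEnd ℂ (a p.1)) • a) p.1 = (starRingEnd ℂ (a p.1)) * a p.1 := rfl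
          rw [this, mul_comm, Complex.mul_conj, Complex.normSq_eq_norm_sq, heq]
          simp) hp3
      have : ‖p.2 u‖ = 1 := by
        rw [← huniq]
        have : ((starRingEnd ℂ (a p.1)) • a) u = (starRingEnd ℂ (a p.1)) * a u := rfl
        rw [this, hau1, mul_one, RCLike.norm_conj, heq]
      linarith
  have : Std.Symm r := ⟨fun p q h => ⟨h.2, h.1⟩⟩
  obtain ⟨f, hf1, hf2⟩ := exists_seq_of_forall_finset_exists' P r hmain
  refine ⟨fun n => (f n).1, fun n => (f n).2, fun i => (hf1 i).1, fun i => (hf1 i).2.1,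
    fun i => (hf1 i).2.2.1, fun i => (hf1 i).2.2.2, ?_⟩
  intro i j hij
  exact (hf2 hij).2


/-! ### c0_of_discs -/
theorem c0_of_discs_zero {X : Type*} [NormedAddCommGroup X] [NormedSpace ℂ X]
    (x : X) (a b : X →L[ℂ] ℂ) (e : X) (hx : ‖x‖ = 1) (ha : ‖a‖ = 1)
    (hax : a x = 1) (hsep : ‖b x‖ < 1)
    (he : ∀ y : X, ‖y‖ ≤ 1 → ∀ t : ℂ, ‖t‖ ≤ 1 → ‖y + (t - b y) • e‖ ≤ 1) : a e = 0 := by
  by_contra hw
  have hw0 : 0 < ‖a e‖ := norm_pos_iff.2 hw
  set r : ℝ := (1 - ‖b x‖) / ‖a e‖ with hr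
  have hr0 : 0 < r := div_pos (by linarith) hw0
  have hrw : r * ‖a e‖ = 1 - ‖b x‖ := by
    rw [hr]
    field_simp
  have ht : ‖b x + (r : ℂ) * (starRingEnd ℂ) (a e)‖ ≤ 1 := by
    refine (norm_add_le _ _).trans ?_
    rw [norm_mul, RCLike.norm_conj, Complex.norm_real, Real.norm_of_nonneg hr0.le, hrw]
    linarith
  have h1 := he x hx.le _ ht
  rw [add_sub_cancel_left] at h1
  have h2 : ‖a (x + ((r : ℂ) * (starRingEnd ℂ) (a e)) • e)‖ ≤ 1 := by
    refine (a.le_opNorm _).trans ?_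
    rw [ha, one_mul]
    exact h1
  have h3 : a (x + ((r : ℂ) * (starRingEnd ℂ) (a e)) • e) = ((1 + r * ‖a e‖ ^ 2 : ℝ) : ℂ) := by
    rw [map_add, map_smul, hax, smul_eq_mul, mul_assoc, mul_comm ((starRingEnd ℂ) (a e)) (a e),
      Complex.mul_conj, Complex.normSq_eq_norm_sq]
    push_cast
    ring
  have h4 : 0 < r * ‖a e‖ ^ 2 := by positivity
  rw [h3, Complex.norm_real, Real.norm_of_nonneg (by linarith)] at h2
  linarith

/-- TARGET. Infinitely many exact affine disc directions give a copy of `c_0`. -/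
theorem c0_of_discs {X : Type*} [NormedAddCommGroup X] [NormedSpace ℂ X] [CompleteSpace X]
    (x : ℕ → X) (a : ℕ → X →L[ℂ] ℂ) (e : ℕ → X) (hx : ∀ i, ‖x i‖ = 1) (ha : ∀ i, ‖a i‖ = 1)
    (hax : ∀ i, a i (x i) = 1) (hsep : ∀ i j, i ≠ j → ‖a j (x i)‖ < 1) (hae : ∀ i, a i (e i) = 1)
    (he : ∀ i, ∀ y : X, ‖y‖ ≤ 1 → ∀ t : ℂ, ‖t‖ ≤ 1 → ‖y + (t - a i y) • e i‖ ≤ 1) :
    ContainsC0 X := by
  have h0 : ∀ i j, i ≠ j → a i (e j) = 0 := fun i j hij =>
    c0_of_discs_zero (x i) (a i) (a j) (e j) (hx i) (ha i) (hax i) (hsep i j hij) (he j)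
  have hsum : ∀ (n k : ℕ) (t : ℕ → ℂ), n ≤ k → a k (∑ j ∈ Finset.range n, t j • e j) = 0 := by
    intro n k t hnk
    rw [map_sum]
    refine Finset.sum_eq_zero (fun j hj => ?_)
    have hj' := Finset.mem_range.1 hj
    rw [map_smul, h0 k j (by omega), smul_zero]
  refine c0_embed e 1 1 one_pos ?_ ?_
  · intro n t ht
    induction n with
    | zero => simp
    | succ n ih =>
      rw [Finset.sum_range_succ]
      have h1 := he n _ ih (t n) (ht n)
      rw [hsum n n t le_rfl, sub_zero] at h1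
      exact h1
  · intro n t k hk
    have h1 : a k (∑ j ∈ Finset.range n, t j • e j) = t k := by
      rw [map_sum, Finset.sum_eq_single k]
      · rw [map_smul, hae k, smul_eq_mul, mul_one]
      · intro j _ hj
        rw [map_smul, h0 k j (Ne.symm hj), smul_zero]
      · intro h
        exact absurd (Finset.mem_range.2 hk) h
    have h2 := (a k).le_opNorm (∑ j ∈ Finset.range n, t j • e j)
    rw [h1, ha k] at h2
    rw [one_mul] at h2 ⊢
    exact h2


/-! ### exact_pair -/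
theorem exact_pair_step {X : Type*} [NormedAddCommGroup X] [NormedSpace ℂ X]
    (a : X →L[ℂ] ℂ) (ha : ‖a‖ = 1) (hL : IsLSummand a) (δ : ℝ) (hδ : 0 < δ) (hδ1 : δ ≤ 1)
    (y : X) (t : ℂ) (ht : ‖t‖ = 1) (hy : ‖y‖ ≤ 1 + δ) (hay : a y = t) :
    ∃ y' : X, ‖y'‖ ≤ 1 + δ / 2 ∧ a y' = t ∧ ‖y' - y‖ ≤ 3 * δ := by
  obtain ⟨φ, hφ1, hφ2⟩ := disc_exists a ha hL (Submodule.span ℂ {y}) inferInstance (δ / 2)
    (by linarith)
  have hpos : (0 : ℝ) < 1 + δ := by linarith
  have hposC : ((1 + δ : ℝ) : ℂ) ≠ 0 := by exact_mod_cast hpos.ne'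
  obtain ⟨x, hx⟩ : ∃ x : X, x = (((1 + δ : ℝ) : ℂ)⁻¹) • y := ⟨_, rfl⟩
  have hxs : x ∈ Submodule.span ℂ {y} := by
    rw [hx]
    exact Submodule.smul_mem _ _ (Submodule.mem_span_singleton_self y)
  have hnc : ‖(((1 + δ : ℝ) : ℂ)⁻¹)‖ = (1 + δ)⁻¹ := by
    rw [norm_inv, Complex.norm_real, Real.norm_of_nonneg hpos.le]
  have hxn : ‖x‖ ≤ 1 := by
    rw [hx, norm_smul, hnc, inv_mul_le_iff₀ hpos, mul_one]
    exact hy
  have hax : a x = (((1 + δ : ℝ) : ℂ)⁻¹) * t := by
    rw [hx, map_smul, hay, smul_eq_mul]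
  have hφn : ‖φ‖ ≤ 1 + δ / 2 := by
    have h := hφ2 0 (Submodule.zero_mem _) (by simp) 1 (by simp)
    simpa using h
  have hco : t - a x = ((δ / (1 + δ) : ℝ) : ℂ) * t := by
    rw [hax]
    have : (((1 + δ : ℝ) : ℂ)⁻¹) = 1 - ((δ / (1 + δ) : ℝ) : ℂ) := by
      push_cast
      have h' : (1 : ℂ) + (δ : ℂ) ≠ 0 := by
        have := hposC
        push_cast at this
        exact this
      field_simp
      ring
    rw [this]
    ring
  have hcon : ‖t - a x‖ = δ / (1 + δ) := by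
    rw [hco, norm_mul, ht, mul_one, Complex.norm_real, Real.norm_of_nonneg (by positivity)]
  have hxy : ‖x - y‖ ≤ δ := by
    have e1 : x - y = (-((δ / (1 + δ) : ℝ) : ℂ)) • y := by
      rw [hx]
      have : (((1 + δ : ℝ) : ℂ)⁻¹) = 1 - ((δ / (1 + δ) : ℝ) : ℂ) := by
        push_cast
        have h' : (1 : ℂ) + (δ : ℂ) ≠ 0 := by
          have := hposC
          push_cast at this
          exact this
        field_simp
        ring
      rw [this, sub_smul, one_smul, neg_smul]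
      abel
    rw [e1, norm_smul, norm_neg, Complex.norm_real, Real.norm_of_nonneg (by positivity)]
    calc δ / (1 + δ) * ‖y‖ ≤ δ / (1 + δ) * (1 + δ) :=
          mul_le_mul_of_nonneg_left hy (by positivity)
      _ = δ := by field_simp
  refine ⟨x + (t - a x) • φ, hφ2 x hxs hxn t ht.le, ?_, ?_⟩
  · rw [map_add, map_smul, hφ1, smul_eq_mul, mul_one]
    ring
  · have e2 : x + (t - a x) • φ - y = (x - y) + (t - a x) • φ := by abel
    rw [e2]
    have h3 : ‖(t - a x) • φ‖ ≤ 2 * δ := by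
      rw [norm_smul, hcon]
      have h4 : δ / (1 + δ) ≤ δ := div_le_self hδ.le (by linarith)
      calc δ / (1 + δ) * ‖φ‖ ≤ δ * 2 :=
            mul_le_mul h4 (by linarith) (norm_nonneg _) hδ.le
        _ = 2 * δ := by ring
    calc ‖(x - y) + (t - a x) • φ‖ ≤ ‖x - y‖ + ‖(t - a x) • φ‖ := norm_add_le _ _
      _ ≤ 3 * δ := by linarith

/-- TARGET. A vector on which `a` is almost norm attaining is close to a vector on which it attains its
norm. -/
theorem exact_pair {X : Type*} [NormedAddCommGroup X] [NormedSpace ℂ X] [CompleteSpace X]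
    (a : X →L[ℂ] ℂ) (ha : ‖a‖ = 1) (hL : IsLSummand a) (ε : ℝ) (hε : 0 < ε) (hε1 : ε ≤ 1)
    (y : X) (t : ℂ) (ht : ‖t‖ = 1) (hy : ‖y‖ ≤ 1 + ε) (hay : a y = t) :
    ∃ y' : X, ‖y'‖ = 1 ∧ a y' = t ∧ ‖y' - y‖ ≤ 8 * ε := by
  have step : ∀ (k : ℕ) (z : X), (‖z‖ ≤ 1 + ε / 2 ^ k ∧ a z = t) →
      ∃ z' : X, (‖z'‖ ≤ 1 + ε / 2 ^ (k + 1) ∧ a z' = t) ∧ ‖z' - z‖ ≤ 3 * (ε / 2 ^ k) := by
    rintro k z ⟨hz1, hz2⟩
    have hk : ε / 2 ^ k ≤ 1 := by
      rw [div_le_one (by positivity)]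
      exact hε1.trans (one_le_pow₀ (by norm_num))
    obtain ⟨z', h1, h2, h3⟩ := exact_pair_step a ha hL (ε / 2 ^ k) (by positivity) hk z t ht hz1 hz2
    refine ⟨z', ⟨?_, h2⟩, h3⟩
    rw [pow_succ, ← div_div]
    exact h1
  choose! F hF1 hF2 using step
  let s : ℕ → X := fun k => Nat.rec y (fun k z => F k z) k
  have hs0 : s 0 = y := rfl
  have hs1 : ∀ k, s (k + 1) = F k (s k) := fun k => rfl
  have hP : ∀ k, ‖s k‖ ≤ 1 + ε / 2 ^ k ∧ a (s k) = t := by
    intro k
    induction k with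
    | zero =>
      rw [hs0, pow_zero, div_one]
      exact ⟨hy, hay⟩
    | succ k ih =>
      rw [hs1]
      exact hF1 k (s k) ih
  have hd : ∀ k, dist (s k) (s (k + 1)) ≤ (6 * ε) / 2 / 2 ^ k := by
    intro k
    rw [dist_comm, dist_eq_norm, hs1]
    refine (hF2 k (s k) (hP k)).trans (le_of_eq ?_)
    ring
  obtain ⟨y', hy'⟩ := cauchySeq_tendsto_of_complete (cauchySeq_of_le_geometric_two hd)
  have hdist := dist_le_of_le_geometric_two_of_tendsto₀ hd hy'
  have hay' : a y' = t := by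
    have h1 : Tendsto (fun k => a (s k)) atTop (𝓝 (a y')) := (a.continuous.tendsto y').comp hy'
    have h2 : (fun k => a (s k)) = fun _ => t := by
      funext k
      exact (hP k).2
    rw [h2] at h1
    exact tendsto_nhds_unique h1 tendsto_const_nhds |>.symm ▸ rfl
  have hn1 : ‖y'‖ ≤ 1 := by
    have h1 : Tendsto (fun k => ‖s k‖) atTop (𝓝 ‖y'‖) := hy'.norm
    have h2 : Tendsto (fun k : ℕ => 1 + ε / 2 ^ k) atTop (𝓝 (1 + 0)) := by
      refine tendsto_const_nhds.add ?_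
      have h3 : Tendsto (fun k : ℕ => ε * ((1 / 2 : ℝ)) ^ k) atTop (𝓝 (ε * 0)) :=
        (tendsto_pow_atTop_nhds_zero_of_lt_one (by norm_num) (by norm_num)).const_mul ε
      rw [mul_zero] at h3
      refine h3.congr ?_
      intro k
      rw [one_div, inv_pow, div_eq_mul_inv]
    have := le_of_tendsto_of_tendsto' h1 h2 (fun k => (hP k).1)
    linarith
  have hn2 : 1 ≤ ‖y'‖ := by
    have h1 := a.le_opNorm y'
    rw [hay', ht, ha, one_mul] at h1
    exact h1
  refine ⟨y', le_antisymm hn1 hn2, hay', ?_⟩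
  rw [← dist_eq_norm, dist_comm]
  have : dist y y' ≤ 6 * ε := hdist
  linarith


/-! ### radius_ge -/
/-- TARGET. If the L-summands norm the space then the numerical radius of a polynomial is its norm. -/
theorem radius_ge {X : Type*} [NormedAddCommGroup X] [NormedSpace ℂ X] [CompleteSpace X]
    (hn : ∀ x : X, ∀ ε : ℝ, 0 < ε → ∃ a : X →L[ℂ] ℂ, ‖a‖ = 1 ∧ IsLSummand a ∧ ‖x‖ - ε < ‖a x‖)
    (k : ℕ) (A : ContinuousMultilinearMap ℂ (fun _ : Fin k => X) X) (x : X) (hx : ‖x‖ ≤ 1)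
    (ε : ℝ) (hε : 0 < ε) :
    ∃ (y : X) (f : X →L[ℂ] ℂ), ‖y‖ = 1 ∧ ‖f‖ = 1 ∧ f y = 1 ∧
      ‖A fun _ => x‖ - ε < ‖f (A fun _ => y)‖ := by
  obtain ⟨a, ha, hL, hax⟩ := hn (A fun _ => x) (ε / 3) (by positivity)
  obtain ⟨C, hC⟩ : ∃ C : ℝ, C = ‖A‖ * (k : ℝ) * 2 ^ (k - 1) * 8 := ⟨_, rfl⟩
  have hC0 : 0 ≤ C := by rw [hC]; positivity
  obtain ⟨η, hη⟩ : ∃ η : ℝ, η = min 1 (ε / (3 * (C + 1))) := ⟨_, rfl⟩
  have hη0 : 0 < η := by
    rw [hη]; exact lt_min one_pos (by positivity)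
  have hη1 : η ≤ 1 := by rw [hη]; exact min_le_left _ _
  have hCη : C * η < ε / 3 := by
    have h1 : η ≤ ε / (3 * (C + 1)) := by rw [hη]; exact min_le_right _ _
    have h2 : C * η ≤ C * (ε / (3 * (C + 1))) := mul_le_mul_of_nonneg_left h1 hC0
    have h3 : C * (ε / (3 * (C + 1))) = (ε / 3) * (C / (C + 1)) := by
      field_simp
    have h4 : C / (C + 1) < 1 := by
      rw [div_lt_one (by positivity)]; linarith
    have h5 : (ε / 3) * (C / (C + 1)) < (ε / 3) * 1 :=
      mul_lt_mul_of_pos_left h4 (by positivity)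
    linarith
  obtain ⟨φ, hφ1, hφ⟩ := disc_exists a ha hL (Submodule.span ℂ {x})
    (FiniteDimensional.span_singleton ℂ x) η hη0
  have hxs : x ∈ Submodule.span ℂ {x} := Submodule.mem_span_singleton_self x
  obtain ⟨q, hq⟩ : ∃ q : ℂ → ℂ, q = fun t => a (A fun _ => x + (t - a x) • φ) := ⟨_, rfl⟩
  have hqd : Differentiable ℂ q := by
    rw [hq]
    apply a.differentiable.comp
    apply (A.contDiff (n := 1)).differentiable (by norm_num) |>.comp
    apply differentiable_pi.2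
    intro _
    exact (differentiable_const _).add ((differentiable_id.sub (differentiable_const _)).smul
      (differentiable_const _))
  obtain ⟨t, htf, htm⟩ := Complex.exists_mem_frontier_isMaxOn_norm
    (f := q) (U := Metric.ball (0 : ℂ) 1) Metric.isBounded_ball
    (Metric.nonempty_ball.2 one_pos) hqd.diffContOnCl
  rw [frontier_ball (0 : ℂ) one_ne_zero, mem_sphere_zero_iff_norm] at htf
  have hax1 : ‖a x‖ ≤ 1 := by
    have := a.le_opNorm x
    rw [ha, one_mul] at this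
    exact this.trans hx
  have hmem : a x ∈ closure (Metric.ball (0 : ℂ) 1) := by
    rw [closure_ball (0 : ℂ) one_ne_zero, mem_closedBall_zero_iff]
    exact hax1
  have hqle : ‖q (a x)‖ ≤ ‖q t‖ := htm hmem
  have hqax : q (a x) = a (A fun _ => x) := by
    rw [hq]; simp
  obtain ⟨y, hy⟩ : ∃ y : X, y = x + (t - a x) • φ := ⟨_, rfl⟩
  have hqt : q t = a (A fun _ => y) := by
    rw [hq, hy]
  have hyn : ‖y‖ ≤ 1 + η := by
    rw [hy]; exact hφ x hxs hx t htf.le
  have hay : a y = t := by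
    rw [hy, map_add, map_smul, hφ1, smul_eq_mul]; ring
  obtain ⟨y', hy'1, hy't, hy'y⟩ := exact_pair a ha hL η hη0 hη1 y t htf hyn hay
  have htne : t ≠ 0 := by
    intro h; rw [h, norm_zero] at htf; exact zero_ne_one htf
  have hti : ‖t⁻¹‖ = 1 := by rw [norm_inv, htf, inv_one]
  refine ⟨y', t⁻¹ • a, hy'1, ?_, ?_, ?_⟩
  · rw [norm_smul, hti, ha, one_mul]
  · rw [smul_apply, hy't, smul_eq_mul, inv_mul_cancel₀ htne]
  · rw [smul_apply, norm_smul, hti, one_mul]
    have h1 : ‖(A fun _ => y) - (A fun _ => y')‖ ≤ C * η := by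
      have h2 := A.norm_image_sub_le (fun _ => y) (fun _ => y')
      rw [Fintype.card_fin] at h2
      have h3 : max ‖(fun _ : Fin k => y)‖ ‖(fun _ : Fin k => y')‖ ≤ 2 := by
        apply max_le
        · exact (pi_norm_const_le y).trans (by linarith)
        · exact (pi_norm_const_le y').trans (by linarith)
      have h4 : ‖(fun _ : Fin k => y) - (fun _ : Fin k => y')‖ ≤ 8 * η := by
        have h5 : (fun _ : Fin k => y) - (fun _ : Fin k => y') = fun _ : Fin k => y - y' := rfl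
        rw [h5]
        refine (pi_norm_const_le (y - y')).trans ?_
        rw [norm_sub_rev]; exact hy'y
      refine h2.trans ?_
      rw [hC]
      have h6 : max ‖(fun _ : Fin k => y)‖ ‖(fun _ : Fin k => y')‖ ^ (k - 1) ≤ 2 ^ (k - 1) :=
        pow_le_pow_left₀ (le_max_of_le_left (norm_nonneg _)) h3 _
      calc ‖A‖ * (k : ℝ) * max ‖(fun _ : Fin k => y)‖ ‖(fun _ : Fin k => y')‖ ^ (k - 1)
            * ‖(fun _ : Fin k => y) - (fun _ : Fin k => y')‖
          ≤ (‖A‖ * (k : ℝ) * 2 ^ (k - 1)) * (8 * η) := by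
            apply mul_le_mul _ h4 (norm_nonneg _) (by positivity)
            exact mul_le_mul_of_nonneg_left h6 (by positivity)
        _ = ‖A‖ * (k : ℝ) * 2 ^ (k - 1) * 8 * η := by ring
    have h7 : ‖a (A fun _ => y)‖ ≤ ‖a (A fun _ => y')‖ + ‖(A fun _ => y) - (A fun _ => y')‖ := by
      have h8 : a (A fun _ => y) = a (A fun _ => y') + a ((A fun _ => y) - (A fun _ => y')) := by
        rw [map_sub]; ring
      rw [h8]
      refine (norm_add_le _ _).trans ?_
      have h9 := a.le_opNorm ((A fun _ => y) - (A fun _ => y'))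
      rw [ha, one_mul] at h9
      linarith
    rw [hqax, hqt] at hqle
    linarith


/-! ### index_one -/
theorem index_one_bdd {X Y : Type*} [NormedAddCommGroup X] [NormedSpace ℂ X]
    [NormedAddCommGroup Y] [NormedSpace ℂ Y] {k : ℕ}
    (A : ContinuousMultilinearMap ℂ (fun _ : Fin k => X) Y) (x : X) (hx : ‖x‖ ≤ 1) :
    ‖A fun _ => x‖ ≤ ‖A‖ := by
  have h := A.le_opNorm (fun _ => x)
  have h1 : ∏ _i : Fin k, ‖x‖ ≤ 1 := Finset.prod_le_one (fun _ _ => norm_nonneg _) (fun _ _ => hx)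
  calc ‖A fun _ => x‖ ≤ ‖A‖ * ∏ _i : Fin k, ‖x‖ := h
    _ ≤ ‖A‖ * 1 := mul_le_mul_of_nonneg_left h1 (norm_nonneg _)
    _ = ‖A‖ := mul_one _

theorem index_one_le {X Y : Type*} [NormedAddCommGroup X] [NormedSpace ℂ X]
    [NormedAddCommGroup Y] [NormedSpace ℂ Y] {k : ℕ}
    (A : ContinuousMultilinearMap ℂ (fun _ : Fin k => X) Y) (x : X) (hx : ‖x‖ ≤ 1) :
    ‖A fun _ => x‖ ≤ polyNorm A := by
  refine le_csSup ⟨‖A‖, ?_⟩ ⟨x, hx, rfl⟩
  rintro r ⟨y, hy, rfl⟩
  exact index_one_bdd A y hy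

theorem index_one_unit (X : Type*) [NormedAddCommGroup X] [NormedSpace ℂ X]
    [Nontrivial X] : ∃ (u : X) (g : X →L[ℂ] ℂ), ‖u‖ = 1 ∧ ‖g‖ = 1 ∧ g u = 1 := by
  obtain ⟨u, hu⟩ := exists_norm_eq X (zero_le_one (α := ℝ))
  have hu0 : ‖u‖ ≠ 0 := by
    rw [hu]
    exact one_ne_zero
  obtain ⟨g, hg, hgu⟩ := exists_dual_vector ℂ u hu0
  refine ⟨u, g, hu, hg, ?_⟩
  rw [hgu, hu]
  simp

theorem index_one_radius {X : Type*} [NormedAddCommGroup X] [NormedSpace ℂ X] [CompleteSpace X]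
    [Nontrivial X]
    (hn : ∀ x : X, ∀ ε : ℝ, 0 < ε → ∃ a : X →L[ℂ] ℂ, ‖a‖ = 1 ∧ IsLSummand a ∧ ‖x‖ - ε < ‖a x‖)
    (k : ℕ) (A : ContinuousMultilinearMap ℂ (fun _ : Fin k => X) X) (hA : polyNorm A = 1) :
    numRadius A = 1 := by
  have hub : ∀ r ∈ {r : ℝ | ∃ (x : X) (f : X →L[ℂ] ℂ), ‖x‖ = 1 ∧ ‖f‖ = 1 ∧ f x = 1 ∧
      r = ‖f (A fun _ => x)‖}, r ≤ 1 := by
    rintro r ⟨x, f, hx, hf, _, rfl⟩
    calc ‖f (A fun _ => x)‖ ≤ ‖f‖ * ‖A fun _ => x‖ := f.le_opNorm _
      _ = ‖A fun _ => x‖ := by rw [hf, one_mul]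
      _ ≤ polyNorm A := index_one_le A x hx.le
      _ = 1 := hA
  apply le_antisymm
  · obtain ⟨u, g, hu, hg, hgu⟩ := index_one_unit X
    exact csSup_le ⟨_, u, g, hu, hg, hgu, rfl⟩ hub
  · refine le_of_forall_lt fun r hr => ?_
    have h1 : r < polyNorm A := by rw [hA]; exact hr
    obtain ⟨s, ⟨x, hx, rfl⟩, hrs⟩ := exists_lt_of_lt_csSup
      (s := {r : ℝ | ∃ x : X, ‖x‖ ≤ 1 ∧ r = ‖A fun _ => x‖}) ⟨_, 0, by simp, rfl⟩ h1
    obtain ⟨y, f, hy, hf, hfy, h⟩ := radius_ge hn k A x hx (‖A fun _ => x‖ - r) (by linarith)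
    have h2 : r < ‖f (A fun _ => y)‖ := by linarith
    exact lt_of_lt_of_le h2 (le_csSup ⟨1, hub⟩ ⟨y, f, hy, hf, hfy, rfl⟩)

theorem index_one_exists (X : Type*) [NormedAddCommGroup X] [NormedSpace ℂ X]
    [Nontrivial X] (k : ℕ) :
    ∃ A : ContinuousMultilinearMap ℂ (fun _ : Fin k => X) X, polyNorm A = 1 := by
  obtain ⟨u, g, hu, hg, hgu⟩ := index_one_unit X
  refine ⟨(ContinuousLinearMap.smulRight (1 : ℂ →L[ℂ] ℂ) u).compContinuousMultilinearMap
    ((ContinuousMultilinearMap.mkPiAlgebra ℂ (Fin k) ℂ).compContinuousLinearMap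
      (fun _ => g)), ?_⟩
  have hval : ∀ x : X, ‖((ContinuousLinearMap.smulRight (1 : ℂ →L[ℂ] ℂ) u).compContinuousMultilinearMap
    ((ContinuousMultilinearMap.mkPiAlgebra ℂ (Fin k) ℂ).compContinuousLinearMap
      (fun _ => g))) fun _ => x‖ = ‖g x‖ ^ k := by
    intro x
    simp [norm_smul, hu]
  have hg1 : IsGreatest {r : ℝ | ∃ x : X, ‖x‖ ≤ 1 ∧ r =
      ‖((ContinuousLinearMap.smulRight (1 : ℂ →L[ℂ] ℂ) u).compContinuousMultilinearMap
    ((ContinuousMultilinearMap.mkPiAlgebra ℂ (Fin k) ℂ).compContinuousLinearMap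
      (fun _ => g))) fun _ => x‖} 1 := by
    constructor
    · refine ⟨u, hu.le, ?_⟩
      rw [hval, hgu]
      simp
    · rintro r ⟨x, hx, rfl⟩
      rw [hval]
      refine pow_le_one₀ (norm_nonneg _) ?_
      calc ‖g x‖ ≤ ‖g‖ * ‖x‖ := g.le_opNorm _
        _ = ‖x‖ := by rw [hg, one_mul]
        _ ≤ 1 := hx
  exact hg1.csSup_eq

/-- TARGET. If the L-summands norm the non-zero space `X` then all polynomial numerical indices are one. -/
theorem index_one {X : Type*} [NormedAddCommGroup X] [NormedSpace ℂ X] [CompleteSpace X]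
    [Nontrivial X]
    (hn : ∀ x : X, ∀ ε : ℝ, 0 < ε → ∃ a : X →L[ℂ] ℂ, ‖a‖ = 1 ∧ IsLSummand a ∧ ‖x‖ - ε < ‖a x‖)
    (k : ℕ) (hk : 2 ≤ k) : polyIndex X k = 1 := by
  obtain ⟨A, hA⟩ := index_one_exists X k
  have h : {r : ℝ | ∃ A : ContinuousMultilinearMap ℂ (fun _ : Fin k => X) X,
      polyNorm A = 1 ∧ r = numRadius A} = {1} := by
    ext r
    constructor
    · rintro ⟨B, hB, rfl⟩
      exact index_one_radius hn k B hB
    · intro hr
      rw [Set.mem_singleton_iff] at hr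
      exact ⟨A, hA, by rw [hr, index_one_radius hn k A hA]⟩
  unfold polyIndex
  rw [h]
  exact csInf_singleton 1


/-! ### norming -/
/-- TARGET. The derivatives of the norm at a dense set of points of Fréchet differentiability are norming. -/
theorem norming {X : Type*} [NormedAddCommGroup X] [NormedSpace ℂ X] [Nontrivial X]
    (hF : Dense {x : X | DifferentiableAt ℝ (fun y : X => ‖y‖) x}) (x : X) (ε : ℝ) (hε : 0 < ε) :
    ∃ (u : X) (a : X →L[ℂ] ℂ), ‖u‖ = 1 ∧ DifferentiableAt ℝ (fun y : X => ‖y‖) u ∧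
      ‖a‖ = 1 ∧ a u = 1 ∧ ‖x‖ - ε < ‖a x‖ := by
  have : (𝓝[≠] (0 : X)).NeBot := Module.punctured_nhds_neBot ℝ X 0
  have hd : Dense ({x : X | DifferentiableAt ℝ (fun y : X => ‖y‖) x} ∩ ({0}ᶜ : Set X)) :=
    hF.inter_of_isOpen_right (dense_compl_singleton (0 : X)) isOpen_compl_singleton
  obtain ⟨x', hx', hdist⟩ := hd.exists_dist_lt x (half_pos hε)
  obtain ⟨hD, hne⟩ := hx'
  have hne' : x' ≠ 0 := hne
  have hD' : DifferentiableAt ℝ (fun y : X => ‖y‖) x' := hD
  have hr : 0 < ‖x'‖ := norm_pos_iff.2 hne'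
  obtain ⟨a, ha1, ha2⟩ := exists_dual_vector ℂ x' hr.ne'
  have hru : (‖x'‖ : ℝ) • ((‖x'‖⁻¹ : ℝ) • x') = x' := by
    rw [smul_smul, mul_inv_cancel₀ hr.ne', one_smul]
  refine ⟨(‖x'‖⁻¹ : ℝ) • x', a, ?_, ?_, ha1, ?_, ?_⟩
  · rw [norm_smul, norm_inv, norm_norm, inv_mul_cancel₀ hr.ne']
  · have h1 : (fun y : X => ‖y‖) = fun y : X => ‖x'‖⁻¹ * ‖(‖x'‖ : ℝ) • y‖ := by
      funext y
      rw [norm_smul, norm_norm, ← mul_assoc, inv_mul_cancel₀ hr.ne', one_mul]
    rw [h1]
    apply DifferentiableAt.const_mul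
    have h2 : DifferentiableAt ℝ (fun y : X => (‖x'‖ : ℝ) • y) ((‖x'‖⁻¹ : ℝ) • x') :=
      differentiableAt_id.const_smul _
    have h3 : DifferentiableAt ℝ (fun y : X => ‖y‖)
        ((fun y : X => (‖x'‖ : ℝ) • y) ((‖x'‖⁻¹ : ℝ) • x')) := by
      simp only [hru]
      exact hD'
    exact h3.comp _ h2
  · have h4 : a ((‖x'‖⁻¹ : ℝ) • x') = (‖x'‖⁻¹ : ℝ) • a x' := by
      rw [← Complex.coe_smul, map_smul, Complex.coe_smul]
    rw [h4, ha2]
    simp [hr.ne']
  · have h5 : ‖a x'‖ = ‖x'‖ := by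
      rw [ha2]; simp
    have h6 : ‖a (x - x')‖ ≤ ‖x - x'‖ := by
      have := a.le_opNorm (x - x')
      rwa [ha1, one_mul] at this
    have h7 : ‖x - x'‖ < ε / 2 := by rwa [← dist_eq_norm]
    have h8 : ‖a x'‖ ≤ ‖a x‖ + ‖a (x - x')‖ := by
      have : a x' = a x - a (x - x') := by rw [map_sub]; ring
      rw [this]
      exact norm_sub_le _ _
    have h9 : ‖x‖ ≤ ‖x'‖ + ‖x - x'‖ := by
      have : x = x' + (x - x') := by abel
      calc ‖x‖ = ‖x' + (x - x')‖ := by rw [← this]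
        _ ≤ _ := norm_add_le _ _
    linarith

end Pool.Agent.Helper597.PNI
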