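import Mathlib

set_option autoImplicit false

open Filter Topology Polynomial

namespace Pool.Agent.Helper597.SSS


/-! ### finrank_mul -/
/-- TARGET. The operators `w * s`, with `w` in a commuting family and `s` of finite rank in it, form a
finite dimensional space. -/
theorem finrank_mul {E : Type*} [NormedAddCommGroup E] [NormedSpace ℂ E]
    (A : Submodule ℂ (E →L[ℂ] E)) (hcomm : ∀ u ∈ A, ∀ v ∈ A, u * v = v * u)
    (s : E →L[ℂ] E) (hsA : s ∈ A) (hs : FiniteDimensional ℂ (LinearMap.range (s : E →ₗ[ℂ] E)))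
    (V : Submodule ℂ (E →L[ℂ] E)) (hV : ∀ v ∈ V, ∃ w ∈ A, v = w * s) :
    FiniteDimensional ℂ V := by
  let R := LinearMap.range (s : E →ₗ[ℂ] E)
  have hR : FiniteDimensional ℂ R := hs
  let T : (R →ₗ[ℂ] R) →ₗ[ℂ] (E →ₗ[ℂ] E) :=
    { toFun := fun g => R.subtype ∘ₗ g ∘ₗ (s : E →ₗ[ℂ] E).rangeRestrict
      map_add' := by
        intro g h
        ext x
        simp
      map_smul' := by
        intro c g
        ext x
        simp }
  have hT : FiniteDimensional ℂ (LinearMap.range T) := inferInstance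
  have hmem : ∀ v : V, ((v : E →L[ℂ] E) : E →ₗ[ℂ] E) ∈ LinearMap.range T := by
    rintro ⟨v, hv⟩
    obtain ⟨w, hwA, rfl⟩ := hV v hv
    have hinv : ∀ y ∈ R, (w : E →ₗ[ℂ] E) y ∈ R := by
      rintro _ ⟨x, rfl⟩
      refine ⟨w x, ?_⟩
      have h1 : (w * s) x = (s * w) x := by rw [hcomm w hwA s hsA]
      exact h1.symm
    refine ⟨(w : E →ₗ[ℂ] E).restrict hinv, ?_⟩
    ext x
    rfl
  let f : V →ₗ[ℂ] LinearMap.range T :=
    { toFun := fun v => ⟨((v : E →L[ℂ] E) : E →ₗ[ℂ] E), hmem v⟩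
      map_add' := fun _ _ => rfl
      map_smul' := fun _ _ => rfl }
  have hf : Function.Injective f := by
    intro v v' h
    have h1 : ((v : E →L[ℂ] E) : E →ₗ[ℂ] E) = ((v' : E →L[ℂ] E) : E →ₗ[ℂ] E) :=
      congrArg Subtype.val h
    exact Subtype.ext (ContinuousLinearMap.coe_injective h1)
  exact FiniteDimensional.of_injective f hf


/-! ### norm_tendsto -/
/-- TARGET. Strong convergence is uniform on the range of a finite rank operator. -/
theorem norm_tendsto {E : Type*} [NormedAddCommGroup E] [NormedSpace ℂ E]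
    (T : ℕ → E →L[ℂ] E) (hT : ∀ y, Tendsto (fun n => T n y) atTop (𝓝 y))
    (s : E →L[ℂ] E) (hs : FiniteDimensional ℂ (LinearMap.range (s : E →ₗ[ℂ] E))) :
    Tendsto (fun n => T n * s) atTop (𝓝 s) := by
  set R := LinearMap.range (s : E →ₗ[ℂ] E) with hR
  have hfd : FiniteDimensional ℂ R := hs
  let b := Module.finBasis ℂ R
  let sR : E →L[ℂ] R := s.codRestrict R (fun y => ⟨y, rfl⟩)
  let g : Fin (Module.finrank ℂ R) → (E →L[ℂ] ℂ) := fun i =>
    (LinearMap.toContinuousLinearMap (b.coord i)).comp sR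
  have hsum : ∀ y, s y = ∑ i, g i y • ((b i : R) : E) := by
    intro y
    have h1 : sR y = ∑ i, (b.repr (sR y)) i • b i := (b.sum_repr (sR y)).symm
    have h2 : ((sR y : R) : E) = ∑ i, (b.repr (sR y)) i • ((b i : R) : E) := by
      have h4 := congrArg R.subtype h1
      rw [map_sum] at h4
      simpa only [map_smul, Submodule.subtype_apply] using h4
    exact h2
  rw [tendsto_iff_norm_sub_tendsto_zero]
  have hlim : Tendsto (fun n => ∑ i, ‖g i‖ * ‖T n ((b i : R) : E) - ((b i : R) : E)‖) atTop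
      (𝓝 (∑ i : Fin (Module.finrank ℂ R), ‖g i‖ * 0)) := by
    refine tendsto_finsetSum _ fun i _ => ?_
    refine Tendsto.const_mul _ ?_
    exact tendsto_iff_norm_sub_tendsto_zero.mp (hT _)
  simp only [mul_zero, Finset.sum_const_zero] at hlim
  refine squeeze_zero (fun n => norm_nonneg _) (fun n => ?_) hlim
  refine ContinuousLinearMap.opNorm_le_bound _
    (Finset.sum_nonneg fun i _ => mul_nonneg (norm_nonneg _) (norm_nonneg _)) fun y => ?_
  have h3 : (T n * s - s) y = ∑ i, g i y • (T n ((b i : R) : E) - ((b i : R) : E)) := by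
    show T n (s y) - s y = _
    rw [hsum y, map_sum, ← Finset.sum_sub_distrib]
    refine Finset.sum_congr rfl fun i _ => ?_
    rw [map_smul, smul_sub]
  rw [h3, Finset.sum_mul]
  refine (norm_sum_le _ _).trans (Finset.sum_le_sum fun i _ => ?_)
  rw [norm_smul]
  calc ‖g i y‖ * ‖T n ((b i : R) : E) - ((b i : R) : E)‖
      ≤ (‖g i‖ * ‖y‖) * ‖T n ((b i : R) : E) - ((b i : R) : E)‖ :=
        mul_le_mul_of_nonneg_right ((g i).le_opNorm y) (norm_nonneg _)
    _ = ‖g i‖ * ‖T n ((b i : R) : E) - ((b i : R) : E)‖ * ‖y‖ := by ring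


/-! ### step_fix -/
/-- TARGET. In a commuting family of operators which contains a strongly approximating sequence, every
finite rank member `s` is fixed by members close to the sequence. -/
theorem step_fix {E : Type*} [NormedAddCommGroup E] [NormedSpace ℂ E] [CompleteSpace E]
    (A : Submodule ℂ (E →L[ℂ] E)) (hcomm : ∀ u ∈ A, ∀ v ∈ A, u * v = v * u)
    (T : ℕ → E →L[ℂ] E) (hTA : ∀ n, T n ∈ A)
    (hT : ∀ y, Tendsto (fun n => T n y) atTop (𝓝 y))
    (s : E →L[ℂ] E) (hsA : s ∈ A) (hs : FiniteDimensional ℂ (LinearMap.range (s : E →ₗ[ℂ] E)))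
    (ε : ℝ) (hε : 0 < ε) (N : ℕ) :
    ∃ m, N ≤ m ∧ ∃ w ∈ A, ‖w - T m‖ ≤ ε ∧ w * s = s := by
  let rho : A →ₗ[ℂ] (E →L[ℂ] E) := (LinearMap.mulRight ℂ s) ∘ₗ A.subtype
  have hrho : ∀ w : A, rho w = (w : E →L[ℂ] E) * s := fun w => rfl
  have hV : ∀ v ∈ LinearMap.range rho, ∃ w ∈ A, v = w * s := by
    rintro v ⟨w, rfl⟩
    exact ⟨w, w.2, hrho w⟩
  have hfin : FiniteDimensional ℂ (LinearMap.range rho) :=
    finrank_mul A hcomm s hsA hs (LinearMap.range rho) hV
  have hcl : IsClosed ((LinearMap.range rho : Submodule ℂ (E →L[ℂ] E)) : Set (E →L[ℂ] E)) :=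
    Submodule.closed_of_finiteDimensional _
  have hTs : ∀ n, T n * s ∈ LinearMap.range rho := fun n => ⟨⟨T n, hTA n⟩, rfl⟩
  have hlim := norm_tendsto T hT s hs
  have hsV : s ∈ LinearMap.range rho :=
    hcl.mem_of_tendsto hlim (Eventually.of_forall hTs)
  obtain ⟨σ, hσ⟩ := rho.rangeRestrict.exists_rightInverse_of_surjective
    (LinearMap.range_rangeRestrict rho)
  let σ' : LinearMap.range rho →ₗ[ℂ] (E →L[ℂ] E) := A.subtype ∘ₗ σ
  have hσ'A : ∀ v, σ' v ∈ A := fun v => (σ v).2
  have hσ's : ∀ v, σ' v * s = (v : E →L[ℂ] E) := by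
    intro v
    have h1 : rho.rangeRestrict (σ v) = v := by
      exact LinearMap.congr_fun hσ v
    have h3 : ((rho.rangeRestrict (σ v) : LinearMap.range rho) : E →L[ℂ] E) = v := by rw [h1]
    exact h3
  have hcont : Continuous σ' := LinearMap.continuous_of_finiteDimensional σ'
  let v : ℕ → LinearMap.range rho := fun n => ⟨s - T n * s, Submodule.sub_mem _ hsV (hTs n)⟩
  have hv : Tendsto v atTop (𝓝 0) := by
    rw [tendsto_subtype_rng]
    have h4 : Tendsto (fun n => s - T n * s) atTop (𝓝 (s - s)) := tendsto_const_nhds.sub hlim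
    rw [sub_self] at h4
    exact h4
  have h5 : Tendsto (fun n => ‖σ' (v n)‖) atTop (𝓝 0) := by
    have h6 := ((hcont.tendsto 0).comp hv).norm
    simpa using h6
  obtain ⟨m, hm1, hm2⟩ := ((h5.eventually (gt_mem_nhds hε)).and (eventually_ge_atTop N)).exists
  refine ⟨m, hm2, T m + σ' (v m), A.add_mem (hTA m) (hσ'A _), ?_, ?_⟩
  · have h7 : T m + σ' (v m) - T m = σ' (v m) := by abel
    rw [h7]
    exact hm1.le
  · rw [add_mul, hσ's]
    show T m * s + (s - T m * s) = s
    abel


/-! ### span_comm -/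
/-- TARGET. The span of a commuting family is a commuting family. -/
theorem span_comm {E : Type*} [NormedAddCommGroup E] [NormedSpace ℂ E]
    (T : ℕ → E →L[ℂ] E) (hc : ∀ m n, T m * T n = T n * T m) :
    ∀ u ∈ Submodule.span ℂ (Set.range T), ∀ v ∈ Submodule.span ℂ (Set.range T),
      u * v = v * u := by
  have h1 : ∀ m, ∀ v ∈ Submodule.span ℂ (Set.range T), T m * v = v * T m := by
    intro m v hv
    induction hv using Submodule.span_induction with
    | mem x hx =>
      obtain ⟨n, rfl⟩ := hx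
      exact hc m n
    | zero => rw [mul_zero, zero_mul]
    | add x y _ _ hx hy => rw [mul_add, add_mul, hx, hy]
    | smul a x _ hx => rw [mul_smul_comm, smul_mul_assoc, hx]
  intro u hu v hv
  induction hu using Submodule.span_induction with
  | mem x hx =>
    obtain ⟨n, rfl⟩ := hx
    exact h1 n v hv
  | zero => rw [mul_zero, zero_mul]
  | add x y _ _ hx hy => rw [mul_add, add_mul, hx, hy]
  | smul a x _ hx => rw [mul_smul_comm, smul_mul_assoc, hx]


/-! ### span_fin -/
/-- TARGET. The span of a family of finite rank operators consists of finite rank operators. -/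
theorem span_fin {E : Type*} [NormedAddCommGroup E] [NormedSpace ℂ E]
    (T : ℕ → E →L[ℂ] E)
    (hf : ∀ n, FiniteDimensional ℂ (LinearMap.range (T n : E →ₗ[ℂ] E))) :
    ∀ u ∈ Submodule.span ℂ (Set.range T),
      FiniteDimensional ℂ (LinearMap.range (u : E →ₗ[ℂ] E)) := by
  intro u hu
  induction hu using Submodule.span_induction with
  | mem x hx =>
    obtain ⟨n, rfl⟩ := hx
    exact hf n
  | zero =>
    have h : LinearMap.range ((0 : E →L[ℂ] E) : E →ₗ[ℂ] E) ≤ (⊥ : Submodule ℂ E) := by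
      rintro _ ⟨x, rfl⟩
      simp
    exact Submodule.finiteDimensional_of_le h
  | add x y _ _ hx hy =>
    haveI := hx
    haveI := hy
    have h : LinearMap.range ((x + y : E →L[ℂ] E) : E →ₗ[ℂ] E) ≤
        LinearMap.range (x : E →ₗ[ℂ] E) ⊔ LinearMap.range (y : E →ₗ[ℂ] E) := by
      rintro _ ⟨z, rfl⟩
      exact Submodule.add_mem_sup ⟨z, rfl⟩ ⟨z, rfl⟩
    exact Submodule.finiteDimensional_of_le h
  | smul c x _ hx =>
    haveI := hx
    have h : LinearMap.range ((c • x : E →L[ℂ] E) : E →ₗ[ℂ] E) ≤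
        LinearMap.range (x : E →ₗ[ℂ] E) := by
      rintro _ ⟨z, rfl⟩
      exact Submodule.smul_mem _ c ⟨z, rfl⟩
    exact Submodule.finiteDimensional_of_le h


/-! ### exists_S -/
/-- TARGET. A commuting approximating sequence can be improved so that each member fixes the range of the
previous one. -/
theorem exists_S {E : Type*} [NormedAddCommGroup E] [NormedSpace ℂ E] [CompleteSpace E]
    (T : ℕ → E →L[ℂ] E) (hc : ∀ m n, T m * T n = T n * T m)
    (hf : ∀ n, FiniteDimensional ℂ (LinearMap.range (T n : E →ₗ[ℂ] E)))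
    (hT : ∀ y, Tendsto (fun n => T n y) atTop (𝓝 y)) :
    ∃ S : ℕ → E →L[ℂ] E, (∀ m n, S m * S n = S n * S m) ∧
      (∀ n, FiniteDimensional ℂ (LinearMap.range (S n : E →ₗ[ℂ] E))) ∧
      (∀ n, S (n + 1) * S n = S n) ∧ (∀ y, Tendsto (fun n => S n y) atTop (𝓝 y)) := by
  classical
  obtain ⟨A, hA⟩ : ∃ A : Submodule ℂ (E →L[ℂ] E), A = Submodule.span ℂ (Set.range T) := ⟨_, rfl⟩
  have hcomm := span_comm T hc
  have hfin := span_fin T hf
  rw [← hA] at hcomm hfin
  have hTA : ∀ n, T n ∈ A := fun n => by rw [hA]; exact Submodule.subset_span ⟨n, rfl⟩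
  have step : ∀ (k : ℕ) (s : A), ∃ w : A, ∃ m, k ≤ m ∧
      ‖(w : E →L[ℂ] E) - T m‖ ≤ 1 / ((k : ℝ) + 1) ∧ (w : E →L[ℂ] E) * (s : E →L[ℂ] E) = s := by
    intro k s
    obtain ⟨m, hm, w, hw, h1, h2⟩ := step_fix A hcomm T hTA hT s s.2 (hfin s s.2)
      (1 / ((k : ℝ) + 1)) (by positivity) k
    exact ⟨⟨w, hw⟩, m, hm, h1, h2⟩
  choose W M h1 h2 h3 using step
  obtain ⟨S, hS⟩ : ∃ S : ℕ → A, ∀ k, S (k + 1) = W k (S k) :=
    ⟨fun k => Nat.rec (motive := fun _ => A) ⟨T 0, hTA 0⟩ (fun k s => W k s) k, fun k => rfl⟩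
  obtain ⟨S', hS'⟩ : ∃ S' : ℕ → (E →L[ℂ] E), ∀ k, S' k = ((S k : A) : E →L[ℂ] E) :=
    ⟨fun k => (S k).1, fun _ => rfl⟩
  have hmem : ∀ k, S' k ∈ A := fun k => by rw [hS']; exact (S k).2
  refine ⟨S', fun m n => hcomm _ (hmem m) _ (hmem n), fun n => hfin (S' n) (hmem n), ?_, ?_⟩
  · intro n
    rw [hS', hS', hS]
    exact h3 n (S n)
  · intro y
    rw [← tendsto_add_atTop_iff_nat 1]
    have hm : Tendsto (fun k => M k (S k)) atTop atTop :=
      tendsto_atTop_mono (fun k => h1 k (S k)) tendsto_id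
    have ha : Tendsto (fun k => T (M k (S k)) y) atTop (𝓝 y) := (hT y).comp hm
    have hb : Tendsto (fun k => ((S (k + 1) : E →L[ℂ] E) - T (M k (S k))) y) atTop (𝓝 0) := by
      have hz : Tendsto (fun k : ℕ => 1 / ((k : ℝ) + 1) * ‖y‖) atTop (𝓝 0) := by
        simpa using tendsto_one_div_add_atTop_nhds_zero_nat.mul_const ‖y‖
      refine squeeze_zero_norm (fun k => ?_) hz
      refine (ContinuousLinearMap.le_opNorm _ _).trans ?_
      have := h2 k (S k)
      rw [← hS] at this
      exact mul_le_mul_of_nonneg_right this (norm_nonneg _)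
    have hd := hb.add ha
    rw [zero_add] at hd
    refine hd.congr (fun k => ?_)
    rw [hS']
    simp


/-! ### exists_poly -/
theorem exists_poly_pow {E : Type*} [NormedAddCommGroup E] [NormedSpace ℂ E]
    (s : E →L[ℂ] E) (sR : LinearMap.range (s : E →ₗ[ℂ] E) →ₗ[ℂ] LinearMap.range (s : E →ₗ[ℂ] E))
    (hsR : ∀ z, ((sR z : LinearMap.range (s : E →ₗ[ℂ] E)) : E) = s z) (n : ℕ) :
    ∀ z : LinearMap.range (s : E →ₗ[ℂ] E), (s ^ n) (z : E) = (((sR ^ n) z : _) : E) := by
  induction n with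
  | zero => intro z; simp
  | succ n ih =>
    intro z
    rw [pow_succ, pow_succ, ContinuousLinearMap.mul_apply, Module.End.mul_apply, ← hsR, ih]

theorem exists_poly_aeval {E : Type*} [NormedAddCommGroup E] [NormedSpace ℂ E]
    (s : E →L[ℂ] E) (sR : LinearMap.range (s : E →ₗ[ℂ] E) →ₗ[ℂ] LinearMap.range (s : E →ₗ[ℂ] E))
    (hsR : ∀ z, ((sR z : LinearMap.range (s : E →ₗ[ℂ] E)) : E) = s z) (q : ℂ[X])
    (z : LinearMap.range (s : E →ₗ[ℂ] E)) :
    (aeval s q) (z : E) = (((aeval sR q) z : _) : E) := by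
  induction q using Polynomial.induction_on' with
  | add p q hp hq =>
    rw [map_add, map_add, ContinuousLinearMap.add_apply, LinearMap.add_apply, hp, hq,
      Submodule.coe_add]
  | monomial n a =>
    rw [aeval_monomial, aeval_monomial, ContinuousLinearMap.mul_apply, Module.End.mul_apply,
      exists_poly_pow s sR hsR]
    simp [ContinuousLinearMap.algebraMap_apply, Module.algebraMap_end_apply]

/-- TARGET. A finite rank operator is annihilated by a non-zero polynomial. -/
theorem exists_poly {E : Type*} [NormedAddCommGroup E] [NormedSpace ℂ E]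
    (s : E →L[ℂ] E) (hs : FiniteDimensional ℂ (LinearMap.range (s : E →ₗ[ℂ] E))) :
    ∃ m : ℂ[X], m ≠ 0 ∧ aeval s m = 0 := by
  let sR : LinearMap.range (s : E →ₗ[ℂ] E) →ₗ[ℂ] LinearMap.range (s : E →ₗ[ℂ] E) :=
    (s : E →ₗ[ℂ] E).rangeRestrict.comp (LinearMap.range (s : E →ₗ[ℂ] E)).subtype
  have hsR : ∀ z, ((sR z : LinearMap.range (s : E →ₗ[ℂ] E)) : E) = s z := fun z => rfl
  refine ⟨sR.charpoly * X, mul_ne_zero sR.charpoly_monic.ne_zero X_ne_zero, ?_⟩
  ext x
  rw [map_mul, aeval_X, ContinuousLinearMap.mul_apply]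
  have h1 := exists_poly_aeval s sR hsR sR.charpoly ⟨s x, ⟨x, rfl⟩⟩
  rw [LinearMap.aeval_self_charpoly] at h1
  simpa using h1


/-! ### idem_poly -/
/-- TARGET. For every non-zero polynomial `m` there is `h` with `h(0) = 0`, `h(1) = 1` which is idempotent
modulo `m`. -/
theorem idem_poly (m : ℂ[X]) (hm : m ≠ 0) :
    ∃ h g : ℂ[X], h = X * g ∧ h.eval 1 = 1 ∧ m ∣ h * h - h := by
  obtain ⟨q, hq, hq1⟩ := Polynomial.exists_eq_pow_rootMultiplicity_mul_and_not_dvd m hm 1
  have hcop : IsCoprime (X * q) ((X - C (1:ℂ)) ^ (rootMultiplicity 1 m + 1)) := by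
    apply IsCoprime.pow_right
    apply IsCoprime.symm
    rw [(Polynomial.irreducible_X_sub_C (1:ℂ)).coprime_iff_not_dvd]
    intro hd
    have h1 : (X - C (1:ℂ)) ∣ q := by
      rcases (Polynomial.prime_X_sub_C (1:ℂ)).dvd_or_dvd hd with h2 | h2
      · exfalso
        rw [Polynomial.dvd_iff_isRoot] at h2
        simp at h2
      · exact h2
    exact hq1 h1
  obtain ⟨u, v, huv⟩ := hcop
  refine ⟨u * (X * q), u * q, by ring, ?_, ?_⟩
  · have h3 := congrArg (Polynomial.eval (1:ℂ)) huv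
    simp only [Polynomial.eval_add, Polynomial.eval_mul, Polynomial.eval_pow, Polynomial.eval_sub,
      Polynomial.eval_X, Polynomial.eval_C, Polynomial.eval_one, sub_self] at h3
    rw [zero_pow (Nat.succ_ne_zero _), mul_zero, add_zero] at h3
    simpa using h3
  · have h4 : u * (X * q) * (u * (X * q)) - u * (X * q)
        = ((X - C (1:ℂ)) ^ (rootMultiplicity 1 m) * q) * (-(u * X * v * (X - C (1:ℂ)))) := by
      have h5 : u * (X * q) = 1 - v * (X - C (1:ℂ)) ^ (rootMultiplicity 1 m + 1) := by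
        rw [← huv]; ring
      have h6 : u * (X * q) * (u * (X * q)) - u * (X * q)
          = (u * (X * q)) * (u * (X * q) - 1) := by ring
      rw [h6]
      have h7 : u * (X * q) - 1 = - (v * (X - C (1:ℂ)) ^ (rootMultiplicity 1 m + 1)) := by
        rw [h5]; ring
      rw [h7]
      ring
    rw [h4, ← hq]
    exact dvd_mul_right _ _


/-! ### exists_idem -/
/-- TARGET. The idempotent attached to a finite rank operator. -/
theorem exists_idem {E : Type*} [NormedAddCommGroup E] [NormedSpace ℂ E]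
    (s : E →L[ℂ] E) (hs : FiniteDimensional ℂ (LinearMap.range (s : E →ₗ[ℂ] E))) :
    ∃ Q : E →L[ℂ] E, Q * Q = Q ∧ FiniteDimensional ℂ (LinearMap.range (Q : E →ₗ[ℂ] E)) ∧
      (∀ w : E →L[ℂ] E, w * s = s * w → w * Q = Q * w) ∧
      (∀ u : E →L[ℂ] E, s * u = u → Q * u = u) ∧
      (∀ v : E →L[ℂ] E, v * s = s → v * Q = Q) := by
  obtain ⟨m, hm0, hms⟩ := exists_poly s hs
  obtain ⟨h, g, hhg, h1, hdvd⟩ := idem_poly m hm0
  have hQ : aeval s h = s * aeval s g := by
    rw [hhg, map_mul, aeval_X]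
  refine ⟨aeval s h, ?_, ?_, ?_, ?_, ?_⟩
  · obtain ⟨q, hq⟩ := hdvd
    have e1 : aeval s (h * h - h) = 0 := by
      rw [hq, map_mul, hms, zero_mul]
    rw [map_sub, map_mul] at e1
    exact sub_eq_zero.1 e1
  · have hle : LinearMap.range ((aeval s h : E →L[ℂ] E) : E →ₗ[ℂ] E) ≤
        LinearMap.range (s : E →ₗ[ℂ] E) := by
      rintro x ⟨y, rfl⟩
      rw [hQ]
      exact ⟨aeval s g y, rfl⟩
    haveI := hs
    exact Submodule.finiteDimensional_of_le hle
  · intro w hw
    have key : ∀ p : ℂ[X], Commute w (aeval s p) := by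
      intro p
      induction p using Polynomial.induction_on with
      | C a =>
        rw [aeval_C]
        exact (Algebra.commutes a w).symm
      | add p q hp hq =>
        rw [map_add]
        exact hp.add_right hq
      | monomial n a _ =>
        rw [map_mul, aeval_C, map_pow, aeval_X]
        have hw' : Commute w s := hw
        exact Commute.mul_right (Algebra.commutes a w).symm (hw'.pow_right _)
    exact key h
  · intro u hu
    have hpow : ∀ n : ℕ, s ^ n * u = u := by
      intro n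
      induction n with
      | zero => rw [pow_zero, one_mul]
      | succ n ih => rw [pow_succ, mul_assoc, hu, ih]
    have key : ∀ p : ℂ[X], (aeval s p) * u = (p.eval 1) • u := by
      intro p
      induction p using Polynomial.induction_on with
      | C a =>
        rw [aeval_C, eval_C, Algebra.smul_def]
      | add p q hp hq =>
        rw [map_add, add_mul, hp, hq, eval_add, add_smul]
      | monomial n a _ =>
        rw [map_mul, aeval_C, map_pow, aeval_X, mul_assoc, hpow, eval_mul, eval_C, eval_pow,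
          eval_X, one_pow, mul_one, Algebra.smul_def]
    rw [key, h1, one_smul]
  · intro v hv
    rw [hQ, ← mul_assoc, hv]


/-! ### exists_UQ -/
/-- TARGET. The approximating sequence `U` with separating finite rank projections `Q`. -/
theorem exists_UQ {E : Type*} [NormedAddCommGroup E] [NormedSpace ℂ E] [CompleteSpace E]
    (S : ℕ → E →L[ℂ] E) (hc : ∀ m n, S m * S n = S n * S m)
    (hf : ∀ n, FiniteDimensional ℂ (LinearMap.range (S n : E →ₗ[ℂ] E)))
    (hS : ∀ n, S (n + 1) * S n = S n) (hSy : ∀ y, Tendsto (fun n => S n y) atTop (𝓝 y)) :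
    ∃ U Q : ℕ → E →L[ℂ] E, (∀ k, Q k * Q k = Q k) ∧
      (∀ k, FiniteDimensional ℂ (LinearMap.range (Q k : E →ₗ[ℂ] E))) ∧
      (∀ k, U k * Q k = U k) ∧ (∀ k, Q k * U k = U k) ∧
      (∀ k, U (k + 1) * Q k = Q k) ∧ (∀ k, Q k * U (k + 1) = Q k) ∧
      (∀ k, Q (k + 1) * Q k = Q k) ∧ (∀ k, Q k * Q (k + 1) = Q k) ∧
      (∀ y, Tendsto (fun n => U n y) atTop (𝓝 y)) := by
  have h := fun k : ℕ => exists_idem (S (2 * k + 1)) (hf _)
  choose Q h1 h2 h3 h4 h5 using h
  have hcomm : ∀ m k, S m * Q k = Q k * S m := fun m k => h3 k (S m) (hc m (2 * k + 1))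
  have a1 : ∀ k, Q k * S (2 * k) = S (2 * k) := fun k => h4 k (S (2 * k)) (hS (2 * k))
  have a2 : ∀ k, S (2 * k) * Q k = S (2 * k) := fun k => by rw [hcomm, a1]
  have a3 : ∀ k, S (2 * (k + 1)) * Q k = Q k := fun k => h5 k (S (2 * (k + 1))) (hS (2 * k + 1))
  have a4 : ∀ k, Q k * S (2 * (k + 1)) = Q k := fun k => by rw [← hcomm, a3]
  refine ⟨fun k => S (2 * k), Q, h1, h2, a2, a1, a3, a4, ?_, ?_, ?_⟩
  · intro k
    calc Q (k + 1) * Q k = Q (k + 1) * (S (2 * (k + 1)) * Q k) := by rw [a3]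
      _ = (Q (k + 1) * S (2 * (k + 1))) * Q k := by rw [mul_assoc]
      _ = S (2 * (k + 1)) * Q k := by rw [a1]
      _ = Q k := a3 k
  · intro k
    calc Q k * Q (k + 1) = (Q k * S (2 * (k + 1))) * Q (k + 1) := by rw [a4]
      _ = Q k * (S (2 * (k + 1)) * Q (k + 1)) := by rw [mul_assoc]
      _ = Q k * S (2 * (k + 1)) := by rw [a2]
      _ = Q k := a4 k
  · intro y
    have h2k : Tendsto (fun n : ℕ => 2 * n) atTop atTop :=
      tendsto_id.const_mul_atTop' (by norm_num)
    exact (hSy y).comp h2k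


/-! ### diag_approx -/
/-- TARGET. Every endomorphism of a finite dimensional complex normed space is a limit of diagonalisable
ones. -/
theorem diag_approx (d : ℕ) : ∀ (W : Type*) [NormedAddCommGroup W] [NormedSpace ℂ W]
    [FiniteDimensional ℂ W], Module.finrank ℂ W = d → ∀ (B : W →ₗ[ℂ] W) (ε : ℝ), 0 < ε →
    ∃ (b : Module.Basis (Fin d) ℂ W) (μ : Fin d → ℂ),
      ∀ x, ‖B x - ∑ i, (μ i * b.repr x i) • b i‖ ≤ ε * ‖x‖ := by
  induction d with
  | zero =>
    intro W _ _ _ hW B ε hε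
    have hsub : Subsingleton W := Module.finrank_zero_iff.1 hW
    refine ⟨Module.finBasisOfFinrankEq ℂ W hW, fun _ => 0, fun x => ?_⟩
    have h0 : B x - ∑ i, ((0 : ℂ) * (Module.finBasisOfFinrankEq ℂ W hW).repr x i) •
        (Module.finBasisOfFinrankEq ℂ W hW) i = 0 := Subsingleton.elim _ _
    rw [h0, norm_zero]
    positivity
  | succ d ih =>
    intro W _ _ _ hW B ε hε
    have hWn : Nontrivial W := Module.nontrivial_of_finrank_pos (R := ℂ) (by omega)
    have hDn : Nontrivial (Module.Dual ℂ W) := by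
      apply Module.nontrivial_of_finrank_pos (R := ℂ)
      rw [Subspace.dual_finrank_eq]
      omega
    obtain ⟨lam, hlam⟩ := Module.End.exists_eigenvalue
      (B.dualMap : Module.End ℂ (Module.Dual ℂ W))
    obtain ⟨φ, hφ⟩ := hlam.exists_hasEigenvector
    have hφ0 : φ ≠ 0 := hφ.2
    have hφB : ∀ x, φ (B x) = lam * φ x := fun x => by
      have h1 := hφ.apply_eq_smul
      exact congrArg (fun f : Module.Dual ℂ W => f x) h1
    have hHfin : Module.finrank ℂ (LinearMap.ker φ) = d := by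
      have h1 := Module.Dual.finrank_ker_add_one_of_ne_zero hφ0
      omega
    obtain ⟨v, hv⟩ : ∃ v, φ v = 1 := by
      obtain ⟨w, hw⟩ : ∃ w, φ w ≠ 0 := by
        by_contra hcon
        push Not at hcon
        exact hφ0 (LinearMap.ext hcon)
      exact ⟨(φ w)⁻¹ • w, by rw [map_smul, smul_eq_mul, inv_mul_cancel₀ hw]⟩
    obtain ⟨K, hK0, hK⟩ : ∃ K : ℝ, 0 ≤ K ∧ ∀ x, ‖φ x‖ ≤ K * ‖x‖ :=
      ⟨‖LinearMap.toContinuousLinearMap φ‖, norm_nonneg _,
        fun x => (LinearMap.toContinuousLinearMap φ).le_opNorm x⟩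
    have hden : 0 < 2 * (1 + K * ‖v‖) := by positivity
    obtain ⟨ε', hε'⟩ : ∃ ε' : ℝ, ε' = ε / (2 * (1 + K * ‖v‖)) := ⟨_, rfl⟩
    have hε'0 : 0 < ε' := by rw [hε']; positivity
    have hε'1 : ε' * (1 + K * ‖v‖) = ε / 2 := by
      rw [hε']
      field_simp
    have hBH : ∀ x ∈ LinearMap.ker φ, B x ∈ LinearMap.ker φ := by
      intro x hx
      rw [LinearMap.mem_ker] at hx ⊢
      rw [hφB, hx, mul_zero]
    obtain ⟨hb, μ, hμ⟩ := ih (LinearMap.ker φ) hHfin (B.restrict hBH) ε' hε'0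
    obtain ⟨lam', hlam'1, hlam'2⟩ : ∃ lam' : ℂ, lam' ∈ (Set.range μ)ᶜ ∧ dist lam lam' < ε' :=
      ((Set.finite_range μ).countable.dense_compl ℝ).exists_dist_lt lam hε'0
    have hne : ∀ i, lam' - μ i ≠ 0 := by
      intro i h
      exact hlam'1 ⟨i, (sub_eq_zero.1 h).symm⟩
    have hh0 : B v - lam • v ∈ LinearMap.ker φ := by
      rw [LinearMap.mem_ker, map_sub, map_smul, hφB, smul_eq_mul, sub_self]
    obtain ⟨h0, hh0e⟩ : ∃ h0 : LinearMap.ker φ, (h0 : W) = B v - lam • v := ⟨⟨_, hh0⟩, rfl⟩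
    let B' : LinearMap.ker φ →ₗ[ℂ] LinearMap.ker φ := hb.constr ℂ (fun i => μ i • hb i)
    have hB' : ∀ y, B' y = ∑ i, (μ i * hb.repr y i) • hb i := by
      intro y
      rw [Module.Basis.constr_apply_fintype]
      apply Finset.sum_congr rfl
      intro i _
      rw [smul_smul, mul_comm]
      rfl
    obtain ⟨u, hu⟩ : ∃ u : LinearMap.ker φ, u = ∑ i, (hb.repr h0 i / (lam' - μ i)) • hb i :=
      ⟨_, rfl⟩
    have hB'u : B' u = lam' • u - h0 := by
      rw [eq_sub_iff_add_eq]
      have e1 : B' u = ∑ i, (hb.repr h0 i / (lam' - μ i)) • (μ i • hb i) := by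
        rw [hu, map_sum]
        apply Finset.sum_congr rfl
        intro i _
        rw [map_smul]
        congr 1
        exact hb.constr_basis ℂ _ i
      have e2 : h0 = ∑ i, hb.repr h0 i • hb i := (hb.sum_repr h0).symm
      rw [e1]
      conv_lhs => rw [e2]
      rw [hu, Finset.smul_sum, ← Finset.sum_add_distrib]
      apply Finset.sum_congr rfl
      intro i _
      rw [smul_smul, smul_smul, ← add_smul]
      congr 1
      rw [Module.Basis.sum_repr]
      have := hne i
      field_simp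
      ring
    have hvu : φ (v + u) = 1 := by
      rw [map_add, hv, LinearMap.mem_ker.1 u.2, add_zero]
    let b : Module.Basis (Fin (d + 1)) ℂ W := Module.Basis.mkFinCons (v + (u : W)) hb
      (by
        intro c x hx h
        have h1 := congrArg φ h
        rw [map_add, map_smul, hvu, LinearMap.mem_ker.1 hx, map_zero, add_zero, smul_eq_mul,
          mul_one] at h1
        exact h1)
      (by
        intro z
        refine ⟨-φ z, ?_⟩
        rw [LinearMap.mem_ker, map_add, map_smul, hvu, smul_eq_mul, mul_one, add_neg_cancel])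
    have hb0 : b 0 = v + (u : W) := by
      show (Module.Basis.mkFinCons (v + (u : W)) hb _ _) 0 = _
      rw [Module.Basis.coe_mkFinCons]
      rfl
    have hbs : ∀ i : Fin d, b i.succ = (hb i : W) := by
      intro i
      show (Module.Basis.mkFinCons (v + (u : W)) hb _ _) i.succ = _
      rw [Module.Basis.coe_mkFinCons]
      rfl
    refine ⟨b, Fin.cons lam' μ, fun x => ?_⟩
    have hy : x - φ x • v ∈ LinearMap.ker φ := by
      rw [LinearMap.mem_ker, map_sub, map_smul, hv, smul_eq_mul, mul_one, sub_self]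
    obtain ⟨y, hye⟩ : ∃ y : LinearMap.ker φ, (y : W) = x - φ x • v := ⟨⟨_, hy⟩, rfl⟩
    obtain ⟨c, hc⟩ : ∃ c, c = φ x := ⟨_, rfl⟩
    rw [← hc] at hye
    have hx : x = ∑ i : Fin (d + 1), (Fin.cons c (fun i => hb.repr (y - c • u) i) : Fin (d+1) → ℂ) i • b i := by
      rw [Fin.sum_univ_succ]
      simp only [Fin.cons_zero, Fin.cons_succ, hb0, hbs]
      have e1 : ∑ i, hb.repr (y - c • u) i • (hb i : W) = ((y - c • u : LinearMap.ker φ) : W) := by
        conv_rhs => rw [← hb.sum_repr (y - c • u)]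
        rw [Submodule.coe_sum]
        rfl
      rw [e1, Submodule.coe_sub, Submodule.coe_smul, hye, smul_add]
      abel
    have hrepr : ∀ i, b.repr x i = (Fin.cons c (fun i => hb.repr (y - c • u) i) : Fin (d+1) → ℂ) i := by
      intro i
      conv_lhs => rw [hx]
      rw [Module.Basis.repr_sum_self]
    have hsum : ∑ i, ((Fin.cons lam' μ : Fin (d+1) → ℂ) i * b.repr x i) • b i =
        (lam' * c) • (v + (u : W)) + ((B' (y - c • u) : LinearMap.ker φ) : W) := by
      rw [Fin.sum_univ_succ]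
      simp only [hrepr, Fin.cons_zero, Fin.cons_succ, hb0, hbs]
      congr 1
      rw [hB', Submodule.coe_sum]
      rfl
    have hfinal : B x - ((lam' * c) • (v + (u : W)) + ((B' (y - c • u) : LinearMap.ker φ) : W)) =
        (((B.restrict hBH) y - B' y : LinearMap.ker φ) : W) + (c * (lam - lam')) • v := by
      rw [map_sub, map_smul, hB'u, Submodule.coe_sub, Submodule.coe_sub, Submodule.coe_smul,
        Submodule.coe_sub, Submodule.coe_smul, hh0e]
      have e1 : ((B.restrict hBH) y : W) = B x - c • B v := by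
        rw [LinearMap.restrict_coe_apply, hye, map_sub, map_smul]
      rw [e1]
      module
    rw [hsum, hfinal]
    have hn1 : ‖(((B.restrict hBH) y - B' y : LinearMap.ker φ) : W)‖ ≤ ε' * ‖y‖ := by
      have h1 := hμ y
      rw [← hB'] at h1
      exact h1
    have hn2 : ‖y‖ ≤ (1 + K * ‖v‖) * ‖x‖ := by
      have h1 : ‖y‖ = ‖x - c • v‖ := by
        rw [← hye]
        rfl
      rw [h1]
      refine (norm_sub_le _ _).trans ?_
      rw [norm_smul]
      have h2 := hK x
      rw [← hc] at h2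
      have h3 := mul_le_mul_of_nonneg_right h2 (norm_nonneg v)
      linarith
    have hn3 : ‖(c * (lam - lam')) • v‖ ≤ ε / 2 * ‖x‖ := by
      rw [norm_smul, norm_mul]
      have h2 := hK x
      rw [← hc] at h2
      have h3 : ‖lam - lam'‖ ≤ ε' := by
        rw [← dist_eq_norm]
        exact hlam'2.le
      have h4 : ‖c‖ * ‖lam - lam'‖ ≤ (K * ‖x‖) * ε' :=
        mul_le_mul h2 h3 (norm_nonneg _) (by positivity)
      have h5 := mul_le_mul_of_nonneg_right h4 (norm_nonneg v)
      have h6 : K * ‖x‖ * ε' * ‖v‖ ≤ ε / 2 * ‖x‖ := by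
        rw [← hε'1]
        have h7 : 0 ≤ ε' * ‖x‖ := by positivity
        nlinarith
      linarith
    calc ‖(((B.restrict hBH) y - B' y : LinearMap.ker φ) : W) + (c * (lam - lam')) • v‖
        ≤ ‖(((B.restrict hBH) y - B' y : LinearMap.ker φ) : W)‖ + ‖(c * (lam - lam')) • v‖ :=
          norm_add_le _ _
      _ ≤ ε' * ‖y‖ + ε / 2 * ‖x‖ := add_le_add hn1 hn3
      _ ≤ ε' * ((1 + K * ‖v‖) * ‖x‖) + ε / 2 * ‖x‖ := by
          have := mul_le_mul_of_nonneg_left hn2 hε'0.le
          linarith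
      _ = ε * ‖x‖ := by
          rw [← mul_assoc, hε'1]
          ring


/-! ### block -/
/-- TARGET. The diagonalisation of one block. -/
theorem block {E : Type*} [NormedAddCommGroup E] [NormedSpace ℂ E]
    (R U : E →L[ℂ] E) (hR : R * R = R)
    (hf : FiniteDimensional ℂ (LinearMap.range (R : E →ₗ[ℂ] E))) (hUR : U * R = R * U)
    (ε : ℝ) (hε : 0 < ε) :
    ∃ (d : ℕ) (x : Fin d → E) (f : Fin d → E →L[ℂ] ℂ) (μ : Fin d → ℂ),
      (∀ i j, f i (x j) = if i = j then 1 else 0) ∧
      (∀ y, ∑ i, f i y • x i = R y) ∧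
      (∀ y, ‖U (R y) - ∑ i, (μ i * f i y) • x i‖ ≤ ε * ‖y‖) := by
  classical
  set W : Submodule ℂ E := LinearMap.range (R : E →ₗ[ℂ] E) with hW
  have hRR : ∀ y, R (R y) = R y := fun y => by
    have := congrArg (fun T : E →L[ℂ] E => T y) hR
    simpa using this
  have hURy : ∀ y, U (R y) = R (U y) := fun y => by
    have := congrArg (fun T : E →L[ℂ] E => T y) hUR
    simpa using this
  have hRW : ∀ y, R y ∈ W := fun y => ⟨y, rfl⟩
  have hRw : ∀ w : W, R (w : E) = w := by
    rintro ⟨w, ⟨y, rfl⟩⟩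
    exact hRR y
  have hUW : ∀ w ∈ W, (U : E →ₗ[ℂ] E) w ∈ W := by
    rintro _ ⟨y, rfl⟩
    exact ⟨U y, (hURy y).symm⟩
  set B : W →ₗ[ℂ] W := (U : E →ₗ[ℂ] E).restrict hUW with hB
  have hpos : 0 < ε / (‖R‖ + 1) := by positivity
  obtain ⟨b, μ, hb⟩ := diag_approx (Module.finrank ℂ W) W rfl B (ε / (‖R‖ + 1)) hpos
  set R' : E →L[ℂ] W := R.codRestrict W hRW with hR'
  have hR'c : ∀ y, ((R' y : W) : E) = R y := fun y => rfl
  have hR'w : ∀ w : W, R' (w : E) = w := by
    intro w
    apply Subtype.ext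
    rw [hR'c, hRw]
  have hf : ∀ (i : Fin (Module.finrank ℂ W)) (y : E),
      ((LinearMap.toContinuousLinearMap (b.coord i)).comp R') y = b.repr (R' y) i := by
    intro i y
    rfl
  refine ⟨Module.finrank ℂ W, fun i => (b i : E),
    fun i => (LinearMap.toContinuousLinearMap (b.coord i)).comp R', μ, ?_, ?_, ?_⟩
  · intro i j
    rw [hf, hR'w, Module.Basis.repr_self, Finsupp.single_apply]
    by_cases h : i = j
    · subst h; simp
    · rw [if_neg h, if_neg (fun h' => h h'.symm)]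
  · intro y
    have h1 : ∑ i, (b.repr (R' y) i) • b i = R' y := b.sum_repr (R' y)
    have h2 := congrArg (fun w : W => (w : E)) h1
    simp only [Submodule.coe_sum, Submodule.coe_smul] at h2
    rw [hR'c] at h2
    rw [← h2]
    apply Finset.sum_congr rfl
    intro i _
    rw [hf]
  · intro y
    have h1 := hb (R' y)
    have h2 : ((B (R' y) - ∑ i, (μ i * b.repr (R' y) i) • b i : W) : E) =
        U (R y) - ∑ i, (μ i * ((LinearMap.toContinuousLinearMap (b.coord i)).comp R') y) • (b i : E) := by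
      rw [Submodule.coe_sub, Submodule.coe_sum]
      rfl
    rw [← h2]
    have h3 : ‖((B (R' y) - ∑ i, (μ i * b.repr (R' y) i) • b i : W) : E)‖ =
        ‖(B (R' y) - ∑ i, (μ i * b.repr (R' y) i) • b i : W)‖ := rfl
    rw [h3]
    refine le_trans h1 ?_
    have h4 : ‖R' y‖ ≤ ‖R‖ * ‖y‖ := by
      have : ‖R' y‖ = ‖R y‖ := rfl
      rw [this]
      exact R.le_opNorm y
    have h5 : ε / (‖R‖ + 1) * ‖R' y‖ ≤ ε / (‖R‖ + 1) * ((‖R‖ + 1) * ‖y‖) := by
      apply mul_le_mul_of_nonneg_left _ hpos.le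
      have := norm_nonneg y
      nlinarith
    refine le_trans h5 ?_
    rw [← mul_assoc, div_mul_cancel₀ _ (by positivity)]


/-! ### reindex -/
/-- TARGET. Passing from an arbitrary countable index set to the natural numbers. -/
theorem reindex {E : Type*} [NormedAddCommGroup E] [NormedSpace ℂ E]
    (hE : ¬ FiniteDimensional ℂ E) (ι : Type) [Countable ι] (x : ι → E) (f : ι → E →L[ℂ] ℂ)
    (hbi : ∀ i, f i (x i) = 1) (hbi' : ∀ i j, i ≠ j → f i (x j) = 0)
    (htot : ∀ y, (∀ i, f i y = 0) → y = 0)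
    (F : ℕ → Finset ι) (c : ℕ → ι → ℂ)
    (hconv : ∀ y, Tendsto (fun k => ∑ i ∈ F k, (c k i * f i y) • x i) atTop (𝓝 y)) :
    ∃ (x : ℕ → E) (f : ℕ → E →L[ℂ] ℂ),
      (∀ i j, f i (x j) = if i = j then 1 else 0) ∧
      Dense (Submodule.span ℂ (Set.range x) : Set E) ∧
      (∀ y, (∀ n, f n y = 0) → y = 0) ∧
      ∃ lam : ℕ → ℕ → ℂ, (∀ n m, n < m → lam n m = 0) ∧
        ∀ y, Tendsto (fun n => ∑ k ∈ Finset.range (n + 1), (lam n k * f k y) • x k) atTop
          (𝓝 y) := by
  classical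
  have hmemspan : ∀ (k : ℕ) (y : E), ∑ i ∈ F k, (c k i * f i y) • x i ∈ Submodule.span ℂ (Set.range x) := by
    intro k y
    refine Submodule.sum_mem _ (fun i _ => Submodule.smul_mem _ _ (Submodule.subset_span ⟨i, rfl⟩))
  have hinf : Infinite ι := by
    by_contra hcon
    rw [not_infinite_iff_finite] at hcon
    apply hE
    have hfd : FiniteDimensional ℂ (Submodule.span ℂ (Set.range x)) :=
      FiniteDimensional.span_of_finite ℂ (Set.finite_range x)
    have hcl : IsClosed (Submodule.span ℂ (Set.range x) : Set E) :=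
      Submodule.closed_of_finiteDimensional _
    have htop : Submodule.span ℂ (Set.range x) = ⊤ := by
      rw [Submodule.eq_top_iff']
      intro y
      exact hcl.mem_of_tendsto (hconv y) (Eventually.of_forall (fun k => hmemspan k y))
    refine Module.finite_def.2 ?_
    rw [← htop]
    exact Submodule.fg_span (Set.finite_range x)
  obtain ⟨hden⟩ := nonempty_denumerable ι
  obtain ⟨e⟩ : Nonempty (ℕ ≃ ι) := ⟨(Denumerable.eqv ι).symm⟩
  obtain ⟨N, hN⟩ : ∃ N : ℕ → ℕ, N = fun k => (F k).sup e.symm := ⟨_, rfl⟩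
  have hNle : ∀ k, ∀ i ∈ F k, e.symm i ≤ N k := by
    intro k i hi
    rw [hN]
    exact Finset.le_sup (f := e.symm) hi
  obtain ⟨g, hg⟩ : ∃ g : ℕ → ℕ, g = fun n => Nat.findGreatest (fun k => N k ≤ n) n := ⟨_, rfl⟩
  have hgt : Tendsto g atTop atTop := by
    rw [tendsto_atTop]
    intro K
    filter_upwards [eventually_ge_atTop (max K (N K))] with n hn
    rw [hg]
    exact Nat.le_findGreatest ((le_max_left _ _).trans hn) ((le_max_right _ _).trans hn)
  have hgs : ∀ n, N 0 ≤ n → N (g n) ≤ n := by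
    intro n hn
    rw [hg]
    exact Nat.findGreatest_spec (P := fun k => N k ≤ n) (Nat.zero_le n) hn
  refine ⟨fun n => x (e n), fun n => f (e n), ?_, ?_, ?_,
    fun n m => if m ≤ n ∧ e m ∈ F (g n) ∧ N (g n) ≤ n then c (g n) (e m) else 0, ?_, ?_⟩
  · intro i j
    by_cases hij : i = j
    · subst hij
      simp [hbi]
    · rw [if_neg hij]
      exact hbi' _ _ (fun h => hij (e.injective h))
  · have hr : Set.range (fun n => x (e n)) = Set.range x := e.surjective.range_comp x
    rw [hr]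
    intro y
    exact mem_closure_of_tendsto (hconv y) (Eventually.of_forall (fun k => hmemspan k y))
  · intro y hy
    apply htot
    intro i
    have := hy (e.symm i)
    simpa using this
  · intro n m hnm
    apply if_neg
    rintro ⟨h, -⟩
    omega
  · intro y
    refine ((hconv y).comp hgt).congr' ?_
    filter_upwards [eventually_ge_atTop (N 0)] with n hn
    have h1 := hgs n hn
    show ∑ i ∈ F (g n), (c (g n) i * f i y) • x i = _
    have h2 : ∑ i ∈ F (g n), (c (g n) i * f i y) • x i =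
        ∑ k ∈ (Finset.range (n + 1)).filter (fun k => e k ∈ F (g n)),
          (c (g n) (e k) * f (e k) y) • x (e k) := by
      symm
      refine Finset.sum_equiv e ?_ (fun i _ => rfl)
      intro i
      rw [Finset.mem_filter, Finset.mem_range]
      constructor
      · exact fun h => h.2
      · intro h
        have h3 := hNle (g n) (e i) h
        rw [Equiv.symm_apply_apply] at h3
        exact ⟨by omega, h⟩
    rw [h2, Finset.sum_filter]
    apply Finset.sum_congr rfl
    intro k hk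
    rw [Finset.mem_range] at hk
    by_cases h : e k ∈ F (g n)
    · rw [if_pos h, if_pos ⟨by omega, h, h1⟩]
    · rw [if_neg h, if_neg (fun h' => h h'.2.1), zero_mul, zero_smul]


/-! ### assemble -/
section aux
variable {E : Type*} [NormedAddCommGroup E] [NormedSpace ℂ E]

theorem assemble_q {Q : ℕ → E →L[ℂ] E} (h1 : ∀ k, Q k * Q k = Q k)
    (h7 : ∀ k, Q (k + 1) * Q k = Q k) (h8 : ∀ k, Q k * Q (k + 1) = Q k) {j k : ℕ} (h : j ≤ k) :
    Q j * Q k = Q j ∧ Q k * Q j = Q j := by
  induction k, h using Nat.le_induction with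
  | base => exact ⟨h1 j, h1 j⟩
  | succ k _ ih =>
    obtain ⟨a, b⟩ := ih
    constructor
    · calc Q j * Q (k + 1) = (Q j * Q k) * Q (k + 1) := by rw [a]
        _ = Q j * (Q k * Q (k + 1)) := by rw [mul_assoc]
        _ = Q j := by rw [h8, a]
    · calc Q (k + 1) * Q j = Q (k + 1) * (Q k * Q j) := by rw [b]
        _ = (Q (k + 1) * Q k) * Q j := by rw [mul_assoc]
        _ = Q j := by rw [h7, b]

/-- the differences -/
noncomputable def assemble_R (Q : ℕ → E →L[ℂ] E) : ℕ → E →L[ℂ] E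
  | 0 => Q 0
  | (k + 1) => Q (k + 1) - Q k

theorem assemble_lt {Q : ℕ → E →L[ℂ] E} (h1 : ∀ k, Q k * Q k = Q k)
    (h7 : ∀ k, Q (k + 1) * Q k = Q k) (h8 : ∀ k, Q k * Q (k + 1) = Q k) {l k : ℕ} (h : l < k) :
    assemble_R Q k * Q l = 0 ∧ Q l * assemble_R Q k = 0 := by
  cases k with
  | zero => omega
  | succ m =>
    obtain ⟨a, b⟩ := assemble_q h1 h7 h8 (show l ≤ m + 1 by omega)
    obtain ⟨a', b'⟩ := assemble_q h1 h7 h8 (show l ≤ m by omega)
    simp only [assemble_R, sub_mul, mul_sub]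
    rw [a, b, a', b']
    simp

theorem assemble_ge {Q : ℕ → E →L[ℂ] E} (h1 : ∀ k, Q k * Q k = Q k)
    (h7 : ∀ k, Q (k + 1) * Q k = Q k) (h8 : ∀ k, Q k * Q (k + 1) = Q k) {l k : ℕ} (h : k ≤ l) :
    assemble_R Q k * Q l = assemble_R Q k ∧ Q l * assemble_R Q k = assemble_R Q k := by
  cases k with
  | zero => exact assemble_q h1 h7 h8 h
  | succ m =>
    obtain ⟨a, b⟩ := assemble_q h1 h7 h8 (show m + 1 ≤ l by omega)
    obtain ⟨a', b'⟩ := assemble_q h1 h7 h8 (show m ≤ l by omega)
    simp only [assemble_R, sub_mul, mul_sub]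
    rw [a, b, a', b']
    simp

theorem assemble_idem {Q : ℕ → E →L[ℂ] E} (h1 : ∀ k, Q k * Q k = Q k)
    (h7 : ∀ k, Q (k + 1) * Q k = Q k) (h8 : ∀ k, Q k * Q (k + 1) = Q k) (k : ℕ) :
    assemble_R Q k * assemble_R Q k = assemble_R Q k := by
  cases k with
  | zero => exact h1 0
  | succ m =>
    have a := (assemble_ge h1 h7 h8 (le_refl (m + 1))).1
    have b := (assemble_lt h1 h7 h8 (Nat.lt_succ_self m)).1
    calc assemble_R Q (m + 1) * assemble_R Q (m + 1) = assemble_R Q (m + 1) * Q (m + 1) - assemble_R Q (m + 1) * Q m := by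
          rw [← mul_sub]; rfl
      _ = assemble_R Q (m + 1) := by rw [a, b, sub_zero]

theorem assemble_orth {Q : ℕ → E →L[ℂ] E} (h1 : ∀ k, Q k * Q k = Q k)
    (h7 : ∀ k, Q (k + 1) * Q k = Q k) (h8 : ∀ k, Q k * Q (k + 1) = Q k) {k l : ℕ} (h : k ≠ l) :
    assemble_R Q k * assemble_R Q l = 0 := by
  rcases lt_or_gt_of_ne h with h | h
  · -- k < l
    cases k with
    | zero => exact (assemble_lt h1 h7 h8 h).2
    | succ m =>
      have a := (assemble_lt h1 h7 h8 h).2
      have b := (assemble_lt h1 h7 h8 (show m < l by omega)).2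
      calc assemble_R Q (m + 1) * assemble_R Q l = Q (m + 1) * assemble_R Q l - Q m * assemble_R Q l := by
            rw [← sub_mul]; rfl
        _ = 0 := by rw [a, b, sub_zero]
  · cases l with
    | zero => exact (assemble_lt h1 h7 h8 h).1
    | succ m =>
      have a := (assemble_lt h1 h7 h8 h).1
      have b := (assemble_lt h1 h7 h8 (show m < k by omega)).1
      calc assemble_R Q k * assemble_R Q (m + 1) = assemble_R Q k * Q (m + 1) - assemble_R Q k * Q m := by
            rw [← mul_sub]; rfl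
        _ = 0 := by rw [a, b, sub_zero]

theorem assemble_sum (Q : ℕ → E →L[ℂ] E) (k : ℕ) :
    ∑ j ∈ Finset.range (k + 1), assemble_R Q j = Q k := by
  induction k with
  | zero => simp [assemble_R]
  | succ k ih =>
    rw [Finset.sum_range_succ, ih]
    simp [assemble_R]

end aux

/-- TARGET. From the sequences `U` and `Q` to the strongly series summable basis. -/
theorem assemble {E : Type*} [NormedAddCommGroup E] [NormedSpace ℂ E]
    (hE : ¬ FiniteDimensional ℂ E) (U Q : ℕ → E →L[ℂ] E) (h1 : ∀ k, Q k * Q k = Q k)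
    (h2 : ∀ k, FiniteDimensional ℂ (LinearMap.range (Q k : E →ₗ[ℂ] E)))
    (h3 : ∀ k, U k * Q k = U k) (h4 : ∀ k, Q k * U k = U k)
    (h5 : ∀ k, U (k + 1) * Q k = Q k) (h6 : ∀ k, Q k * U (k + 1) = Q k)
    (h7 : ∀ k, Q (k + 1) * Q k = Q k) (h8 : ∀ k, Q k * Q (k + 1) = Q k)
    (h9 : ∀ y, Tendsto (fun n => U n y) atTop (𝓝 y)) :
    ∃ (x : ℕ → E) (f : ℕ → E →L[ℂ] ℂ),
      (∀ i j, f i (x j) = if i = j then 1 else 0) ∧
      Dense (Submodule.span ℂ (Set.range x) : Set E) ∧
      (∀ y, (∀ n, f n y = 0) → y = 0) ∧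
      ∃ lam : ℕ → ℕ → ℂ, (∀ n m, n < m → lam n m = 0) ∧
        ∀ y, Tendsto (fun n => ∑ k ∈ Finset.range (n + 1), (lam n k * f k y) • x k) atTop
          (𝓝 y) := by
  have hfin : ∀ k, FiniteDimensional ℂ (LinearMap.range (assemble_R Q k : E →ₗ[ℂ] E)) := by
    intro k
    haveI := h2 k
    refine Submodule.finiteDimensional_of_le
      (S₂ := LinearMap.range (Q k : E →ₗ[ℂ] E)) ?_
    rintro _ ⟨y, rfl⟩
    refine ⟨assemble_R Q k y, ?_⟩
    have := (assemble_ge h1 h7 h8 (le_refl k)).2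
    exact congrArg (fun T : E →L[ℂ] E => T y) this
  have hcom : ∀ k, U k * assemble_R Q k = assemble_R Q k * U k := by
    intro k
    cases k with
    | zero => exact (h3 0).trans (h4 0).symm
    | succ m =>
      simp only [assemble_R, mul_sub, sub_mul]
      rw [h3, h4, h5, h6]
  have hb := fun k : ℕ => block (assemble_R Q k) (U k) (assemble_idem h1 h7 h8 k) (hfin k) (hcom k)
    (1 / ((k : ℝ) + 1)) (by positivity)
  choose d x f μ hbi hsum hU using hb
  have hRx : ∀ k i, assemble_R Q k (x k i) = x k i := by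
    intro k i
    rw [← hsum]
    simp_rw [hbi]
    rw [Finset.sum_eq_single i]
    · simp
    · intro j _ hj
      simp [hj]
    · simp
  have hfR : ∀ k i y, f k i (assemble_R Q k y) = f k i y := by
    intro k i y
    rw [← hsum, map_sum]
    simp_rw [map_smul, hbi]
    rw [Finset.sum_eq_single i]
    · simp
    · intro j _ hj
      simp [Ne.symm hj]
    · simp
  have hfR0 : ∀ k l i y, k ≠ l → f k i (assemble_R Q l y) = 0 := by
    intro k l i y h
    rw [← hfR k i]
    have h0 := congrArg (fun T : E →L[ℂ] E => T y) (assemble_orth h1 h7 h8 h)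
    have h0' : assemble_R Q k (assemble_R Q l y) = 0 := h0
    rw [h0', map_zero]
  refine reindex hE (Σ k, Fin (d k)) (fun p => x p.1 p.2) (fun p => f p.1 p.2) ?_ ?_ ?_
    (fun k => (Finset.range (k + 1)).sigma (fun _ => Finset.univ))
    (fun k p => if p.1 < k then 1 else μ p.1 p.2) ?_
  · rintro ⟨k, i⟩
    simp [hbi]
  · rintro ⟨k, i⟩ ⟨l, j⟩ h
    simp only
    by_cases hkl : k = l
    · subst hkl
      rw [hbi, if_neg]
      intro hij
      exact h (by rw [hij])
    · rw [← hRx l j]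
      exact hfR0 k l i _ hkl
  · intro y hy
    have e1 : ∀ k, assemble_R Q k y = 0 := by
      intro k
      rw [← hsum]
      refine Finset.sum_eq_zero fun i _ => ?_
      have : f k i y = 0 := hy ⟨k, i⟩
      rw [this, zero_smul]
    have e2 : ∀ k, Q k y = 0 := by
      intro k
      rw [← assemble_sum Q k, ContinuousLinearMap.sum_apply]
      exact Finset.sum_eq_zero fun j _ => e1 j
    have e3 : ∀ k, U k y = 0 := by
      intro k
      rw [← h3 k]
      change U k (Q k y) = 0
      rw [e2, map_zero]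
    have e4 := h9 y
    simp_rw [e3] at e4
    exact tendsto_nhds_unique e4 tendsto_const_nhds
  · intro y
    have key : ∀ k : ℕ, ‖U k y - ∑ p ∈ (Finset.range (k + 1)).sigma (fun j => (Finset.univ : Finset (Fin (d j)))),
        ((if p.1 < k then 1 else μ p.1 p.2) * f p.1 p.2 y) • x p.1 p.2‖ ≤ 1 / ((k : ℝ) + 1) * ‖y‖ := by
      intro k
      rw [Finset.sum_sigma, Finset.sum_range_succ]
      have s1 : ∑ j ∈ Finset.range k, ∑ i : Fin (d j),
          ((if (⟨j, i⟩ : Σ k, Fin (d k)).1 < k then 1 else μ (⟨j, i⟩ : Σ k, Fin (d k)).1 (⟨j, i⟩ : Σ k, Fin (d k)).2)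
            * f (⟨j, i⟩ : Σ k, Fin (d k)).1 (⟨j, i⟩ : Σ k, Fin (d k)).2 y) • x (⟨j, i⟩ : Σ k, Fin (d k)).1 (⟨j, i⟩ : Σ k, Fin (d k)).2 =
          ∑ j ∈ Finset.range k, assemble_R Q j y := by
        refine Finset.sum_congr rfl fun j hj => ?_
        rw [Finset.mem_range] at hj
        rw [← hsum]
        refine Finset.sum_congr rfl fun i _ => ?_
        simp [hj]
      have s2 : ∑ i : Fin (d k),
          ((if (⟨k, i⟩ : Σ k, Fin (d k)).1 < k then 1 else μ (⟨k, i⟩ : Σ k, Fin (d k)).1 (⟨k, i⟩ : Σ k, Fin (d k)).2)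
            * f (⟨k, i⟩ : Σ k, Fin (d k)).1 (⟨k, i⟩ : Σ k, Fin (d k)).2 y) • x (⟨k, i⟩ : Σ k, Fin (d k)).1 (⟨k, i⟩ : Σ k, Fin (d k)).2 =
          ∑ i, (μ k i * f k i y) • x k i := by
        refine Finset.sum_congr rfl fun i _ => ?_
        simp
      rw [s1, s2]
      have u1 : U k y = U k (∑ j ∈ Finset.range k, assemble_R Q j y) + U k (assemble_R Q k y) := by
        rw [← map_add, ← Finset.sum_range_succ, ← ContinuousLinearMap.sum_apply, assemble_sum]
        exact (congrArg (fun T : E →L[ℂ] E => T y) (h3 k)).symm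
      have u2 : U k (∑ j ∈ Finset.range k, assemble_R Q j y) = ∑ j ∈ Finset.range k, assemble_R Q j y := by
        cases k with
        | zero => simp
        | succ m =>
          rw [← ContinuousLinearMap.sum_apply, assemble_sum]
          exact congrArg (fun T : E →L[ℂ] E => T y) (h5 m)
      rw [u1, u2]
      have u3 := hU k y
      rw [add_sub_add_left_eq_sub]
      exact u3
    refine tendsto_of_tendsto_of_dist (h9 y) ?_
    refine squeeze_zero (fun _ => dist_nonneg) (fun k => ?_)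
      (show Tendsto (fun k : ℕ => 1 / ((k : ℝ) + 1) * ‖y‖) atTop (𝓝 0) from ?_)
    · rw [dist_eq_norm]
      exact key k
    · have := tendsto_one_div_add_atTop_nhds_zero_nat (𝕜 := ℝ)
      simpa using this.mul_const ‖y‖


/-! ### converse -/
/-- TARGET. A strongly series summable M-basis gives a commuting approximating sequence. -/
theorem converse {E : Type*} [NormedAddCommGroup E] [NormedSpace ℂ E] [CompleteSpace E]
    (x : ℕ → E) (f : ℕ → E →L[ℂ] ℂ) (hbi : ∀ i j, f i (x j) = if i = j then 1 else 0)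
    (lam : ℕ → ℕ → ℂ)
    (hl : ∀ y, Tendsto (fun n => ∑ k ∈ Finset.range (n + 1), (lam n k * f k y) • x k) atTop
          (𝓝 y)) :
    ∃ (C : ℝ) (T : ℕ → E →L[ℂ] E),
      (∀ n, FiniteDimensional ℂ (LinearMap.range (T n : E →ₗ[ℂ] E))) ∧ (∀ n, ‖T n‖ ≤ C) ∧
      (∀ m n, T m * T n = T n * T m) ∧ ∀ y, Tendsto (fun n => T n y) atTop (𝓝 y) := by
  obtain ⟨T, hT⟩ : ∃ T : ℕ → E →L[ℂ] E, T = fun n => ∑ k ∈ Finset.range (n + 1),
      (lam n k) • (f k).smulRight (x k) := ⟨_, rfl⟩
  have hTy : ∀ n y, T n y = ∑ k ∈ Finset.range (n + 1), (lam n k * f k y) • x k := by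
    intro n y
    rw [hT]
    simp only [ContinuousLinearMap.sum_apply, ContinuousLinearMap.smul_apply,
      ContinuousLinearMap.smulRight_apply, smul_smul]
  have hft : ∀ n k y, f k (T n y) =
      if k ∈ Finset.range (n + 1) then lam n k * f k y else 0 := by
    intro n k y
    rw [hTy, map_sum]
    simp only [map_smul, smul_eq_mul, hbi, mul_ite, mul_one, mul_zero]
    rw [Finset.sum_ite_eq]
  have hTT : ∀ m n y, T m (T n y) = ∑ k ∈ Finset.range (m + 1) ∩ Finset.range (n + 1),
      (lam m k * (lam n k * f k y)) • x k := by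
    intro m n y
    rw [hTy, ← Finset.sum_ite_mem]
    apply Finset.sum_congr rfl
    intro k _
    rw [hft]
    split_ifs
    · rfl
    · rw [mul_zero, zero_smul]
  have hlim : ∀ y, Tendsto (fun n => T n y) atTop (𝓝 y) := by
    intro y
    simp only [hTy]
    exact hl y
  obtain ⟨C, hC⟩ := banach_steinhaus (g := T) (fun y => by
    obtain ⟨c, hc⟩ := (hlim y).norm.bddAbove_range
    exact ⟨c, fun n => hc ⟨n, rfl⟩⟩)
  refine ⟨C, T, ?_, hC, ?_, hlim⟩
  · intro n
    have hle : LinearMap.range (T n : E →ₗ[ℂ] E) ≤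
        Submodule.span ℂ (x '' (Finset.range (n + 1) : Set ℕ)) := by
      rintro _ ⟨y, rfl⟩
      show T n y ∈ _
      rw [hTy]
      apply Submodule.sum_mem
      intro k hk
      exact Submodule.smul_mem _ _ (Submodule.subset_span ⟨k, hk, rfl⟩)
    haveI : FiniteDimensional ℂ (Submodule.span ℂ (x '' (Finset.range (n + 1) : Set ℕ))) :=
      FiniteDimensional.span_of_finite ℂ ((Finset.finite_toSet _).image x)
    exact Submodule.finiteDimensional_of_le hle
  · intro m n
    ext y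
    show T m (T n y) = T n (T m y)
    rw [hTT, hTT, Finset.inter_comm]
    apply Finset.sum_congr rfl
    intro k _
    congr 1
    ring

end Pool.Agent.Helper597.SSS
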