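import Mathlib

set_option autoImplicit false

open Cardinal

namespace Pool.Agent.Helper597.SupportSets


/-! ### card_sep -/
theorem card_sep_aux (Y : Type*) [TopologicalSpace Y] [T0Space Y] [SecondCountableTopology Y] :
    #Y ≤ 𝔠 := by
  obtain ⟨b, hbc, _, hb⟩ := TopologicalSpace.exists_countable_basis Y
  have hinj : Function.Injective (fun x : Y => {U : b | x ∈ U.1}) := by
    intro x y hxy
    have h : Inseparable x y := by
      rw [hb.inseparable_iff]
      intro U hU
      have := Set.ext_iff.1 hxy ⟨U, hU⟩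
      exact this
    exact h.eq
  have h1 := Cardinal.mk_le_of_injective hinj
  rw [Cardinal.mk_set] at h1
  refine h1.trans ?_
  rw [← Cardinal.two_power_aleph0]
  exact Cardinal.power_le_power_left two_ne_zero (Cardinal.le_aleph0_iff_set_countable.2 hbc)

/-- TARGET. A separable metric subspace has at most continuum many points. -/
theorem card_sep {X : Type*} [NormedAddCommGroup X] [NormedSpace ℝ X] (A : Set X)
    (hA : A.Countable) :
    #(closure (Submodule.span ℝ A : Set X)) ≤ 𝔠 := by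
  have hs : TopologicalSpace.IsSeparable (closure (Submodule.span ℝ A : Set X)) :=
    (hA.isSeparable.span).closure
  have : TopologicalSpace.SeparableSpace (closure (Submodule.span ℝ A : Set X)) :=
    hs.separableSpace
  have : SecondCountableTopology (closure (Submodule.span ℝ A : Set X)) :=
    UniformSpace.secondCountable_of_separable _
  exact card_sep_aux _


/-! ### extend -/
theorem extend_arrow : #(ℕ → ℝ) = 𝔠 := by
  rw [Cardinal.mk_arrow, Cardinal.mk_real, Cardinal.mk_nat, Cardinal.lift_continuum,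
    Cardinal.lift_aleph0, Cardinal.continuum_power_aleph0]

/-- TARGET. If `X` has more than continuum many points, then for countably many functionals and countably
many points there is a common zero of the functionals outside of the closed span of the points. -/
theorem extend {X : Type*} [NormedAddCommGroup X] [NormedSpace ℝ X] (hX : 𝔠 < #X)
    (A : Set X) (hA : A.Countable) (F : Set (X →L[ℝ] ℝ)) (hF : F.Countable) :
    ∃ x, (∀ f ∈ F, f x = 0) ∧ x ∉ closure (Submodule.span ℝ A : Set X) := by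
  by_contra hno
  push Not at hno
  have hK := card_sep A hA
  set K := closure (Submodule.span ℝ A : Set X) with hKdef
  rcases F.eq_empty_or_nonempty with hF0 | hF0
  · have hall : ∀ x : X, x ∈ K := fun x => hno x (fun f hf => by
      rw [hF0] at hf
      exact absurd hf (Set.notMem_empty f))
    have h1 : #X ≤ #K := Cardinal.mk_le_of_injective (f := fun x => (⟨x, hall x⟩ : K))
      (fun x y h => congrArg Subtype.val h)
    exact absurd (h1.trans hK) (not_le.2 hX)
  · obtain ⟨φ, hφ⟩ := hF.exists_eq_range hF0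
    set ev : X → (ℕ → ℝ) := fun x n => φ n x with hev
    have hrep : ∀ x, ev (Function.invFun ev (ev x)) = ev x := fun x =>
      Function.invFun_eq ⟨x, rfl⟩
    have hmem : ∀ x, x - Function.invFun ev (ev x) ∈ K := by
      intro x
      refine hno _ (fun f hf => ?_)
      rw [hφ] at hf
      obtain ⟨n, rfl⟩ := hf
      have h1 : φ n (Function.invFun ev (ev x)) = φ n x := congrFun (hrep x) n
      rw [map_sub, h1, sub_self]
    have hinj : Function.Injective
        (fun x : X => ((⟨x - Function.invFun ev (ev x), hmem x⟩ : K), ev x)) := by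
      intro x y h
      have h1 : x - Function.invFun ev (ev x) = y - Function.invFun ev (ev y) :=
        congrArg (fun p : K × (ℕ → ℝ) => (p.1 : X)) h
      have h2 : ev x = ev y := congrArg (fun p : K × (ℕ → ℝ) => p.2) h
      rw [h2] at h1
      exact sub_left_inj.1 h1
    have h1 := Cardinal.mk_le_of_injective hinj
    rw [Cardinal.mk_prod, extend_arrow, Cardinal.lift_continuum, Cardinal.lift_id'] at h1
    have h2 : #K * 𝔠 ≤ 𝔠 := by
      calc #K * 𝔠 ≤ 𝔠 * 𝔠 := mul_le_mul_left hK 𝔠
        _ = 𝔠 := Cardinal.continuum_mul_self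
    exact absurd (h1.trans h2) (not_le.2 hX)


/-! ### exists_biorth -/
theorem exists_biorth_sep {X : Type*} [NormedAddCommGroup X] [NormedSpace ℝ X] (A : Set X) (x : X)
    (hx : x ∉ closure (Submodule.span ℝ A : Set X)) :
    ∃ g : X →L[ℝ] ℝ, (∀ a ∈ A, g a = 0) ∧ g x = 1 := by
  have hconv : Convex ℝ (closure (Submodule.span ℝ A : Set X)) :=
    (Submodule.span ℝ A).convex.closure
  obtain ⟨f, u, h1, h2⟩ := geometric_hahn_banach_closed_point hconv isClosed_closure hx
  have h0 : 0 < u := by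
    have := h1 0 (subset_closure (Submodule.zero_mem _))
    rwa [map_zero] at this
  have hfx : f x ≠ 0 := (h0.trans h2).ne'
  have hz : ∀ a ∈ A, f a = 0 := by
    intro a ha
    by_contra hne
    have h3 := h1 ((u / f a) • a) (subset_closure (Submodule.smul_mem _ _
      (Submodule.subset_span ha)))
    rw [map_smul, smul_eq_mul, div_mul_cancel₀ _ hne] at h3
    exact lt_irrefl _ h3
  refine ⟨(f x)⁻¹ • f, fun a ha => ?_, ?_⟩
  · show (f x)⁻¹ * f a = 0
    rw [hz a ha, mul_zero]
  · show (f x)⁻¹ * f x = 1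
    exact inv_mul_cancel₀ hfx

/-- TARGET. If `X` has more than continuum many points, then it has an uncountable biorthogonal system. -/
theorem exists_biorth {X : Type*} [NormedAddCommGroup X] [NormedSpace ℝ X] (hX : 𝔠 < #X) :
    ∃ B : Set (X × (X →L[ℝ] ℝ)), ¬ B.Countable ∧ (∀ p ∈ B, p.2 p.1 = 1) ∧
      ∀ p ∈ B, ∀ q ∈ B, p ≠ q → p.2 q.1 = 0 := by
  obtain ⟨B, hB⟩ := zorn_subset {B : Set (X × (X →L[ℝ] ℝ)) | (∀ p ∈ B, p.2 p.1 = 1) ∧
      ∀ p ∈ B, ∀ q ∈ B, p ≠ q → p.2 q.1 = 0} (by
    intro c hc hchain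
    refine ⟨⋃₀ c, ⟨?_, ?_⟩, fun s hs => Set.subset_sUnion_of_mem hs⟩
    · rintro p ⟨s, hs, hp⟩
      exact (hc hs).1 p hp
    · rintro p ⟨s, hs, hp⟩ q ⟨t, ht, hq⟩ hpq
      rcases hchain.total hs ht with h | h
      · exact (hc ht).2 p (h hp) q hq hpq
      · exact (hc hs).2 p hp q (h hq) hpq)
  refine ⟨B, fun hcount => ?_, hB.prop.1, hB.prop.2⟩
  obtain ⟨x, hx1, hx2⟩ := extend hX (Prod.fst '' B) (hcount.image _) (Prod.snd '' B)
    (hcount.image _)
  obtain ⟨g, hg1, hg2⟩ := exists_biorth_sep _ x hx2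
  have hnew : insert (x, g) B ∈ {B : Set (X × (X →L[ℝ] ℝ)) | (∀ p ∈ B, p.2 p.1 = 1) ∧
      ∀ p ∈ B, ∀ q ∈ B, p ≠ q → p.2 q.1 = 0} := by
    refine ⟨?_, ?_⟩
    · intro p hp
      rcases Set.mem_insert_iff.1 hp with rfl | hp
      · exact hg2
      · exact hB.prop.1 p hp
    · intro p hp q hq hpq
      rcases Set.mem_insert_iff.1 hp with rfl | hp
      · rcases Set.mem_insert_iff.1 hq with rfl | hq
        · exact absurd rfl hpq
        · exact hg1 q.1 ⟨q, hq, rfl⟩
      · rcases Set.mem_insert_iff.1 hq with rfl | hq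
        · exact hx1 p.2 ⟨p, hp, rfl⟩
        · exact hB.prop.2 p hp q hq hpq
  have hmem : (x, g) ∈ B := hB.le_of_ge hnew (Set.subset_insert _ _) (Set.mem_insert _ _)
  have := hx1 g ⟨(x, g), hmem, rfl⟩
  rw [hg2] at this
  exact one_ne_zero this


/-! ### support_of_biorth -/
theorem support_of_biorth_fin {X : Type*} [NormedAddCommGroup X] [NormedSpace ℝ X]
    (B : Set (X × (X →L[ℝ] ℝ)))
    (h2 : ∀ p ∈ B, ∀ q ∈ B, p ≠ q → p.2 q.1 = 0) (y : X)
    (hy : y ∈ Submodule.span ℝ (Prod.fst '' B)) : {q | q ∈ B ∧ q.2 y ≠ 0}.Finite := by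
  induction hy using Submodule.span_induction with
  | mem x hx =>
    obtain ⟨p, hp, rfl⟩ := hx
    apply (Set.finite_singleton p).subset
    rintro q ⟨hq, hqp⟩
    by_contra hne
    exact hqp (h2 q hq p hp hne)
  | zero => simp
  | add a b _ _ ha hb =>
    apply (ha.union hb).subset
    rintro q ⟨hq, hqp⟩
    rw [map_add] at hqp
    by_contra hcon
    simp only [Set.mem_union, Set.mem_ofPred_eq, not_or, not_and, not_not] at hcon
    rw [hcon.1 hq, hcon.2 hq] at hqp
    simp at hqp
  | smul c a _ ha =>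
    apply ha.subset
    rintro q ⟨hq, hqp⟩
    rw [map_smul] at hqp
    exact ⟨hq, fun h => hqp (by rw [h, smul_zero])⟩

/-- TARGET. An uncountable biorthogonal system gives a support set. -/
theorem support_of_biorth {X : Type*} [NormedAddCommGroup X] [NormedSpace ℝ X]
    (B : Set (X × (X →L[ℝ] ℝ))) (hB : ¬ B.Countable) (h1 : ∀ p ∈ B, p.2 p.1 = 1)
    (h2 : ∀ p ∈ B, ∀ q ∈ B, p ≠ q → p.2 q.1 = 0) :
    ∃ C : Set X, IsClosed C ∧ Convex ℝ C ∧ C.Nonempty ∧
      ∀ x ∈ C, ∃ f : X →L[ℝ] ℝ, (∀ y ∈ C, f x ≤ f y) ∧ ∃ y ∈ C, f x < f y := by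
  have hne : B.Nonempty := by
    rw [Set.nonempty_iff_ne_empty]
    rintro rfl
    exact hB Set.countable_empty
  refine ⟨closure (convexHull ℝ (Prod.fst '' B)), isClosed_closure,
    (convex_convexHull ℝ _).closure, ?_, ?_⟩
  · obtain ⟨p, hp⟩ := hne
    exact ⟨p.1, subset_closure (subset_convexHull ℝ _ ⟨p, hp, rfl⟩)⟩
  · intro x hx
    have hnn : ∀ p ∈ B, ∀ y ∈ closure (convexHull ℝ (Prod.fst '' B)), 0 ≤ p.2 y := by
      intro p hp
      have hcl : IsClosed {y : X | 0 ≤ p.2 y} := isClosed_le continuous_const p.2.continuous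
      have hconv : Convex ℝ {y : X | 0 ≤ p.2 y} :=
        convex_halfSpace_ge (p.2 : X →ₗ[ℝ] ℝ).isLinear 0
      have hsub : convexHull ℝ (Prod.fst '' B) ⊆ {y : X | 0 ≤ p.2 y} := by
        apply convexHull_min _ hconv
        rintro _ ⟨q, hq, rfl⟩
        show 0 ≤ p.2 q.1
        by_cases hpq : p = q
        · subst hpq; rw [h1 p hp]; exact zero_le_one
        · rw [h2 p hp q hq hpq]
      exact fun y hy => closure_minimal hsub hcl hy
    have hcount : {q | q ∈ B ∧ q.2 x ≠ 0}.Countable := by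
      obtain ⟨s, hs, hlim⟩ := mem_closure_iff_seq_limit.1 hx
      have hsp : ∀ n, s n ∈ Submodule.span ℝ (Prod.fst '' B) := fun n =>
        convexHull_min Submodule.subset_span (Submodule.span ℝ (Prod.fst '' B)).convex (hs n)
      have hc : (⋃ n, {q | q ∈ B ∧ q.2 (s n) ≠ 0}).Countable :=
        Set.countable_iUnion fun n => (support_of_biorth_fin B h2 _ (hsp n)).countable
      apply hc.mono
      rintro q ⟨hq, hqx⟩
      rw [Set.mem_iUnion]
      have h3 : Filter.Tendsto (fun n => q.2 (s n)) Filter.atTop (nhds (q.2 x)) :=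
        (q.2.continuous.tendsto x).comp hlim
      obtain ⟨n, hn⟩ := (h3.eventually_ne hqx).exists
      exact ⟨n, hq, hn⟩
    have hex : ∃ p ∈ B, p.2 x = 0 := by
      by_contra hcon
      push Not at hcon
      apply hB
      apply hcount.mono
      intro q hq
      exact ⟨hq, hcon q hq⟩
    obtain ⟨p, hp, hpx⟩ := hex
    have hpC : p.1 ∈ closure (convexHull ℝ (Prod.fst '' B)) :=
      subset_closure (subset_convexHull ℝ _ ⟨p, hp, rfl⟩)
    refine ⟨p.2, fun y hy => ?_, p.1, hpC, ?_⟩
    · rw [hpx]; exact hnn p hp y hy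
    · rw [hpx, h1 p hp]; exact zero_lt_one

end Pool.Agent.Helper597.SupportSets
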